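import Pool.Agent.Lib.MP_751085_ag.ZC.L.Need

/-! Galois action on the coefficients of power series. -/

namespace Pool.Agent.ZCy

open scoped Classical WithZero Polynomial
open groupCohomology

set_option linter.unusedSectionVars false

variable {M M' τ : Type} [Field M] [Field M']

theorem ps_map_inj (φ : M →+* M') :
    Function.Injective (MvPowerSeries.map φ : MvPowerSeries τ M →+* MvPowerSeries τ M') :=
  fun a b h => MvPowerSeries.ext fun d => φ.injective (by
    rw [← MvPowerSeries.coeff_map, ← MvPowerSeries.coeff_map, h])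

theorem ps_lift (φ : M →+* M') : ∃ T : Fr (MvPowerSeries τ M) →+* Fr (MvPowerSeries τ M'),
    ∀ y : MvPowerSeries τ M, T (algebraMap _ _ y) =
      algebraMap (MvPowerSeries τ M') _ (MvPowerSeries.map φ y) := by
  have h : Function.Injective ((algebraMap (MvPowerSeries τ M') (Fr (MvPowerSeries τ M'))).comp
      (MvPowerSeries.map φ : MvPowerSeries τ M →+* MvPowerSeries τ M')) :=
    (IsFractionRing.injective _ _).comp (ps_map_inj φ)
  exact ⟨IsFractionRing.lift h, fun y => IsFractionRing.lift_algebraMap h y⟩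

/-- `Gal(M'/M)` is the Galois group of `Fr M'⟦t⟧` over `Fr M⟦t⟧`. Invariants: multiply numerator
and denominator by the other conjugates of the denominator. -/
theorem ps_gal (M M' τ : Type) [Field M] [Field M'] [Algebra M M'] [FiniteDimensional M M']
    [IsGalois M M'] : ∃ (_ : Algebra (Fr (MvPowerSeries τ M)) (Fr (MvPowerSeries τ M')))
      (_ : MulSemiringAction (M' ≃ₐ[M] M') (Fr (MvPowerSeries τ M'))),
      IsGaloisGroup (M' ≃ₐ[M] M') (Fr (MvPowerSeries τ M)) (Fr (MvPowerSeries τ M')) ∧
      (∀ y : MvPowerSeries τ M, algebraMap (Fr (MvPowerSeries τ M)) (Fr (MvPowerSeries τ M'))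
        (algebraMap _ _ y) = algebraMap _ _ (MvPowerSeries.map (algebraMap M M') y)) ∧
      ∀ (s : M' ≃ₐ[M] M') (y : MvPowerSeries τ M'),
        s • algebraMap _ (Fr (MvPowerSeries τ M')) y =
          algebraMap _ _ (MvPowerSeries.map (s : M' →+* M') y) := by
  let act : MulSemiringAction (M' ≃ₐ[M] M') (MvPowerSeries τ M') :=
    { smul := fun s y => MvPowerSeries.map (s : M' →+* M') y
      one_smul := fun y => MvPowerSeries.ext fun _ => rfl
      mul_smul := fun _ _ y => MvPowerSeries.ext fun _ => rfl
      smul_zero := fun s => map_zero (MvPowerSeries.map (s : M' →+* M'))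
      smul_add := fun s => map_add (MvPowerSeries.map (s : M' →+* M'))
      smul_one := fun s => map_one (MvPowerSeries.map (s : M' →+* M'))
      smul_mul := fun s => map_mul (MvPowerSeries.map (s : M' →+* M')) }
  have hs : ∀ (s : M' ≃ₐ[M] M') (y : MvPowerSeries τ M'),
      s • y = MvPowerSeries.map (s : M' →+* M') y := fun _ _ => rfl
  have hG : IsGaloisGroup (M' ≃ₐ[M] M') (MvPowerSeries τ M) (MvPowerSeries τ M') := by
    refine ⟨⟨fun {s s'} h => AlgEquiv.ext fun x => ?_⟩, ⟨fun s a y => ?_⟩, ⟨fun y h => ?_⟩⟩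
    · have := h (MvPowerSeries.C x)
      rw [hs, hs, MvPowerSeries.map_C, MvPowerSeries.map_C] at this
      exact MvPowerSeries.C_injective this
    · rw [Algebra.smul_def, Algebra.smul_def, smul_mul']
      congr 1
      exact MvPowerSeries.ext fun d => s.commutes (MvPowerSeries.coeff d a)
    · have : ∀ d, ∃ a : M, algebraMap M M' a = MvPowerSeries.coeff d y := fun d =>
        (IsGaloisGroup.of_isGalois M M').isInvariant.isInvariant _ fun s =>
          congrArg (MvPowerSeries.coeff d) (h s)
      choose a ha using this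
      exact ⟨a, MvPowerSeries.ext ha⟩
  have : IsDomain (MvPowerSeries τ M) := NoZeroDivisors.to_isDomain _
  have : IsDomain (MvPowerSeries τ M') := NoZeroDivisors.to_isDomain _
  obtain ⟨T, hT⟩ := ps_lift (τ := τ) (algebraMap M M')
  let alg : Algebra (Fr (MvPowerSeries τ M)) (Fr (MvPowerSeries τ M')) := T.toAlgebra
  have : IsScalarTower (MvPowerSeries τ M) (Fr (MvPowerSeries τ M)) (Fr (MvPowerSeries τ M')) :=
    IsScalarTower.of_algebraMap_eq fun y => (hT y).symm
  refine ⟨alg, IsFractionRing.mulSemiringAction (M' ≃ₐ[M] M') (MvPowerSeries τ M') _,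
    IsGaloisGroup.toFractionRing _ _ _, hT, fun s y => ?_⟩
  exact IsFractionRing.ringEquivOfRingEquiv_algebraMap _ y

/-- roots of unity are constants -/
theorem ps_root [Finite τ] [CharZero M] {m : ℕ} (hm : m ≠ 0) {y : MvPowerSeries τ M}
    (h : y ^ m = 1) : y = MvPowerSeries.C (MvPowerSeries.constantCoeff y) := by
  set c := MvPowerSeries.constantCoeff y with hc
  have h1 : c ^ m = 1 := by rw [hc, ← map_pow, h, map_one]
  have h0 : c ≠ 0 := fun e => by
    rw [e, zero_pow hm] at h1
    exact zero_ne_one h1
  have h2 := (Commute.all y (MvPowerSeries.C c)).geom_sum₂_mul m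
  rw [h, ← map_pow, h1, map_one, sub_self, mul_eq_zero] at h2
  refine sub_eq_zero.1 (h2.resolve_left fun e => ?_)
  have h3 := congrArg MvPowerSeries.constantCoeff e
  simp only [map_sum, map_mul, map_pow, MvPowerSeries.constantCoeff_C, ← hc, map_zero,
    geom_sum₂_self] at h3
  exact mul_ne_zero (Nat.cast_ne_zero.2 hm) (pow_ne_zero _ h0) h3

theorem tay_inj {k ι : Type} [Field k] (φ : k →+* M) (a : ι → M) :
    Function.Injective (tay φ a) := by
  let sh : (ι → M) → MP ι M →+* MP ι M := fun b =>
    MvPolynomial.eval₂Hom MvPolynomial.C fun i => MvPolynomial.C (b i) + MvPolynomial.X i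
  have h1 : (sh (-a)).comp (sh a) = RingHom.id _ := by
    refine MvPolynomial.ringHom_ext (fun r => ?_) fun i => ?_ <;> simp [sh]
  have h2 : Function.Injective (sh a) :=
    Function.LeftInverse.injective (g := sh (-a)) fun p => RingHom.congr_fun h1 p
  have h3 : tay φ a = (MvPolynomial.coeToMvPowerSeries.ringHom.comp (sh a)).comp
      (MvPolynomial.map φ) := by
    refine MvPolynomial.ringHom_ext (fun r => ?_) fun i => ?_ <;> simp [sh, tay]
  rw [h3]
  exact ((MvPolynomial.coe_injective ι M).comp h2).comp (MvPolynomial.map_injective φ φ.injective)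

theorem tay_cc {A B ι : Type} [CommRing A] [CommRing B] (φ : A →+* B) (a : ι → B) (p : MP ι A) :
    MvPowerSeries.constantCoeff (tay φ a p) = MvPolynomial.eval₂ φ a p := by
  have h : MvPowerSeries.constantCoeff.comp (tay φ a) = MvPolynomial.eval₂Hom φ a := by
    refine MvPolynomial.ringHom_ext (fun r => ?_) fun i => ?_ <;> simp [tay]
  exact RingHom.congr_fun h p

/-- substitution of series without constant term (`MvPowerSeries.substAlgHom`); it commutes with
the maps on coefficients that fix the substituted series -/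
theorem ps_subst {ι : Type} [Finite ι] (u : ι → MvPowerSeries τ M)
    (hu : ∀ i, MvPowerSeries.constantCoeff (u i) = 0) :
    ∃ S : MvPowerSeries ι M →+* MvPowerSeries τ M, (∀ a, S (MvPowerSeries.C a) = MvPowerSeries.C a) ∧
      (∀ i, S (MvPowerSeries.X i) = u i) ∧
      (∀ y, MvPowerSeries.constantCoeff (S y) = MvPowerSeries.constantCoeff y) ∧
      ∀ s : M →+* M, (∀ i, MvPowerSeries.map s (u i) = u i) →
        ∀ y, S (MvPowerSeries.map s y) = MvPowerSeries.map s (S y) := by
  have ha : MvPowerSeries.HasSubst u := MvPowerSeries.hasSubst_of_constantCoeff_zero hu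
  let S : MvPowerSeries ι M →+* MvPowerSeries τ M := (MvPowerSeries.substAlgHom (R := M) ha : _)
  have hS : ∀ y, S y = MvPowerSeries.subst u y := fun y => MvPowerSeries.substAlgHom_apply ha y
  have hC : ∀ a, S (MvPowerSeries.C a) = MvPowerSeries.C a := fun a => by
    rw [hS, MvPowerSeries.subst_C]
  refine ⟨S, hC, fun i => by rw [hS, MvPowerSeries.subst_X ha], fun y => ?_, fun s h y => ?_⟩
  · have h1 := MvPowerSeries.constantCoeff_subst_eq_zero ha hu
      (f := y - MvPowerSeries.C (MvPowerSeries.constantCoeff y)) (by simp)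
    rw [← hS, map_sub, hC, map_sub, MvPowerSeries.constantCoeff_C] at h1
    exact sub_eq_zero.1 h1
  · rw [hS, hS, MvPowerSeries.map_subst ha, funext h]

end Pool.Agent.ZCy
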