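import Pool.Agent.Lib.MP_751085_ag.ZC.L.Fld
import Pool.Agent.Lib.MP_751085_ag.ZC.L.Ps

/-! Germs in the coordinates of a chart. -/

namespace Pool.Agent.ZCy

open scoped Classical WithZero Polynomial
open groupCohomology

set_option linter.unusedSectionVars false

variable {k : Type} [Field k] {X : Var k} {K σ : Type} [Field K] [Algebra k K]
  {M τ : Type} [Field M] [Algebra k M] [Finite τ]

theorem cg_smul {R S ι : Type} [CommRing R] [CommRing S] {G : MP ι R} {d : ℕ}
    (hG : G.IsHomogeneous d) (φ : R →+* S) (u : S) (x : ι → S) :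
    MvPolynomial.eval₂ φ (fun i => u * x i) G = u ^ d * MvPolynomial.eval₂ φ x G := by
  rw [MvPolynomial.eval₂_eq, MvPolynomial.eval₂_eq, Finset.mul_sum]
  refine Finset.sum_congr rfl fun m hm => ?_
  have h1 : ∑ i ∈ m.support, m i = d := by
    have := hG (MvPolynomial.mem_support_iff.1 hm)
    rw [← this, Finsupp.weight_apply, Finsupp.sum]; simp
  simp only [mul_pow, Finset.prod_mul_distrib, Finset.prod_pow_eq_pow_sum, h1]
  ring

theorem cg_hom {R S ι : Type} [CommRing R] [CommRing S] (ψ : MP ι R →+* S) :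
    MvPolynomial.eval₂Hom (ψ.comp MvPolynomial.C) (fun i => ψ (MvPolynomial.X i)) = ψ := by
  ext <;> simp

/-- uniqueness of the root of `χ` with a given simple constant term (`lv_hensel`, `bez`) -/
theorem PChart.root_unique {R : Type} [CommRing R] (c : PChart R σ)
    (ψ : MP (Option σ) R →+* MvPowerSeries τ M) (hD : MvPowerSeries.constantCoeff (ψ c.D) ≠ 0)
    {θ₀ : M} (h0 : c.χ.eval₂ (MvPowerSeries.constantCoeff.comp ψ) θ₀ = 0) :
    ∃! η, c.χ.eval₂ ψ η = 0 ∧ MvPowerSeries.constantCoeff η = θ₀ := by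
  obtain ⟨α, β, hb⟩ := c.bez
  have h1 := congrArg (Polynomial.eval₂ (MvPowerSeries.constantCoeff.comp ψ) θ₀) hb
  rw [Polynomial.eval₂_C, Polynomial.eval₂_add, Polynomial.eval₂_mul, Polynomial.eval₂_mul, h0,
    mul_zero, zero_add] at h1
  have := lv_hensel (c.χ.map ψ) (c.monic.map ψ) θ₀ (by rwa [Polynomial.eval₂_map]) (by
    rw [Polynomial.derivative_map, Polynomial.eval₂_map, isUnit_iff_ne_zero]
    intro h2
    rw [h2, mul_zero] at h1
    exact hD h1)
  simpa only [Polynomial.eval_map] using this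

/-- an injective substitution `ψ` and a simple root give a germ: `y = pv ψ η` -/
theorem Var.Fld.chart_germ [Algebra K M] [IsScalarTower k K M] {c : Chart K σ X.N (X.IK K)}
    {F' : Type} [Field F'] [Algebra (RF (Option σ) K) F'] [Algebra k F'] {θ : F'} {γ : X.F →+* F'}
    (h : X.Fld c F' θ γ) (hG : c.GI) (ψ : MP (Option σ) K →+* MvPowerSeries τ M)
    (hC : ∀ a, ψ (MvPolynomial.C a) = MvPowerSeries.C (algebraMap K M a))
    (hi : Function.Injective ψ) (hD : MvPowerSeries.constantCoeff (ψ c.D) ≠ 0) {θ₀ : M}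
    (h0 : c.χ.eval₂ (MvPowerSeries.constantCoeff.comp ψ) θ₀ = 0) :
    ∃ (γ' : F' →+* Fr (MvPowerSeries τ M)) (η : MvPowerSeries τ M),
      (∀ p, γ' (toE _ F' p) = algebraMap _ _ (ψ p)) ∧ γ' θ = algebraMap _ _ η ∧
      MvPowerSeries.constantCoeff η = θ₀ ∧ X.GermT (γ'.comp γ) (c.pv (algebraMap K M)
        (fun i => MvPowerSeries.constantCoeff (ψ (MvPolynomial.X i))) θ₀) := by
  obtain ⟨η, ⟨hη, hη0⟩, -⟩ := c.toPChart.root_unique ψ hD h0
  obtain ⟨γ', hγ, hθ⟩ := PChart.FF.lift hG h.ff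
    (ψ := (algebraMap _ (Fr (MvPowerSeries τ M))).comp ψ)
    ((IsFractionRing.injective _ _).comp hi) (η := algebraMap _ _ η)
    (by rw [← Polynomial.hom_eval₂, hη, map_zero])
  have hcc : (MvPowerSeries.constantCoeff.comp ψ).comp MvPolynomial.C = algebraMap K M := by
    ext a; simp [hC]
  have hψ := cg_hom (MvPowerSeries.constantCoeff.comp ψ)
  rw [hcc] at hψ
  refine ⟨γ', η, hγ, hθ, hη0, fun a => ?_, fun hx => ?_, ?_⟩
  · rw [RingHom.comp_apply, h.dom.1, h.alg, hγ, RingHom.comp_apply, hC,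
      ← IsScalarTower.algebraMap_apply]
  · refine (c.ne M (algebraMap K M)
      (fun i => MvPowerSeries.constantCoeff (ψ (MvPolynomial.X i))) θ₀ ?_ ?_).2 ?_
    · rw [ev_def]; exact hψ ▸ h0
    · exact fun h1 => hD ((DFunLike.congr_fun hψ c.D).symm.trans h1)
    · rw [ev_sb]
      have h1 := cg_smul c.hl (algebraMap K M) 0 0
      rw [pow_one, zero_mul] at h1
      convert h1 using 2
      funext j
      rw [zero_mul]
      exact congrFun hx j
  · obtain ⟨u, -, hu⟩ := h.dom.2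
    refine ⟨γ' u, c.pv (ψ.comp MvPolynomial.C) (fun i => ψ (MvPolynomial.X i)) η, fun i => ⟨?_, ?_⟩⟩
    · rw [RingHom.comp_apply, ← map_mul, ← hu, Chart.pv, Chart.pv, map_ev, map_ev, hθ]
      congr 2
      · ext a; exact (hγ _).symm
      · funext j; exact (hγ _).symm
    · rw [Chart.pv, Chart.pv, map_ev, hη0, ← RingHom.comp_assoc, hcc]

/-- a germ at a point with `f_0 ≠ 0` has chart coordinates in the power series ring -/
theorem Var.Fld.germ_chart {c : Chart k σ X.N (X.IK k)}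
    {F' : Type} [Field F'] [Algebra (RF (Option σ) k) F'] [Algebra k F'] {θ : F'} {γ : X.F →+* F'}
    (h : X.Fld c F' θ γ) {γ' : F' →+* Fr (MvPowerSeries τ M)} {x : Fin (X.N + 1) → M}
    (hg : X.GermT (γ'.comp γ) x) (h0 : MvPolynomial.eval₂ (algebraMap k M) x (c.f none) ≠ 0) :
    ∃ (ψ : MP (Option σ) k →+* MvPowerSeries τ M) (η : MvPowerSeries τ M),
      (∀ a, ψ (MvPolynomial.C a) = MvPowerSeries.C (algebraMap k M a)) ∧ Function.Injective ψ ∧
      (∀ i, MvPowerSeries.constantCoeff (ψ (MvPolynomial.X i)) = c.xi (algebraMap k M) x i) ∧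
      (∀ p, γ' (toE _ F' p) = algebraMap _ _ (ψ p)) ∧ γ' θ = algebraMap _ _ η ∧
      MvPowerSeries.constantCoeff η = c.tht (algebraMap k M) x ∧ c.χ.eval₂ ψ η = 0 := by
  obtain ⟨hk, -, c₀, y, hy⟩ := hg
  obtain ⟨hF0, hxi, hth⟩ := h.coord
  set φ : k →+* MvPowerSeries τ M := MvPowerSeries.C.comp (algebraMap k M) with hφ
  set φ' : k →+* F' := (toE (MP (Option σ) k) F').comp MvPolynomial.C with hφ'
  have hc : (algebraMap _ (Fr (MvPowerSeries τ M))).comp φ = γ'.comp φ' := by
    ext a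
    have h1 := hk a
    rw [RingHom.comp_apply, h.dom.1, h.alg] at h1
    exact h1.symm
  have hcc : ∀ G : Fm X.N k, MvPowerSeries.constantCoeff (MvPolynomial.eval₂ φ y G) =
      MvPolynomial.eval₂ (algebraMap k M) x G := fun G => by
    rw [MvPolynomial.eval₂_comp_left]
    congr 1
    funext i; exact (hy i).2
  have hal : ∀ G : Fm X.N k, G.IsHomogeneous c.d →
      algebraMap _ (Fr (MvPowerSeries τ M)) (MvPolynomial.eval₂ φ y G) =
        c₀ ^ c.d * γ' (MvPolynomial.eval₂ φ' (fun i => γ (X.g i)) G) := fun G hG => by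
    rw [MvPolynomial.eval₂_comp_left, MvPolynomial.eval₂_comp_left, ← cg_smul hG, hc]
    congr 1
    funext i; exact (hy i).1
  obtain ⟨w, hw⟩ : ∃ w, MvPolynomial.eval₂ φ y (c.f none) * w = 1 :=
    (MvPowerSeries.isUnit_iff_constantCoeff.2 (by
      rw [hcc]; exact isUnit_iff_ne_zero.2 h0)).exists_right_inv
  have hw1 := congrArg (algebraMap _ (Fr (MvPowerSeries τ M))) hw
  have hw2 := congrArg MvPowerSeries.constantCoeff hw
  rw [map_mul, map_one, hal _ (c.hf none)] at hw1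
  rw [map_mul, map_one, hcc] at hw2
  have k1 : ∀ G : Fm X.N k, G.IsHomogeneous c.d →
      γ' (MvPolynomial.eval₂ φ' (fun i => γ (X.g i)) G /
        MvPolynomial.eval₂ φ' (fun i => γ (X.g i)) (c.f none)) =
        algebraMap _ _ (MvPolynomial.eval₂ φ y G * w) := fun G hG => by
    rw [map_div₀, map_mul, hal G hG, div_eq_iff ((map_ne_zero γ').2 hF0)]
    linear_combination (-γ' (MvPolynomial.eval₂ φ' (fun i => γ (X.g i)) G)) * hw1
  have k2 : ∀ G : Fm X.N k, MvPowerSeries.constantCoeff (MvPolynomial.eval₂ φ y G * w) =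
      MvPolynomial.eval₂ (algebraMap k M) x G / MvPolynomial.eval₂ (algebraMap k M) x (c.f none) :=
    fun G => by
      rw [map_mul, hcc, eq_div_iff h0]
      linear_combination (MvPolynomial.eval₂ (algebraMap k M) x G) * hw2
  set ψ : MP (Option σ) k →+* MvPowerSeries τ M :=
    MvPolynomial.eval₂Hom φ fun i => MvPolynomial.eval₂ φ y (c.f (some i)) * w with hψ
  have hp : γ'.comp (toE (MP (Option σ) k) F') =
      (algebraMap _ (Fr (MvPowerSeries τ M))).comp ψ := by
    refine MvPolynomial.ringHom_ext (fun a => ?_) fun i => ?_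
    · rw [RingHom.comp_apply _ ψ, hψ, MvPolynomial.eval₂Hom_C]
      exact (DFunLike.congr_fun hc a).symm
    · rw [RingHom.comp_apply _ ψ, hψ, MvPolynomial.eval₂Hom_X', ← k1 _ (c.hf _),
        RingHom.comp_apply, ← hxi]
      rfl
  have hθ : γ' θ = algebraMap _ _ (MvPolynomial.eval₂ φ y c.th * w) := by
    rw [← k1 _ c.hth, ← hth]; rfl
  refine ⟨ψ, MvPolynomial.eval₂ φ y c.th * w, fun a => MvPolynomial.eval₂Hom_C _ _ a, ?_,
    fun i => ?_, fun p => DFunLike.congr_fun hp p, hθ, k2 _, ?_⟩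
  · refine Function.Injective.of_comp (f := algebraMap _ (Fr (MvPowerSeries τ M))) ?_
    rw [← RingHom.coe_comp, ← hp]
    exact γ'.injective.comp (toE_inj F')
  · rw [hψ, MvPolynomial.eval₂Hom_X', k2]; rfl
  · apply IsFractionRing.injective _ (Fr (MvPowerSeries τ M))
    rw [Polynomial.hom_eval₂, ← hp, ← hθ, ← Polynomial.hom_eval₂, h.ff.1, map_zero, map_zero]

end Pool.Agent.ZCy
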