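import Pool.Agent.Lib.MP_751085_ag.ZC.CMap

/-! Normalising homogeneous coordinates over a normal local ring. -/

namespace Pool.Agent.ZCy

open scoped Classical WithZero Polynomial
open groupCohomology

set_option linter.unusedSectionVars false

theorem nrm_scale {R S ι : Type} [CommRing R] [CommRing S] (φ : R →+* S) (u : S) (x : ι → S)
    {p : MP ι R} {n : ℕ} (hp : p.IsHomogeneous n) :
    MvPolynomial.eval₂ φ (fun i => u * x i) p = u ^ n * MvPolynomial.eval₂ φ x p := by
  rw [MvPolynomial.eval₂_eq, MvPolynomial.eval₂_eq, Finset.mul_sum]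
  refine Finset.sum_congr rfl fun m hm => ?_
  simp only [mul_pow]
  rw [Finset.prod_mul_distrib, Finset.prod_pow_eq_pow_sum, ← hp.degree_eq_sum_deg_support hm]
  ring

theorem nrm_scale_ev {R S ι : Type} [CommRing R] [CommRing S] (φ : R →+* S) (u θ : S) (ξ : ι → S)
    {H : (MP ι R)[X]} {m : ℕ} (hm : H.natDegree = m)
    (hH : ∀ i, (H.coeff i).IsHomogeneous (m - i)) :
    ev φ (fun i => u * ξ i) (u * θ) H = u ^ m * ev φ ξ θ H := by
  rw [ev_def, ev_def, Polynomial.eval₂_eq_sum_range, Polynomial.eval₂_eq_sum_range,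
    Finset.mul_sum, hm]
  refine Finset.sum_congr rfl fun i hi => ?_
  have hi' : i ≤ m := Nat.lt_succ_iff.1 (Finset.mem_range.1 hi)
  rw [MvPolynomial.coe_eval₂Hom, MvPolynomial.coe_eval₂Hom, nrm_scale φ u ξ (hH i), mul_pow]
  calc u ^ (m - i) * MvPolynomial.eval₂ φ ξ (H.coeff i) * (u ^ i * θ ^ i)
      = (u ^ (m - i) * u ^ i) * (MvPolynomial.eval₂ φ ξ (H.coeff i) * θ ^ i) := by ring
    _ = _ := by rw [← pow_add, Nat.sub_add_cancel hi']

theorem nrm_mono {Ω σ : Type} [Field Ω] [Fintype σ] (s : Option σ → Ω) (hs : s none ≠ 0)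
    (μ : Option σ →₀ ℕ) {e : ℕ} (he : μ.degree ≤ e) :
    ∏ i, s i ^ (μ.update none (e - μ.degree)) i =
      s none ^ e * ∏ i : Option σ, (i.elim (s none)⁻¹ fun j => s (some j) / s none) ^ μ i := by
  obtain ⟨r, rfl⟩ := Nat.exists_eq_add_of_le he
  rw [Nat.add_sub_cancel_left, Fintype.prod_option, Fintype.prod_option, Finsupp.degree_eq_sum,
    Fintype.sum_option]
  simp only [Finsupp.coe_update, Function.update_self, Option.elim_none, Option.elim_some, div_pow,
    Function.update_of_ne (Option.some_ne_none _)]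
  rw [Finset.prod_div_distrib, Finset.prod_pow_eq_pow_sum, pow_add, pow_add, inv_pow]
  have h1 := pow_ne_zero (μ none) hs
  have h2 := pow_ne_zero (∑ j, μ (some j)) hs
  field_simp

theorem nrm_update_eq_zero {σ : Type} [Fintype σ] (μ : Option σ →₀ ℕ) {e : ℕ}
    (he : μ.degree ≤ e) : μ.update none (e - μ.degree) = 0 ↔ μ = Finsupp.single none e := by
  have hd : μ.degree = μ none + ∑ j, μ (some j) := by
    rw [Finsupp.degree_eq_sum, Fintype.sum_option]
  constructor
  · intro h
    have h1 : ∀ j, μ (some j) = 0 := fun j => by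
      have := DFunLike.congr_fun h (some j)
      simpa [Finsupp.coe_update, Function.update_of_ne (Option.some_ne_none j)] using this
    have h2 : e - μ.degree = 0 := by
      have := DFunLike.congr_fun h none
      simpa [Finsupp.coe_update] using this
    have h3 : ∑ j, μ (some j) = 0 := Finset.sum_eq_zero fun j _ => h1 j
    ext i
    cases i with
    | none => rw [Finsupp.single_eq_same]; omega
    | some j => rw [h1, Finsupp.single_eq_of_ne (Option.some_ne_none j)]
  · rintro rfl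
    ext i
    cases i with
    | none => simp [Finsupp.coe_update]
    | some j => simp [Finsupp.coe_update]

/-- `x_i x_j ^ (d - 1) / f_{i₀}(x)` is integral over `T` (from `Chart.int`: `x_j ^ d / f_{i₀}(x)` is a
root of a monic polynomial over `T`, and so is every monomial of degree `d` over `f_{i₀}(x)`, by its
`d`-th power). As `1` is a combination of such monomials, one is a unit, so some
`x_j ^ d / f_{i₀}(x)` is a unit. -/
theorem Chart.normalise {K σ : Type} [Field K] {N : ℕ} {GG : Set (Fm N K)} (c : Chart K σ N GG)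
    {T 𝕂 : Type} [CommRing T] [IsDomain T] [IsLocalRing T] [IsIntegrallyClosed T] [Field 𝕂]
    [Algebra T 𝕂] [IsFractionRing T 𝕂] (φ : K →+* T) {x : Fin (N + 1) → 𝕂}
    (hx : Zer GG ((algebraMap T 𝕂).comp φ) x) {i₀ : Option (Option σ)}
    (h0 : MvPolynomial.eval₂ ((algebraMap T 𝕂).comp φ) x (c.f i₀) ≠ 0)
    (hi : ∀ i, ∃ s : T, MvPolynomial.eval₂ ((algebraMap T 𝕂).comp φ) x (c.f i) =
      algebraMap T 𝕂 s * MvPolynomial.eval₂ ((algebraMap T 𝕂).comp φ) x (c.f i₀)) :
    ∃ (u : 𝕂) (y : Fin (N + 1) → T) (j : Fin (N + 1)), u ≠ 0 ∧ (∀ i, algebraMap T 𝕂 (y i) = u * x i) ∧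
      y j = 1 ∧ IsUnit (MvPolynomial.eval₂ φ y (c.f i₀)) := by
  set ψ := (algebraMap T 𝕂).comp φ with hψ
  set F := MvPolynomial.eval₂ ψ x (c.f i₀) with hF
  have hinj := IsFractionRing.injective T 𝕂
  choose s hs using hi
  have hint : ∀ j, ∃ t : T, algebraMap T 𝕂 t = F⁻¹ * x j ^ c.d := fun j => by
    obtain ⟨m, H, hHm, hHd, hHh, hH⟩ := c.int j
    refine IsIntegrallyClosed.isIntegral_iff.1 ⟨H.map (MvPolynomial.eval₂Hom φ s), hHm.map _, ?_⟩
    have h1 := nrm_scale_ev ψ F⁻¹ (x j ^ c.d) (fun i => MvPolynomial.eval₂ ψ x (c.f i)) hHd hHh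
    rw [hH 𝕂 ψ x hx, mul_zero] at h1
    have h2 : (fun i => F⁻¹ * MvPolynomial.eval₂ ψ x (c.f i)) = fun i => algebraMap T 𝕂 (s i) := by
      funext i
      rw [hs i, mul_comm (algebraMap T 𝕂 _), ← mul_assoc, inv_mul_cancel₀ h0, one_mul]
    rw [h2, ev_def] at h1
    rw [Polynomial.eval₂_map, MvPolynomial.comp_eval₂Hom]
    exact h1
  choose t ht using hint
  have hex : ∃ j, IsUnit (t j) := by
    by_contra hne
    have hmem : ∀ j, t j ∈ IsLocalRing.maximalIdeal T := fun j hj => hne ⟨j, hj⟩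
    have hmon : ∀ μ ∈ (c.f i₀).support, ∃ b ∈ IsLocalRing.maximalIdeal T,
        algebraMap T 𝕂 b = F⁻¹ * ∏ i ∈ μ.support, x i ^ μ i := fun μ hμ => by
      have hdeg := (c.hf i₀).degree_eq_sum_deg_support hμ
      have hpow : (F⁻¹ * ∏ i ∈ μ.support, x i ^ μ i) ^ c.d =
          algebraMap T 𝕂 (∏ i ∈ μ.support, t i ^ μ i) := by
        rw [map_prod]
        simp only [map_pow, ht, mul_pow]
        rw [Finset.prod_mul_distrib, Finset.prod_pow_eq_pow_sum, ← hdeg, ← Finset.prod_pow]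
        congr 1
        exact Finset.prod_congr rfl fun i _ => by rw [← pow_mul, ← pow_mul, mul_comm]
      obtain ⟨b, hb⟩ : ∃ b : T, algebraMap T 𝕂 b = F⁻¹ * ∏ i ∈ μ.support, x i ^ μ i :=
        IsIntegrallyClosed.isIntegral_iff.1
          (IsIntegral.of_pow c.dpos (hpow ▸ isIntegral_algebraMap))
      refine ⟨b, (IsLocalRing.maximalIdeal.isMaximal T).isPrime.mem_of_pow_mem c.d ?_, hb⟩
      have hb' : b ^ c.d = ∏ i ∈ μ.support, t i ^ μ i := hinj (by rw [map_pow, hb, hpow])
      have hsup : μ.support.Nonempty := by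
        rw [Finset.nonempty_iff_ne_empty]
        intro he
        rw [he, Finset.sum_empty] at hdeg
        exact c.dpos.ne' hdeg
      obtain ⟨i, hi⟩ := hsup
      rw [hb', ← Finset.mul_prod_erase _ _ hi]
      exact Ideal.mul_mem_right _ _ (Ideal.pow_mem_of_mem _ (hmem i) _
        (Nat.pos_of_ne_zero (Finsupp.mem_support_iff.1 hi)))
    choose! b hbm hb using hmon
    have h1 : (1 : T) = ∑ μ ∈ (c.f i₀).support, φ ((c.f i₀).coeff μ) * b μ := by
      apply hinj
      rw [map_one, map_sum, ← inv_mul_cancel₀ h0]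
      have : F = ∑ μ ∈ (c.f i₀).support, ψ ((c.f i₀).coeff μ) * ∏ i ∈ μ.support, x i ^ μ i :=
        MvPolynomial.eval₂_eq _ _ _
      calc F⁻¹ * F = F⁻¹ * ∑ μ ∈ (c.f i₀).support,
            ψ ((c.f i₀).coeff μ) * ∏ i ∈ μ.support, x i ^ μ i := by rw [← this]
        _ = _ := by
          rw [Finset.mul_sum]
          refine Finset.sum_congr rfl fun μ hμ => ?_
          rw [map_mul, hb μ hμ, hψ, RingHom.comp_apply]
          ring
    refine (IsLocalRing.maximalIdeal.isMaximal T).ne_top ((Ideal.eq_top_iff_one _).2 ?_)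
    rw [h1]
    exact Ideal.sum_mem _ fun μ hμ => Ideal.mul_mem_left _ _ (hbm μ hμ)
  obtain ⟨j, v, hv⟩ := hex
  have htj : algebraMap T 𝕂 (t j) ≠ 0 := (map_ne_zero_iff _ hinj).2 (hv ▸ v.ne_zero)
  have hxj : x j ≠ 0 := fun h => htj (by rw [ht, h, zero_pow c.dpos.ne', mul_zero])
  have hvinv : algebraMap T 𝕂 ((v⁻¹ : Tˣ) : T) = (algebraMap T 𝕂 (t j))⁻¹ :=
    eq_inv_of_mul_eq_one_left (by rw [← map_mul, ← hv, Units.inv_mul, map_one])
  have hy : ∀ i, ∃ y : T, algebraMap T 𝕂 y = (x j)⁻¹ * x i := fun i => by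
    have : ((x j)⁻¹ * x i) ^ c.d = algebraMap T 𝕂 (t i * ((v⁻¹ : Tˣ) : T)) := by
      rw [map_mul, hvinv, ht, ht, mul_pow, inv_pow]
      have := pow_ne_zero c.d hxj
      field_simp
    exact IsIntegrallyClosed.isIntegral_iff.1
      (IsIntegral.of_pow c.dpos (this ▸ isIntegral_algebraMap))
  choose y hy using hy
  refine ⟨(x j)⁻¹, y, j, inv_ne_zero hxj, hy, hinj (by rw [hy, inv_mul_cancel₀ hxj, map_one]), ?_⟩
  refine IsUnit.of_mul_eq_one (t j) (hinj ?_)
  rw [map_mul, map_one, MvPolynomial.eval₂_comp_left, ← hψ,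
    show (algebraMap T 𝕂) ∘ y = fun i => (x j)⁻¹ * x i from funext hy,
    nrm_scale ψ _ x (c.hf i₀), ← hF, ht, inv_pow]
  have := pow_ne_zero c.d hxj
  field_simp

/-- the forms of a chart have no common zero -/
theorem Chart.exists_ne {R σ : Type} [CommRing R] {N : ℕ} {GG : Set (Fm N R)} (c : Chart R σ N GG)
    {Ω : Type} [Field Ω] {φ : R →+* Ω} {x : Fin (N + 1) → Ω} (hx : Zer GG φ x) (h0 : x ≠ 0) :
    ∃ i, MvPolynomial.eval₂ φ x (c.f i) ≠ 0 := by
  by_contra hne
  have hz : (fun i => MvPolynomial.eval₂ φ x (c.f i)) = fun _ => (0 : Ω) := by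
    funext i
    by_contra h
    exact hne ⟨i, h⟩
  obtain ⟨j, hj⟩ := Function.ne_iff.1 h0
  obtain ⟨m, H, hHm, hHd, hHh, hH⟩ := c.int j
  have h1 := hH Ω φ x hx
  rw [hz, ev_def, Polynomial.eval₂_eq_sum_range, hHd, Finset.sum_range_succ,
    Finset.sum_eq_zero, zero_add, ← hHd, hHm.coeff_natDegree, map_one, one_mul] at h1
  · exact hj (eq_zero_of_pow_eq_zero (eq_zero_of_pow_eq_zero h1))
  · intro i hi
    have h2 := nrm_scale φ (0 : Ω) (fun _ => (0 : Ω)) (hHh i)
    rw [zero_pow (Nat.sub_ne_zero_of_lt (Finset.mem_range.1 hi))] at h2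
    simp only [zero_mul] at h2
    rw [MvPolynomial.coe_eval₂Hom, h2, zero_mul]

/-- `χ` in the coordinates at infinity: `t ^ δ χ(x / t, 1 / t, Y / t)` -/
theorem PChart.exists_tilde {R σ : Type} [CommRing R] [Nontrivial R] [Fintype σ] (c : PChart R σ) :
    ∃ χt : (MP (Option σ) R)[X], χt.Monic ∧ χt.map MvPolynomial.constantCoeff = c.top ∧
      ∀ (Ω : Type) [Field Ω] (φ : R →+* Ω) (s : Option σ → Ω) (η : Ω), s none ≠ 0 →
        ev φ s η χt = s none ^ c.δ * ev φ (fun i => i.elim (s none)⁻¹ fun j => s (some j) / s none)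
          (η / s none) c.χ := by
  have hlead : c.χ.coeff c.δ = 1 := by rw [← c.deg]; exact c.monic
  have hdeg : ∀ k, ∀ μ ∈ (c.χ.coeff k).support, μ.degree ≤ c.δ - k := fun k μ hμ =>
    le_trans (MvPolynomial.le_totalDegree hμ) (c.wt k)
  refine ⟨∑ k ∈ Finset.range (c.δ + 1), Polynomial.monomial k
    (∑ μ ∈ (c.χ.coeff k).support, MvPolynomial.monomial
      (μ.update none (c.δ - k - μ.degree)) ((c.χ.coeff k).coeff μ)), ?_, ?_, ?_⟩
  · refine Polynomial.monic_of_natDegree_le_of_coeff_eq_one c.δ ?_ ?_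
    · exact Polynomial.natDegree_sum_le_of_forall_le _ _ fun k hk =>
        (Polynomial.natDegree_monomial_le _).trans (Nat.lt_succ_iff.1 (Finset.mem_range.1 hk))
    · rw [Polynomial.finsetSum_coeff, Finset.sum_eq_single c.δ, Polynomial.coeff_monomial_same,
        hlead, MvPolynomial.support_one, Finset.sum_singleton]
      · simp
      · intro k _ hk
        exact Polynomial.coeff_monomial_of_ne _ hk.symm
      · intro h
        exact (h (Finset.self_mem_range_succ _)).elim
  · rw [PChart.top, Polynomial.map_sum]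
    refine Finset.sum_congr rfl fun k _ => ?_
    rw [Polynomial.map_monomial, map_sum]
    congr 1
    rw [Finset.sum_eq_single (Finsupp.single none (c.δ - k))]
    · by_cases hμ : Finsupp.single none (c.δ - k) ∈ (c.χ.coeff k).support
      · rw [MvPolynomial.constantCoeff_monomial,
          if_pos ((nrm_update_eq_zero _ (hdeg k _ hμ)).2 rfl)]
      · rw [MvPolynomial.notMem_support_iff.1 hμ, map_zero, map_zero]
    · intro μ hμ hne
      rw [MvPolynomial.constantCoeff_monomial,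
        if_neg fun h => hne ((nrm_update_eq_zero _ (hdeg k _ hμ)).1 h)]
    · intro hμ
      rw [MvPolynomial.notMem_support_iff.1 hμ, map_zero, map_zero]
  · intro Ω _ φ s η hs
    rw [map_sum, ev_def φ _ (η / s none), Polynomial.eval₂_eq_sum_range, c.deg, Finset.mul_sum]
    refine Finset.sum_congr rfl fun k hk => ?_
    have hk' : k ≤ c.δ := Nat.lt_succ_iff.1 (Finset.mem_range.1 hk)
    rw [ev_def, Polynomial.eval₂_monomial, map_sum, MvPolynomial.coe_eval₂Hom,
      MvPolynomial.coe_eval₂Hom, MvPolynomial.eval₂_eq' φ _ (c.χ.coeff k), Finset.sum_mul,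
      Finset.sum_mul, Finset.mul_sum]
    refine Finset.sum_congr rfl fun μ hμ => ?_
    rw [MvPolynomial.eval₂_monomial, Finsupp.prod_fintype _ _ fun i => pow_zero _,
      nrm_mono s hs μ (hdeg k μ hμ), div_pow]
    have h1 : s none ^ c.δ = s none ^ (c.δ - k) * s none ^ k := by
      rw [← pow_add, Nat.sub_add_cancel hk']
    have h2 := pow_ne_zero k hs
    rw [h1]
    field_simp

theorem PChart.top_monic {R σ : Type} [CommRing R] [Nontrivial R] (c : PChart R σ) :
    c.top.Monic ∧ c.top.natDegree = c.δ := by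
  have hlead : c.χ.coeff c.δ = 1 := by rw [← c.deg]; exact c.monic
  have h1 : c.top.natDegree ≤ c.δ :=
    Polynomial.natDegree_sum_le_of_forall_le _ _ fun k hk =>
      (Polynomial.natDegree_monomial_le _).trans (Nat.lt_succ_iff.1 (Finset.mem_range.1 hk))
  have h2 : c.top.coeff c.δ = 1 := by
    rw [PChart.top, Polynomial.finsetSum_coeff, Finset.sum_eq_single c.δ,
      Polynomial.coeff_monomial_same, hlead]
    · simp
    · intro k _ hk
      exact Polynomial.coeff_monomial_of_ne _ hk.symm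
    · intro h
      exact (h (Finset.self_mem_range_succ _)).elim
  exact ⟨Polynomial.monic_of_natDegree_le_of_coeff_eq_one c.δ h1 h2,
    Polynomial.natDegree_eq_of_le_of_coeff_ne_zero h1 (h2 ▸ one_ne_zero)⟩

end Pool.Agent.ZCy
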