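import Pool.Agent.Lib.MP_751085_ag.ZC.Iface

/-! Power series in two sets of variables, and expansion along lines. -/

namespace Pool.Agent.ZCy

open scoped Classical WithZero Polynomial
open groupCohomology

set_option linter.unusedSectionVars false

section sum

variable {A τ ι : Type} [CommRing A]

/-- regrouping of the coefficients -/
noncomputable def sum_f (p : MvPowerSeries (τ ⊕ ι) A) : MvPowerSeries ι (MvPowerSeries τ A) :=
  fun n m => MvPowerSeries.coeff (m.sumElim n) p

theorem sum_coeff (p : MvPowerSeries (τ ⊕ ι) A) (n : ι →₀ ℕ) (m : τ →₀ ℕ) :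
    MvPowerSeries.coeff m (MvPowerSeries.coeff n (sum_f p)) =
      MvPowerSeries.coeff (m.sumElim n) p := rfl

theorem sum_inj {m m' : τ →₀ ℕ} {n n' : ι →₀ ℕ} :
    m.sumElim n = m'.sumElim n' ↔ m = m' ∧ n = n' :=
  ⟨fun h => Prod.mk.inj ((Finsupp.sumFinsuppEquivProdFinsupp.symm.injective
    (a₁ := (m, n)) (a₂ := (m', n'))) h), fun h => by rw [h.1, h.2]⟩

theorem sum_surj (d : τ ⊕ ι →₀ ℕ) : ∃ (m : τ →₀ ℕ) (n : ι →₀ ℕ), d = m.sumElim n :=
  ⟨_, _, (Finsupp.comapDomain_sumElim_comapDomain d).symm⟩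

theorem sum_mono (m : τ →₀ ℕ) (n : ι →₀ ℕ) (a : A) :
    sum_f (MvPowerSeries.monomial (m.sumElim n) a) =
      MvPowerSeries.monomial n (MvPowerSeries.monomial m a) := by
  ext n' m'
  rw [sum_coeff, MvPowerSeries.coeff_monomial, MvPowerSeries.coeff_monomial]
  by_cases h : n' = n
  · rw [if_pos h, MvPowerSeries.coeff_monomial]
    simp only [sum_inj, h, and_true]
  · rw [if_neg h, if_neg fun e => h (sum_inj.1 e).2, map_zero]

theorem sum_mul (p q : MvPowerSeries (τ ⊕ ι) A) : sum_f (p * q) = sum_f p * sum_f q := by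
  ext n m
  rw [sum_coeff, MvPowerSeries.coeff_mul, MvPowerSeries.coeff_mul, map_sum]
  simp only [MvPowerSeries.coeff_mul, sum_coeff]
  rw [← Finset.sum_product']
  symm
  refine Finset.sum_bij (fun y _ => (y.2.1.sumElim y.1.1, y.2.2.sumElim y.1.2)) ?_ ?_ ?_ ?_
  · intro y hy
    rw [Finset.mem_product, Finset.HasAntidiagonal.mem_antidiagonal, Finset.HasAntidiagonal.mem_antidiagonal] at hy
    rw [Finset.HasAntidiagonal.mem_antidiagonal, ← Finsupp.sumElim_add, hy.1, hy.2]
  · intro y _ z _ h
    obtain ⟨h1, h2⟩ := Prod.mk.inj h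
    exact Prod.ext (Prod.ext (sum_inj.1 h1).2 (sum_inj.1 h2).2)
      (Prod.ext (sum_inj.1 h1).1 (sum_inj.1 h2).1)
  · rintro ⟨d, d'⟩ h
    obtain ⟨a, b, rfl⟩ := sum_surj d
    obtain ⟨a', b', rfl⟩ := sum_surj d'
    rw [Finset.HasAntidiagonal.mem_antidiagonal, ← Finsupp.sumElim_add, sum_inj] at h
    exact ⟨((b, b'), (a, a')), Finset.mem_product.2
      ⟨Finset.HasAntidiagonal.mem_antidiagonal.2 h.2, Finset.HasAntidiagonal.mem_antidiagonal.2 h.1⟩, rfl⟩
  · intro y _
    rfl

theorem sum_C (a : A) : sum_f (MvPowerSeries.C a : MvPowerSeries (τ ⊕ ι) A) =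
    MvPowerSeries.C (MvPowerSeries.C a) := by
  have := sum_mono (0 : τ →₀ ℕ) (0 : ι →₀ ℕ) a
  rwa [Finsupp.sumElim_zero_zero] at this

/-- the regrouping as a ring map -/
noncomputable def sum_r : MvPowerSeries (τ ⊕ ι) A →+* MvPowerSeries ι (MvPowerSeries τ A) where
  toFun := sum_f
  map_one' := by rw [← map_one MvPowerSeries.C, sum_C, map_one, map_one]
  map_mul' := sum_mul
  map_zero' := rfl
  map_add' _ _ := rfl

theorem sum_bij : Function.Bijective (sum_r : MvPowerSeries (τ ⊕ ι) A → _) := by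
  constructor
  · intro p q h
    ext d
    obtain ⟨m, n, rfl⟩ := sum_surj d
    rw [← sum_coeff, ← sum_coeff]
    exact congrArg (fun z => MvPowerSeries.coeff m (MvPowerSeries.coeff n z)) h
  · intro y
    refine ⟨fun d => MvPowerSeries.coeff (d.comapDomain Sum.inl Sum.inl_injective.injOn)
      (MvPowerSeries.coeff (d.comapDomain Sum.inr Sum.inr_injective.injOn) y), ?_⟩
    ext n m
    change MvPowerSeries.coeff ((m.sumElim n).comapDomain Sum.inl Sum.inl_injective.injOn)
      (MvPowerSeries.coeff ((m.sumElim n).comapDomain Sum.inr Sum.inr_injective.injOn) y) = _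
    rw [Finsupp.comapDomain_inl_sumElim, Finsupp.comapDomain_inr_sumElim]

theorem sum_cc (y : MvPowerSeries (τ ⊕ ι) A) :
    MvPowerSeries.constantCoeff (MvPowerSeries.constantCoeff (sum_r y)) =
      MvPowerSeries.constantCoeff y := by
  have := sum_coeff y 0 0
  rwa [Finsupp.sumElim_zero_zero] at this

end sum

/-- `A⟦s, t⟧ → A⟦s⟧⟦t⟧`: the coefficient of `t ^ n` has coefficients `coeff (sumElim m n)` -/
theorem exists_sumR (A τ ι : Type) [CommRing A] :
    ∃ S : MvPowerSeries (τ ⊕ ι) A →+* MvPowerSeries ι (MvPowerSeries τ A), Function.Injective S ∧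
      (∀ y : MvPowerSeries τ A, ∃ y', S y' = MvPowerSeries.C y ∧
        MvPowerSeries.constantCoeff y' = MvPowerSeries.constantCoeff y) ∧
      (∀ a, S (MvPowerSeries.C a) = MvPowerSeries.C (MvPowerSeries.C a)) ∧
      (∀ i, S (MvPowerSeries.X (Sum.inr i)) = MvPowerSeries.X i) ∧
      ∀ y, MvPowerSeries.constantCoeff (MvPowerSeries.constantCoeff (S y)) =
        MvPowerSeries.constantCoeff y := by
  refine ⟨sum_r, sum_bij.1, fun y => ?_, sum_C, fun i => ?_, sum_cc⟩
  · obtain ⟨y', h⟩ := sum_bij.2 (MvPowerSeries.C y : MvPowerSeries ι (MvPowerSeries τ A))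
    exact ⟨y', h, by rw [← sum_cc, h, MvPowerSeries.constantCoeff_C]⟩
  · have := sum_mono (0 : τ →₀ ℕ) (Finsupp.single i 1) (1 : A)
    rwa [Finsupp.sumElim_zero_single] at this

section he

variable {M σ : Type} [Field M] [Fintype σ]

/-- the line through the origin with generic direction -/
noncomputable def sum_a (M σ : Type) [Field M] : Option σ → PowerSeries (MP σ M)
  | none => PowerSeries.X
  | some i => PowerSeries.C (MvPolynomial.X i) * PowerSeries.X

theorem sum_has : MvPowerSeries.HasSubst (sum_a M σ) :=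
  MvPowerSeries.hasSubst_of_constantCoeff_zero fun s => by
    change PowerSeries.constantCoeff (sum_a M σ s) = 0
    cases s <;> simp [sum_a]

theorem sum_prod (d : Option σ →₀ ℕ) : (d.prod fun s e => sum_a M σ s ^ e) =
    PowerSeries.C (MvPolynomial.monomial d.some 1) * PowerSeries.X ^ (d none + ∑ i, d (some i)) := by
  rw [Finsupp.prod_fintype _ _ fun _ => pow_zero _, Fintype.prod_option,
    MvPolynomial.monomial_eq, Finsupp.prod_fintype _ _ fun _ => pow_zero _]
  simp only [sum_a, mul_pow, Finset.prod_mul_distrib, Finset.prod_pow_eq_pow_sum, map_one, one_mul,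
    map_prod, map_pow, Finsupp.some_apply, pow_add]
  ring

theorem sum_he_coeff (y : MvPowerSeries (Option σ) M) (d : Option σ →₀ ℕ) :
    MvPolynomial.coeff d.some (PowerSeries.coeff (d none + ∑ i, d (some i))
      (MvPowerSeries.subst (sum_a M σ) y)) = MvPowerSeries.coeff d y := by
  have h := (MvPolynomial.lcoeff M d.some).toAddMonoidHom.map_finsum
    (MvPowerSeries.coeff_subst_finite sum_has y (Finsupp.single () (d none + ∑ i, d (some i))))
  rw [← MvPowerSeries.coeff_subst sum_has] at h
  refine h.trans ((finsum_eq_single _ d fun d' hd => ?_).trans ?_)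
  · change MvPolynomial.coeff d.some (MvPowerSeries.coeff d' y • PowerSeries.coeff
      (d none + ∑ i, d (some i)) (d'.prod fun s e => sum_a M σ s ^ e)) = 0
    rw [sum_prod, PowerSeries.coeff_C_mul, PowerSeries.coeff_X_pow, MvPolynomial.coeff_smul]
    split_ifs with h1
    · rw [mul_one, MvPolynomial.coeff_monomial, if_neg, smul_zero]
      intro h2
      have h3 : ∀ i, d' (some i) = d (some i) := fun i => DFunLike.congr_fun h2 i
      simp only [h3, add_left_inj] at h1
      refine hd (Finsupp.ext fun o => ?_)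
      cases o
      · exact h1.symm
      · exact h3 _
    · rw [mul_zero, MvPolynomial.coeff_zero, smul_zero]
  · change MvPolynomial.coeff d.some (MvPowerSeries.coeff d y • PowerSeries.coeff
      (d none + ∑ i, d (some i)) (d.prod fun s e => sum_a M σ s ^ e)) = _
    rw [sum_prod, PowerSeries.coeff_C_mul, PowerSeries.coeff_X_pow, MvPolynomial.coeff_smul,
      if_pos rfl, mul_one, MvPolynomial.coeff_monomial, if_pos rfl, smul_eq_mul, mul_one]

theorem sum_he_C (a : M) : MvPowerSeries.substAlgHom (sum_has (M := M) (σ := σ))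
    (MvPowerSeries.C a) = PowerSeries.C (MvPolynomial.C a) := by
  have h := (MvPowerSeries.substAlgHom (R := M) (sum_has (M := M) (σ := σ))).commutes a
  rw [MvPowerSeries.algebraMap_apply, MvPowerSeries.algebraMap_apply] at h
  exact h

end he

/-- `s_0 ↦ s`, `s_i ↦ ξ_i s`: the coefficient of `s ^ m` is the dehomogenised homogeneous
component of degree `m` -/
theorem exists_he (M σ : Type) [Field M] [Fintype σ] :
    ∃ S : MvPowerSeries (Option σ) M →+* PowerSeries (RF σ M), Function.Injective S ∧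
      (∀ a, S (MvPowerSeries.C a) = PowerSeries.C (algebraMap (MP σ M) _ (MvPolynomial.C a))) ∧
      S (MvPowerSeries.X none) = PowerSeries.X ∧
      (∀ i, S (MvPowerSeries.X (some i)) =
        PowerSeries.C (algebraMap (MP σ M) _ (MvPolynomial.X i)) * PowerSeries.X) ∧
      ∀ y, PowerSeries.constantCoeff (S y) =
        algebraMap (MP σ M) _ (MvPolynomial.C (MvPowerSeries.constantCoeff y)) := by
  let T : MvPowerSeries (Option σ) M →+* PowerSeries (MP σ M) :=
    (MvPowerSeries.substAlgHom (R := M) (sum_has (M := M) (σ := σ))).toRingHom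
  have hT : ∀ y, T y = MvPowerSeries.subst (sum_a M σ) y := MvPowerSeries.substAlgHom_apply _
  have hC : ∀ a, T (MvPowerSeries.C a) = PowerSeries.C (MvPolynomial.C a) := sum_he_C
  have hX : ∀ s, T (MvPowerSeries.X s) = sum_a M σ s := MvPowerSeries.substAlgHom_X _
  refine ⟨(PowerSeries.map (algebraMap (MP σ M) (RF σ M))).comp T, ?_, fun a => ?_, ?_,
    fun i => ?_, fun y => ?_⟩
  · refine (PowerSeries.map_injective _ (IsFractionRing.injective (MP σ M) (RF σ M))).comp fun p q h => ?_
    ext d
    rw [← sum_he_coeff p, ← sum_he_coeff q, ← hT, ← hT, show T p = T q from h]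
  · rw [RingHom.comp_apply, hC, PowerSeries.map_C]
  · rw [RingHom.comp_apply, hX, sum_a, PowerSeries.map_X]
  · rw [RingHom.comp_apply, hX, sum_a, map_mul, PowerSeries.map_X, PowerSeries.map_C]
  · have h0 : PowerSeries.constantCoeff
        (T (y - MvPowerSeries.C (MvPowerSeries.constantCoeff y))) = 0 := by
      rw [hT]
      refine MvPowerSeries.constantCoeff_subst_eq_zero sum_has (fun s => ?_) (by simp)
      change PowerSeries.constantCoeff (sum_a M σ s) = 0
      cases s <;> simp [sum_a]
    rw [map_sub, map_sub, hC, PowerSeries.constantCoeff_C, sub_eq_zero] at h0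
    rw [RingHom.comp_apply, ← h0]
    exact MvPowerSeries.constantCoeff_map _ _

end Pool.Agent.ZCy
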