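import Pool.Agent.Lib.MP_751085_ag.ZC.L.Fld
import Pool.Agent.Lib.MP_751085_ag.ZC.L.Ps
import Pool.Agent.Lib.MP_751085_ag.ZC.L.Sum
import Pool.Agent.Lib.MP_751085_ag.ZC.L.Nrm

/-! The germ at a point at infinity. -/

namespace Pool.Agent.ZCy

open scoped Classical WithZero Polynomial
open groupCohomology

set_option linter.unusedSectionVars false

variable {k : Type} [Field k] [CharZero k] {X : Var k} {K σ : Type} [Field K] [Algebra k K]
  [Fintype σ] {c : Chart K σ X.N (X.IK K)} {F' : Type} [Field F'] [Algebra (RF (Option σ) K) F']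
  [Algebra k F'] {θ : F'} {γ : X.F →+* F'}

theorem inf_hom {R S ι : Type} [CommRing R] [CommRing S] {G : MP ι R} {d : ℕ}
    (h : G.IsHomogeneous d) (φ : R →+* S) (u : S) (x : ι → S) :
    MvPolynomial.eval₂ φ (fun i => u * x i) G = u ^ d * MvPolynomial.eval₂ φ x G := by
  rw [MvPolynomial.eval₂_eq, MvPolynomial.eval₂_eq, Finset.mul_sum]
  refine Finset.sum_congr rfl fun m hm => ?_
  have h1 : ∑ i ∈ m.support, m i = d := by
    have := h (MvPolynomial.mem_support_iff.1 hm)
    simpa [Finsupp.weight_apply, Finsupp.sum] using this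
  simp only [mul_pow, Finset.prod_mul_distrib, Finset.prod_pow_eq_pow_sum, h1]
  ring

theorem inf_comp {A B E : Type} [Field A] [Field B] [Field E] [CharZero A] (f : A →+* B)
    (g : B →+* E) (a : BR A) : rs g (rs f a) = rs (g.comp f) a := la_comp f g a

theorem inf_root {p : K[X]} (hm : p.Monic) (hd : 0 < p.natDegree) :
    ∃ (M : Type) (_ : Field M) (_ : Algebra K M) (_ : FiniteDimensional K M) (z : M),
      Polynomial.aeval z p = 0 ∧ IntermediateField.adjoin K {z} = ⊤ := by
  obtain ⟨z₀, hz₀⟩ := IsAlgClosed.exists_aeval_eq_zero (AlgebraicClosure K) p (by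
    rw [Polynomial.degree_eq_natDegree hm.ne_zero]
    exact_mod_cast hd.ne')
  have hint : IsIntegral K z₀ := ⟨p, hm, hz₀⟩
  refine ⟨IntermediateField.adjoin K {z₀}, inferInstance, inferInstance,
    IntermediateField.adjoin.finiteDimensional hint, IntermediateField.AdjoinSimple.gen K z₀,
    ?_, ?_⟩
  · apply (algebraMap (IntermediateField.adjoin K {z₀}) (AlgebraicClosure K)).injective
    rw [← Polynomial.aeval_algebraMap_apply, map_zero]
    exact hz₀
  · apply IntermediateField.lift_injective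
    rw [IntermediateField.lift_adjoin_simple, IntermediateField.lift_top]
    rfl

/-- the embedding of the function field at a root of the top form -/
theorem inf_emb {c : PChart K σ} (hG : c.GI) (h : c.FF F' θ) {M : Type} [Field M] [Algebra K M]
    {z : M} (hz : Polynomial.aeval z c.top = 0) :
    ∃ (γ' : F' →+* Fr (MvPowerSeries (Option σ) M)) (η : MvPowerSeries (Option σ) M),
      MvPowerSeries.constantCoeff η = z ∧
      (∀ a, γ' (toE (MP (Option σ) K) F' (MvPolynomial.C a)) =
        algebraMap (MvPowerSeries (Option σ) M) _ (MvPowerSeries.C (algebraMap K M a))) ∧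
      γ' (toE (MP (Option σ) K) F' (MvPolynomial.X none)) =
        (algebraMap (MvPowerSeries (Option σ) M) _ (MvPowerSeries.X none))⁻¹ ∧
      (∀ j, γ' (toE (MP (Option σ) K) F' (MvPolynomial.X (some j))) =
        algebraMap (MvPowerSeries (Option σ) M) _ (MvPowerSeries.X (some j)) /
          algebraMap (MvPowerSeries (Option σ) M) _ (MvPowerSeries.X none)) ∧
      γ' θ = algebraMap (MvPowerSeries (Option σ) M) _ η /
        algebraMap (MvPowerSeries (Option σ) M) _ (MvPowerSeries.X none) ∧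
      algebraMap (MvPowerSeries (Option σ) M) (Fr (MvPowerSeries (Option σ) M))
        (MvPowerSeries.X none) ≠ 0 := by
  let φ0 : MP (Option σ) K →+* MvPowerSeries (Option σ) M := tay (algebraMap K M) 0
  let φ : MP (Option σ) K →+* Fr (MvPowerSeries (Option σ) M) := (algebraMap _ _).comp φ0
  have hφ : Function.Injective φ :=
    (IsFractionRing.injective (MvPowerSeries (Option σ) M) _).comp (tay_inj _ _)
  have hX : ∀ i, φ (MvPolynomial.X i) =
      algebraMap (MvPowerSeries (Option σ) M) _ (MvPowerSeries.X i) := fun i => by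
    simp [φ, φ0, tay]
  have hC : ∀ a, φ (MvPolynomial.C a) =
      algebraMap (MvPowerSeries (Option σ) M) _ (MvPowerSeries.C (algebraMap K M a)) := fun a => by
    simp [φ, φ0, tay]
  obtain ⟨χt, hm, ht, he⟩ := c.exists_tilde
  have hcc : (MvPowerSeries.constantCoeff : MvPowerSeries (Option σ) M →+* M).comp φ0 =
      (algebraMap K M).comp MvPolynomial.constantCoeff := by
    ext : 1
    · ext : 1; simp [φ0, tay]
    · simp [φ0, tay]
  have hev : ∀ q : (MP (Option σ) K)[X], (q.map φ0).eval₂ MvPowerSeries.constantCoeff z =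
      Polynomial.aeval z (q.map MvPolynomial.constantCoeff) := fun q => by
    rw [Polynomial.eval₂_map, hcc, Polynomial.aeval_def, Polynomial.eval₂_map]
  obtain ⟨η, ⟨h1, h2⟩, -⟩ := lv_hensel (χt.map φ0) (hm.map _) z (by rw [hev, ht, hz]) (by
    rw [Polynomial.derivative_map, hev, ← Polynomial.derivative_map, ht]
    exact (Polynomial.Separable.aeval_derivative_ne_zero c.sep hz).isUnit)
  have h0 : φ (MvPolynomial.X none) ≠ 0 := by
    rw [Ne, map_eq_zero_iff _ hφ]
    exact MvPolynomial.X_ne_zero _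
  have h3 := he _ (φ.comp MvPolynomial.C) (fun i => φ (MvPolynomial.X i))
    (algebraMap (MvPowerSeries (Option σ) M) _ η) h0
  have h4 : ev (φ.comp MvPolynomial.C) (fun i => φ (MvPolynomial.X i))
      (algebraMap (MvPowerSeries (Option σ) M) _ η) χt = 0 := by
    have e : MvPolynomial.eval₂Hom (φ.comp MvPolynomial.C) (fun i => φ (MvPolynomial.X i)) = φ := by
      ext <;> simp
    rw [ev_def, e, ← Polynomial.hom_eval₂, ← Polynomial.eval_map, h1, map_zero]
  rw [h4] at h3
  have h5 : c.χ.eval₂ (flpHom φ) (algebraMap (MvPowerSeries (Option σ) M) _ η /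
      φ (MvPolynomial.X none)) = 0 :=
    (mul_eq_zero.1 h3.symm).resolve_left (pow_ne_zero _ h0)
  obtain ⟨γ', h6, h7⟩ := PChart.FF.lift hG h (lz_inj hφ) h5
  refine ⟨γ', η, h2, fun a => ?_, ?_, fun j => ?_, ?_, ?_⟩
  · rw [h6, ← hC]; simp [flpHom]
  · rw [h6, ← hX]; simp [flpHom]
  · rw [h6, ← hX, ← hX]; simp [flpHom]
  · rw [h7, hX]
  · rwa [← hX]

/-- `τ ↦ 1 / s_0`, `ξ_i ↦ s_i / s_0` (`flpHom`, `lz_inj`, `tay_inj`), `θ ↦ η / s_0` with the Hensel root
`η` of `exists_tilde`; `normalise` with `i₀ = some none`; `lam` from `exists_he`. -/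
theorem Var.Fld.inf_germ (h : X.Fld c F' θ γ) (hG : c.GI) {M : Type} [Field M] [Algebra K M]
    [Algebra k M] [IsScalarTower k K M] {z : M} (hz : Polynomial.aeval z c.top = 0) :
    ∃ (γ' : F' →+* Fr (MvPowerSeries (Option σ) M)) (x : Fin (X.N + 1) → M)
      (lam : Fr (MvPowerSeries (Option σ) M) →+* LaurentSeries (RF σ M)),
      X.GermT (γ'.comp γ) x ∧ (∀ i, MvPolynomial.eval₂ (algebraMap K M) x (c.f (skip i)) = 0) ∧
      PChart.InfEmb (K := K) θ z (lam.comp γ') ∧
      lam.comp (cC (Option σ) M) = (PChart.cst σ M).comp MvPolynomial.C := by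
  obtain ⟨γ', η, h1, hC, hN, hS, hθ, h0⟩ := inf_emb hG h.ff hz
  let φ1 : K →+* MvPowerSeries (Option σ) M := MvPowerSeries.C.comp (algebraMap K M)
  have eK : γ'.comp ((toE (MP (Option σ) K) F').comp MvPolynomial.C) =
      (algebraMap (MvPowerSeries (Option σ) M) _).comp φ1 := RingHom.ext hC
  have hz' := h.zer.comp γ'
  rw [eK] at hz'
  obtain ⟨c0, cX, -⟩ := h.coord
  have ef : ∀ G, MvPolynomial.eval₂ ((algebraMap (MvPowerSeries (Option σ) M)
      (Fr (MvPowerSeries (Option σ) M))).comp φ1) (fun i => γ' (γ (X.g i))) G =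
      γ' (MvPolynomial.eval₂ ((toE (MP (Option σ) K) F').comp MvPolynomial.C)
        (fun i => γ (X.g i)) G) := fun G => by
    rw [MvPolynomial.eval₂_comp_left, eK]; rfl
  have c1 : ∀ i, γ' (MvPolynomial.eval₂ ((toE (MP (Option σ) K) F').comp MvPolynomial.C)
      (fun i => γ (X.g i)) (c.f (some i))) = γ' (toE (MP (Option σ) K) F' (MvPolynomial.X i)) *
      γ' (MvPolynomial.eval₂ ((toE (MP (Option σ) K) F').comp MvPolynomial.C)
        (fun i => γ (X.g i)) (c.f none)) := fun i => by
    rw [← map_mul, ← cX i, Chart.xi, div_mul_cancel₀ _ c0]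
  have c0' := (map_ne_zero γ').2 c0
  have hs : ∀ i, MvPolynomial.eval₂ ((algebraMap (MvPowerSeries (Option σ) M)
      (Fr (MvPowerSeries (Option σ) M))).comp φ1) (fun i => γ' (γ (X.g i))) (c.f (skip i)) =
      algebraMap (MvPowerSeries (Option σ) M) _ (MvPowerSeries.X i) *
      MvPolynomial.eval₂ ((algebraMap (MvPowerSeries (Option σ) M)
        (Fr (MvPowerSeries (Option σ) M))).comp φ1) (fun i => γ' (γ (X.g i)))
          (c.f (some none)) := fun i => by
    rw [ef, ef, c1 none, hN]
    cases i with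
    | none => rw [← mul_assoc, mul_inv_cancel₀ h0, one_mul]; rfl
    | some j =>
      rw [← mul_assoc, ← div_eq_mul_inv, ← hS, ← c1]; rfl
  have := lv_normal M (Option σ)
  have : IsDomain (MvPowerSeries (Option σ) M) := NoZeroDivisors.to_isDomain _
  obtain ⟨u, y, j, hu, hy, hj, -⟩ := c.normalise φ1 hz' (i₀ := some none) (by
    rw [ef, c1, hN]; exact mul_ne_zero (inv_ne_zero h0) c0') (fun i => by
    rcases i with _ | _ | i
    · exact ⟨_, hs none⟩
    · exact ⟨1, by rw [map_one, one_mul]⟩
    · exact ⟨_, hs (some i)⟩)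
  have ey : ∀ i, algebraMap (MvPowerSeries (Option σ) M) (Fr (MvPowerSeries (Option σ) M))
      (MvPolynomial.eval₂ φ1 y (c.f i)) = u ^ c.d * MvPolynomial.eval₂
        ((algebraMap (MvPowerSeries (Option σ) M) (Fr (MvPowerSeries (Option σ) M))).comp φ1)
        (fun i => γ' (γ (X.g i))) (c.f i) := fun i => by
    rw [MvPolynomial.eval₂_comp_left, ← inf_hom (c.hf i)]
    congr 1
    exact funext hy
  obtain ⟨S, hSi, hSC, hSN, hSS, hS0⟩ := exists_he M σ
  have hi : Function.Injective ((HahnSeries.ofPowerSeries ℤ (RF σ M)).comp S) :=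
    HahnSeries.ofPowerSeries_injective.comp hSi
  let lam : Fr (MvPowerSeries (Option σ) M) →+* LaurentSeries (RF σ M) := IsFractionRing.lift hi
  have hl : ∀ p, lam (algebraMap (MvPowerSeries (Option σ) M) _ p) =
      HahnSeries.ofPowerSeries ℤ (RF σ M) (S p) := fun p => IsFractionRing.lift_algebraMap hi p
  have lN : lam (algebraMap (MvPowerSeries (Option σ) M) _ (MvPowerSeries.X none)) =
      HahnSeries.single 1 1 := by rw [hl, hSN, PowerSeries.coe_X]
  have lN0 : (HahnSeries.single 1 1 : LaurentSeries (RF σ M)) ≠ 0 := by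
    rw [← lN]; exact (map_ne_zero lam).2 h0
  have lC : ∀ a : M, lam (algebraMap (MvPowerSeries (Option σ) M) _ (MvPowerSeries.C a)) =
      PChart.cst σ M (MvPolynomial.C a) := fun a => by
    rw [hl, hSC, PowerSeries.coe_C]; rfl
  refine ⟨γ', fun i => MvPowerSeries.constantCoeff (y i), lam, ⟨fun a => ?_, fun e => ?_,
    u, y, fun i => ⟨hy i, rfl⟩⟩, fun i => ?_, ⟨fun p => ?_, ?_, S η, ?_, ?_⟩, RingHom.ext lC⟩
  · rw [RingHom.comp_apply, h.dom.1, h.alg, hC, ← IsScalarTower.algebraMap_apply]
  · have := congrFun e j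
    rw [hj, map_one] at this
    exact one_ne_zero this
  · have e1 : MvPolynomial.eval₂ φ1 y (c.f (skip i)) =
        MvPowerSeries.X i * MvPolynomial.eval₂ φ1 y (c.f (some none)) := by
      apply IsFractionRing.injective (MvPowerSeries (Option σ) M) (Fr (MvPowerSeries (Option σ) M))
      rw [map_mul, ey, ey, hs, mul_left_comm]
    have e2 := congrArg MvPowerSeries.constantCoeff e1
    rw [map_mul, MvPowerSeries.constantCoeff_X, zero_mul, MvPolynomial.eval₂_comp_left] at e2
    have e3 : (MvPowerSeries.constantCoeff : MvPowerSeries (Option σ) M →+* M).comp φ1 =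
        algebraMap K M := by
      ext a
      simp [φ1]
    rw [e3] at e2
    exact e2
  · have e : ((lam.comp γ').comp (toE (MP (Option σ) K) F')).comp
        (MvPolynomial.rename some : MP σ K →ₐ[K] MP (Option σ) K).toRingHom =
        (PChart.cst σ M).comp (MvPolynomial.map (algebraMap K M)) := by
      refine MvPolynomial.ringHom_ext (fun a => ?_) fun j => ?_
      · change lam (γ' (toE _ F' (MvPolynomial.rename some (MvPolynomial.C a)))) =
          PChart.cst σ M (MvPolynomial.map _ (MvPolynomial.C a))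
        rw [MvPolynomial.rename_C, hC, lC, MvPolynomial.map_C]
      · change lam (γ' (toE _ F' (MvPolynomial.rename some (MvPolynomial.X j)))) =
          PChart.cst σ M (MvPolynomial.map _ (MvPolynomial.X j))
        rw [MvPolynomial.rename_X, hS, map_div₀, lN, hl, hSS, map_mul, PowerSeries.coe_X,
          PowerSeries.coe_C, mul_div_cancel_right₀ _ lN0, MvPolynomial.map_X]
        rfl
    exact DFunLike.congr_fun e p
  · rw [RingHom.comp_apply, hN, map_inv₀, lN, HahnSeries.inv_single, inv_one]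
  · rw [RingHom.comp_apply, hθ, map_div₀, lN, hl, div_mul_cancel₀ _ lN0]
  · rw [hS0, h1]

/-- `M = K(z)` for a root `z` of the top form -/
theorem Var.Fld.h2_of (h : X.Fld c F' θ γ) (hG : c.GI) {a : BR F'}
    (H : ∀ (M : Type) [Field M] [Algebra K M] [Algebra k M] [IsScalarTower k K M]
      (γ' : F' →+* Fr (MvPowerSeries (Option σ) M)) (x : Fin (X.N + 1) → M), X.GermT (γ'.comp γ) x →
      (∀ i, MvPolynomial.eval₂ (algebraMap K M) x (c.f (skip i)) = 0) →
        ∃ β : BR M, rs γ' a = rs (cC (Option σ) M) β) : c.H2 F' θ a := by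
  obtain ⟨hm, hd⟩ := c.top_monic
  obtain ⟨M, _, _, _, z, hz, hz'⟩ := inf_root hm (hd ▸ c.pos)
  let : Algebra k M := ((algebraMap K M).comp (algebraMap k K)).toAlgebra
  have : IsScalarTower k K M := IsScalarTower.of_algebraMap_eq fun _ => rfl
  have : CharZero F' := charZero_of_injective_algebraMap (algebraMap k F').injective
  have : CharZero M := charZero_of_injective_algebraMap (algebraMap k M).injective
  obtain ⟨γ', x, lam, h1, h2, h3, h4⟩ := h.inf_germ hG hz
  obtain ⟨β, hβ⟩ := H M γ' x h1 h2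
  refine ⟨M, inferInstance, inferInstance, inferInstance, z, lam.comp γ', β, hz, hz', h3, ?_⟩
  exact ((inf_comp γ' lam a).symm.trans (congrArg (rs lam) hβ)).trans
    ((inf_comp _ lam β).trans (congrArg (fun f => rs f β) h4))

theorem hk : HK := by
  intro k _ _ X K _ _ σ _ c F' _ _ _ θ γ hG h a ha
  have : CharZero X.F := charZero_of_injective_algebraMap (algebraMap k X.F).injective
  refine ⟨fun P v hP _ hc => lr_brauer ha γ fun x hx => ?_, h.h2_of hG fun M _ _ _ _ γ' x h1 _ => ?_⟩
  · rw [RingHom.comp_apply, h.dom.1, h.alg]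
    refine le_antisymm (hc.1 _) (not_lt.1 fun hl => hP.not_isUnit ?_)
    exact isUnit_of_dvd_unit ((hc.2 _).1 hl)
      ((((map_ne_zero (algebraMap k K)).2 hx).isUnit).map MvPolynomial.C)
  · obtain ⟨β, hβ⟩ := Var.brauer_germT ha h1
    exact ⟨β, (inf_comp γ γ' a).trans hβ⟩

end Pool.Agent.ZCy
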