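import Pool.Agent.Lib.MP_751085_ag.ZC.L.Need

/-! Residue maps. -/

namespace Pool.Agent.ZCy

open scoped Classical WithZero Polynomial
open groupCohomology

set_option linter.unusedSectionVars false

variable {K E Ω Ω' : Type} [Field K] [Field E] [Field Ω] [Field Ω']

theorem exists_redL (w : Vl E) : ∃ (Ω : Type) (_ : Field Ω) (ρ : w.integer →+* Ω), IsRed w ρ := by
  refine ⟨IsLocalRing.ResidueField w.valuationSubring, inferInstance,
    IsLocalRing.residue w.valuationSubring, fun x => ?_⟩
  exact (IsLocalRing.residue_eq_zero_iff (R := w.valuationSubring) x).trans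
    (Valuation.mem_maximalIdeal_iff (v := w) (a := x))

theorem red_lt {V : Vl K} (J : E →+* K) {w : Vl E} (e : ∀ z, w z ≤ 1 ↔ V (J z) ≤ 1) (z : E) :
    w z < 1 ↔ V (J z) < 1 := by
  rcases eq_or_ne z 0 with rfl | hz
  · simp
  have h1 : 0 < w z := zero_lt_iff.2 ((Valuation.ne_zero_iff w).2 hz)
  have h2 : 0 < V (J z) := zero_lt_iff.2 ((Valuation.ne_zero_iff V).2 ((map_ne_zero J).2 hz))
  have h := e z⁻¹
  rw [map_inv₀, map_inv₀, map_inv₀, inv_le_one₀ h1, inv_le_one₀ h2] at h
  rw [← not_le, ← not_le, h]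

/-- transport of a residue map along an embedding that induces an equivalent valuation -/
theorem IsRed.comap {V : Vl K} {ρ : V.integer →+* Ω} (h : IsRed V ρ) (J : E →+* K) {w : Vl E}
    (e : ∀ z, w z ≤ 1 ↔ V (J z) ≤ 1) : ∃ ρ' : w.integer →+* Ω, IsRed w ρ' ∧
      ∀ (y : w.integer) (y' : V.integer), (y' : K) = J y → ρ' y = ρ y' := by
  let f : w.integer →+* V.integer :=
    (J.comp w.integer.subtype).codRestrict V.integer fun y => (e y).1 y.2
  refine ⟨ρ.comp f, fun y => (h (f y)).trans (red_lt J e y).symm, fun y y' hy => ?_⟩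
  have : f y = y' := Subtype.ext hy.symm
  rw [RingHom.comp_apply, this]

theorem IsRed.red_congr {w : Vl E} {ρ : w.integer →+* Ω} {ρ' : w.integer →+* Ω'} (h : IsRed w ρ)
    (h' : IsRed w ρ') {y y' : w.integer} (e : ρ y = ρ y') : ρ' y = ρ' y' := by
  rw [← sub_eq_zero, ← map_sub] at e ⊢
  exact (h' _).2 ((h _).1 e)

/-- a subfield of the residue field, seen through a second residue map -/
theorem IsRed.transfer {w : Vl E} {ρ : w.integer →+* Ω} {ρ' : w.integer →+* Ω'} (h : IsRed w ρ)
    (h' : IsRed w ρ') {j : K →+* Ω} (hj : j.range ≤ ρ.range) :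
    ∃ j' : K →+* Ω', ∀ (y : w.integer) (z : K), ρ y = j z → ρ' y = j' z := by
  have hs : ∀ z : K, ∃ y, ρ y = j z := fun z => hj ⟨z, rfl⟩
  choose s hs using hs
  have key : ∀ (y : w.integer) (z : K), ρ y = j z → ρ' y = ρ' (s z) := fun y z e =>
    h.red_congr h' (e.trans (hs z).symm)
  refine ⟨{ toFun := fun z => ρ' (s z)
            map_one' := ?_
            map_mul' := fun a b => ?_
            map_zero' := ?_
            map_add' := fun a b => ?_ }, key⟩
  · rw [← key 1 1 (by rw [map_one, map_one]), map_one]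
  · rw [← key (s a * s b) (a * b) (by rw [map_mul, map_mul, hs, hs]), map_mul]
  · rw [← key 0 0 (by rw [map_zero, map_zero]), map_zero]
  · rw [← key (s a + s b) (a + b) (by rw [map_add, map_add, hs, hs]), map_add]

theorem Cen.red_one {A : Type} [CommRing A] {ψ : A →+* E} {w : Vl E} {P : A} (hw : Cen ψ w P)
    {b : A} (hb : ¬P ∣ b) : w (ψ b) = 1 :=
  le_antisymm (hw.1 b) (not_lt.1 fun h => hb ((hw.2 b).1 h))

/-- an integral fraction has a denominator prime to the centre -/
theorem Cen.red_frac {A : Type} [CommRing A] [IsDomain A] [UniqueFactorizationMonoid A]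
    {ψ : A →+* E} {w : Vl E} {P : A} (hP : Prime P) (hw : Cen ψ w P) (a b : A)
    (h : w (ψ a / ψ b) ≤ 1) : ∃ a' b', ¬P ∣ b' ∧ ψ a / ψ b * ψ b' = ψ a' := by
  by_cases hb : ψ b = 0
  · exact ⟨0, 1, hP.not_dvd_one, by simp [hb]⟩
  have hb0 : b ≠ 0 := fun e => hb (by rw [e, map_zero])
  obtain ⟨a', b', c, hr, rfl, rfl⟩ := UniqueFactorizationMonoid.exists_reduced_factors' a b hb0
  have hc : ψ c ≠ 0 := fun e => hb (by rw [map_mul, e, zero_mul])
  have hb' : ψ b' ≠ 0 := fun e => hb (by rw [map_mul, e, mul_zero])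
  have e : ψ (c * a') / ψ (c * b') * ψ b' = ψ a' := by
    rw [map_mul, map_mul, mul_div_mul_left _ _ hc, div_mul_cancel₀ _ hb']
  refine ⟨a', b', fun hd => ?_, e⟩
  have ha : ¬P ∣ a' := fun ha => hP.not_isUnit (hr ha hd)
  have h1 := hw.red_one ha
  rw [← e, map_mul] at h1
  exact (mul_lt_one_of_nonneg_of_lt_one_right h zero_le ((hw.2 b').2 hd)).ne h1

/-- two residue maps that agree on `φ(A)` agree on the integers of the fraction field of `A` -/
theorem IsRed.ext_cen {A : Type} [CommRing A] [IsDomain A] [UniqueFactorizationMonoid A]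
    [Algebra K E] {φ : A →+* K} (hi : Function.Injective φ) (hs : ∀ z, ∃ a b, z = φ a / φ b)
    {P : A} (hP : Prime P) {w : Vl E} (hw : Cen ((algebraMap K E).comp φ) w P)
    {ρ ρ' : w.integer →+* Ω} (h : IsRed w ρ) (h' : IsRed w ρ')
    (e : ∀ (a : A) (y : w.integer), (y : E) = algebraMap K E (φ a) → ρ' y = ρ y) (z : K)
    (y : w.integer) (hy : (y : E) = algebraMap K E z) : ρ' y = ρ y := by
  have _ := hi
  have _ := h'
  obtain ⟨a, b, rfl⟩ := hs z
  rw [map_div₀] at hy
  obtain ⟨a', b', hb, hab⟩ := hw.red_frac hP a b (by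
    rw [RingHom.comp_apply, RingHom.comp_apply, ← hy]
    exact y.2)
  simp only [RingHom.comp_apply] at hab
  rw [← hy] at hab
  let ya : w.integer := ⟨_, hw.1 a'⟩
  let yb : w.integer := ⟨_, hw.1 b'⟩
  have hm : y * yb = ya := Subtype.ext hab
  have h0 : ρ yb ≠ 0 := fun h0 => ((h yb).1 h0).ne (hw.red_one hb)
  apply mul_right_cancel₀ h0
  rw [← map_mul, hm, ← e a' ya rfl, ← e b' yb rfl, ← map_mul, hm]

/-- the valuation of a prime with a prescribed residue map -/
theorem exists_val_red {T : Type} [CommRing T] [IsDomain T] [UniqueFactorizationMonoid T] {P : T}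
    (hP : Prime P) (φ : T →+* Ω) (hφ : ∀ a, φ a = 0 ↔ P ∣ a) :
    ∃ (V : Vl (Fr T)) (ρ : V.integer →+* Ω), Cen (algebraMap T (Fr T)) V P ∧
      V (algebraMap T (Fr T) P) = WithZero.exp (-1) ∧ IsRed V ρ ∧
      (∀ (a : T) (y : V.integer), (y : Fr T) = algebraMap T _ a → ρ y = φ a) ∧
      ∀ (S : Fr T →+* Fr T) (S₀ : T →+* T) (S' : Ω →+* Ω),
        (∀ a, S (algebraMap T _ a) = algebraMap T _ (S₀ a)) → Associated (S₀ P) P →
        (∀ a, φ (S₀ a) = S' (φ a)) → (∀ z, V (S z) = V z) ∧
          ∀ y y' : V.integer, (y' : Fr T) = S y → ρ y' = S' (ρ y) := by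
  obtain ⟨V, hV, hπ⟩ := lv_prime (K := Fr T) hP
  have hi : Function.Injective (algebraMap T (Fr T)) := IsFractionRing.injective T (Fr T)
  have hrep : ∀ y : V.integer, ∃ a b, ¬P ∣ b ∧
      (y : Fr T) * algebraMap T _ b = algebraMap T _ a := fun y => by
    obtain ⟨a, b, -, hab⟩ := IsFractionRing.div_surjective (A := T) (y : Fr T)
    have := hV.red_frac hP a b (by
      rw [hab]
      exact y.2)
    rwa [hab] at this
  choose s t ht hst using hrep
  have ht0 : ∀ y, φ (t y) ≠ 0 := fun y h => ht y ((hφ _).1 h)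
  have key : ∀ (y : V.integer) a b, (y : Fr T) * algebraMap T _ b = algebraMap T _ a →
      φ (s y) / φ (t y) * φ b = φ a := fun y a b h => by
    have e : s y * b = a * t y := hi (by
      rw [map_mul, map_mul, ← hst, ← h]
      ring)
    rw [div_mul_eq_mul_div, ← map_mul, e, map_mul, mul_div_cancel_right₀ _ (ht0 y)]
  let ρ : V.integer →+* Ω :=
    { toFun := fun y => φ (s y) / φ (t y)
      map_one' := by simpa using key 1 1 1 (by simp)
      map_zero' := by simpa using key 0 0 1 (by simp)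
      map_mul' := fun y y' => by
        have h := key (y * y') (s y * s y') (t y * t y') (by
          rw [map_mul, map_mul, ← hst, ← hst, Subring.coe_mul]
          ring)
        rw [map_mul, map_mul] at h
        rw [div_mul_div_comm, eq_div_iff (mul_ne_zero (ht0 y) (ht0 y')), h]
      map_add' := fun y y' => by
        have h := key (y + y') (s y * t y' + t y * s y') (t y * t y') (by
          rw [map_add, map_mul, map_mul, map_mul, ← hst, ← hst, Subring.coe_add]
          ring)
        rw [map_add, map_mul, map_mul, map_mul] at h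
        rw [div_add_div _ _ (ht0 y) (ht0 y'), eq_div_iff (mul_ne_zero (ht0 y) (ht0 y')), h] }
  have key' : ∀ (y : V.integer) a b, (y : Fr T) * algebraMap T _ b = algebraMap T _ a →
      ρ y * φ b = φ a := key
  refine ⟨V, ρ, hV, hπ, fun y => ?_, fun a y hy => ?_, fun S S₀ S' h1 h2 h3 => ⟨?_, ?_⟩⟩
  · have e : V y = V (algebraMap T _ (s y)) := by
      rw [← hst, map_mul, hV.red_one (ht y), mul_one]
    rw [e, hV.2, ← hφ, ← key' y _ _ (hst y), mul_eq_zero, or_iff_left (ht0 y)]
  · simpa using key' y a 1 (by simpa using hy)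
  · have hnd : ∀ a, ¬P ∣ a → ¬P ∣ S₀ a := fun a ha hd => by
      rw [← hφ, h3, map_eq_zero, hφ] at hd
      exact ha hd
    have hT : ∀ a, V (algebraMap T _ (S₀ a)) = V (algebraMap T _ a) := fun a => by
      rcases eq_or_ne a 0 with rfl | ha
      · rw [map_zero S₀]
      obtain ⟨n, a', ha', rfl⟩ := WfDvdMonoid.max_power_factor' ha hP.not_isUnit
      obtain ⟨u, hu⟩ := h2
      have hu1 := hV.red_one (b := u) fun hd => hP.not_isUnit (isUnit_of_dvd_unit hd u.isUnit)
      have hP' : V (algebraMap T _ (S₀ P)) = V (algebraMap T _ P) := by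
        conv_rhs => rw [← hu, map_mul, map_mul, hu1, mul_one]
      simp only [map_mul, map_pow]
      rw [hP', hV.red_one ha', hV.red_one (hnd _ ha')]
    intro z
    obtain ⟨a, b, -, rfl⟩ := IsFractionRing.div_surjective (A := T) z
    rw [map_div₀, h1, h1, map_div₀, map_div₀, hT, hT]
  · intro y y' hy
    have h := key' y' (S₀ (s y)) (S₀ (t y)) (by rw [hy, ← h1, ← h1, ← map_mul, hst])
    rw [h3, h3, ← key' y _ _ (hst y), map_mul] at h
    exact mul_right_cancel₀ ((map_ne_zero S').2 (ht0 y)) h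

/-- residues are algebraic over the residues of the base: normalise an algebraic relation so that
the largest coefficient is `1` -/
theorem IsRed.alg [Algebra K E] [FiniteDimensional K E] {w : Vl E} {ρ : w.integer →+* Ω}
    (h : IsRed w ρ) (y : w.integer) : ∃ Q : Polynomial Ω, Q ≠ 0 ∧ Q.eval (ρ y) = 0 ∧
      ∀ i, ∃ (a : K) (z : w.integer), (z : E) = algebraMap K E a ∧ Q.coeff i = ρ z := by
  have _ := h
  obtain ⟨p, hp, hy⟩ := Algebra.IsAlgebraic.isAlgebraic (R := K) (y : E)
  obtain ⟨n, hn, hmax⟩ := p.support.exists_max_image (fun i => w (algebraMap K E (p.coeff i)))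
    (Polynomial.support_nonempty.2 hp)
  have hc : p.coeff n ≠ 0 := Polynomial.mem_support_iff.1 hn
  have hw : 0 < w (algebraMap K E (p.coeff n)) :=
    zero_lt_iff.2 ((Valuation.ne_zero_iff w).2 ((map_ne_zero _).2 hc))
  have hco : ∀ i, ((Polynomial.C (p.coeff n)⁻¹ * p).map (algebraMap K E)).coeff i =
      algebraMap K E ((p.coeff n)⁻¹ * p.coeff i) := fun i => by
    rw [Polynomial.coeff_map, Polynomial.coeff_C_mul]
  obtain ⟨q, hq⟩ := (Polynomial.mem_lifts _).1 ((Polynomial.lifts_iff_coeff_lifts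
    (f := w.integer.subtype) ((Polynomial.C (p.coeff n)⁻¹ * p).map (algebraMap K E))).2 fun i => by
      refine ⟨⟨algebraMap K E ((p.coeff n)⁻¹ * p.coeff i), ?_⟩, (hco i).symm⟩
      rw [Valuation.mem_integer_iff, map_mul, map_inv₀, map_mul, map_inv₀,
        inv_mul_le_one₀ hw]
      by_cases hi : i ∈ p.support
      · exact hmax i hi
      · rw [Polynomial.notMem_support_iff.1 hi, map_zero, map_zero]
        exact zero_le)
  have hqc : ∀ i, (q.coeff i : E) = algebraMap K E ((p.coeff n)⁻¹ * p.coeff i) := fun i => by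
    rw [← hco, ← hq, Polynomial.coeff_map]
    rfl
  refine ⟨q.map ρ, fun h0 => ?_, ?_, fun i => ⟨_, q.coeff i, hqc i, Polynomial.coeff_map _ _⟩⟩
  · have h1 : q.coeff n = 1 := Subtype.ext (by rw [hqc, inv_mul_cancel₀ hc, map_one]; rfl)
    have h2 := Polynomial.coeff_map ρ n (p := q)
    rw [h0, h1, map_one, Polynomial.coeff_zero] at h2
    exact zero_ne_one h2
  · have h1 : q.eval y = 0 := Subtype.ext (by
      have h2 := Polynomial.eval₂_at_apply w.integer.subtype y (p := q)
      rw [← Polynomial.eval_map, hq, Polynomial.eval_map, ← Polynomial.aeval_def, map_mul] at h2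
      change _ * Polynomial.aeval (y : E) p = ((q.eval y : w.integer) : E) at h2
      rw [← h2, hy, mul_zero]
      rfl)
    rw [Polynomial.eval_map, Polynomial.eval₂_at_apply, h1, map_zero]

/-- roots of unity are units, and are told apart by their residues -/
theorem IsRed.root_inj {w : Vl E} {ρ : w.integer →+* Ω} (h : IsRed w ρ) {m : ℕ}
    (hm : w (m : E) = 1) {y y' : w.integer} (h1 : (y : E) ^ m = 1) (h2 : (y' : E) ^ m = 1)
    (e : ρ y = ρ y') : y = y' := by
  have hm0 : m ≠ 0 := by
    rintro rfl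
    simp at hm
  have hy : y ^ m = 1 := Subtype.ext h1
  have hy' : y' ^ m = 1 := Subtype.ext h2
  have h3 := geom_sum₂_mul y y' m
  rw [hy, hy', sub_self, mul_eq_zero, sub_eq_zero] at h3
  refine h3.resolve_left fun h4 => ?_
  have h5 := congrArg ρ h4
  simp only [map_sum, map_mul, map_pow, map_zero, e] at h5
  rw [geom_sum₂_self, mul_eq_zero] at h5
  rcases h5 with h5 | h5
  · rw [← map_natCast ρ, h] at h5
    exact h5.ne hm
  · have h6 := congrArg ρ hy'
    rw [map_pow, pow_eq_zero_iff' .. |>.1 h5 |>.1, zero_pow hm0, map_one] at h6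
    exact zero_ne_one h6

theorem root_val {w : Vl E} {m : ℕ} (hm : m ≠ 0) {z : E} (h : z ^ m = 1) : w z = 1 := by
  have h1 := congrArg w h
  rw [map_pow, map_one] at h1
  exact (pow_eq_one_iff_of_nonneg zero_le hm).1 h1

/-- a monic polynomial that splits: the roots of the reduction are reductions of roots -/
theorem IsRed.root_lift {A : Type} [CommRing A] {w : Vl E} {ρ : w.integer →+* Ω} (φ : A →+* w.integer)
    {h : A[X]} (hm : h.Monic) (hs : (h.map (w.integer.subtype.comp φ)).Splits) {z : Ω}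
    (hz : h.eval₂ (ρ.comp φ) z = 0) : ∃ y : w.integer, h.eval₂ φ y = 0 ∧ ρ y = z := by
  rw [← Polynomial.map_map] at hs
  have hm' := hm.map φ
  have hs' : (h.map φ).Splits := Polynomial.Splits.of_splits_map_of_injective
    Subtype.val_injective hs fun a ha => by
      have hi : IsIntegral w.integer a := ⟨h.map φ, hm', by
        rw [← Polynomial.eval_map]
        exact Polynomial.isRoot_of_mem_roots ha⟩
      exact ⟨⟨a, (Valuation.integer.integers w).mem_of_integral hi⟩, rfl⟩
  have h0 : (h.map φ).map ρ ≠ 0 := (hm'.map ρ).ne_zero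
  have hr : z ∈ ((h.map φ).map ρ).roots := by
    rw [Polynomial.mem_roots h0, Polynomial.IsRoot.def, Polynomial.map_map, Polynomial.eval_map]
    exact hz
  rw [hs'.roots_map_of_ne_zero h0, Multiset.mem_map] at hr
  obtain ⟨y, hy, rfl⟩ := hr
  refine ⟨y, ?_, rfl⟩
  rw [← Polynomial.eval_map]
  exact Polynomial.isRoot_of_mem_roots hy

end Pool.Agent.ZCy
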