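import Pool.Agent.Lib.MP_751085_ag.ZC.L.Ev1
import Pool.Agent.Lib.MP_751085_ag.ZC.L.Sum

/-! Values along arcs. -/

namespace Pool.Agent.ZCy

open scoped Classical WithZero Polynomial
open groupCohomology

set_option linter.unusedSectionVars false

variable {k : Type} [Field k] [CharZero k] {X : Var k} {n : ℕ}

theorem arc_root {K σ : Type} [Field K] {c : PChart K σ} {F : Type} [Field F]
    [Algebra (RF (Option σ) K) F] {θ : F} (h : c.FF F θ) {B : Type} [CommRing B]
    {ψ : MP (Option σ) K →+* B} {γ' : F →+* Fr B} {η : B}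
    (h1 : ∀ p, γ' (toE _ F p) = algebraMap _ _ (ψ p)) (h2 : γ' θ = algebraMap _ _ η) :
    c.χ.eval₂ ψ η = 0 := by
  apply IsFractionRing.injective B (Fr B)
  have e : γ'.comp (toE (MP (Option σ) K) F) = (algebraMap B (Fr B)).comp ψ := RingHom.ext h1
  have := congrArg γ' h.1
  rw [Polynomial.hom_eval₂, e, h2, map_zero] at this
  rw [Polynomial.hom_eval₂, this, map_zero]

theorem arc_map_inj {A B ι : Type} [CommRing A] [CommRing B] {φ : A →+* B}
    (h : Function.Injective φ) :
    Function.Injective (MvPowerSeries.map φ : MvPowerSeries ι A →+* MvPowerSeries ι B) := by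
  intro a b e
  ext m
  apply h
  rw [← MvPowerSeries.coeff_map, ← MvPowerSeries.coeff_map, e]

theorem arc_hom {A B ι : Type} [CommRing A] [CommRing B] [Algebra k A] [Algebra k B] (g : A →+* B)
    (hg : ∀ a, g (algebraMap k A a) = algebraMap k B a) (y : ι → A) (G : MP ι k) :
    g (MvPolynomial.eval₂ (algebraMap k A) y G) =
      MvPolynomial.eval₂ (algebraMap k B) (fun i => g (y i)) G := by
  rw [MvPolynomial.eval₂_comp_left]
  congr 1
  exact RingHom.ext hg

/-- Take a good chart at the closed point. The coordinates `ξ(y)`, `θ(y)` are power series in `s`.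
`ξ ↦ ξ(y) + t` in `M⟦s, t⟧` (`exists_sumR`; injective because its image in `(Fr M⟦s⟧)⟦t⟧` is `tay`) gives
by `chart_germ` a germ at the closed point whose image `T ∘ γ` is a germ at `y`. -/
theorem Var.arc_germ (hC : CHF) (hN : N1) (hX : X.Nice n) (hn : 3 ≤ n) {M τ : Type} [Field M]
    [Algebra k M] [Finite τ] {y : Fin (X.N + 1) → MvPowerSeries τ M}
    (h0 : (fun i => MvPowerSeries.constantCoeff (y i)) ≠ 0)
    (hy : ∀ G ∈ X.I, MvPolynomial.aeval y G = 0) :
    ∃ (ι : Type) (_ : Finite ι) (γ : X.F →+* Fr (MvPowerSeries (τ ⊕ ι) M))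
      (T : Fr (MvPowerSeries (τ ⊕ ι) M) →+* Fr (MvPowerSeries ι (Fr (MvPowerSeries τ M)))),
      X.GermT γ (fun i => MvPowerSeries.constantCoeff (y i)) ∧
      X.GermT (T.comp γ) (fun i => algebraMap (MvPowerSeries τ M) (Fr (MvPowerSeries τ M)) (y i)) ∧
      T.comp (cC (τ ⊕ ι) M) = (cC ι (Fr (MvPowerSeries τ M))).comp (cC τ M) := by
  have hcc : ∀ a, MvPowerSeries.constantCoeff (algebraMap k (MvPowerSeries τ M) a) =
      algebraMap k M a := fun a => by simp [MvPowerSeries.algebraMap_apply]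
  have hL : ∀ a, algebraMap (MvPowerSeries τ M) (Fr (MvPowerSeries τ M))
      (algebraMap k (MvPowerSeries τ M) a) = algebraMap k (Fr (MvPowerSeries τ M)) a :=
    fun a => (IsScalarTower.algebraMap_apply k _ _ a).symm
  have hiL := IsFractionRing.injective (MvPowerSeries τ M) (Fr (MvPowerSeries τ M))
  have hz : ∀ {B : Type} [CommRing B] [Algebra k B] (g : MvPowerSeries τ M →+* B),
      (∀ a, g (algebraMap k _ a) = algebraMap k B a) →
      ∀ G ∈ X.I, MvPolynomial.aeval (fun i => g (y i)) G = 0 := fun g hg G hG => by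
    rw [MvPolynomial.aeval_def, ← arc_hom g hg, ← MvPolynomial.aeval_def, hy G hG, map_zero]
  obtain ⟨σ, _, c, F', _, _, _, θ, γ₀, hG, hF, hU⟩ :=
    Var.good_chart hC hN hX hn (x := fun i => MvPowerSeries.constantCoeff (y i)) ⟨h0, hz _ hcc⟩
  obtain ⟨r, hr⟩ := c.toPChart.D_dvd_br
  obtain ⟨hχ0, hD0, u, hu, hpv⟩ := Chart.Off.coord hU
    ((Var.zer_IKL (algebraMap k M) (fun _ => rfl) _).2 (hz _ hcc)) hr
  have hf0 : IsUnit (MvPolynomial.eval₂ (algebraMap k (MvPowerSeries τ M)) y (c.f none)) := by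
    rw [MvPowerSeries.isUnit_iff_constantCoeff, arc_hom _ hcc]
    exact hU.1.isUnit
  obtain ⟨w, hw⟩ := hf0.exists_right_inv
  have hdiv : ∀ {B : Type} [Field B] [Algebra k B] (g : MvPowerSeries τ M →+* B),
      (∀ a, g (algebraMap k _ a) = algebraMap k B a) → ∀ G : Fm X.N k,
      g (MvPolynomial.eval₂ (algebraMap k (MvPowerSeries τ M)) y G * w) =
        MvPolynomial.eval₂ (algebraMap k B) (fun i => g (y i)) G /
          MvPolynomial.eval₂ (algebraMap k B) (fun i => g (y i)) (c.f none) := fun g hg G => by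
    have := congrArg g hw
    rw [map_mul, map_one, arc_hom g hg] at this
    rw [map_mul, arc_hom g hg, div_eq_mul_inv, eq_inv_of_mul_eq_one_right this]
  obtain ⟨ξ, hξ⟩ : ∃ ξ : Option σ → MvPowerSeries τ M, ∀ i, ξ i =
      MvPolynomial.eval₂ (algebraMap k (MvPowerSeries τ M)) y (c.f (some i)) * w := ⟨_, fun _ => rfl⟩
  obtain ⟨t, ht⟩ : ∃ t : MvPowerSeries τ M, t =
      MvPolynomial.eval₂ (algebraMap k (MvPowerSeries τ M)) y c.th * w := ⟨_, rfl⟩
  have e1 : c.xi (algebraMap k M) (fun i => MvPowerSeries.constantCoeff (y i)) =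
      fun i => MvPowerSeries.constantCoeff (ξ i) := funext fun i => by
    rw [hξ, hdiv _ hcc]; rfl
  have e2 : c.tht (algebraMap k M) (fun i => MvPowerSeries.constantCoeff (y i)) =
      MvPowerSeries.constantCoeff t := by rw [ht, hdiv _ hcc]; rfl
  have e3 : c.xi (algebraMap k (Fr (MvPowerSeries τ M)))
      (fun i => algebraMap (MvPowerSeries τ M) (Fr (MvPowerSeries τ M)) (y i)) =
      fun i => algebraMap (MvPowerSeries τ M) (Fr (MvPowerSeries τ M)) (ξ i) := funext fun i => by
    rw [hξ, hdiv _ hL]; rfl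
  have e4 : c.tht (algebraMap k (Fr (MvPowerSeries τ M)))
      (fun i => algebraMap (MvPowerSeries τ M) (Fr (MvPowerSeries τ M)) (y i)) =
      algebraMap (MvPowerSeries τ M) (Fr (MvPowerSeries τ M)) t := by rw [ht, hdiv _ hL]; rfl
  rw [e1, e2] at hχ0 hpv
  rw [e1] at hD0
  have hDA : MvPowerSeries.constantCoeff
      (MvPolynomial.eval₂ (algebraMap k (MvPowerSeries τ M)) ξ c.D) ≠ 0 := by
    rwa [arc_hom _ hcc]
  have hOff : c.Off c.D (algebraMap k (Fr (MvPowerSeries τ M)))
      (fun i => algebraMap (MvPowerSeries τ M) (Fr (MvPowerSeries τ M)) (y i)) := by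
    refine ⟨?_, ?_⟩
    · rw [← arc_hom _ hL]
      exact (hf0.map _).ne_zero
    · rw [e3, ← arc_hom _ hL, map_ne_zero_iff _ hiL]
      intro e
      exact hDA (by rw [e, map_zero])
  obtain ⟨hχ1, hD1, u', hu', hpv'⟩ := Chart.Off.coord hOff
    ((Var.zer_IKL (algebraMap k (Fr (MvPowerSeries τ M))) (fun _ => rfl) _).2 (hz _ hL))
    (r := 1) (by rw [pow_one])
  rw [e3, e4] at hχ1 hpv'
  rw [e3] at hD1
  obtain ⟨S, hS, hS1, hS2, hS3, hS4⟩ := exists_sumR M τ (Option σ)
  choose ξ' hξ1 hξ2 using fun i => hS1 (ξ i)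
  obtain ⟨ψ, hψ⟩ : ∃ ψ : MP (Option σ) k →+* MvPowerSeries (τ ⊕ Option σ) M, ψ =
      MvPolynomial.eval₂Hom (MvPowerSeries.C.comp (algebraMap k M))
        fun i => ξ' i + MvPowerSeries.X (Sum.inr i) := ⟨_, rfl⟩
  have p1 : ∀ a, ψ (MvPolynomial.C a) = MvPowerSeries.C (algebraMap k M a) := fun a => by simp [hψ]
  have p2 : ∀ i, ψ (MvPolynomial.X i) = ξ' i + MvPowerSeries.X (Sum.inr i) := fun i => by simp [hψ]
  have q1 : S.comp ψ = tay (algebraMap k (MvPowerSeries τ M)) ξ := by
    refine MvPolynomial.ringHom_ext (fun a => ?_) fun i => ?_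
    · simp [tay, p1, hS2, MvPowerSeries.algebraMap_apply]
    · simp [tay, p2, hS3, hξ1]
  have q2 : ((MvPowerSeries.map (algebraMap (MvPowerSeries τ M) (Fr (MvPowerSeries τ M)))).comp
      S).comp ψ = tay (algebraMap k (Fr (MvPowerSeries τ M)))
        fun i => algebraMap (MvPowerSeries τ M) (Fr (MvPowerSeries τ M)) (ξ i) := by
    rw [RingHom.comp_assoc, q1]
    refine MvPolynomial.ringHom_ext (fun a => ?_) fun i => ?_
    · simp [tay, hL]
    · simp [tay]
  have q3 : MvPowerSeries.constantCoeff.comp ψ =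
      MvPolynomial.eval₂Hom (algebraMap k M) fun i => MvPowerSeries.constantCoeff (ξ i) := by
    refine MvPolynomial.ringHom_ext (fun a => ?_) fun i => ?_
    · simp [p1]
    · simp [p2, hξ2]
  have q4 : ∀ {B : Type} [CommRing B] (φ : k →+* B) (a : Option σ → B),
      MvPowerSeries.constantCoeff.comp (tay φ a) = MvPolynomial.eval₂Hom φ a :=
    fun φ a => RingHom.ext fun p => tay_cc φ a p
  have q5 : MvPowerSeries.constantCoeff.comp
      (MvPolynomial.eval₂Hom (algebraMap k (MvPowerSeries τ M)) ξ) =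
      MvPolynomial.eval₂Hom (algebraMap k M) fun i => MvPowerSeries.constantCoeff (ξ i) :=
    RingHom.ext fun p => arc_hom _ hcc ξ p
  have hti := tay_inj (algebraMap k (Fr (MvPowerSeries τ M)))
    fun i => algebraMap (MvPowerSeries τ M) (Fr (MvPowerSeries τ M)) (ξ i)
  have hψi : Function.Injective ψ := by
    rw [← q2, RingHom.coe_comp] at hti
    exact Function.Injective.of_comp hti
  obtain ⟨γ', η, g1, g2, g3, g4⟩ := hF.chart_germ hG ψ p1 hψi
    (θ₀ := MvPowerSeries.constantCoeff t) (by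
      change (MvPowerSeries.constantCoeff.comp ψ) c.D ≠ 0
      rw [q3]; exact hD0) (by rw [q3]; exact hχ0)
  have hD2 : MvPowerSeries.constantCoeff (tay (algebraMap k (Fr (MvPowerSeries τ M)))
      (fun i => algebraMap (MvPowerSeries τ M) (Fr (MvPowerSeries τ M)) (ξ i)) c.D) ≠ 0 := by
    rwa [tay_cc]
  have hχ2 : c.χ.eval₂ (MvPowerSeries.constantCoeff.comp (tay (algebraMap k (Fr (MvPowerSeries τ M)))
      fun i => algebraMap (MvPowerSeries τ M) (Fr (MvPowerSeries τ M)) (ξ i)))
      (algebraMap (MvPowerSeries τ M) (Fr (MvPowerSeries τ M)) t) = 0 := by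
    rw [q4]; exact hχ1
  obtain ⟨γ'', η'', k1, k2, k3, k4⟩ := hF.chart_germ hG _ (fun a => by simp [tay]) hti hD2 hχ2
  have : IsDomain (MvPowerSeries (τ ⊕ Option σ) M) := NoZeroDivisors.to_isDomain _
  have hRi : Function.Injective ((algebraMap (MvPowerSeries (Option σ) (Fr (MvPowerSeries τ M)))
      (Fr (MvPowerSeries (Option σ) (Fr (MvPowerSeries τ M))))).comp
      ((MvPowerSeries.map (algebraMap (MvPowerSeries τ M) (Fr (MvPowerSeries τ M)))).comp S)) :=
    (IsFractionRing.injective _ _).comp ((arc_map_inj hiL).comp hS)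
  have hT : ∀ z, frMap _ hRi (algebraMap _ _ z) = algebraMap _ _ (MvPowerSeries.map
      (algebraMap (MvPowerSeries τ M) (Fr (MvPowerSeries τ M))) (S z)) :=
    fun z => IsFractionRing.lift_algebraMap hRi z
  have hη := arc_root hF.ff g1 g2
  have ht1 : MvPowerSeries.constantCoeff (S η) = t := by
    refine (c.toPChart.root_unique (MvPolynomial.eval₂Hom (algebraMap k (MvPowerSeries τ M)) ξ) hDA
      (θ₀ := MvPowerSeries.constantCoeff t) (by rw [q5]; exact hχ0)).unique ⟨?_, ?_⟩ ⟨?_, rfl⟩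
    · have := congrArg (MvPowerSeries.constantCoeff.comp S) hη
      rw [Polynomial.hom_eval₂, map_zero, RingHom.comp_assoc, q1, q4] at this
      exact this
    · rw [hS4, g3]
    · apply hiL
      rw [← ev_def, map_ev, map_zero, ← hχ1]
      congr 1
  have hη2 : MvPowerSeries.map (algebraMap (MvPowerSeries τ M) (Fr (MvPowerSeries τ M))) (S η) =
      η'' := by
    refine (c.toPChart.root_unique _ hD2 hχ2).unique ⟨?_, ?_⟩ ⟨arc_root hF.ff k1 k2, k3⟩
    · have := congrArg ((MvPowerSeries.map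
        (algebraMap (MvPowerSeries τ M) (Fr (MvPowerSeries τ M)))).comp S) hη
      rw [Polynomial.hom_eval₂, map_zero, q2] at this
      exact this
    · rw [MvPowerSeries.constantCoeff_map, ht1]
  have hγ : (frMap _ hRi).comp γ' = γ'' := by
    refine PChart.FF.ext hF.ff (fun p => ?_) ?_
    · rw [RingHom.comp_apply, g1, hT, k1, ← q2]; rfl
    · rw [RingHom.comp_apply, g2, hT, k2, hη2]
  refine ⟨Option σ, inferInstance, γ'.comp γ₀, frMap _ hRi, ?_, ?_, RingHom.ext fun a => ?_⟩
  · have e : (fun i => MvPowerSeries.constantCoeff (ψ (MvPolynomial.X i))) =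
        fun i => MvPowerSeries.constantCoeff (ξ i) := funext fun i => by simp [p2, hξ2]
    rw [e, hpv] at g4
    have := g4.smul (inv_ne_zero hu)
    rwa [inv_smul_smul₀ hu] at this
  · simp only [tay_cc, MvPolynomial.eval₂_X] at k4
    rw [hpv'] at k4
    have := k4.smul (inv_ne_zero hu')
    rwa [inv_smul_smul₀ hu', ← hγ] at this
  · simp only [RingHom.comp_apply]
    rw [hT, hS2, MvPowerSeries.map_C]

end Pool.Agent.ZCy
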