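import Pool.Agent.Lib.MP_751085_ag.ZC.L.Need

/-! Points, germs and dominant points: elementary facts. -/

namespace Pool.Agent.ZCy

open scoped Classical WithZero Polynomial
open groupCohomology

set_option linter.unusedSectionVars false

variable {k : Type} [Field k] {X : Var k} {M M' τ : Type} [Field M] [Algebra k M] [Field M']
  [Algebra k M'] {x : Fin (X.N + 1) → M}

theorem bas_hom {R S σ : Type} [CommRing R] [CommRing S] {G : MvPolynomial σ R} {m : ℕ}
    (hG : G.IsHomogeneous m) (φ : R →+* S) (u : S) (z : σ → S) :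
    MvPolynomial.eval₂ φ (fun i => u * z i) G = u ^ m * MvPolynomial.eval₂ φ z G := by
  rw [MvPolynomial.eval₂_eq, MvPolynomial.eval₂_eq, Finset.mul_sum]
  refine Finset.sum_congr rfl fun d hd => ?_
  have h1 : ∑ i ∈ d.support, d i = m := by
    have := hG (MvPolynomial.mem_support_iff.1 hd)
    rw [← this, Finsupp.weight_apply, Finsupp.sum]
    simp
  simp only [mul_pow, Finset.prod_mul_distrib, Finset.prod_pow_eq_pow_sum, h1]
  ring

/-- the forms of `X` vanish at every multiple of the image of the generic point -/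
theorem bas_van {S : Type} [CommRing S] (γ : X.F →+* S) (u : S) {G : Fm X.N k} (hG : G ∈ X.I) :
    MvPolynomial.eval₂ (γ.comp (algebraMap k X.F)) (fun i => u * γ (X.g i)) G = 0 := by
  obtain ⟨⟨m, hm⟩, h0⟩ := hG
  rw [bas_hom hm]
  have : MvPolynomial.eval₂ (γ.comp (algebraMap k X.F)) (fun i => γ (X.g i)) G = 0 := by
    have h1 := MvPolynomial.eval₂_comp_left γ (algebraMap k X.F) X.g G
    rw [← MvPolynomial.aeval_def, h0, map_zero] at h1
    exact h1.symm
  rw [this, mul_zero]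

theorem Var.on_gL : X.On X.g := by
  refine ⟨fun h => ?_, fun G hG => hG.2⟩
  obtain ⟨i, hi⟩ := X.one
  rw [h] at hi
  exact zero_ne_one hi

theorem Var.On.mapL (φ : M →ₐ[k] M') (h : X.On x) : X.On (φ ∘ x) := by
  refine ⟨fun h0 => h.1 (funext fun i => ?_), fun G hG => ?_⟩
  · exact (map_eq_zero φ).1 (congrFun h0 i)
  · have h1 := MvPolynomial.eval₂_comp_left (φ : M →+* M') (algebraMap k M) x G
    rw [← MvPolynomial.aeval_def, h.2 G hG, map_zero, φ.comp_algebraMap] at h1
    exact h1.symm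

theorem Var.On.smulL (h : X.On x) {u : M} (hu : u ≠ 0) : X.On (u • x) := by
  refine ⟨smul_ne_zero hu h.1, fun G hG => ?_⟩
  obtain ⟨m, hm⟩ := hG.1
  have h1 := bas_hom hm (algebraMap k M) u x
  rw [← MvPolynomial.aeval_def, ← MvPolynomial.aeval_def, h.2 G hG, mul_zero] at h1
  exact h1

theorem Var.zer_IKL {K T : Type} [Field K] [Algebra k K] [CommRing T] [Algebra k T] (φ : K →+* T)
    (hφ : ∀ a, φ (algebraMap k K a) = algebraMap k T a) (y : Fin (X.N + 1) → T) :
    Zer (X.IK K) φ y ↔ ∀ G ∈ X.I, MvPolynomial.aeval y G = 0 := by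
  have e : φ.comp (algebraMap k K) = algebraMap k T := RingHom.ext hφ
  simp only [Var.IK, Zer, Set.forall_mem_image, MvPolynomial.eval₂_map, e, MvPolynomial.aeval_def]

theorem Var.Dom.on {γ : X.F →+* M} (h : X.Dom γ x) : X.On x := by
  obtain ⟨hγ, u, hu, hx⟩ := h
  have e : γ.comp (algebraMap k X.F) = algebraMap k M := RingHom.ext hγ
  refine ⟨fun h0 => ?_, fun G hG => ?_⟩
  · obtain ⟨i, hi⟩ := X.one
    have h1 := hx i
    rw [h0, hi, map_one, mul_one] at h1
    exact hu h1.symm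
  · have h1 := bas_van γ u hG
    rw [e] at h1
    rw [show x = fun i => u * γ (X.g i) from funext hx]
    exact h1

theorem Var.germ_iff {r : ℕ} (γ : X.F →+* Fr (MvPowerSeries (Fin r) M)) :
    X.Germ γ x ↔ X.GermT γ x := Iff.rfl

theorem bas_ser {γ : X.F →+* Fr (MvPowerSeries τ M)}
    (hγ : ∀ a, γ (algebraMap k _ a) = algebraMap (MvPowerSeries τ M) _
      (MvPowerSeries.C (algebraMap k M a)))
    {c : Fr (MvPowerSeries τ M)} {y : Fin (X.N + 1) → MvPowerSeries τ M}
    (hy : ∀ i, algebraMap _ _ (y i) = c * γ (X.g i)) {G : Fm X.N k} (hG : G ∈ X.I) :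
    MvPolynomial.aeval y G = 0 := by
  apply IsFractionRing.injective (MvPowerSeries τ M) (Fr (MvPowerSeries τ M))
  have e : γ.comp (algebraMap k X.F) =
      (algebraMap (MvPowerSeries τ M) _).comp (algebraMap k (MvPowerSeries τ M)) :=
    RingHom.ext fun a => by
      rw [RingHom.comp_apply, hγ, RingHom.comp_apply, MvPowerSeries.algebraMap_apply]
  have h1 := bas_van γ c hG
  rw [e] at h1
  rw [map_zero, MvPolynomial.aeval_def, MvPolynomial.eval₂_comp_left, ← h1]
  congr 1
  exact funext hy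

theorem Var.GermT.on {γ : X.F →+* Fr (MvPowerSeries τ M)} (h : X.GermT γ x) : X.On x := by
  obtain ⟨hγ, hx, c, y, hy⟩ := h
  refine ⟨hx, fun G hG => ?_⟩
  have h1 := congrArg MvPowerSeries.constantCoeff (bas_ser hγ (fun i => (hy i).1) hG)
  rw [map_zero, MvPolynomial.aeval_def, MvPolynomial.eval₂_comp_left] at h1
  have e : (MvPowerSeries.constantCoeff : MvPowerSeries τ M →+* M).comp
      (algebraMap k (MvPowerSeries τ M)) = algebraMap k M := RingHom.ext fun a => by
    rw [RingHom.comp_apply, MvPowerSeries.algebraMap_apply, MvPowerSeries.constantCoeff_C]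
  rw [e] at h1
  rw [MvPolynomial.aeval_def, ← h1]
  congr 1
  exact funext fun i => (hy i).2.symm

theorem Var.GermT.smul {γ : X.F →+* Fr (MvPowerSeries τ M)} (h : X.GermT γ x) {u : M} (hu : u ≠ 0) :
    X.GermT γ (u • x) := by
  obtain ⟨hγ, hx, c, y, hy⟩ := h
  refine ⟨hγ, smul_ne_zero hu hx, algebraMap (MvPowerSeries τ M) _ (MvPowerSeries.C u) * c,
    fun i => MvPowerSeries.C u * y i, fun i => ⟨?_, ?_⟩⟩
  · rw [map_mul, (hy i).1, mul_assoc]
  · rw [map_mul, (hy i).2, MvPowerSeries.constantCoeff_C]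
    rfl

/-- renaming the variables (`MvPowerSeries.renameEquiv`, `IsFractionRing.ringEquivOfRingEquiv`) -/
theorem Var.GermT.fin [Finite τ] {γ : X.F →+* Fr (MvPowerSeries τ M)} (h : X.GermT γ x) :
    ∃ (r : ℕ) (e : Fr (MvPowerSeries τ M) ≃+* Fr (MvPowerSeries (Fin r) M)),
      e.toRingHom.comp (cC τ M) = cC (Fin r) M ∧ X.Germ (e.toRingHom.comp γ) x := by
  obtain ⟨hγ, hx, c, y, hy⟩ := h
  obtain ⟨r, ⟨q⟩⟩ := Finite.exists_equiv_fin τ
  obtain ⟨f, hC, h0⟩ : ∃ f : MvPowerSeries τ M ≃+* MvPowerSeries (Fin r) M,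
      (∀ a : M, f (MvPowerSeries.C a) = MvPowerSeries.C a) ∧
      ∀ p, MvPowerSeries.constantCoeff (f p) = MvPowerSeries.constantCoeff p :=
    ⟨(MvPowerSeries.renameEquiv M q).toRingEquiv, fun a => MvPowerSeries.rename_C q a,
      fun p => MvPowerSeries.constantCoeff_rename q p⟩
  obtain ⟨e, he⟩ : ∃ e : Fr (MvPowerSeries τ M) ≃+* Fr (MvPowerSeries (Fin r) M),
      ∀ p : MvPowerSeries τ M, e.toRingHom (algebraMap (MvPowerSeries τ M) _ p) =
        algebraMap (MvPowerSeries (Fin r) M) _ (f p) :=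
    ⟨IsFractionRing.ringEquivOfRingEquiv f, fun p =>
      IsFractionRing.ringEquivOfRingEquiv_algebraMap f p⟩
  refine ⟨r, e, RingHom.ext fun a => ?_, fun a => ?_, hx, e.toRingHom c, fun i => f (y i),
    fun i => ⟨?_, ?_⟩⟩
  · rw [RingHom.comp_apply, RingHom.comp_apply, he, hC, RingHom.comp_apply]
  · rw [RingHom.comp_apply, hγ, he, hC]
  · rw [RingHom.comp_apply, ← map_mul, ← (hy i).1, he]
  · exact (h0 _).trans (hy i).2

theorem Var.GermT.map (φ : M →ₐ[k] M') {γ : X.F →+* Fr (MvPowerSeries τ M)} (h : X.GermT γ x) :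
    ∃ T : Fr (MvPowerSeries τ M) →+* Fr (MvPowerSeries τ M'),
      T.comp (cC τ M) = (cC τ M').comp (φ : M →+* M') ∧ X.GermT (T.comp γ) (φ ∘ x) := by
  have hon := h.on.mapL φ
  obtain ⟨hγ, hx, c, y, hy⟩ := h
  obtain ⟨f, hf, hC, h0⟩ : ∃ f : MvPowerSeries τ M →+* MvPowerSeries τ M', Function.Injective f ∧
      (∀ a : M, f (MvPowerSeries.C a) = MvPowerSeries.C (φ a)) ∧
      ∀ p, MvPowerSeries.constantCoeff (f p) = φ (MvPowerSeries.constantCoeff p) := by
    refine ⟨MvPowerSeries.map (φ : M →+* M'), fun p q e => MvPowerSeries.ext fun d => ?_,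
      fun a => MvPowerSeries.map_C _ a, fun p => MvPowerSeries.constantCoeff_map _ p⟩
    have h1 := congrArg (MvPowerSeries.coeff d) e
    rw [MvPowerSeries.coeff_map, MvPowerSeries.coeff_map] at h1
    exact (φ : M →+* M').injective h1
  have hi : Function.Injective
      ((algebraMap (MvPowerSeries τ M') (Fr (MvPowerSeries τ M'))).comp f) :=
    (IsFractionRing.injective _ _).comp hf
  obtain ⟨T, hT⟩ : ∃ T : Fr (MvPowerSeries τ M) →+* Fr (MvPowerSeries τ M'),
      ∀ p : MvPowerSeries τ M, T (algebraMap (MvPowerSeries τ M) _ p) =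
        algebraMap (MvPowerSeries τ M') _ (f p) :=
    ⟨IsFractionRing.lift hi, fun p => IsFractionRing.lift_algebraMap hi p⟩
  refine ⟨T, RingHom.ext fun a => ?_, fun a => ?_, hon.1, T c, fun i => f (y i), fun i => ⟨?_, ?_⟩⟩
  · rw [RingHom.comp_apply, RingHom.comp_apply, hT, hC, RingHom.comp_apply, RingHom.comp_apply]
    rfl
  · rw [RingHom.comp_apply, hγ, hT, hC, AlgHom.commutes]
  · rw [RingHom.comp_apply, ← map_mul, ← (hy i).1, hT]
  · exact (h0 _).trans (congrArg φ (hy i).2)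

theorem Var.Dom.germ {γ : X.F →+* M} (h : X.Dom γ x) (τ : Type) :
    X.GermT ((cC τ M).comp γ) x := by
  have hon := h.on
  obtain ⟨hγ, u, hu, hx⟩ := h
  refine ⟨fun a => ?_, hon.1, cC τ M u, fun i => MvPowerSeries.C (x i), fun i => ⟨?_, ?_⟩⟩
  · rw [RingHom.comp_apply, hγ]
    rfl
  · have h1 := congrArg (cC τ M) (hx i)
    rw [map_mul] at h1
    exact h1
  · exact MvPowerSeries.constantCoeff_C _

/-- the generic point of a germ is dominant -/
theorem Var.GermT.dom {γ : X.F →+* Fr (MvPowerSeries τ M)} (h : X.GermT γ x) :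
    ∃ y : Fin (X.N + 1) → MvPowerSeries τ M, (∀ i, MvPowerSeries.constantCoeff (y i) = x i) ∧
      (∀ G ∈ X.I, MvPolynomial.aeval y G = 0) ∧
      X.Dom γ fun i => algebraMap (MvPowerSeries τ M) (Fr (MvPowerSeries τ M)) (y i) := by
  obtain ⟨hγ, hx, c, y, hy⟩ := h
  refine ⟨y, fun i => (hy i).2, fun G hG => bas_ser hγ (fun i => (hy i).1) hG, fun a => ?_, c,
    fun hc => hx (funext fun i => ?_), fun i => (hy i).1⟩
  · rw [hγ, IsScalarTower.algebraMap_apply k (MvPowerSeries τ M) (Fr (MvPowerSeries τ M)),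
      MvPowerSeries.algebraMap_apply]
  · have h1 := (hy i).1
    rw [hc, zero_mul, map_eq_zero_iff _ (IsFractionRing.injective _ _)] at h1
    rw [← (hy i).2, h1, map_zero]
    rfl

variable [CharZero k]

theorem Var.const_iff {Ω : Type} [Field Ω] [Algebra M Ω] [IsAlgClosure M Ω] {r : ℕ}
    (γ : X.F →+* Fr (MvPowerSeries (Fin r) M)) (a : BR X.F) (β : Br M Ω) :
    X.Const γ a β ↔ rs γ a = ZCy.res (cC (Fin r) M) β := by
  have : CharZero X.F := charZero_of_injective_algebraMap (algebraMap k X.F).injective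
  have : CharZero (Fr (MvPowerSeries (Fin r) M)) := γ.charZero_iff γ.injective |>.1 inferInstance
  have : CharZero M := (cC (Fin r) M).charZero
  constructor
  · rintro ⟨δ, h1, h2⟩
    rw [la_isRes] at h1 h2
    exact h1.symm.trans h2
  · intro h
    exact ⟨rs γ a, (la_isRes _ _ _).2 rfl, (la_isRes _ _ _).2 h⟩

theorem bas_equiv {F A B : Type} [Field F] [Field A] [Field B] [CharZero F] [CharZero M]
    [CharZero B] (e : A ≃+* B) {γ : F →+* A} {c : M →+* A} {c' : M →+* B}
    (he : e.toRingHom.comp c = c') {a : BR F} {β : BR M}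
    (h : rs (e.toRingHom.comp γ) a = rs c' β) : rs γ a = rs c β := by
  have e0 : ∀ z, e.symm.toRingHom (e.toRingHom z) = z := e.symm_apply_apply
  have e1 : e.symm.toRingHom.comp (e.toRingHom.comp γ) = γ := RingHom.ext fun z => e0 _
  have e2 : e.symm.toRingHom.comp c' = c := by
    rw [← he]
    exact RingHom.ext fun z => e0 _
  have h1 : rs e.symm.toRingHom (rs (e.toRingHom.comp γ) a) =
      rs (e.symm.toRingHom.comp (e.toRingHom.comp γ)) a := la_comp _ _ a
  have h2 : rs e.symm.toRingHom (rs c' β) = rs (e.symm.toRingHom.comp c') β := la_comp _ _ β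
  rw [e1] at h1
  rw [e2] at h2
  rw [← h1, ← h2, h]

theorem Var.brauer_germT [Finite τ] {a : BR X.F} (ha : a ∈ X.Brauer)
    {γ : X.F →+* Fr (MvPowerSeries τ M)} (h : X.GermT γ x) :
    ∃ β : BR M, rs γ a = rs (cC τ M) β := by
  have : CharZero X.F := charZero_of_injective_algebraMap (algebraMap k X.F).injective
  have : CharZero M := charZero_of_injective_algebraMap (algebraMap k M).injective
  obtain ⟨r, e, he, hg⟩ := h.fin
  have : CharZero (Fr (MvPowerSeries (Fin r) M)) :=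
    (cC (Fin r) M).charZero_iff (cC (Fin r) M).injective |>.1 inferInstance
  obtain ⟨β, hβ⟩ := ha M r _ x hg
  exact ⟨β, bas_equiv e he ((Var.const_iff _ a β).1 hβ)⟩

theorem Var.mem_brauer {a : BR X.F} (h : ∀ (M : Type) [Field M] [Algebra k M] (r : ℕ)
    (γ : X.F →+* Fr (MvPowerSeries (Fin r) M)) (x : Fin (X.N + 1) → M), X.GermT γ x →
      ∃ β : BR M, rs γ a = rs (cC (Fin r) M) β) : a ∈ X.Brauer := by
  intro M _ _ r γ x hg
  obtain ⟨β, hβ⟩ := h M r γ x hg
  exact ⟨β, (Var.const_iff γ a β).2 hβ⟩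

end Pool.Agent.ZCy
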