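import Pool.Agent.Lib.MP_751085_ag.ZC.L.Fld
import Pool.Agent.Lib.MP_751085_ag.ZC.L.Red
import Pool.Agent.Lib.MP_751085_ag.ZC.L.Nrm
import Pool.Agent.Lib.MP_751085_ag.ZC.CAl1

/-! Divisorial valuations with a centre of codimension one, in two charts. -/

namespace Pool.Agent.ZCy

open scoped Classical WithZero Polynomial
open groupCohomology

set_option linter.unusedSectionVars false

variable {k : Type} [Field k] {Ω : Type} [Field Ω] [Algebra k Ω]

/-- a variable that occurs in `P` is omitted; the others are independent -/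
theorem rk_of_ker {ι : Type} [Fintype ι] {y : ι → Ω} {P : MP ι k} (hP : Prime P)
    (h : ∀ p, MvPolynomial.aeval y p = 0 ↔ P ∣ p) :
    (Fintype.card ι : ℕ∞) ≤ rk k (Set.range y) + 1 := by
  obtain ⟨Ω', _, _, y', -, h1, h2⟩ := exists_generic hP.ne_zero hP.not_isUnit
  have h3 := rk_add_one_le hP.ne_zero h1
  have h0 : 0 < Fintype.card ι := by
    have : (1 : ℕ∞) ≤ Fintype.card ι := le_add_self.trans h3
    exact_mod_cast this
  obtain ⟨j, hj⟩ := exists_indep_compl h2 h0
  have h4 : AlgebraicIndependent k fun i : {i // i ≠ j} => y i.1 := by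
    rw [algebraicIndependent_iff] at hj ⊢
    intro p hp
    have h5 : P ∣ MvPolynomial.rename Subtype.val p :=
      (h _).1 (by rw [MvPolynomial.aeval_rename]; exact hp)
    obtain ⟨q, hq⟩ := h5
    have h6 := congrArg (MvPolynomial.aeval y') hq
    rw [map_mul, h1, zero_mul, MvPolynomial.aeval_rename] at h6
    exact hj p h6
  rw [Fintype.card_congr (Equiv.optionSubtypeNe j).symm, Fintype.card_option, Nat.cast_add,
    Nat.cast_one]
  refine add_le_add_left ((rk_range_iff.2 h4).trans (rk_mono ?_)) 1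
  rintro _ ⟨i, rfl⟩
  exact ⟨i.1, rfl⟩

theorem cen_smul {R S ι : Type} [CommRing R] [CommRing S] {G : MP ι R} {m : ℕ}
    (hG : G.IsHomogeneous m) (φ : R →+* S) (u : S) (x : ι → S) :
    MvPolynomial.eval₂ φ (fun i => u * x i) G = u ^ m * MvPolynomial.eval₂ φ x G := by
  rw [MvPolynomial.eval₂_eq, MvPolynomial.eval₂_eq, Finset.mul_sum]
  refine Finset.sum_congr rfl fun e he => ?_
  simp only [mul_pow, Finset.prod_mul_distrib, Finset.prod_pow_eq_pow_sum]
  rw [← hG.degree_eq_sum_deg_support he]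
  ring

theorem cen_ev_smul {R S ι : Type} [CommRing R] [CommRing S] {H : (MP ι R)[X]} {m : ℕ}
    (hm : H.natDegree = m) (hH : ∀ i, (H.coeff i).IsHomogeneous (m - i)) (φ : R →+* S) (u : S)
    (ξ : ι → S) (z : S) : ev φ (fun i => u * ξ i) (u * z) H = u ^ m * ev φ ξ z H := by
  rw [ev_def, ev_def, Polynomial.eval₂_eq_sum_range, Polynomial.eval₂_eq_sum_range, Finset.mul_sum,
    hm]
  refine Finset.sum_congr rfl fun i hi => ?_
  have h1 : u ^ m = u ^ (m - i) * u ^ i := by
    rw [← pow_add, Nat.sub_add_cancel (Nat.lt_succ_iff.1 (Finset.mem_range.1 hi))]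
  rw [MvPolynomial.coe_eval₂Hom, MvPolynomial.coe_eval₂Hom, cen_smul (hH i), h1]
  ring

theorem cen_root {ι : Type} {H : (MP ι k)[X]} (hH : H.Monic) {s : Set Ω} {ξ : ι → Ω}
    (hξ : ∀ i, ξ i ∈ acl k s) {z : Ω} (hz : ev (algebraMap k Ω) ξ z H = 0) : z ∈ acl k s := by
  rw [ev_eq_eval] at hz
  refine mem_acl_of_root (hH.map _).ne_zero (fun i => ?_) hz
  rw [Polynomial.coeff_map]
  exact aeval_mem_acl hξ _

/-- the coordinates are algebraic over the ratios of the forms (`Chart.int`, `mem_acl_of_root`) -/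
theorem Chart.rk_le {σ : Type} {N : ℕ} {GG : Set (Fm N k)} (c : Chart k σ N GG)
    {x : Fin (N + 1) → Ω} (hx : Zer GG (algebraMap k Ω) x) {j : Fin (N + 1)} (hj : x j = 1)
    {i₀ : Option (Option σ)} (h0 : MvPolynomial.aeval x (c.f i₀) ≠ 0) {s : Set Ω}
    (hs : ∀ i, MvPolynomial.aeval x (c.f i) / MvPolynomial.aeval x (c.f i₀) ∈ acl k s) :
    rk k (Set.range x) ≤ rk k s := by
  have h1 : (MvPolynomial.aeval x (c.f i₀))⁻¹ ∈ acl k s := by
    obtain ⟨m, H, h1, h2, h3, h4⟩ := c.int j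
    have h5 := cen_ev_smul h2 h3 (algebraMap k Ω) (MvPolynomial.aeval x (c.f i₀))⁻¹
      (fun i => MvPolynomial.eval₂ (algebraMap k Ω) x (c.f i)) (x j ^ c.d)
    rw [h4 Ω _ x hx, mul_zero, hj, one_pow, mul_one] at h5
    refine cen_root h1 (fun i => ?_) h5
    rw [mul_comm, ← div_eq_mul_inv]
    exact hs i
  have h2 : ∀ i, MvPolynomial.eval₂ (algebraMap k Ω) x (c.f i) ∈ acl k s := fun i => by
    have h3 := div_mem (hs i) h1
    rwa [div_inv_eq_mul, div_mul_cancel₀ _ h0] at h3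
  refine rk_le_of_acl ?_
  rintro _ ⟨i, rfl⟩
  obtain ⟨m, H, h3, -, -, h4⟩ := c.int i
  have h5 := cen_root h3 h2 (h4 Ω _ x hx)
  refine mem_acl_of_root (P := Polynomial.X ^ c.d - Polynomial.C (x i ^ c.d))
    (Polynomial.monic_X_pow_sub_C _ c.dpos.ne').ne_zero (fun l => ?_) (by simp)
  rw [Polynomial.coeff_sub, Polynomial.coeff_X_pow, Polynomial.coeff_C]
  refine sub_mem ?_ ?_ <;> split_ifs
  exacts [one_mem _, zero_mem _, h5, zero_mem _]

theorem cen_factor {ι : Type} {y : ι → Ω} {G : MP ι k} (hG : G ≠ 0)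
    (h0 : MvPolynomial.aeval y G = 0) : ∃ m : MP ι k, Prime m ∧ MvPolynomial.aeval y m = 0 := by
  have hp : (RingHom.ker (MvPolynomial.aeval y : MP ι k →ₐ[k] Ω)).IsPrime := RingHom.ker_isPrime _
  obtain ⟨u, hu⟩ := (UniqueFactorizationMonoid.factors_prod hG).symm
  have h1 : (UniqueFactorizationMonoid.factors G).prod ∈
      RingHom.ker (MvPolynomial.aeval y : _ →ₐ[k] Ω) := hu ▸ Ideal.mul_mem_right _ _ h0
  obtain ⟨m, h2, h3⟩ := hp.multiset_prod_mem_iff_exists_mem _ |>.1 h1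
  exact ⟨m, UniqueFactorizationMonoid.prime_of_factor _ h2, h3⟩

section val

variable {E : Type} [Field E] {v : Vl E} {ρ : v.integer →+* Ω} {φ : k →+* v.integer}

theorem cen_div (hρ : IsRed v ρ) (a : v.integer) {b : v.integer} (hb : ρ b ≠ 0) :
    ∃ t : v.integer, (t : E) = a / b ∧ ρ t = ρ a / ρ b := by
  have h1 : v b = 1 := le_antisymm b.2 (not_lt.1 fun h => hb ((hρ b).2 h))
  have h2 : (b : E) ≠ 0 := fun h => by simp [h] at h1
  refine ⟨⟨a / b, ?_⟩, rfl, ?_⟩
  · rw [Valuation.mem_integer_iff, map_div₀, h1, div_one]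
    exact a.2
  · rw [eq_div_iff hb, ← map_mul]
    congr 1
    exact Subtype.ext (div_mul_cancel₀ _ h2)

theorem cen_res {ι : Type} (hφ : ρ.comp φ = algebraMap k Ω) (t : ι → v.integer) (p : MP ι k) :
    ρ (MvPolynomial.eval₂ φ t p) = MvPolynomial.aeval (fun i => ρ (t i)) p := by
  rw [MvPolynomial.eval₂_comp_left, hφ]
  rfl

theorem cen_val {ι : Type} (hρ : IsRed v ρ) (hφ : ρ.comp φ = algebraMap k Ω) {Φ : MP ι k →+* E}
    (hC : ∀ a, Φ (MvPolynomial.C a) = φ a) {t : ι → v.integer}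
    (hX : ∀ i, Φ (MvPolynomial.X i) = t i) (p : MP ι k) :
    v (Φ p) ≤ 1 ∧ (v (Φ p) < 1 ↔ MvPolynomial.aeval (fun i => ρ (t i)) p = 0) := by
  have e : Φ = v.integer.subtype.comp (MvPolynomial.eval₂Hom φ t) := by
    ext a
    · simpa using hC a
    · simpa using hX a
  rw [← cen_res hφ, hρ, e]
  exact ⟨(MvPolynomial.eval₂ φ t p).2, Iff.rfl⟩

theorem cen_of {ι : Type} [Fintype ι] (hρ : IsRed v ρ) (hφ : ρ.comp φ = algebraMap k Ω)
    {Φ : MP ι k →+* E} (hC : ∀ a, Φ (MvPolynomial.C a) = φ a) {t : ι → v.integer}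
    (hX : ∀ i, Φ (MvPolynomial.X i) = t i)
    (hr : (Fintype.card ι : ℕ∞) ≤ rk k (Set.range fun i => ρ (t i)) + 1) {P : MP ι k}
    (hP : Prime P) (h0 : MvPolynomial.aeval (fun i => ρ (t i)) P = 0) : Cen Φ v P := by
  refine ⟨fun p => (cen_val hρ hφ hC hX p).1, fun p => (cen_val hρ hφ hC hX p).2.trans
    ⟨ht1 hr hP.irreducible h0, ?_⟩⟩
  rintro ⟨q, rfl⟩
  rw [map_mul, h0, zero_mul]

end val

variable {X : Var k} {σ σ₂ : Type} [Fintype σ] [Fintype σ₂] {c : Chart k σ X.N (X.IK k)}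
  {c₂ : Chart k σ₂ X.N (X.IK k)} {F' F₂ : Type} [Field F'] [Algebra (RF (Option σ) k) F']
  [Algebra k F'] [Field F₂] [Algebra (RF (Option σ₂) k) F₂] [Algebra k F₂] {θ : F'} {θ₂ : F₂}
  {γ : X.F →+* F'} {γ₂ : X.F →+* F₂}

/-- `normalise` over the valuation ring for `c₂` and `i₀ = none`; the reduced point `x̄` has rank at
least `card σ₂` (`rk_of_ker`). If `f_n(x̄) ≠ 0` the coordinates `flpHom` are integral, their residues
have rank at least `card σ` (`rk_le`), some nonzero polynomial has positive value (`v` is not trivial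
on the image of `k(ξ)`, over which `F₂` is algebraic), take an irreducible factor and `ht1`. If
`f_n(x̄) = 0` then `f_0(x̄) ≠ 0` (otherwise `exists_ne`, `rk_le` give rank at most `card σ - 1`), and
`ht1` applies to `X none`. -/
theorem Var.Fld.centre (h : X.Fld c F' θ γ) (h₂ : X.Fld c₂ F₂ θ₂ γ₂)
    (hc : Fintype.card σ = Fintype.card σ₂) {ι : F' →+* F₂} (hι : ι.comp γ = γ₂) {v : Vl F₂}
    {P₂ : MP (Option σ₂) k} (hP : Prime P₂) (hv : Cen (toE _ F₂) v P₂) :
    Cen (ι.comp (toE (MP (Option σ) k) F')) v (MvPolynomial.X none) ∨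
      ∃ P, Prime P ∧ Cen (flpHom (ι.comp (toE (MP (Option σ) k) F'))) v P := by
  let ψ : k →+* F₂ := (toE (MP (Option σ₂) k) F₂).comp MvPolynomial.C
  let φ : k →+* v.integer := ψ.codRestrict v.integer fun a => hv.1 _
  have eψ : (algebraMap v.integer F₂).comp φ = ψ := RingHom.ext fun _ => rfl
  let ξ : Option σ₂ → v.integer := fun i =>
    ⟨toE (MP (Option σ₂) k) F₂ (MvPolynomial.X i), hv.1 _⟩
  obtain ⟨c1, c2, -⟩ := h₂.coord
  have hz : Zer (X.IK k) ψ fun i => γ₂ (X.g i) := h₂.zer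
  obtain ⟨u, y, j, hu, hy, hj, hun⟩ := c₂.normalise φ (x := fun i => γ₂ (X.g i)) (eψ ▸ hz)
    (i₀ := none) (eψ ▸ c1) (by
      rw [eψ]
      rintro (_ | i)
      · exact ⟨1, by simp⟩
      · exact ⟨ξ i, (div_eq_iff c1).1 (c2 i)⟩)
  have hF : ∀ {G : Fm X.N k} {m : ℕ}, G.IsHomogeneous m →
      ((MvPolynomial.eval₂ φ y G : v.integer) : F₂) =
        u ^ m * MvPolynomial.eval₂ ψ (fun i => γ₂ (X.g i)) G := fun {G m} hG => by
    rw [← cen_smul hG, ← eψ]
    refine (MvPolynomial.eval₂_comp_left (algebraMap v.integer F₂) φ y G).trans ?_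
    congr 1
    exact funext hy
  obtain ⟨Ω, _, ρ, hρ⟩ := exists_redL v
  let _ : Algebra k Ω := (ρ.comp φ).toAlgebra
  have hφ : ρ.comp φ = algebraMap k Ω := rfl
  have hzy : Zer (X.IK k) (algebraMap k Ω) fun i => ρ (y i) := by
    refine Zer.comp (φ := φ) (fun G hG => Subtype.ext ?_) ρ
    obtain ⟨G₀, ⟨⟨m, hm⟩, -⟩, rfl⟩ := id hG
    rw [hF (hm.map _), hz _ hG, mul_zero]
    rfl
  have hj' : (fun i => ρ (y i)) j = 1 := by simp [hj]
  have n2 : MvPolynomial.aeval (fun i => ρ (y i)) (c₂.f none) ≠ 0 := by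
    rw [← cen_res hφ]
    exact (hun.map ρ).ne_zero
  have hξ : ∀ i, MvPolynomial.aeval (fun i => ρ (y i)) (c₂.f (some i)) /
      MvPolynomial.aeval (fun i => ρ (y i)) (c₂.f none) = ρ (ξ i) := fun i => by
    rw [div_eq_iff n2, ← cen_res hφ, ← cen_res hφ, ← map_mul]
    congr 1
    refine Subtype.ext ?_
    rw [Subring.coe_mul, hF (c₂.hf _), hF (c₂.hf _), mul_left_comm]
    congr 1
    exact (div_eq_iff c1).1 (c2 i)
  have hk : ∀ p, MvPolynomial.aeval (fun i => ρ (ξ i)) p = 0 ↔ P₂ ∣ p := fun p =>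
    (cen_val hρ hφ (Φ := toE (MP (Option σ₂) k) F₂) (fun _ => rfl) (fun _ => rfl) p).2.symm.trans
      (hv.2 p)
  have r1 : (Fintype.card (Option σ) : ℕ∞) ≤ rk k (Set.range fun i => ρ (y i)) + 1 := by
    rw [Fintype.card_option, hc, ← Fintype.card_option]
    refine (rk_of_ker hP hk).trans (add_le_add_left (rk_le_of_acl ?_) 1)
    rintro _ ⟨i, rfl⟩
    have hm : ∀ l, (fun i => ρ (y i)) l ∈ acl k (Set.range fun i => ρ (y i)) := fun l =>
      mem_acl_of_mem ⟨l, rfl⟩
    simp only [← hξ]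
    exact div_mem (aeval_mem_acl hm _) (aeval_mem_acl hm _)
  have r2 : rk k (Set.range fun i => ρ (y i)) + 1 ≤ (Fintype.card (Option σ) : ℕ∞) := by
    rw [Fintype.card_option, hc, ← Fintype.card_option]
    refine (add_le_add_left (c₂.rk_le hzy hj' n2 ?_) 1).trans
      (rk_add_one_le hP.ne_zero ((hk _).2 dvd_rfl))
    rintro (_ | i)
    · rw [div_self n2]
      exact one_mem _
    · rw [hξ]
      exact mem_acl_of_mem ⟨i, rfl⟩
  -- the first chart
  have eC : ∀ a, ι (toE (MP (Option σ) k) F' (MvPolynomial.C a)) = ψ a := fun a => by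
    have e1 : toE (MP (Option σ) k) F' (MvPolynomial.C a) = γ (algebraMap k X.F a) :=
      (h.alg a).symm.trans (h.dom.1 a).symm
    rw [e1, ← RingHom.comp_apply, hι, h₂.dom.1 a, h₂.alg a]
    rfl
  have eF : ∀ G : Fm X.N k, ι (MvPolynomial.eval₂ ((toE (MP (Option σ) k) F').comp MvPolynomial.C)
      (fun i => γ (X.g i)) G) = MvPolynomial.eval₂ ψ (fun i => γ₂ (X.g i)) G := fun G => by
    rw [MvPolynomial.eval₂_comp_left, ← hι]
    congr 1
    exact RingHom.ext eC
  obtain ⟨d1, d2, -⟩ := h.coord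
  let Y : Option (Option σ) → v.integer := fun i => MvPolynomial.eval₂ φ y (c.f i)
  have hY : ∀ i, ρ (Y i) = MvPolynomial.aeval (fun i => ρ (y i)) (c.f i) := fun i => cen_res hφ _ _
  have eX : ∀ i, ι (toE (MP (Option σ) k) F' (MvPolynomial.X i)) = (Y (some i) : F₂) / Y none :=
    fun i => by
    rw [← d2 i, Chart.xi, map_div₀, eF, eF, hF (c.hf _), hF (c.hf _),
      mul_div_mul_left _ _ (pow_ne_zero _ hu)]
  have nY : (Y none : F₂) ≠ 0 := by
    rw [hF (c.hf _), ← eF]
    exact mul_ne_zero (pow_ne_zero _ hu) ((map_ne_zero ι).2 d1)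
  by_cases hn : ρ (Y (some none)) = 0
  · have hn0 : ρ (Y none) ≠ 0 := fun hn0 => by
      obtain ⟨i₀, hi₀⟩ := c.exists_ne hzy fun e => one_ne_zero (hj'.symm.trans (congrFun e j))
      rcases i₀ with _ | _ | i₀
      · exact hi₀ ((hY _).symm.trans hn0)
      · exact hi₀ ((hY _).symm.trans hn)
      rw [← MvPolynomial.aeval_def] at hi₀
      have h1 := c.rk_le hzy hj' (i₀ := some (some i₀)) hi₀ (s := (fun l =>
        MvPolynomial.aeval (fun i => ρ (y i)) (c.f (some (some l))) /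
          MvPolynomial.aeval (fun i => ρ (y i)) (c.f (some (some i₀)))) ''
            (Finset.univ.erase i₀ : Finset σ)) (by
          rintro (_ | _ | l)
          · rw [← hY none, hn0, zero_div]
            exact zero_mem _
          · rw [← hY (some none), hn, zero_div]
            exact zero_mem _
          · by_cases hl : l = i₀
            · rw [hl, div_self hi₀]
              exact one_mem _
            · exact mem_acl_of_mem ⟨l, by simpa using hl, rfl⟩)
      have h2 := r1.trans (add_le_add_left (h1.trans (rk_image_le _ _)) 1)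
      rw [Finset.card_erase_of_mem (Finset.mem_univ _), Finset.card_univ, Fintype.card_option] at h2
      have h3 : Fintype.card σ + 1 ≤ Fintype.card σ - 1 + 1 := by exact_mod_cast h2
      have h4 : 0 < Fintype.card σ := Fintype.card_pos_iff.2 ⟨i₀⟩
      omega
    choose t ht ht' using fun i => cen_div hρ (Y (some i)) hn0
    refine Or.inl (cen_of hρ hφ eC (fun i => (eX i).trans (ht i).symm) ?_ MvPolynomial.X_prime ?_)
    · refine r1.trans (add_le_add_left (c.rk_le hzy hj' (i₀ := none) (hY none ▸ hn0) ?_) 1)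
      rintro (_ | i)
      · rw [← hY, div_self hn0]
        exact one_mem _
      · rw [← hY, ← hY, ← ht']
        exact mem_acl_of_mem ⟨i, rfl⟩
    · rw [MvPolynomial.aeval_X, ht', hn, zero_div]
  · choose t ht ht' using fun i : Option σ => cen_div hρ (Y (i.elim none fun l => some (some l))) hn
    have hle : rk k (Set.range fun i => ρ (t i)) ≤ rk k (Set.range fun i => ρ (y i)) := by
      refine rk_le_of_acl ?_
      rintro _ ⟨i, rfl⟩
      have hm : ∀ l, (fun i => ρ (y i)) l ∈ acl k (Set.range fun i => ρ (y i)) := fun l =>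
        mem_acl_of_mem ⟨l, rfl⟩
      simp only [ht', hY]
      exact div_mem (aeval_mem_acl hm _) (aeval_mem_acl hm _)
    have hdep : ¬AlgebraicIndependent k fun i => ρ (t i) := fun hi => by
      have h1 := (add_le_add_left ((rk_range_iff.2 hi).trans hle) 1).trans r2
      have h2 : Fintype.card (Option σ) + 1 ≤ Fintype.card (Option σ) := by exact_mod_cast h1
      omega
    rw [algebraicIndependent_iff] at hdep
    push Not at hdep
    obtain ⟨p, hp, hp0⟩ := hdep
    obtain ⟨P, hP', hP0⟩ := cen_factor hp0 hp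
    refine Or.inr ⟨P, hP', cen_of hρ hφ (fun a => ?_) (fun i => ?_) ?_ hP' hP0⟩
    · rw [flpHom, MvPolynomial.eval₂Hom_C]
      exact eC a
    · rw [flpHom, MvPolynomial.eval₂Hom_X', ht]
      rcases i with _ | i
      · exact (congrArg Inv.inv (eX none)).trans (inv_div _ _)
      · exact (congrArg₂ HDiv.hDiv (eX (some i)) (eX none)).trans (div_div_div_cancel_right₀ nY _ _)
    · refine r1.trans (add_le_add_left (c.rk_le hzy hj' (i₀ := some none) (hY _ ▸ hn) ?_) 1)
      rintro (_ | _ | i)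
      · rw [← hY, ← hY]
        exact mem_acl_of_mem ⟨none, ht' none⟩
      · rw [← hY, div_self hn]
        exact one_mem _
      · rw [← hY, ← hY]
        exact mem_acl_of_mem ⟨some i, ht' (some i)⟩

end Pool.Agent.ZCy
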