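import Pool.Agent.Lib.MP_751085_ag.ZC.L.Rep

/-! All germs at a point give the same value. -/

namespace Pool.Agent.ZCy

open scoped Classical WithZero Polynomial
open groupCohomology

set_option linter.unusedSectionVars false

variable {k : Type} [Field k] [CharZero k] {X : Var k} {n : ℕ}

/-- there is a good chart with its function field at every point (`N1` with `H = 1`) -/
theorem Var.good_chart (hC : CHF) (hN : N1) (hX : X.Nice n) (hn : 3 ≤ n) {M : Type} [Field M]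
    [Algebra k M] {x : Fin (X.N + 1) → M} (hx : X.On x) :
    ∃ (σ : Type) (_ : Fintype σ) (c : Chart k σ X.N (X.IK k)) (F' : Type) (_ : Field F')
      (_ : Algebra (RF (Option σ) k) F') (_ : Algebra k F') (θ : F') (γ : X.F →+* F'),
      c.GI ∧ X.Fld c F' θ γ ∧ c.U (algebraMap k M) x := by
  obtain ⟨σ, _, c, h1, h2, -⟩ := hN k X n hX hn M {x} (by simpa using hx) 1
    ⟨0, MvPolynomial.isHomogeneous_one _ _⟩ fun h => one_ne_zero ((map_one _).symm.trans h.2)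
  obtain ⟨hG, F', _, _, _, θ, γ, h⟩ := Var.exists_fld hC hX c h1
  exact ⟨σ, ‹_›, c, F', _, _, _, θ, γ, hG, h, h2 x (Finset.mem_singleton_self x)⟩

theorem Var.ev_germ (hC : CHF) (hN : N1) (hX : X.Nice n) (hn : 3 ≤ n) {M : Type} [Field M]
    [Algebra k M] {x : Fin (X.N + 1) → M} (hx : X.On x) :
    ∃ (r : ℕ) (γ : X.F →+* Fr (MvPowerSeries (Fin r) M)), X.Germ γ x := by
  obtain ⟨σ, _, c, F', _, _, _, θ, γ, hG, h, hU⟩ := Var.good_chart hC hN hX hn hx
  obtain ⟨r, hr⟩ := c.toPChart.D_dvd_br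
  obtain ⟨h1, h2, u, hu, h3⟩ :=
    Chart.Off.coord hU ((Var.zer_IKL (algebraMap k M) (fun _ => rfl) x).2 hx.2) hr
  have h4 : MvPowerSeries.constantCoeff.comp (tay (algebraMap k M) (c.xi (algebraMap k M) x)) =
      MvPolynomial.eval₂Hom (algebraMap k M) (c.xi (algebraMap k M) x) :=
    RingHom.ext fun p => tay_cc _ _ p
  obtain ⟨γ', η, -, -, -, h5⟩ := h.chart_germ hG (tay (algebraMap k M) (c.xi (algebraMap k M) x))
    (fun a => by simp [tay]) (tay_inj _ _) (by rwa [tay_cc]) (θ₀ := c.tht (algebraMap k M) x)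
    (by rw [h4]; exact h1)
  simp only [tay_cc, MvPolynomial.eval₂_X] at h5
  have h6 := h5.smul (inv_ne_zero hu)
  rw [h3, inv_smul_smul₀ hu] at h6
  obtain ⟨r, e, -, h7⟩ := h6.fin
  exact ⟨r, _, h7⟩

/-- Theorem K and `rep`; `γ` is bijective -/
theorem Var.const_of (hZ : ZNP) (hK : ThmK) {σ : Type} [Fintype σ] {c : Chart k σ X.N (X.IK k)}
    {F' : Type} [Field F'] [Algebra (RF (Option σ) k) F'] [Algebra k F'] {θ : F'} {γ : X.F →+* F'}
    (hG : c.GI) (h : X.Fld c F' θ γ) {a : BR X.F} (h1 : c.H1 F' (rs γ a)) (h2 : c.H2 F' θ (rs γ a))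
    {M : Type} [Field M] [Algebra k M] {x : Fin (X.N + 1) → M} (hx : X.On x)
    (hU : c.U (algebraMap k M) x) : ∃ β : BR M, ∀ (τ : Type) [Finite τ]
      (γ₀ : X.F →+* Fr (MvPowerSeries τ M)), X.GermT γ₀ x → rs γ₀ a = rs (cC τ M) β := by
  have hΦ : c.Φ ≠ 0 := fun h0 => hU.2 (by simp [PChart.br, h0])
  obtain ⟨R⟩ := hK k σ c.toPChart F' θ hG h.ff hΦ _ h1 h2
  obtain ⟨r, hr⟩ := c.toPChart.D_dvd_br
  obtain ⟨β, hβ⟩ := rep hZ h hG hr R hx hU
  refine ⟨β, fun τ _ γ₀ hg => ?_⟩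
  have : CharZero X.F := charZero_of_injective_algebraMap (algebraMap k X.F).injective
  have e : (γ₀.comp (RingEquiv.ofBijective γ h.bij).symm.toRingHom).comp γ = γ₀ :=
    RingHom.ext fun z => congrArg γ₀ ((RingEquiv.ofBijective γ h.bij).symm_apply_apply z)
  rw [← hβ τ _ (e.symm ▸ hg), la_comp, e]

theorem Var.ev_spec (hZ : ZNP) (hK : ThmK) (hH : HK) (hC : CHF) (hN : N1) (hX : X.Nice n)
    (hn : 3 ≤ n) {a : BR X.F} (ha : a ∈ X.Brauer) {M τ : Type} [Field M] [Algebra k M] [Finite τ]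
    {γ : X.F →+* Fr (MvPowerSeries τ M)} {x : Fin (X.N + 1) → M} (hg : X.GermT γ x) :
    rs γ a = rs (cC τ M) (X.val a M x) := by
  obtain ⟨σ, _, c, F', _, _, _, θ, γ', hG, h, hU⟩ := Var.good_chart hC hN hX hn hg.on
  obtain ⟨h1, h2⟩ := hH k X k σ c F' θ γ' hG h a ha
  obtain ⟨β, hβ⟩ := Var.const_of hZ hK hG h h1 h2 hg.on hU
  obtain ⟨r, γ₁, h3⟩ := Var.ev_germ hC hN hX hn hg.on
  obtain ⟨r', γ₂, h4, h5⟩ := Classical.epsilon_spec (p := fun β : BR M => ∃ (r : ℕ)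
    (γ : X.F →+* Fr (MvPowerSeries (Fin r) M)), X.Germ γ x ∧ X.Const γ a β)
    ⟨β, r, γ₁, h3, (Var.const_iff _ _ _).2 (hβ _ γ₁ h3)⟩
  have : CharZero M := charZero_of_injective_algebraMap (algebraMap k M).injective
  have e : X.val a M x = β :=
    la_inj (Fin r') (((Var.const_iff _ _ _).1 h5).symm.trans (hβ _ γ₂ h4))
  rw [e, hβ τ γ hg]

end Pool.Agent.ZCy
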