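import Pool.Agent.Lib.MP_751085_ag.ZC.L.Arc

/-! The evaluation of Brauer classes. -/

namespace Pool.Agent.ZCy

open scoped Classical WithZero Polynomial
open groupCohomology

set_option linter.unusedSectionVars false

theorem ev2_on {k L : Type} [Field k] [Field L] [Algebra k L] {X : Var k}
    (x : X.Pt (AlgebraicClosure L)) :
    X.On (M := Var.res x) fun i => ⟨x.1 i, IntermediateField.subset_adjoin _ _ ⟨i, rfl⟩⟩ := by
  refine ⟨fun h => ?_, fun G hG => ?_⟩
  · obtain ⟨i, hi⟩ := x.2.1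
    exact one_ne_zero (hi.symm.trans (congrArg Subtype.val (congrFun h i)))
  · have : IsScalarTower k (Var.res x) (AlgebraicClosure L) :=
      IsScalarTower.of_algebraMap_eq fun _ => rfl
    apply (algebraMap (Var.res x) (AlgebraicClosure L)).injective
    rw [← MvPolynomial.aeval_algebraMap_apply, map_zero]
    exact x.2.2 G hG

theorem ev2_comp {K K' K'' : Type} [Field K] [Field K'] [Field K''] [CharZero K] (γ : K →+* K')
    (γ' : K' →+* K'') (a : BR K) : rs γ' (rs γ a) = rs (γ'.comp γ) a := la_comp γ γ' a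

theorem ev2_sq {K K₁ K₂ K' : Type} [Field K] [Field K₁] [Field K₂] [Field K'] [CharZero K]
    {f₁ : K →+* K₁} {g₁ : K₁ →+* K'} {f₂ : K →+* K₂} {g₂ : K₂ →+* K'}
    (e : g₁.comp f₁ = g₂.comp f₂) (a : BR K) : rs g₁ (rs f₁ a) = rs g₂ (rs f₂ a) := by
  rw [ev2_comp, ev2_comp, e]

theorem ev2_add {K K₁ K' : Type} [Field K] [Field K₁] [Field K'] {f : K →+* K'} {g : K₁ →+* K'}
    {a a' : BR K} {b b' : BR K₁} (e : rs f a = rs g b) (e' : rs f a' = rs g b') :
    rs f (a + a') = rs g (b + b') := by rw [map_add, map_add, e, e']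

theorem ev2_ns {K K₁ K' : Type} [Field K] [Field K₁] [Field K'] {f : K →+* K'} {g : K₁ →+* K'}
    {a : BR K} {b : BR K₁} (m : ℕ) (e : rs f a = rs g b) : rs f (m • a) = rs g (m • b) := by
  induction m with
  | zero => rw [zero_nsmul, zero_nsmul, map_zero, map_zero]
  | succ m ih =>
    rw [succ_nsmul, succ_nsmul]
    exact ev2_add ih e

theorem ev2_eps {k M Ω : Type} [Field k] [CharZero k] [Field M] [Algebra k M] [Field Ω]
    [Algebra M Ω] [IsAlgClosure M Ω] {X : Var k} {a : BR X.F} {x : Fin (X.N + 1) → M} {v : BR M}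
    (hx : ∃ (r : ℕ) (γ : X.F →+* Fr (MvPowerSeries (Fin r) M)), X.Germ γ x)
    (hs : ∀ (r : ℕ) (γ : X.F →+* Fr (MvPowerSeries (Fin r) M)), X.GermT γ x →
      rs γ a = rs (cC (Fin r) M) v) :
    Classical.epsilon (fun β : Br M Ω => ∃ (r : ℕ)
      (γ : X.F →+* FractionRing (MvPowerSeries (Fin r) M)), X.Germ γ x ∧ X.Const γ a β) =
      res (RingHom.id M) v := by
  have : CharZero M := charZero_of_injective_algebraMap (algebraMap k M).injective
  have h := Classical.epsilon_spec (p := fun β : Br M Ω => ∃ (r : ℕ)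
      (γ : X.F →+* FractionRing (MvPowerSeries (Fin r) M)), X.Germ γ x ∧ X.Const γ a β) (by
    obtain ⟨r, γ, hg⟩ := hx
    refine ⟨res (RingHom.id M) v, r, γ, hg, (Var.const_iff γ a _).2 ?_⟩
    rw [la_comp, RingHom.comp_id]
    exact hs r γ hg)
  generalize Classical.epsilon (α := Br M Ω) _ = β at h ⊢
  obtain ⟨r, γ, hg, hb⟩ := h
  have e : (res (RingHom.id M) β : BR M) = v := by
    apply la_inj (Fin r)
    rw [← hs r γ hg, (Var.const_iff γ a β).1 hb, la_comp, RingHom.comp_id]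
  rw [← e, la_comp, RingHom.comp_id, la_id]

/-- everything from `ev_germ`, `ev_spec`, `arc_germ`, `la_inj`, `la_comp` -/
theorem ev_of (hZ : ZNP) (hK : ThmK) (hH : HK) (hC : CHF) (hN : N1) : EV := by
  intro k _ _ X n hX hn
  have cz : ∀ (M : Type) [Field M] [Algebra k M], CharZero M := fun M _ _ =>
    charZero_of_injective_algebraMap (algebraMap k M).injective
  have := cz X.F
  have uq : ∀ a ∈ X.Brauer, ∀ (M τ : Type) [Field M] [Algebra k M] [Finite τ]
      (γ : X.F →+* Fr (MvPowerSeries τ M)) (x : Fin (X.N + 1) → M) (β : BR M), X.GermT γ x →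
      rs γ a = rs (cC τ M) β → X.val a M x = β := fun a ha M τ _ _ _ γ x β hg e => by
    have := cz M
    exact la_inj τ ((Var.ev_spec hZ hK hH hC hN hX hn ha hg).symm.trans e)
  have hadd : ∀ a ∈ X.Brauer, ∀ b ∈ X.Brauer, a + b ∈ X.Brauer := fun a ha b hb =>
    Var.mem_brauer fun M _ _ r γ x hg => by
      obtain ⟨β, e⟩ := Var.brauer_germT ha hg
      obtain ⟨β', e'⟩ := Var.brauer_germT hb hg
      exact ⟨β + β', ev2_add e e'⟩
  have hns : ∀ a ∈ X.Brauer, ∀ m : ℕ, m • a ∈ X.Brauer := fun a ha m =>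
    Var.mem_brauer fun M _ _ r γ x hg => by
      obtain ⟨β, e⟩ := Var.brauer_germT ha hg
      exact ⟨m • β, ev2_ns m e⟩
  have hc : ∀ (b : BR k) (M τ : Type) [Field M] [Algebra k M]
      (γ : X.F →+* Fr (MvPowerSeries τ M)) (x : Fin (X.N + 1) → M), X.GermT γ x →
      rs γ (rs (algebraMap k X.F) b) = rs (cC τ M) (rs (algebraMap k M) b) :=
    fun b M τ _ _ γ x hg => ev2_sq (RingHom.ext hg.1) b
  have hcb : ∀ b : BR k, rs (algebraMap k X.F) b ∈ X.Brauer := fun b =>
    Var.mem_brauer fun M _ _ r γ x hg => ⟨_, hc b M _ γ x hg⟩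
  have harc : ∀ a ∈ X.Brauer, ∀ (M τ : Type) [Field M] [Algebra k M] [Fintype τ]
      (y : Fin (X.N + 1) → MvPowerSeries τ M),
      (fun i => MvPowerSeries.constantCoeff (y i)) ≠ 0 → (∀ G ∈ X.I, MvPolynomial.aeval y G = 0) →
      X.val a (Fr (MvPowerSeries τ M)) (fun i => algebraMap (MvPowerSeries τ M) _ (y i)) =
        rs (cC τ M) (X.val a M fun i => MvPowerSeries.constantCoeff (y i)) :=
    fun a ha M τ _ _ _ y h0 hy => by
      have := cz M
      obtain ⟨ι, _, γ, T, g1, g2, e⟩ := Var.arc_germ hC hN hX hn h0 hy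
      refine uq a ha _ ι _ _ _ g2 ?_
      exact (ev2_comp γ T a).symm.trans
        ((congrArg (rs T) (Var.ev_spec hZ hK hH hC hN hX hn ha g1)).trans (ev2_sq e _))
  refine
    { germ := fun M _ _ x hx => Var.ev_germ hC hN hX hn hx
      spec := fun a ha M τ _ _ _ γ x hg => Var.ev_spec hZ hK hH hC hN hX hn ha hg
      zero := Var.mem_brauer fun M _ _ r γ x _ => ⟨0, (map_zero _).trans (map_zero _).symm⟩
      add := hadd
      nsmul := hns
      const := hcb
      val_add := fun a ha b hb M _ _ x hx => ?_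
      val_nsmul := fun a ha m M _ _ x hx => ?_
      val_const := fun b M _ _ x hx => ?_
      val_smul := fun a ha M _ _ x u hx hu => ?_
      val_map := fun a ha M M' _ _ _ _ φ x hx => ?_
      val_dom := fun a ha M _ _ γ x hd => ?_
      arc := fun a ha M _ _ y h0 hy => harc a ha M Unit y h0 hy
      arcT := harc
      eval := fun a ha L _ _ x => ?_ }
  · obtain ⟨r, γ, hg⟩ := Var.ev_germ hC hN hX hn hx
    exact uq _ (hadd a ha b hb) M _ γ x _ hg
      (ev2_add (Var.ev_spec hZ hK hH hC hN hX hn ha hg) (Var.ev_spec hZ hK hH hC hN hX hn hb hg))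
  · obtain ⟨r, γ, hg⟩ := Var.ev_germ hC hN hX hn hx
    exact uq _ (hns a ha m) M _ γ x _ hg (ev2_ns m (Var.ev_spec hZ hK hH hC hN hX hn ha hg))
  · obtain ⟨r, γ, hg⟩ := Var.ev_germ hC hN hX hn hx
    exact uq _ (hcb b) M _ γ x _ hg (hc b M _ γ x hg)
  · obtain ⟨r, γ, hg⟩ := Var.ev_germ hC hN hX hn hx
    exact uq a ha M _ γ _ _ (Var.GermT.smul hg hu) (Var.ev_spec hZ hK hH hC hN hX hn ha hg)
  · have := cz M
    obtain ⟨r, γ, hg⟩ := Var.ev_germ hC hN hX hn hx
    obtain ⟨T, e, hg'⟩ := Var.GermT.map φ hg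
    refine uq a ha M' _ _ _ _ hg' ?_
    exact (ev2_comp γ T a).symm.trans
      ((congrArg (rs T) (Var.ev_spec hZ hK hH hC hN hX hn ha hg)).trans (ev2_sq e _))
  · exact uq a ha M Unit _ x _ (hd.germ Unit) (ev2_comp _ _ _).symm
  · exact ev2_eps (Var.ev_germ hC hN hX hn (ev2_on x)) fun r γ hg =>
      Var.ev_spec hZ hK hH hC hN hX hn ha hg

end Pool.Agent.ZCy
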