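import Pool.Agent.Lib.MP_751085_ag.ZC.L.Bas
import Pool.Agent.Lib.MP_751085_ag.ZC.CMap

/-! The function field of a chart. -/

namespace Pool.Agent.ZCy

open scoped Classical WithZero Polynomial
open groupCohomology

set_option linter.unusedSectionVars false

section plane

variable {K σ : Type} [Field K] {c : PChart K σ} {F : Type} [Field F]
  [Algebra (RF (Option σ) K) F] {θ : F}

theorem toE_inj {A : Type} [CommRing A] [IsDomain A] (E : Type) [Field E] [Algebra (Fr A) E] :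
    Function.Injective (toE A E) :=
  (algebraMap (Fr A) E).injective.comp (IsFractionRing.injective A _)

theorem PChart.D_ne (c : PChart K σ) : c.D ≠ 0 := by
  obtain ⟨r, hr⟩ := c.dvd
  refine ne_zero_of_dvd_ne_zero (pow_ne_zero r fun h => c.tm.1.ne_zero ?_) hr
  rw [h]
  exact map_zero _

theorem PChart.GI.irr (h : c.GI) :
    Irreducible (c.χ.map (algebraMap (MP (Option σ) K) (RF (Option σ) K))) :=
  c.monic.irreducible_iff_irreducible_map_fraction_map.1
    (c.monic.irreducible_of_irreducible_map (S := MP (Option σ) (AlgebraicClosure K))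
      (MvPolynomial.map (algebraMap K (AlgebraicClosure K))) _ h)

theorem PChart.GI.exists_FF (h : c.GI) : ∃ (F : Type) (_ : Field F)
    (_ : Algebra (RF (Option σ) K) F) (θ : F), c.FF F θ := by
  have : Fact (Irreducible (c.χ.map (algebraMap (MP (Option σ) K) (RF (Option σ) K)))) := ⟨h.irr⟩
  refine ⟨AdjoinRoot (c.χ.map (algebraMap (MP (Option σ) K) (RF (Option σ) K))), inferInstance,
    inferInstance, AdjoinRoot.root _, ?_, IntermediateField.adjoin_root_eq_top _⟩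
  rw [← Polynomial.eval₂_map]
  exact AdjoinRoot.eval₂_root _

theorem fld_root (h : c.FF F θ) :
    Polynomial.aeval θ (c.χ.map (algebraMap (MP (Option σ) K) (RF (Option σ) K))) = 0 := by
  rw [Polynomial.aeval_def, Polynomial.eval₂_map]
  exact h.1

theorem fld_int (h : c.FF F θ) : IsIntegral (RF (Option σ) K) θ := ⟨_, c.monic.map _, fld_root h⟩

theorem fld_adj (h : c.FF F θ) : Algebra.adjoin (RF (Option σ) K) {θ} = ⊤ := by
  rw [← IntermediateField.adjoin_simple_toSubalgebra_of_isAlgebraic (fld_int h).isAlgebraic, h.2,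
    IntermediateField.top_toSubalgebra]

theorem fld_top (h : c.FF F θ) (S : Subfield F) (h1 : ∀ p, toE (MP (Option σ) K) F p ∈ S)
    (h2 : θ ∈ S) (z : F) : z ∈ S := by
  have h3 : ∀ a : RF (Option σ) K, algebraMap _ F a ∈ S := fun a => by
    obtain ⟨p, q, -, rfl⟩ := IsFractionRing.div_surjective (MP (Option σ) K) a
    rw [map_div₀]
    exact div_mem (h1 p) (h1 q)
  have h4 := IntermediateField.adjoin_simple_le_iff.2 (show θ ∈ S.toIntermediateField h3 from h2)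
  rw [h.2] at h4
  exact h4 IntermediateField.mem_top

theorem PChart.FF.fin (h : c.FF F θ) : FiniteDimensional (RF (Option σ) K) F :=
  (PowerBasis.ofAdjoinEqTop (fld_int h) (fld_adj h)).finite

theorem PChart.FF.lift (hG : c.GI) (h : c.FF F θ) {𝕃 : Type} [Field 𝕃] {ψ : MP (Option σ) K →+* 𝕃}
    (hi : Function.Injective ψ) {η : 𝕃} (hη : c.χ.eval₂ ψ η = 0) :
    ∃ γ : F →+* 𝕃, (∀ p, γ (toE _ F p) = ψ p) ∧ γ θ = η := by
  let _ : Algebra (RF (Option σ) K) 𝕃 := (IsFractionRing.lift hi).toAlgebra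
  have hj : (algebraMap (RF (Option σ) K) 𝕃).comp (algebraMap (MP (Option σ) K) _) = ψ :=
    RingHom.ext fun a => IsFractionRing.lift_algebraMap hi a
  let pb := PowerBasis.ofAdjoinEqTop (fld_int h) (fld_adj h)
  have h1 : Polynomial.aeval η (minpoly (RF (Option σ) K) pb.gen) = 0 := by
    rw [PowerBasis.ofAdjoinEqTop_gen,
      ← minpoly.eq_of_irreducible_of_monic hG.irr (fld_root h) (c.monic.map _),
      Polynomial.aeval_def, Polynomial.eval₂_map, hj, hη]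
  refine ⟨pb.lift η h1, fun p => ?_, pb.lift_gen η h1⟩
  rw [← hj]
  exact (pb.lift η h1).commutes _

theorem PChart.FF.ext (h : c.FF F θ) {𝕃 : Type} [Field 𝕃] {γ γ' : F →+* 𝕃}
    (h1 : ∀ p, γ (toE (MP (Option σ) K) F p) = γ' (toE _ F p)) (h2 : γ θ = γ' θ) : γ = γ' :=
  RingHom.ext (fld_top h (γ.eqLocusField γ') h1 h2)

/-- an automorphism over the rational function field that fixes `θ` is one over `F` -/
theorem PChart.FF.over (h : c.FF F θ) {E : Type} [Field E] [Algebra (RF (Option σ) K) E]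
    [Algebra F E] [IsScalarTower (RF (Option σ) K) F E] (g : E ≃ₐ[RF (Option σ) K] E)
    (hg : g (algebraMap F E θ) = algebraMap F E θ) : ∃ g' : E ≃ₐ[F] E, ∀ z, g' z = g z := by
  have e : (g : E →+* E).comp (algebraMap F E) = algebraMap F E := h.ext (fun p => by
    rw [RingHom.comp_apply, RingHom.comp_apply, ← IsScalarTower.algebraMap_apply]
    exact g.commutes _) hg
  exact ⟨AlgEquiv.ofRingEquiv (f := g.toRingEquiv) (RingHom.congr_fun e), fun _ => rfl⟩

theorem UnrOff.mono {A L E : Type} [CommRing A] [Field L] [Field E] [Algebra L E] {φ : A →+* E}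
    {Θ Θ' : A} (h : UnrOff L φ Θ) {r : ℕ} (hd : Θ ∣ Θ' ^ r) : UnrOff L φ Θ' :=
  fun P w hp hn => h P w hp fun h1 => hn (hp.dvd_of_dvd_pow (h1.trans hd))

theorem MuRep.mono {ι : Type} {Θ Θ' : MP ι K} {F : Type} [Field F] [Algebra (RF ι K) F] {a : BR F}
    (R : MuRep Θ F a) {r : ℕ} (hd : Θ ∣ Θ' ^ r) : Nonempty (MuRep Θ' F a) :=
  ⟨⟨R.E, R.m, R.c, R.pos, R.unr.mono hd, R.coc, R.pow, R.cls_eq⟩⟩

end plane

theorem fld_hom {R S ι : Type} [CommRing R] [CommRing S] (ψ : MP ι R →+* S) :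
    MvPolynomial.eval₂Hom (ψ.comp MvPolynomial.C) (fun i => ψ (MvPolynomial.X i)) = ψ := by
  ext <;> simp

theorem fld_scale {R S ι : Type} [CommRing R] [CommRing S] {G : MP ι R} {d : ℕ}
    (hG : G.IsHomogeneous d) (φ : R →+* S) (u : S) (x : ι → S) :
    MvPolynomial.eval₂ φ (fun i => u * x i) G = u ^ d * MvPolynomial.eval₂ φ x G := by
  rw [MvPolynomial.eval₂_eq, MvPolynomial.eval₂_eq, Finset.mul_sum]
  refine Finset.sum_congr rfl fun m hm => ?_
  simp only [mul_pow]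
  rw [Finset.prod_mul_distrib, Finset.prod_pow_eq_pow_sum, ← hG.degree_eq_sum_deg_support hm]
  ring

theorem fld_coord {R σ : Type} [CommRing R] {N : ℕ} {GG : Set (Fm N R)} (c : Chart R σ N GG)
    {Ω : Type} [Field Ω] {φ : R →+* Ω} {ξ : Option σ → Ω} {θ u : Ω} {x : Fin (N + 1) → Ω}
    (h1 : ev φ ξ θ c.χ = 0) (h2 : MvPolynomial.eval₂ φ ξ c.D ≠ 0)
    (hx : ∀ j, c.pv φ ξ θ j = u * x j) :
    MvPolynomial.eval₂ φ x (c.f none) ≠ 0 ∧ (∀ i, c.xi φ x i = ξ i) ∧ c.tht φ x = θ := by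
  have e : ∀ G : Fm N R, G.IsHomogeneous c.d →
      ev φ ξ θ (sb c.pp G) = u ^ c.d * MvPolynomial.eval₂ φ x G := fun G hG => by
    rw [ev_sb, ← fld_scale hG]
    exact congrArg (MvPolynomial.eval₂ φ · G) (funext hx)
  have h3 := (c.ne Ω φ ξ θ h1 h2).1
  rw [e _ (c.hf none)] at h3
  have h4 := right_ne_zero_of_mul h3
  refine ⟨h4, fun i => ?_, ?_⟩
  · have h5 := map_dvd (ev φ ξ θ) (c.dv_f i)
    rw [h1, zero_dvd_iff, map_sub, map_mul, ev_C, MvPolynomial.eval₂_X, e _ (c.hf _),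
      e _ (c.hf _), sub_eq_zero, mul_left_comm] at h5
    exact (div_eq_iff h4).2 (mul_left_cancel₀ (left_ne_zero_of_mul h3) h5)
  · have h5 := map_dvd (ev φ ξ θ) c.dv_th
    rw [h1, zero_dvd_iff, map_sub, map_mul, ev_X, e _ c.hth, e _ (c.hf _), sub_eq_zero,
      mul_left_comm] at h5
    exact (div_eq_iff h4).2 (mul_left_cancel₀ (left_ne_zero_of_mul h3) h5)

theorem fld_form {R σ : Type} [CommRing R] {N : ℕ} {GG : Set (Fm N R)} (c : Chart R σ N GG)
    (Θ : MP (Option σ) R) : ∃ (e : ℕ) (H : Fm N R), H.IsHomogeneous (c.d * e) ∧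
      ∀ (Ω : Type) [Field Ω] (φ : R →+* Ω) (x : Fin (N + 1) → Ω),
        MvPolynomial.eval₂ φ x (c.f none) ≠ 0 → MvPolynomial.eval₂ φ x H =
          MvPolynomial.eval₂ φ x (c.f none) ^ e * MvPolynomial.eval₂ φ (c.xi φ x) Θ := by
  induction Θ using MvPolynomial.induction_on with
  | C a => exact ⟨0, MvPolynomial.C a, MvPolynomial.isHomogeneous_C _ a, fun Ω _ φ x _ => by simp⟩
  | add p q hp hq =>
    obtain ⟨e, H, h1, h2⟩ := hp
    obtain ⟨e', H', h3, h4⟩ := hq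
    refine ⟨e + e', H * c.f none ^ e' + c.f none ^ e * H', ?_, fun Ω _ φ x hx => ?_⟩
    · rw [mul_add]
      exact (h1.mul ((c.hf none).pow e')).add (((c.hf none).pow e).mul h3)
    · simp only [MvPolynomial.eval₂_add, MvPolynomial.eval₂_mul, MvPolynomial.eval₂_pow,
        h2 Ω φ x hx, h4 Ω φ x hx]
      ring
  | mul_X p i hp =>
    obtain ⟨e, H, h1, h2⟩ := hp
    refine ⟨e + 1, H * c.f (some i), h1.mul (c.hf _), fun Ω _ φ x hx => ?_⟩
    rw [MvPolynomial.eval₂_mul, MvPolynomial.eval₂_mul, MvPolynomial.eval₂_X, h2 Ω φ x hx,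
      ← div_mul_cancel₀ (MvPolynomial.eval₂ φ x (c.f (some i))) hx]
    change _ * (c.xi φ x i * _) = _
    ring

variable {k : Type} [Field k] {X : Var k} {K σ : Type} [Field K] [Algebra k K]
  {c : Chart K σ X.N (X.IK K)} {F' : Type} [Field F'] [Algebra (RF (Option σ) K) F'] [Algebra k F']
  {θ : F'} {γ : X.F →+* F'}

theorem Var.exists_fld [CharZero k] [Fintype σ] (hC : CHF) {n : ℕ} (hX : X.Nice n)
    (c : Chart K σ X.N (X.IK K)) (hn : Fintype.card σ + 1 = n) : c.GI ∧ ∃ (F' : Type) (_ : Field F')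
      (_ : Algebra (RF (Option σ) K) F') (_ : Algebra k F') (θ : F') (γ : X.F →+* F'),
        X.Fld c F' θ γ := by
  obtain ⟨hG, H⟩ := hC k X n hX K σ c hn
  obtain ⟨F', _, _, θ, hF⟩ := hG.exists_FF
  let _ : Algebra k F' :=
    ((toE (MP (Option σ) K) F').comp (MvPolynomial.C.comp (algebraMap k K))).toAlgebra
  obtain ⟨γ, hγ⟩ := H F' θ hF fun _ => rfl
  exact ⟨hG, F', inferInstance, inferInstance, inferInstance, θ, γ, hγ⟩

/-- the chart coordinates of the generic point -/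
theorem Var.Fld.coord (h : X.Fld c F' θ γ) :
    MvPolynomial.eval₂ ((toE (MP (Option σ) K) F').comp MvPolynomial.C) (fun i => γ (X.g i))
      (c.f none) ≠ 0 ∧
    (∀ i, c.xi ((toE (MP (Option σ) K) F').comp MvPolynomial.C) (fun i => γ (X.g i)) i =
      toE (MP (Option σ) K) F' (MvPolynomial.X i)) ∧
    c.tht ((toE (MP (Option σ) K) F').comp MvPolynomial.C) (fun i => γ (X.g i)) = θ := by
  obtain ⟨u, hu, hx⟩ := h.dom.2
  have e := fld_hom (toE (MP (Option σ) K) F')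
  refine fld_coord c (u := u) ?_ ?_ hx
  · rw [ev_def, e]
    exact h.ff.1
  · rw [← MvPolynomial.coe_eval₂Hom, e]
    exact (map_ne_zero_iff _ (toE_inj F')).2 c.D_ne

theorem Var.Fld.zer (h : X.Fld c F' θ γ) :
    Zer (X.IK K) ((toE (MP (Option σ) K) F').comp MvPolynomial.C) fun i => γ (X.g i) := by
  refine (Var.zer_IKL ((toE (MP (Option σ) K) F').comp MvPolynomial.C)
    (fun a => (h.alg a).symm) _).2 fun G hG => ?_
  have h1 := congrArg γ hG.2
  rwa [MvPolynomial.aeval_def, MvPolynomial.eval₂_comp_left, map_zero,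
    show γ.comp (algebraMap k X.F) = algebraMap k F' from RingHom.ext h.dom.1] at h1

theorem Var.Fld.bij {c : Chart k σ X.N (X.IK k)} {F' : Type} [Field F']
    [Algebra (RF (Option σ) k) F'] [Algebra k F'] {θ : F'} {γ : X.F →+* F'} (h : X.Fld c F' θ γ) :
    Function.Bijective γ := by
  obtain ⟨-, h1, h2⟩ := h.coord
  have h3 : ∀ {ι : Type} (p : MP ι k) (v : ι → F'), (∀ i, v i ∈ γ.fieldRange) →
      MvPolynomial.eval₂ ((toE (MP (Option σ) k) F').comp MvPolynomial.C) v p ∈ γ.fieldRange :=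
    fun p v hv => MvPolynomial.eval₂_mem (s := γ.fieldRange)
      (fun i _ => RingHom.mem_fieldRange.2 ⟨_, (h.dom.1 _).trans (h.alg _)⟩) hv
  have h4 := fun p => h3 p (fun i => γ (X.g i)) fun i => ⟨_, rfl⟩
  refine ⟨γ.injective, fld_top h.ff γ.fieldRange (fun p => ?_) (h2 ▸ div_mem (h4 _) (h4 _))⟩
  rw [← fld_hom (toE (MP (Option σ) k) F')]
  exact h3 p _ fun i => h1 i ▸ div_mem (h4 _) (h4 _)

/-- the form `f_0 ^ (deg Θ + 1) Θ(f / f_0)` -/
theorem Var.Fld.exists_form {c : Chart k σ X.N (X.IK k)} {F' : Type} [Field F']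
    [Algebra (RF (Option σ) k) F'] [Algebra k F'] {θ : F'} {γ : X.F →+* F'} (h : X.Fld c F' θ γ)
    {Θ : MP (Option σ) k} (h0 : Θ ≠ 0) : ∃ H : Fm X.N k, (∃ m, H.IsHomogeneous m) ∧ H ∉ X.I ∧
      ∀ (Ω : Type) [Field Ω] [Algebra k Ω] (x : Fin (X.N + 1) → Ω),
        MvPolynomial.aeval x H ≠ 0 → c.Off Θ (algebraMap k Ω) x := by
  obtain ⟨e, H, h1, h2⟩ := fld_form c Θ
  obtain ⟨h3, h4, -⟩ := h.coord
  refine ⟨c.f none * H, ⟨_, (c.hf none).mul h1⟩, fun h5 => ?_, fun Ω _ _ x hx => ?_⟩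
  · have h6 := h.zer _ ⟨_, h5, rfl⟩
    rw [Algebra.algebraMap_self, MvPolynomial.map_id, MvPolynomial.eval₂_mul, h2 _ _ _ h3,
      funext h4, ← MvPolynomial.coe_eval₂Hom _ fun i => toE _ F' (MvPolynomial.X i),
      fld_hom] at h6
    exact mul_ne_zero h3 (mul_ne_zero (pow_ne_zero _ h3)
      ((map_ne_zero_iff _ (toE_inj F')).2 h0)) h6
  · rw [MvPolynomial.aeval_def, MvPolynomial.eval₂_mul] at hx
    have h5 := left_ne_zero_of_mul hx
    rw [h2 _ _ _ h5] at hx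
    exact ⟨h5, right_ne_zero_of_mul (right_ne_zero_of_mul hx)⟩

/-- a point of the open set has chart coordinates -/
theorem Chart.Off.coord {R : Type} [CommRing R] {N : ℕ} {GG : Set (Fm N R)} {c : Chart R σ N GG}
    {Θ : MP (Option σ) R} {Ω : Type} [Field Ω] {φ : R →+* Ω} {x : Fin (N + 1) → Ω}
    (h : c.Off Θ φ x) (hx : Zer GG φ x) {r : ℕ} (hD : c.D ∣ Θ ^ r) :
    ev φ (c.xi φ x) (c.tht φ x) c.χ = 0 ∧ MvPolynomial.eval₂ φ (c.xi φ x) c.D ≠ 0 ∧
      ∃ u : Ω, u ≠ 0 ∧ c.pv φ (c.xi φ x) (c.tht φ x) = u • x := by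
  have h1 : MvPolynomial.eval₂ φ (c.xi φ x) c.D ≠ 0 :=
    ne_zero_of_dvd_ne_zero (by rw [map_pow]; exact pow_ne_zero r h.2)
      (map_dvd (MvPolynomial.eval₂Hom φ (c.xi φ x)) hD)
  obtain ⟨h2, h3⟩ := c.fro Ω φ x (c.xi φ x) (c.tht φ x) hx h.1
    (fun i => (div_mul_cancel₀ _ h.1).symm) (div_mul_cancel₀ _ h.1).symm
  obtain ⟨u, hu⟩ := h3 h1
  refine ⟨h2, h1, u, fun h0 => (c.ne Ω φ _ _ h2 h1).1 ?_, funext hu⟩
  rw [ev_sb, funext hu, fld_scale (c.hf none), h0, zero_pow c.dpos.ne', zero_mul]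

theorem PChart.D_dvd_br {R : Type} [CommRing R] (c : PChart R σ) : ∃ r : ℕ, c.D ∣ c.br ^ r := by
  obtain ⟨r, hr⟩ := c.dvd
  exact ⟨r, hr.trans (pow_dvd_pow_of_dvd (dvd_mul_right _ _) r)⟩

end Pool.Agent.ZCy
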