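import Pool.Agent.Lib.MP_751085_ag.ZC.L.Red
import Pool.Agent.Lib.MP_751085_ag.ZC.CAl1

/-! Expansions along a prime, roots in power series rings. -/

namespace Pool.Agent.ZCy

open scoped Classical WithZero Polynomial
open groupCohomology

set_option linter.unusedSectionVars false

/-- the conclusion of `exists_val_red` -/
structure ValRed {T Ω : Type} [CommRing T] [IsDomain T] [Field Ω] (P : T) (φ : T →+* Ω)
    (V : Vl (Fr T)) (ρ : V.integer →+* Ω) : Prop where
  cen : Cen (algebraMap T (Fr T)) V P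
  val : V (algebraMap T (Fr T) P) = WithZero.exp (-1)
  red : IsRed V ρ
  ext : ∀ (a : T) (y : V.integer), (y : Fr T) = algebraMap T _ a → ρ y = φ a
  aut : ∀ (S : Fr T →+* Fr T) (S₀ : T →+* T) (S' : Ω →+* Ω),
    (∀ a, S (algebraMap T _ a) = algebraMap T _ (S₀ a)) → Associated (S₀ P) P →
    (∀ a, φ (S₀ a) = S' (φ a)) → (∀ z, V (S z) = V z) ∧
      ∀ y y' : V.integer, (y' : Fr T) = S y → ρ y' = S' (ρ y)

theorem exists_valRed {T Ω : Type} [CommRing T] [IsDomain T] [UniqueFactorizationMonoid T] [Field Ω]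
    {P : T} (hP : Prime P) (φ : T →+* Ω) (hφ : ∀ a, φ a = 0 ↔ P ∣ a) :
    ∃ (V : Vl (Fr T)) (ρ : V.integer →+* Ω), ValRed P φ V ρ := by
  obtain ⟨V, ρ, h1, h2, h3, h4, h5⟩ := exists_val_red hP φ hφ
  exact ⟨V, ρ, h1, h2, h3, h4, h5⟩

theorem g1_hyp0 {R σ : Type} [CommRing R] (p : MP (Option σ) R) :
    hyp0 p = 0 ↔ MvPolynomial.X none ∣ p := by
  have e : (hyp0 : MP (Option σ) R →+* MP σ R) = Polynomial.constantCoeff.comp
      (MvPolynomial.optionEquivLeft R σ : MP (Option σ) R →+* (MP σ R)[X]) := by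
    ext : 1
    · ext : 1; simp [hyp0]
    · rename_i i
      cases i <;> simp [hyp0]
  rw [← map_dvd_iff (MvPolynomial.optionEquivLeft R σ), MvPolynomial.optionEquivLeft_X_none,
    Polynomial.X_dvd_iff, e]
  rfl

/-- divide by the largest power of `w` -/
theorem g1_inj {A κ : Type} [CommRing A] [WfDvdMonoid A] [Field κ] {w : A} (hw : Prime w)
    {ψ : A →+* PowerSeries κ} (h0 : ∀ p, PowerSeries.constantCoeff (ψ p) = 0 ↔ w ∣ p)
    (h1 : ψ w ≠ 0) : Function.Injective ψ := by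
  refine (injective_iff_map_eq_zero ψ).2 fun p hp => by_contra fun h => ?_
  obtain ⟨n, a, h2, rfl⟩ := WfDvdMonoid.max_power_factor' h hw.not_isUnit
  rw [map_mul, map_pow, mul_eq_zero] at hp
  exact h2 ((h0 a).1 (by rw [hp.resolve_left (pow_ne_zero n h1), map_zero]))

variable {k ι κ : Type} [Field k] [Field κ]

/-- `x_j ↦ x̄_j + δ_{ij} y` with the generic point `x̄` of `w₀ = 0` and a variable `i` with
`∂_i w₀ (x̄) ≠ 0` (`exists_generic`, `sing`, `ht1`) -/
theorem exists_psi [CharZero k] [Fintype ι] {w₀ : MP ι k} (hw : Prime w₀) :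
    ∃ (κ : Type) (_ : Field κ) (_ : IsAlgClosed κ) (ψ : MP ι k →+* PowerSeries κ),
      Function.Injective ψ ∧ (∀ p, PowerSeries.constantCoeff (ψ p) = 0 ↔ w₀ ∣ p) ∧
      PowerSeries.coeff 1 (ψ w₀) ≠ 0 := by
  obtain ⟨Ω, _, _, y, hc, h1, h2⟩ := exists_generic hw.ne_zero hw.not_isUnit
  obtain ⟨i, hi⟩ := sing hw.irreducible.squarefree h2 h1
  let ψ : MP ι k →+* PowerSeries Ω :=
    MvPolynomial.eval₂Hom (PowerSeries.C.comp (algebraMap k Ω)) fun j =>
      PowerSeries.C (y j) + if i = j then PowerSeries.X else 0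
  have e0 : ∀ p, PowerSeries.constantCoeff (ψ p) = MvPolynomial.aeval y p := fun p => by
    have : PowerSeries.constantCoeff.comp ψ = (MvPolynomial.aeval y : MP ι k →ₐ[k] Ω) := by
      ext : 1
      · ext : 1; simp [ψ]
      · rename_i j
        by_cases h : i = j <;> simp [ψ, h]
    exact DFunLike.congr_fun this p
  have e1 : ∀ p, PowerSeries.coeff 1 (ψ p) = MvPolynomial.aeval y (MvPolynomial.pderiv i p) := by
    intro p
    induction p using MvPolynomial.induction_on with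
    | C c => simp [ψ]
    | add p q hp hq => simp only [map_add, hp, hq]
    | mul_X p j hp =>
      rw [map_mul, PowerSeries.coeff_one_mul, hp, e0, e0, Derivation.leibniz]
      by_cases h : i = j
      · subst h
        simp [ψ, mul_comm, add_comm]
      · simp [ψ, h, MvPolynomial.pderiv_X_of_ne (Ne.symm h), mul_comm]
  have e2 : ∀ p, PowerSeries.constantCoeff (ψ p) = 0 ↔ w₀ ∣ p := fun p => by
    rw [e0]
    refine ⟨ht1 h2 hw.irreducible h1, ?_⟩
    rintro ⟨q, rfl⟩
    rw [map_mul, h1, zero_mul]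
  have e3 : PowerSeries.coeff 1 (ψ w₀) ≠ 0 := by rwa [e1]
  exact ⟨Ω, inferInstance, hc, ψ, g1_inj hw e2 fun h => e3 (by rw [h, map_zero]), e2, e3⟩

theorem yx_spec (k σ : Type) [Field k] : Function.Injective (yx k σ) ∧
    ∀ p, PowerSeries.constantCoeff (yx k σ p) = 0 ↔ MvPolynomial.X none ∣ p := by
  have e : PowerSeries.constantCoeff.comp (yx k σ) = (algebraMap (MP σ k) (RF σ k)).comp hyp0 := by
    ext : 1
    · ext : 1; simp [yx, hyp0]
    · rename_i i
      cases i <;> simp [yx, hyp0]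
  have h : ∀ p, PowerSeries.constantCoeff (yx k σ p) = 0 ↔ MvPolynomial.X none ∣ p := fun p => by
    rw [← g1_hyp0, ← map_eq_zero_iff _ (IsFractionRing.injective (MP σ k) (RF σ k))]
    exact Eq.congr_left (DFunLike.congr_fun e p)
  exact ⟨g1_inj MvPolynomial.X_prime h (by simp [yx, PowerSeries.X_ne_zero]), h⟩

theorem sep_of_bez {A : Type} [CommRing A] {Th α β : A[X]} {Δ : A} {r : ℕ}
    (h : Polynomial.C (Δ ^ r) = α * Th + β * Th.derivative) (ψ : A →+* PowerSeries κ)
    (h0 : PowerSeries.constantCoeff (ψ Δ) ≠ 0) : (Th.map ψ).Separable := by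
  obtain ⟨u, hu⟩ := ((PowerSeries.isUnit_iff_constantCoeff.2 h0.isUnit).pow r).exists_left_inv
  refine ⟨Polynomial.C u * α.map ψ, Polynomial.C u * β.map ψ, ?_⟩
  rw [mul_assoc, mul_assoc, ← mul_add, Polynomial.derivative_map, ← Polynomial.map_mul,
    ← Polynomial.map_mul, ← Polynomial.map_add, ← h, Polynomial.map_C, ← map_mul, map_pow, hu,
    map_one]

theorem g1_unit {A R : Type} [CommRing A] [CommRing R] {f : A[X]} (hs : f.Separable) (φ : A →+* R)
    {t : R} (ht : f.eval₂ φ t = 0) : IsUnit (f.derivative.eval₂ φ t) := by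
  have h := IsCoprime.map hs (Polynomial.eval₂RingHom φ t)
  rwa [Polynomial.coe_eval₂RingHom, ht, isCoprime_zero_left] at h

/-- Hensel (`lv_hensel` with `τ = Unit`), induction on the degree -/
theorem ps_splits [IsAlgClosed κ] {h : (PowerSeries κ)[X]} (hm : h.Monic) (hs : h.Separable) :
    h.Splits := by
  induction hn : h.natDegree generalizing h with
  | zero => exact Polynomial.Splits.of_natDegree_eq_zero hn
  | succ n ih =>
    obtain ⟨z₀, hz⟩ := IsAlgClosed.exists_root (h.map PowerSeries.constantCoeff) (by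
      rw [hm.degree_map, Polynomial.degree_eq_natDegree hm.ne_zero, hn]
      exact Nat.cast_add_one_ne_zero n)
    rw [Polynomial.IsRoot, Polynomial.eval_map] at hz
    obtain ⟨z, ⟨h1, -⟩, -⟩ := lv_hensel (τ := Unit) h hm z₀ hz (g1_unit hs _ hz)
    obtain ⟨q, rfl⟩ := Polynomial.dvd_iff_isRoot.2 h1
    have hq := (Polynomial.monic_X_sub_C z).of_mul_monic_left hm
    refine (Polynomial.Splits.X_sub_C z).mul (ih hq hs.of_mul_right ?_)
    rw [(Polynomial.monic_X_sub_C z).natDegree_mul hq, Polynomial.natDegree_X_sub_C] at hn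
    omega

theorem prime_root {R : Type} [CommRing R] [IsDomain R] {Th P : MP (Option ι) k}
    (hm : (tp Th).Monic) (hP : Prime P) (hd : P ∣ Th) {ψ : MP ι k →+* R}
    (hi : Function.Injective ψ) (hs : ((tp Th).map ψ).Splits) : ∃ t, (tp P).eval₂ ψ t = 0 := by
  have h1 : tp P ∣ tp Th := map_dvd _ hd
  obtain ⟨t, ht⟩ := (hs.of_dvd (hm.map ψ).ne_zero
    (Polynomial.map_dvd ψ h1)).exists_eval_eq_zero (by
      rw [Polynomial.degree_map_eq_of_injective hi]
      intro h
      have e := Polynomial.eq_C_of_degree_eq_zero h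
      have h2 := (hm.isPrimitive _ (e ▸ h1)).map Polynomial.C
      rw [← e] at h2
      exact hP.not_isUnit ((isUnit_map_iff (MvPolynomial.optionEquivLeft k ι) P).1 h2))
  exact ⟨t, by rwa [Polynomial.eval_map] at ht⟩

theorem prime_ker {R : Type} [CommRing R] [IsDomain R] {P : MP (Option ι) k} (hP : Prime P)
    {ψ : MP ι k →+* R} (hi : Function.Injective ψ) {t : R} (ht : (tp P).eval₂ ψ t = 0)
    (p : MP (Option ι) k) : (tp p).eval₂ ψ t = 0 ↔ P ∣ p := by
  refine ⟨fun h => ?_, ?_⟩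
  · rw [← map_dvd_iff (MvPolynomial.optionEquivLeft k ι)]
    refine dvd_of_root (φ := (algebraMap R (Fr R)).comp ψ) (z := algebraMap R (Fr R) t)
      ((IsFractionRing.injective R (Fr R)).comp hi) (hP.irreducible.map _) ?_ ?_
    · rw [← Polynomial.hom_eval₂, ht, map_zero]
    · rw [← Polynomial.hom_eval₂, h, map_zero]
  · rintro ⟨q, rfl⟩
    rw [tp, map_mul, Polynomial.eval₂_mul, ht, zero_mul]

theorem prime_der {R : Type} [CommRing R] {Th P : MP (Option ι) k} (hd : P ∣ Th)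
    {ψ : MP ι k →+* R} (hs : ((tp Th).map ψ).Separable) {t : R} (ht : (tp P).eval₂ ψ t = 0) :
    IsUnit ((tp P).derivative.eval₂ ψ t) := by
  have h := g1_unit (hs.of_dvd (Polynomial.map_dvd ψ (map_dvd _ hd : tp P ∣ tp Th)))
    (RingHom.id R) (t := t) (by rwa [Polynomial.eval₂_map, RingHom.id_comp])
  rwa [Polynomial.derivative_map, Polynomial.eval₂_map, RingHom.id_comp] at h

theorem g1_one {A E : Type} [CommRing A] [Field E] {φ : A →+* E} {w : Vl E} {P a : A}
    (h : Cen φ w P) (ha : ¬P ∣ a) : w (φ a) = 1 :=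
  le_antisymm (h.1 a) (not_lt.1 fun e => ha ((h.2 a).1 e))

/-- an embedding of index one into Laurent series (`lv_conj`, `lv_cen`, `lv_congr`, `lv_unr`) -/
theorem unr_of_embL [CharZero k] {N : Type} [Field N] [Algebra (RF ι k) N]
    [FiniteDimensional (RF ι k) N] [IsGalois (RF ι k) N] {w₀ : MP ι k} (hw : Prime w₀)
    {ψ : MP ι k →+* PowerSeries κ} (h0 : ∀ p, PowerSeries.constantCoeff (ψ p) = 0 ↔ w₀ ∣ p)
    (h1 : PowerSeries.coeff 1 (ψ w₀) ≠ 0) (u : N →+* Fr (PowerSeries κ))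
    (hu : ∀ p, u (toE (MP ι k) N p) = algebraMap _ _ (ψ p)) {w : Vl N}
    (hc : Cen (toE (MP ι k) N) w w₀) : Ine (RF ι k) w = ⊥ := by
  obtain ⟨V, hV, hX⟩ := lv_prime (K := Fr (PowerSeries κ)) (PowerSeries.X_prime (R := κ))
  have key : ∀ u : N →+* Fr (PowerSeries κ), (∀ p, u (toE (MP ι k) N p) = algebraMap _ _ (ψ p)) →
      Cen (toE (MP ι k) N) (V.comap u) w₀ := fun u hu =>
    ⟨fun a => by rw [Valuation.comap_apply, hu]; exact hV.1 _, fun a => by
      rw [Valuation.comap_apply, hu, hV.2, PowerSeries.X_dvd_iff, h0]⟩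
  obtain ⟨g, hg⟩ := lv_conj (K := RF ι k) (w := V.comap u) (w' := w)
    (lv_cen (φ := algebraMap (MP ι k) (RF ι k)) (IsFractionRing.injective _ _)
      (fun z => by
        obtain ⟨a, b, -, h⟩ := IsFractionRing.div_surjective (MP ι k) z
        exact ⟨a, b, h.symm⟩) hw
      (v := (V.comap u).comap (algebraMap _ N)) (v' := w.comap (algebraMap _ N)) (key u hu) hc)
  have hu' : ∀ p, u.comp (g : N →+* N) (toE (MP ι k) N p) = algebraMap _ _ (ψ p) := fun p => by
    rw [← hu]
    exact congrArg u (g.commutes _)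
  rw [(lv_congr (K := RF ι k) (w := V.comap (u.comp (g : N →+* N))) (w' := w) hg).2]
  refine lv_unr ?_ fun x => ?_
  · rw [← map_natCast (toE (MP ι k) N)]
    refine g1_one (key _ hu') fun h => hw.not_isUnit (isUnit_of_dvd_unit h ?_)
    rw [← map_natCast (MvPolynomial.C : k →+* MP ι k)]
    exact (IsUnit.mk0 _ (Nat.cast_ne_zero.2 Nat.card_pos.ne')).map _
  · obtain ⟨q, hq⟩ := PowerSeries.X_dvd_iff.2 ((h0 w₀).2 dvd_rfl)
    have e : V.comap (u.comp (g : N →+* N)) (toE (MP ι k) N w₀) = WithZero.exp (-1) := by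
      rw [Valuation.comap_apply, hu', hq, map_mul, map_mul, hX, g1_one hV, mul_one]
      rw [PowerSeries.X_dvd_iff]
      rwa [hq, ← zero_add 1, PowerSeries.coeff_succ_X_mul,
        PowerSeries.coeff_zero_eq_constantCoeff_apply] at h1
    by_cases hx : V.comap (u.comp (g : N →+* N)) x = 0
    · exact ⟨0, by rw [hx, map_zero, map_zero]⟩
    · refine ⟨algebraMap (MP ι k) _ w₀ ^ (-WithZero.log (V.comap (u.comp (g : N →+* N)) x)), ?_⟩
      rw [map_zpow₀, map_zpow₀]
      refine Eq.trans ?_ (congrArg (· ^ _) e).symm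
      rw [← WithZero.exp_zsmul, smul_eq_mul, neg_mul_neg, mul_one, WithZero.exp_log hx]

end Pool.Agent.ZCy
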