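import Pool.Agent.Lib.MP_751085_ag.ZC.L.G1

/-! Embeddings adapted to a valuation over a component of the branch locus. -/

namespace Pool.Agent.ZCy

open scoped Classical WithZero Polynomial
open groupCohomology

set_option linter.unusedSectionVars false

variable {k ι L E : Type} [Field k] [CharZero k] [Fintype ι] [Field L] [Field E] [Algebra L E]
  [FiniteDimensional L E] [IsGalois L E] {φ : MP (Option ι) k →+* L} {Th P : MP (Option ι) k}
  {W : Vl E}

/-- the setting: `W` lies over the prime factor `P` of `Th` -/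
structure Sett (L : Type) {E : Type} [Field L] [Field E] [Algebra L E] (φ : MP (Option ι) k →+* L)
    (Th P : MP (Option ι) k) (W : Vl E) : Prop where
  inj : Function.Injective φ
  surj : ∀ z : L, ∃ a b, z = φ a / φ b
  monic : (tp Th).Monic
  unr : UnrOff L ((algebraMap L E).comp φ) Th
  prime : Prime P
  dvd : P ∣ Th
  cen : Cen ((algebraMap L E).comp φ) W P

/-- an expansion of the base along a prime at which `Th` stays separable -/
structure Expn {κ : Type} [Field κ] (Th : MP (Option ι) k) (ψ : MP ι k →+* PowerSeries κ) : Prop where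
  inj : Function.Injective ψ
  cen : ∃ w₀, Prime w₀ ∧ ∀ p, PowerSeries.constantCoeff (ψ p) = 0 ↔ w₀ ∣ p
  sep : ((tp Th).map ψ).Separable

/-- the residue map of the prime `s` of `κ⟦y⟧⟦s⟧` -/
noncomputable abbrev rS (κ : Type) [Field κ] : PowerSeries (PowerSeries κ) →+* Fr (PowerSeries κ) :=
  (algebraMap (PowerSeries κ) _).comp PowerSeries.constantCoeff

variable {κ : Type} [Field κ] [IsAlgClosed κ] {ψ : MP ι k →+* PowerSeries κ}
  {V : Vl (Fr (PowerSeries (PowerSeries κ)))} {ρ : V.integer →+* Fr (PowerSeries κ)}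

theorem g2_cc (ψ : MP ι k →+* PowerSeries κ) (t : PowerSeries κ) {e : ℕ} (he : 0 < e)
    (q : (MP ι k)[X]) : PowerSeries.constantCoeff
      (q.eval₂ (PowerSeries.C.comp ψ) (PowerSeries.C t + PowerSeries.X ^ e)) = q.eval₂ ψ t := by
  rw [Polynomial.hom_eval₂]
  congr 1
  simp [he.ne']

theorem g2_root {R : Type} [CommRing R] (hd : P ∣ Th) {χ : MP ι k →+* R} {t : R}
    (ht : (tp P).eval₂ χ t = 0) : (tp Th).eval₂ χ t = 0 := by
  obtain ⟨Q, rfl⟩ := hd
  rw [tp, map_mul, Polynomial.eval₂_mul, ht, zero_mul]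

theorem g2_hom {R : Type} [CommRing R] (f : MP (Option ι) k →+* R) {χ : MP ι k →+* R}
    (h : ∀ p, f (up p) = χ p) (p : MP (Option ι) k) :
    f p = (tp p).eval₂ χ (f (MvPolynomial.X none)) := by
  have e : f = (Polynomial.eval₂RingHom χ (f (MvPolynomial.X none))).comp
      (MvPolynomial.optionEquivLeft k ι : MP (Option ι) k →+* (MP ι k)[X]) := by
    refine MvPolynomial.ringHom_ext (fun a => ?_) fun j => ?_
    · simpa using h (MvPolynomial.C a)
    · cases j with
      | none => simp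
      | some j => simpa using h (MvPolynomial.X j)
  exact RingHom.congr_fun e p

/-- `LE2`; the valuation induced by `V` is centred at `P` (`prime_ker`), `lv_cen`, `lv_conj`; compose
`J` with the automorphism -/
theorem Sett.adapted (hL : LE2) (h : Sett L φ Th P W) (hψ : Expn Th ψ) {t : PowerSeries κ}
    (ht : (tp P).eval₂ ψ t = 0) (hV : ValRed PowerSeries.X (rS κ) V ρ) :
    ∃ (e : ℕ) (J : E →+* Fr (PowerSeries (PowerSeries κ))), 0 < e ∧
      (∀ p, J (algebraMap L E (φ p)) = algebraMap (PowerSeries (PowerSeries κ)) _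
        ((tp p).eval₂ (PowerSeries.C.comp ψ) (PowerSeries.C t + PowerSeries.X ^ e))) ∧
      ∀ z, W z ≤ 1 ↔ V (J z) ≤ 1 := by
  obtain ⟨w₀, hw, hc⟩ := hψ.cen
  obtain ⟨e, J, he, hJ⟩ := hL k ι L E φ h.inj h.surj Th h.monic h.unr κ ψ w₀ hψ.inj hw hc hψ.sep t
    (g2_root h.dvd ht)
  have h1 : Cen φ ((V.comap J).comap (algebraMap L E)) P := by
    refine ⟨fun a => ?_, fun a => ?_⟩
    · rw [Valuation.comap_apply, Valuation.comap_apply, hJ]
      exact hV.cen.1 _
    · rw [Valuation.comap_apply, Valuation.comap_apply, hJ, hV.cen.2, PowerSeries.X_dvd_iff,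
        g2_cc ψ t he, prime_ker h.prime hψ.inj ht]
  have h2 : Cen φ (W.comap (algebraMap L E)) P := h.cen
  obtain ⟨g, hg⟩ := lv_conj (K := L) (w := V.comap J) (w' := W)
    (lv_cen h.inj h.surj h.prime h1 h2)
  refine ⟨e, J.comp (g : E →+* E), he, fun p => ?_, hg⟩
  rw [RingHom.comp_apply, RingHom.coe_coe, g.commutes, hJ]

/-- Every residue map over `ψ` lands in `Fr κ⟦y⟧`: the residue of `t` is a root of `P`, so of `Th`, so
lies in `κ⟦y⟧` (`ps_splits`); `adapted`, `IsRed.comap`, `IsRed.ext_cen`, `lv_red`. -/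
theorem Sett.range_le (hL : LE2) (h : Sett L φ Th P W) (hψ : Expn Th ψ) {Ω : Type} [Field Ω]
    (i : Fr (PowerSeries κ) →+* Ω) {ρ' : W.integer →+* Ω} (hr : IsRed W ρ')
    (hb : ∀ (p : MP ι k) (y : W.integer), (y : E) = algebraMap L E (φ (up p)) →
      ρ' y = i (algebraMap _ _ (ψ p))) : ρ'.range ≤ i.range := by
  let f : MP (Option ι) k →+* W.integer :=
    ((algebraMap L E).comp φ).codRestrict W.integer fun a => h.cen.1 a
  let χ : PowerSeries κ →+* Ω := i.comp (algebraMap _ _)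
  have hχ : Function.Injective χ := i.injective.comp (IsFractionRing.injective _ _)
  have hf := g2_hom (ρ'.comp f) (χ := χ.comp ψ) fun p => hb p _ rfl
  set θ := (ρ'.comp f) (MvPolynomial.X none) with hθ
  have hP : (tp P).eval₂ (χ.comp ψ) θ = 0 := by
    rw [← hf]
    exact (hr _).2 ((h.cen.2 P).2 dvd_rfl)
  obtain ⟨t, ht⟩ : ∃ t, χ t = θ := by
    have hm := h.monic.map ψ
    have h1 : θ ∈ (((tp Th).map ψ).map χ).roots := by
      rw [Polynomial.mem_roots (hm.map χ).ne_zero, Polynomial.map_map, Polynomial.IsRoot.def,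
        Polynomial.eval_map]
      exact g2_root h.dvd hP
    rw [(ps_splits hm hψ.sep).roots_map_of_injective hχ] at h1
    obtain ⟨t, -, ht⟩ := Multiset.mem_map.1 h1
    exact ⟨t, ht⟩
  have hev : ∀ q : (MP ι k)[X], χ (q.eval₂ ψ t) = q.eval₂ (χ.comp ψ) θ := fun q => by
    rw [Polynomial.hom_eval₂, ht]
  have ht0 : (tp P).eval₂ ψ t = 0 := hχ (by rw [hev, hP, map_zero])
  obtain ⟨V, ρ, hV⟩ := exists_valRed (PowerSeries.X_prime (R := PowerSeries κ)) (rS κ) fun a => by
    rw [PowerSeries.X_dvd_iff, RingHom.comp_apply]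
    exact map_eq_zero_iff _ (IsFractionRing.injective _ _)
  obtain ⟨e, J, he, hJ, hW⟩ := h.adapted hL hψ ht0 hV
  obtain ⟨ρ₁, h1, h2⟩ := hV.red.comap J hW
  have h3 : IsRed W (i.comp ρ₁) := fun y => by
    rw [RingHom.comp_apply, map_eq_zero, h1 y]
  obtain ⟨g, hg, h4⟩ := lv_red (K := L) h3 hr
    (IsRed.ext_cen h.inj h.surj h.prime h.cen h3 hr fun a y hy => by
      have e1 : y = f a := Subtype.ext hy
      rw [RingHom.comp_apply, h2 y ⟨_, hV.cen.1 _⟩ (by rw [hy, hJ]), hV.ext _ _ rfl,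
        RingHom.comp_apply, g2_cc ψ t he, e1]
      exact (hf a).trans (hev _).symm)
  rintro _ ⟨y, rfl⟩
  exact ⟨ρ₁ ⟨g y, (hg y).trans_le y.2⟩, (h4 y _ rfl).symm⟩

end Pool.Agent.ZCy
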