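import Pool.Agent.Lib.MP_751085_ag.ZC.L.G2

/-! The inertia group acts by rotations of the parameter. -/

namespace Pool.Agent.ZCy

open scoped Classical WithZero Polynomial
open groupCohomology

set_option linter.unusedSectionVars false

variable {k ι L E : Type} [Field k] [CharZero k] [Fintype ι] [Field L] [Field E] [Algebra L E]
  [FiniteDimensional L E] [IsGalois L E] {φ : MP (Option ι) k →+* L} {Th P : MP (Option ι) k}
  {W : Vl E}

variable {κ : Type} [Field κ] [IsAlgClosed κ] {ψ : MP ι k →+* PowerSeries κ}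
  {V : Vl (Fr (PowerSeries (PowerSeries κ)))} {ρ : V.integer →+* Fr (PowerSeries κ)}

/-- an endomorphism of the big field that fixes the image of `L` comes from the Galois group -/
theorem exists_gal_of_fix {𝕃 : Type} [Field 𝕃] (J : E →+* 𝕃) (S : 𝕃 →+* 𝕃)
    (h : ∀ a : L, S (J (algebraMap L E a)) = J (algebraMap L E a)) :
    ∃ g : E ≃ₐ[L] E, ∀ z, J (g z) = S (J z) := by
  let : Algebra L 𝕃 := (J.comp (algebraMap L E)).toAlgebra
  let : Algebra E 𝕃 := J.toAlgebra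
  have : IsScalarTower L E 𝕃 := IsScalarTower.of_algebraMap_eq fun _ => rfl
  let S' : 𝕃 →ₐ[L] 𝕃 := { S with commutes' := h }
  exact ⟨S'.restrictNormal' E, fun z => S'.restrictNormal_commutes E z⟩

theorem g3_exp {x : ℤᵐ⁰} (h0 : x ≠ 0) (h : x < 1) :
    ∃ a : ℕ, 0 < a ∧ x = WithZero.exp (-1) ^ a := by
  have h1 : WithZero.log x < 0 := (WithZero.log_lt_iff_lt_exp h0).2 h
  refine ⟨(-WithZero.log x).toNat, by omega, ?_⟩
  rw [← WithZero.exp_nsmul, nsmul_eq_mul, Int.toNat_of_nonneg (by omega), mul_neg, mul_one,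
    neg_neg, WithZero.exp_log h0]

theorem g3_root {𝕃 : Type} [Field 𝕃] (i : κ →+* 𝕃) (U : Vl 𝕃) {a : ℕ} (ha : 0 < a) {r : 𝕃}
    (h : U (r ^ a - 1) < 1) : ∃ c : κ, c ^ a = 1 ∧ U (r - i c) < 1 := by
  have h1 := congrArg (Polynomial.eval₂RingHom i r)
    ((IsAlgClosed.splits (Polynomial.X ^ a - Polynomial.C (1 : κ))).eq_prod_roots_of_monic
      (Polynomial.monic_X_pow_sub_C 1 ha.ne'))
  rw [map_multiset_prod, Multiset.map_map] at h1
  simp only [Polynomial.coe_eval₂RingHom, Polynomial.eval₂_sub, Polynomial.eval₂_X_pow,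
    Polynomial.eval₂_C, map_one, Polynomial.eval₂_one, Function.comp_def, Polynomial.eval₂_X] at h1
  by_contra hc
  push Not at hc
  refine absurd h (not_lt.2 ?_)
  rw [h1]
  refine Multiset.prod_induction (fun x => 1 ≤ U x) _ (fun x y hx hy => ?_) U.map_one.ge
    fun x hx => ?_
  · rw [map_mul]
    exact one_le_mul hx hy
  · obtain ⟨c, hc', rfl⟩ := Multiset.mem_map.1 hx
    have := (Polynomial.mem_roots'.1 hc').2
    simp only [Polynomial.IsRoot, Polynomial.eval_sub, Polynomial.eval_pow, Polynomial.eval_X,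
      Polynomial.eval_one, sub_eq_zero] at this
    exact hc c this

theorem g3_core {𝕃 : Type} [Field 𝕃] (J : E →+* 𝕃) (U : Vl 𝕃) {x : 𝕃}
    (hx : U x = WithZero.exp (-1)) (i : κ →+* 𝕃) {p : L} {e : ℕ} (he : 0 < e)
    (hp : U (J (algebraMap L E p)) = WithZero.exp (-1) ^ e)
    (h0 : ∀ m : ℕ, m ≠ 0 → U (J m) = 1) {n : E ≃ₐ[L] E} (hn : n ∈ Ine L (U.comap J)) :
    ∃ ζ : κ, ζ ^ e = 1 ∧ ∀ S : 𝕃 →+* 𝕃, S x = i ζ * x → (∀ z, U (S z) = U z) →
      (∀ z, U z ≤ 1 → U (S z - z) < 1) →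
      (∀ a : L, S (J (algebraMap L E a)) = J (algebraMap L E a)) → ∀ z, J (n z) = S (J z) := by
  have hlt : WithZero.exp (-1 : ℤ) < 1 := by
    rw [← WithZero.exp_zero, WithZero.exp_lt_exp]
    decide
  have hp0 : algebraMap L E p ≠ 0 := fun h => by
    rw [h, map_zero, map_zero] at hp
    exact pow_ne_zero _ WithZero.exp_ne_zero hp.symm
  have hp1 : (U.comap J) (algebraMap L E p) < 1 := hp.trans_lt (pow_lt_one' hlt he.ne')
  obtain ⟨W₀, ⟨ϖ, hϖ⟩, hW₀⟩ := lv_nrm hp0 hp1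
  have hE := Valuation.isEquiv_of_val_le_one hW₀
  have hI := (lv_congr (K := L) hW₀).2
  have hϖ0 : ϖ ≠ 0 := fun h => by
    rw [h, map_zero] at hϖ
    exact WithZero.exp_ne_zero hϖ.symm
  have hx0 : x ≠ 0 := fun h => by
    rw [h, map_zero] at hx
    exact WithZero.exp_ne_zero hx.symm
  have hJ0 : J ϖ ≠ 0 := (map_ne_zero J).2 hϖ0
  obtain ⟨a, ha, hpa⟩ := g3_exp (W₀.ne_zero_iff.2 hp0) (hE.lt_one_iff_lt_one.2 hp1)
  obtain ⟨e₁, he₁, hϖ₁⟩ := g3_exp (U.ne_zero_iff.2 hJ0)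
    (hE.lt_one_iff_lt_one.1 (hϖ.trans_lt hlt))
  have hu : (U.comap J) (algebraMap L E p / ϖ ^ a) = 1 := hE.eq_one_iff_eq_one.1 (by
    rw [map_div₀, map_pow, hpa, hϖ, div_self (pow_ne_zero _ WithZero.exp_ne_zero)])
  have hea : e = e₁ * a := by
    have := hu
    rw [Valuation.comap_apply, map_div₀, map_div₀, map_pow, map_pow, hp, hϖ₁, ← pow_mul,
      div_eq_one_iff_eq (pow_ne_zero _ WithZero.exp_ne_zero), ← WithZero.exp_nsmul,
      ← WithZero.exp_nsmul, WithZero.exp_inj] at this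
    simp only [nsmul_eq_mul, mul_neg, mul_one, neg_inj] at this
    exact_mod_cast this
  have hr : U (J (n ϖ / ϖ) ^ a - 1) < 1 := by
    have h1 := hn.2 _ hu.le
    have h2 := (hn.1 _).trans hu
    have hn0 : n ϖ ≠ 0 := (map_ne_zero n).2 hϖ0
    have h3 : (n ϖ / ϖ) ^ a - 1 = -(n (algebraMap L E p / ϖ ^ a) - algebraMap L E p / ϖ ^ a) /
        n (algebraMap L E p / ϖ ^ a) := by
      rw [map_div₀, map_pow, AlgEquiv.commutes, div_pow]
      field_simp
      ring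
    rw [← map_pow, ← map_one J, ← map_sub, ← Valuation.comap_apply, h3, map_div₀, h2, div_one,
      Valuation.map_neg]
    exact h1
  obtain ⟨c, hc, hrc⟩ := g3_root i U ha hr
  obtain ⟨ζ, rfl⟩ := IsAlgClosed.exists_pow_nat_eq c he₁
  have hζ : ζ ^ e = 1 := by rw [hea, pow_mul, hc]
  refine ⟨ζ, hζ, fun S hS h1 h2 h3 => ?_⟩
  obtain ⟨g, hg⟩ := exists_gal_of_fix J S h3
  have hgI : g ∈ Ine L (U.comap J) := ⟨fun z => by
    rw [Valuation.comap_apply, Valuation.comap_apply, hg, h1], fun z hz => by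
      rw [Valuation.comap_apply, map_sub, hg]
      exact h2 _ hz⟩
  have hζ1 : U (i ζ) = 1 := root_val he.ne' (by rw [← map_pow, hζ, map_one])
  have hζ0 : i ζ ≠ 0 := U.ne_zero_iff.1 (hζ1 ▸ one_ne_zero)
  have hy : U (J ϖ / x ^ e₁) = 1 := by
    rw [map_div₀, map_pow, hϖ₁, hx, div_self (pow_ne_zero _ WithZero.exp_ne_zero)]
  have h4 : U (J (g ϖ / ϖ) - i (ζ ^ e₁)) < 1 := by
    have h5 : J (g ϖ / ϖ) - i (ζ ^ e₁) =
        (S (J ϖ / x ^ e₁) - J ϖ / x ^ e₁) / (J ϖ / x ^ e₁) * i ζ ^ e₁ := by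
      rw [map_div₀, map_div₀, map_pow, map_pow, hg, hS, mul_pow]
      field_simp
    rw [h5, map_mul, map_div₀, hy, map_pow, hζ1, one_pow, div_one, mul_one]
    exact h2 _ hy.le
  have h6 : g⁻¹ * n = 1 := by
    refine lv_theta hϖ (hI ▸ mul_mem (inv_mem hgI) hn)
      (hE.eq_one_iff_eq_one.2 (h0 _ (orderOf_pos _).ne')) (hE.lt_one_iff_lt_one.2 ?_)
    have hg0 : g ϖ ≠ 0 := (map_ne_zero g).2 hϖ0
    have h7 : g ((g⁻¹ * n) ϖ / ϖ - 1) = (n ϖ / ϖ - g ϖ / ϖ) * (ϖ / g ϖ) := by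
      rw [map_sub, map_div₀, map_one, ← AlgEquiv.mul_apply, mul_inv_cancel_left]
      field_simp
    rw [← hgI.1, h7, map_mul, map_div₀, hgI.1, div_self ((U.comap J).ne_zero_iff.2 hϖ0), mul_one,
      Valuation.comap_apply, map_sub, ← sub_sub_sub_cancel_right _ _ (i (ζ ^ e₁))]
    exact U.map_sub_lt hrc h4
  intro z
  rw [← hg, ← inv_mul_eq_one.1 h6]

theorem g3_rescale {R : Type} [CommRing R] (a b : R) :
    PowerSeries.rescale a (PowerSeries.C b) = PowerSeries.C b := by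
  ext n
  rw [PowerSeries.coeff_rescale, PowerSeries.coeff_C]
  split_ifs with h
  · rw [h, pow_zero, one_mul]
  · rw [mul_zero]

/-- Normalise `W` (`lv_nrm`, `lv_congr`), `ϖ` a uniformiser, `e₁ = ord_s J ϖ`, `P = unit * ϖ ^ a`;
`ord_s J P = e` (`prime_der`), so `e = a e₁`. The residue `ω` of `n ϖ / ϖ` has `ω ^ a = 1`, so is a
constant `ζ ^ e₁` with `ζ ^ e = 1`; the rotation by `ζ` comes from `g` with the same residue of
`g ϖ / ϖ`; `g` is in the inertia group; `lv_theta` for `g⁻¹ n`. -/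
theorem Sett.inertia (h : Sett L φ Th P W) (hψ : Expn Th ψ) {t : PowerSeries κ}
    (ht : (tp P).eval₂ ψ t = 0) (hV : ValRed PowerSeries.X (rS κ) V ρ) {e : ℕ} (he : 0 < e)
    {J : E →+* Fr (PowerSeries (PowerSeries κ))}
    (hJ : ∀ p, J (algebraMap L E (φ p)) = algebraMap (PowerSeries (PowerSeries κ)) _
      ((tp p).eval₂ (PowerSeries.C.comp ψ) (PowerSeries.C t + PowerSeries.X ^ e)))
    (hW : ∀ z, W z ≤ 1 ↔ V (J z) ≤ 1) {n : E ≃ₐ[L] E} (hn : n ∈ Ine L W) :
    ∃ ζ : κ, ζ ^ e = 1 ∧ ∀ S : Fr (PowerSeries (PowerSeries κ)) →+* Fr (PowerSeries (PowerSeries κ)),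
      (∀ a : PowerSeries (PowerSeries κ), S (algebraMap _ _ a) =
        algebraMap _ _ (PowerSeries.rescale (PowerSeries.C ζ) a)) → ∀ z, J (n z) = S (J z) := by
  have hE := Valuation.isEquiv_of_val_le_one (v' := V.comap J) hW
  have hp : V (J (algebraMap L E (φ P))) = WithZero.exp (-1) ^ e := by
    obtain ⟨q, hq⟩ := ((tp P).map (PowerSeries.C.comp ψ)).binomExpansion (PowerSeries.C t)
      (PowerSeries.X ^ e)
    have hu := prime_der h.dvd hψ.sep ht
    rw [Polynomial.derivative_map, Polynomial.eval_map, Polynomial.eval_map, Polynomial.eval_map,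
      ← Polynomial.hom_eval₂, ← Polynomial.hom_eval₂, ht, map_zero, zero_add, pow_two, ← mul_assoc,
      ← add_mul] at hq
    rw [hJ, hq, map_mul, map_mul, map_pow, map_pow, hV.val, ((hV.cen.1 _).eq_or_lt.resolve_right
      fun hl => hu.ne_zero ?_), one_mul]
    have := PowerSeries.X_dvd_iff.1 ((hV.cen.2 _).1 hl)
    simpa [he.ne'] using this
  obtain ⟨ζ, hζ, H⟩ := g3_core (κ := κ) J V hV.val ((algebraMap (PowerSeries (PowerSeries κ)) _).comp
    (PowerSeries.C.comp PowerSeries.C)) he hp (fun m hm => by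
      refine hE.eq_one_iff_eq_one.1 ?_
      rw [← map_natCast ((algebraMap L E).comp φ)]
      refine (h.cen.1 _).eq_or_lt.resolve_right fun hl => h.prime.not_isUnit
        (isUnit_of_dvd_unit ((h.cen.2 _).1 hl) ?_)
      rw [← map_natCast (MvPolynomial.C : k →+* MP (Option ι) k)]
      exact (Nat.cast_ne_zero.2 hm).isUnit.map _) ((lv_congr (K := L) (w := V.comap J) hW).2 ▸ hn)
  refine ⟨ζ, hζ, fun S hS => ?_⟩
  have hζ0 : IsUnit ζ := IsUnit.of_pow_eq_one hζ he.ne'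
  obtain ⟨h1, h2⟩ := hV.aut S (PowerSeries.rescale (PowerSeries.C ζ)) (RingHom.id _) hS (by
    rw [PowerSeries.rescale_X]
    exact associated_unit_mul_left _ _ ((hζ0.map PowerSeries.C).map PowerSeries.C)) fun a => by
      rw [RingHom.id_apply, RingHom.comp_apply, RingHom.comp_apply,
        ← PowerSeries.coeff_zero_eq_constantCoeff_apply, PowerSeries.coeff_rescale, pow_zero,
        one_mul, PowerSeries.coeff_zero_eq_constantCoeff_apply]
  refine H S (by rw [hS, PowerSeries.rescale_X, map_mul]; rfl) h1 (fun z hz => ?_) fun a => ?_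
  · refine (hV.red (⟨S z, (h1 z).trans_le hz⟩ - ⟨z, hz⟩)).1 ?_
    rw [map_sub, h2 ⟨z, hz⟩ _ rfl, RingHom.id_apply, sub_self]
  · have h3 : ∀ p, S (J (algebraMap L E (φ p))) = J (algebraMap L E (φ p)) := fun p => by
      have h4 : (PowerSeries.rescale (PowerSeries.C ζ)).comp (PowerSeries.C.comp ψ) =
          PowerSeries.C.comp ψ := RingHom.ext fun b => g3_rescale _ _
      rw [hJ, hS, Polynomial.hom_eval₂, h4, map_add, g3_rescale, map_pow, PowerSeries.rescale_X,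
        mul_pow, ← map_pow, ← map_pow, hζ, map_one, map_one, one_mul]
    obtain ⟨b, c, rfl⟩ := h.surj a
    rw [map_div₀, map_div₀, map_div₀, h3, h3]

end Pool.Agent.ZCy
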