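import Pool.Agent.Lib.MP_751085_ag.ZC.L.G2

/-! The residue extension is unramified off the discriminant. -/

namespace Pool.Agent.ZCy

open scoped Classical WithZero Polynomial
open groupCohomology

set_option linter.unusedSectionVars false

variable {k σ L E : Type} [Field k] [CharZero k] [Fintype σ] [Field L] [Field E] [Algebra L E]
  [FiniteDimensional L E] [IsGalois L E] {φ : MP (Option (Option σ)) k →+* L}
  {Th P : MP (Option (Option σ)) k} {W : Vl E}

/-- the algebraic closure of the function field of the hyperplane -/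
abbrev KB (k σ : Type) [Field k] : Type := AlgebraicClosure (RF σ k)

/-- the expansion along `x_1 = 0` -/
noncomputable def yb (k σ : Type) [Field k] : MP (Option σ) k →+* PowerSeries (KB k σ) :=
  (PowerSeries.map (algebraMap (RF σ k) (KB k σ))).comp (yx k σ)

/-- the discriminant certificate -/
structure Dsc (Th : MP (Option (Option σ)) k) (Δ : MP (Option σ) k) : Prop where
  bez : ∃ (r : ℕ) (α β : (MP (Option σ) k)[X]), Polynomial.C (Δ ^ r) =
    α * tp Th + β * Polynomial.derivative (tp Th)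
  line : ∃ a b : Option σ → k, a none = 0 ∧ b none = 0 ∧ b ≠ 0 ∧ GoodLine Δ a b

variable {Δ : MP (Option σ) k}

theorem g4_cc (p : MP (Option σ) k) : PowerSeries.constantCoeff (yb k σ p) =
    algebraMap (RF σ k) (KB k σ) (PowerSeries.constantCoeff (yx k σ p)) := by
  rw [yb, RingHom.comp_apply, ← PowerSeries.coeff_zero_eq_constantCoeff_apply,
    ← PowerSeries.coeff_zero_eq_constantCoeff_apply, PowerSeries.coeff_map]

theorem Dsc.expn (h : Dsc Th Δ) : Expn Th (yb k σ) ∧
    ∀ p, PowerSeries.constantCoeff (yb k σ p) = 0 ↔ MvPolynomial.X none ∣ p := by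
  have h1 : ∀ p, PowerSeries.constantCoeff (yb k σ p) = 0 ↔ MvPolynomial.X none ∣ p := fun p => by
    rw [g4_cc, map_eq_zero, (yx_spec k σ).2]
  obtain ⟨r, α, β, hb⟩ := h.bez
  obtain ⟨a, b, ha, -, -, hg⟩ := h.line
  refine ⟨⟨(PowerSeries.map_injective _ (algebraMap (RF σ k) (KB k σ)).injective).comp
    (yx_spec k σ).1, ⟨_, MvPolynomial.X_prime, h1⟩, sep_of_bez hb _ fun h0 => ?_⟩, h1⟩
  obtain ⟨q, hq⟩ := (h1 _).1 h0
  refine hg.1.ne_zero ?_
  rw [hq, map_mul, MvPolynomial.eval_X, ha, zero_mul]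

/-- residues are algebraic over `k(x)` -/
theorem Sett.alg (h : Sett L φ Th P W) {Ω : Type} [Field Ω] [Algebra (RF (Option σ) k) Ω]
    {ρ : W.integer →+* Ω} (hr : IsRed W ρ)
    (hb : ∀ (p : MP (Option σ) k) (y : W.integer), (y : E) = algebraMap L E (φ (up p)) →
      ρ y = toE _ Ω p) (y : W.integer) : IsAlgebraic (RF (Option σ) k) (ρ y) := by
  let B := algebraicClosure (RF (Option σ) k) Ω
  let c : MP (Option (Option σ)) k →+* W.integer :=
    ((algebraMap L E).comp φ).codRestrict _ h.cen.1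
  have h1 : ∀ p, ρ (c (up p)) = toE _ Ω p := fun p => hb p _ rfl
  have h2 : ∀ p, ρ (c p) = ((tp p).map (algebraMap _ (RF (Option σ) k))).aeval
      (ρ (c (MvPolynomial.X none))) := by
    intro p
    rw [Polynomial.aeval_def, Polynomial.eval₂_map]
    induction p using MvPolynomial.induction_on with
    | C a =>
      have := h1 (MvPolynomial.C a)
      rw [up, MvPolynomial.rename_C] at this
      simpa using this
    | add p q hp hq => simp only [tp, map_add, Polynomial.eval₂_add] at hp hq ⊢; rw [hp, hq]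
    | mul_X p i hp =>
      simp only [tp, map_mul, Polynomial.eval₂_mul] at hp ⊢
      rw [hp]
      congr 1
      cases i with
      | none => simp
      | some i =>
        have := h1 (MvPolynomial.X i)
        rw [up, MvPolynomial.rename_X] at this
        simpa using this
  have h3 : ρ (c (MvPolynomial.X none)) ∈ B := mem_algebraicClosure_iff.2
    ⟨_, (h.monic.map _).ne_zero, (h2 Th).symm.trans ((hr _).2 ((h.cen.2 Th).2 h.dvd))⟩
  have h4 : ∀ p, ρ (c p) ∈ B := fun p => by
    rw [h2]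
    exact Algebra.adjoin_le (S := B.toSubalgebra) (Set.singleton_subset_iff.2 h3)
      (Polynomial.aeval_mem_adjoin_singleton _ _)
  have h5 : ∀ (a : L) (z : W.integer), (z : E) = algebraMap L E a → ρ z ∈ B := by
    intro a z hz
    obtain ⟨p, q, rfl⟩ := h.surj a
    by_cases hq : q = 0
    · have : z = 0 := Subtype.ext (by simpa [hq] using hz)
      rw [this, map_zero]
      exact zero_mem _
    obtain ⟨p', q', s, hc, rfl, rfl⟩ := UniqueFactorizationMonoid.exists_reduced_factors' p q hq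
    have hs : φ s ≠ 0 := (map_ne_zero_iff _ h.inj).2 (left_ne_zero_of_mul hq)
    have hq' : φ q' ≠ 0 := (map_ne_zero_iff _ h.inj).2 (right_ne_zero_of_mul hq)
    have e : z * c q' = c p' := Subtype.ext (by
      change (z : E) * algebraMap L E (φ q') = algebraMap L E (φ p')
      rw [hz, ← map_mul, map_mul φ, map_mul φ, mul_div_mul_left _ _ hs, div_mul_cancel₀ _ hq'])
    have e' : ρ z * ρ (c q') = ρ (c p') := by rw [← map_mul, e]
    have h0 : ρ (c q') ≠ 0 := fun h0 => h.prime.not_isUnit (hc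
      ((h.cen.2 _).1 ((hr (c p')).1 (by rw [← e', h0, mul_zero]))) ((h.cen.2 _).1 ((hr _).1 h0)))
    rw [eq_div_of_mul_eq h0 e']
    exact div_mem (h4 _) (h4 _)
  obtain ⟨Q, hQ0, hQ, hc⟩ := hr.alg (K := L) y
  obtain ⟨Q', hQ'⟩ : Q ∈ Polynomial.lifts (algebraMap B Ω) :=
    (Polynomial.lifts_iff_coeff_lifts _).2 fun i => by
      obtain ⟨a, z, hz, e⟩ := hc i
      exact ⟨⟨_, h5 a z hz⟩, e.symm⟩
  have h6 : IsAlgebraic B (ρ y) := by
    refine ⟨Q', fun h => hQ0 (by rw [← hQ', h, map_zero]), ?_⟩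
    rw [Polynomial.aeval_def, Polynomial.eval₂_eq_eval_map]
    exact (congrArg (Polynomial.eval _) hQ').trans hQ
  exact h6.restrictScalars _

/-- the splitting field of the residues embeds along every expansion -/
theorem g4_emb (hL : LE2) (h : Sett L φ Th P W) {F : Type} [Field F]
    [Algebra (RF (Option σ) k) F] {ρ : W.integer →+* F} (hr : IsRed W ρ)
    (hb : ∀ (p : MP (Option σ) k) (y : W.integer), (y : E) = algebraMap L E (φ (up p)) →
      ρ y = toE _ F p) (Z : Finset W.integer) {κ : Type} [Field κ] [IsAlgClosed κ]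
    {ψ : MP (Option σ) k →+* PowerSeries κ} (hψ : Expn Th ψ)
    [Algebra (RF (Option σ) k) (Fr (PowerSeries κ))]
    (ha : ∀ p, toE _ (Fr (PowerSeries κ)) p = algebraMap _ _ (ψ p)) :
    Nonempty ((∏ y ∈ Z, minpoly (RF (Option σ) k) (ρ y)).SplittingField →ₐ[RF (Option σ) k]
      Fr (PowerSeries κ)) := by
  let Ω := AlgebraicClosure (Fr (PowerSeries κ))
  let u : (∏ y ∈ Z, minpoly (RF (Option σ) k) (ρ y)).SplittingField →ₐ[RF (Option σ) k] Ω :=
    IsAlgClosed.lift
  let i : Fr (PowerSeries κ) →ₐ[RF (Option σ) k] Ω := IsScalarTower.toAlgHom _ _ _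
  let B := algebraicClosure (RF (Option σ) k) F
  have hB : ∀ y, ρ y ∈ B := fun y => mem_algebraicClosure_iff.2 (h.alg hr hb y)
  have h1 : ⊤ ≤ i.range.comap u := by
    rw [← Polynomial.SplittingField.adjoin_rootSet]
    refine Algebra.adjoin_le fun r hr' => ?_
    have h2 := Polynomial.aeval_eq_zero_of_mem_rootSet hr'
    rw [map_prod, Finset.prod_eq_zero_iff] at h2
    obtain ⟨y, -, hy⟩ := h2
    obtain ⟨g, hg⟩ := IntermediateField.exists_algHom_of_splits_of_aeval
      (F := RF (Option σ) k) (E := B) (K := Ω)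
      (fun s => ⟨Algebra.IsIntegral.isIntegral s, IsAlgClosed.splits _⟩) (x := ⟨ρ y, hB y⟩)
      (y := u r) (by rw [IntermediateField.minpoly_eq, Polynomial.aeval_algHom_apply, hy, map_zero])
    have h3 := h.range_le hL hψ (i : _ →+* Ω) (ρ' := (g : B →+* Ω).comp (ρ.codRestrict B hB))
      (fun x => by
        rw [RingHom.comp_apply, map_eq_zero, ← hr x]
        exact Subtype.ext_iff) (fun p x hx => by
        have e : ρ.codRestrict B hB x = algebraMap _ B (algebraMap _ (RF (Option σ) k) p) :=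
          Subtype.ext (hb p x hx)
        rw [RingHom.comp_apply, e, ← ha]
        exact (g.commutes _).trans (i.commutes _).symm)
    obtain ⟨z, hz⟩ := h3 ⟨y, rfl⟩
    exact ⟨z, hz.trans hg⟩
  exact ⟨((AlgEquiv.ofInjectiveField i).symm : i.range →ₐ[_] _).comp
    (u.codRestrict i.range fun x => h1 Algebra.mem_top)⟩

theorem g4_alg {A F : Type} [CommRing A] [IsDomain A] [Field F] {ψ : A →+* F}
    (hi : Function.Injective ψ) : ∃ _ : Algebra (Fr A) F, ∀ p, toE A F p = ψ p :=
  ⟨(frMap ψ hi).toAlgebra, fun p => IsFractionRing.lift_algebraMap hi p⟩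

/-- `N` is the splitting field of the minimal polynomials of the `ρ y`, `y ∈ Z` -/
theorem Sett.exists_N (hL : LE2) (h : Sett L φ Th P W) (hΔ : Dsc Th Δ)
    {ρ : W.integer →+* Fr (PowerSeries (KB k σ))} (hr : IsRed W ρ)
    (hb : ∀ (p : MP (Option σ) k) (y : W.integer), (y : E) = algebraMap L E (φ (up p)) →
      ρ y = algebraMap _ _ (yb k σ p)) (Z : Finset W.integer) :
    ∃ (N : Type) (_ : Field N) (_ : Algebra (RF (Option σ) k) N)
      (_ : FiniteDimensional (RF (Option σ) k) N) (_ : IsGalois (RF (Option σ) k) N)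
      (u : N →+* Fr (PowerSeries (KB k σ))),
      UnrOff (RF (Option σ) k) (toE (MP (Option σ) k) N) Δ ∧
      (∀ p, u (toE (MP (Option σ) k) N p) = algebraMap _ _ (yb k σ p)) ∧ ∀ y ∈ Z, ρ y ∈ u.range := by
  obtain ⟨_, ha⟩ := g4_alg (ψ := (algebraMap _ (Fr (PowerSeries (KB k σ)))).comp (yb k σ))
    ((IsFractionRing.injective _ _).comp hΔ.expn.1.inj)
  have hb' := fun p y hy => (hb p y hy).trans (ha p).symm
  have : CharZero (RF (Option σ) k) :=
    charZero_of_injective_algebraMap (algebraMap k _).injective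
  have : IsGalois (RF (Option σ) k) (∏ y ∈ Z, minpoly (RF (Option σ) k) (ρ y)).SplittingField := {}
  obtain ⟨u⟩ := g4_emb hL h hr hb' Z hΔ.expn.1 ha
  refine ⟨_, inferInstance, inferInstance, inferInstance, this, u, fun P₀ w hP hd hc => ?_,
    fun p => (u.commutes _).trans (ha p), fun y hy => ?_⟩
  · obtain ⟨κ, _, _, ψ, hi, h0, h1⟩ := exists_psi hP
    obtain ⟨r, α, β, hz⟩ := hΔ.bez
    obtain ⟨_, ha'⟩ := g4_alg (ψ := (algebraMap _ (Fr (PowerSeries κ))).comp ψ)
      ((IsFractionRing.injective _ _).comp hi)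
    obtain ⟨u'⟩ := g4_emb hL h hr hb' Z
      ⟨hi, ⟨P₀, hP, h0⟩, sep_of_bez hz ψ fun e => hd ((h0 _).1 e)⟩ ha'
    exact unr_of_embL hP h0 h1 u' (fun p => (u'.commutes _).trans (ha' p)) hc
  · have h1 : ρ y ∈ (∏ y ∈ Z, minpoly (RF (Option σ) k) (ρ y)).rootSet _ := by
      rw [Polynomial.mem_rootSet]
      refine ⟨Finset.prod_ne_zero_iff.2 fun z _ =>
        minpoly.ne_zero (h.alg hr hb' z).isIntegral, ?_⟩
      rw [map_prod]
      exact Finset.prod_eq_zero hy (minpoly.aeval _ _)
    rw [← (Polynomial.SplittingField.splits _).image_rootSet u] at h1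
    obtain ⟨z, -, hz⟩ := h1
    exact ⟨z, hz⟩

end Pool.Agent.ZCy
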