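import Pool.Agent.Lib.MP_751085_ag.ZC.L.G4
import Pool.Agent.Lib.MP_751085_ag.ZC.L.G3
import Pool.Agent.Lib.MP_751085_ag.ZC.L.Ps

/-! The decomposition group acts through the coefficients. -/

namespace Pool.Agent.ZCy

open scoped Classical WithZero Polynomial
open groupCohomology

set_option linter.unusedSectionVars false

variable {k σ L E : Type} [Field k] [CharZero k] [Fintype σ] [Field L] [Field E] [Algebra L E]
  [FiniteDimensional L E] [IsGalois L E] {φ : MP (Option (Option σ)) k →+* L}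
  {Th P : MP (Option (Option σ)) k} {W : Vl E}

variable {Δ : MP (Option σ) k}

/-- `T` acts on the coefficients through `s` -/
def Cfw {κ : Type} [Field κ] (s : κ →+* κ) (T : Fr (PowerSeries κ) →+* Fr (PowerSeries κ)) : Prop :=
  ∀ y : PowerSeries κ, T (algebraMap _ _ y) = algebraMap _ _ (PowerSeries.map s y)

theorem g5_lift {M M' : Type} [Field M] [Field M'] (f : M →+* M') :
    ∃ T : Fr (PowerSeries M) →+* Fr (PowerSeries M'), ∀ y : PowerSeries M,
      T (algebraMap _ _ y) = algebraMap (PowerSeries M') _ (PowerSeries.map f y) :=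
  ps_lift (τ := Unit) f

theorem Cfw.ext {κ : Type} [Field κ] {s : κ →+* κ} {T T' : Fr (PowerSeries κ) →+* Fr (PowerSeries κ)}
    (h : Cfw s T) (h' : Cfw s T') : T = T' :=
  IsFractionRing.ringHom_ext (A := PowerSeries κ) fun y => (h y).trans (h' y).symm

theorem Cfw.comp {κ : Type} [Field κ] {s s' : κ →+* κ}
    {T T' : Fr (PowerSeries κ) →+* Fr (PowerSeries κ)} (h : Cfw s T) (h' : Cfw s' T') :
    Cfw (s.comp s') (T.comp T') := fun y => by
  rw [RingHom.comp_apply, h', h, PowerSeries.map_comp, RingHom.comp_apply]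

theorem g5_id (κ : Type) [Field κ] : Cfw (RingHom.id κ) (RingHom.id _) := fun y => by
  rw [PowerSeries.map_id]
  rfl

theorem g5_fac {A B C : Type} [CommRing A] [Field B] [Field C] (f : A →+* C) (i : B →+* C)
    (h : ∀ a, f a ∈ i.range) : ∃ j : A →+* B, ∀ a, i (j a) = f a := by
  choose j hj using h
  exact ⟨⟨⟨⟨j, i.injective (by rw [hj, map_one, map_one])⟩, fun a b => i.injective (by
    simp only [hj, map_mul])⟩, i.injective (by simp only [hj, map_zero]),
      fun a b => i.injective (by simp only [hj, map_add])⟩, hj⟩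

theorem g5_nu {K N 𝕃 : Type} [Field K] [Field N] [Field 𝕃] [Algebra K N] [FiniteDimensional K N]
    [IsGalois K N] (u : N →+* 𝕃) (M : IntermediateField K N) (j : M →+* 𝕃)
    (h : ∀ a, j (algebraMap K M a) = u (algebraMap K N a)) :
    ∃ ν : N ≃ₐ[K] N, ∀ z : M, u (ν z) = j z := by
  obtain ⟨j₀, hj⟩ := g5_fac j u fun z => by
    have hz : IsIntegral K (z : N) := Algebra.IsIntegral.isIntegral _
    refine (Normal.splits inferInstance (z : N)).mem_range_of_isRoot
      (Polynomial.map_ne_zero (minpoly.ne_zero hz)) ?_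
    have e : u.comp (algebraMap K N) = j.comp (algebraMap K M) := RingHom.ext fun a => (h a).symm
    rw [Polynomial.map_map, e, Polynomial.IsRoot.def, Polynomial.eval_map, ← Polynomial.hom_eval₂,
      ← Polynomial.aeval_def, ← IntermediateField.minpoly_eq, minpoly.aeval, map_zero]
  let f : M →ₐ[K] N := ⟨j₀, fun a => u.injective ((hj _).trans (h a))⟩
  exact ⟨AlgEquiv.ofBijective (f.liftNormal N) (Algebra.IsAlgebraic.algHom_bijective _),
    fun z => (congrArg u (f.liftNormal_commutes N z)).trans (hj z)⟩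

theorem g5_inv {Ω : Type} [Field Ω] {ρ : W.integer →+* Ω} (hr : IsRed W ρ) {x : Ω}
    (hx : x ∈ ρ.range) : x⁻¹ ∈ ρ.range := by
  obtain ⟨y, rfl⟩ := hx
  by_cases h0 : ρ y = 0
  · rw [h0, inv_zero]
    exact zero_mem _
  have h1 : W y = 1 := le_antisymm y.2 (not_lt.1 fun h => h0 ((hr y).2 h))
  have h2 : (y : E) ≠ 0 := fun h => zero_ne_one (by rw [← h1, h, map_zero])
  refine ⟨⟨(y : E)⁻¹, (show W (y : E)⁻¹ = 1 by rw [map_inv₀, h1, inv_one]).le⟩, ?_⟩
  refine eq_inv_of_mul_eq_one_left ?_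
  rw [← map_mul, ← map_one ρ]
  exact congrArg ρ (Subtype.ext (inv_mul_cancel₀ h2))

/-- write `z = a / X ^ n`; the coefficients of `a` are fixed by the absolute Galois group -/
theorem cfw_fixed {κ₀ : Type} [Field κ₀] [CharZero κ₀] {z : Fr (PowerSeries (AlgebraicClosure κ₀))}
    (h : ∀ (s : AlgebraicClosure κ₀ ≃ₐ[κ₀] AlgebraicClosure κ₀) T, Cfw (s : _ →+* _) T → T z = z)
    (i : Fr (PowerSeries κ₀) →+* Fr (PowerSeries (AlgebraicClosure κ₀)))
    (hi : ∀ y : PowerSeries κ₀, i (algebraMap _ _ y) =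
      algebraMap _ _ (PowerSeries.map (algebraMap κ₀ (AlgebraicClosure κ₀)) y)) : z ∈ i.range := by
  have hinj := IsFractionRing.injective (PowerSeries (AlgebraicClosure κ₀))
    (Fr (PowerSeries (AlgebraicClosure κ₀)))
  obtain ⟨n, a, ha⟩ : ∃ (n : ℕ) (a : PowerSeries (AlgebraicClosure κ₀)),
      z * algebraMap (PowerSeries (AlgebraicClosure κ₀)) _ (PowerSeries.X ^ n) = algebraMap _ _ a := by
    obtain ⟨a, b, hb, rfl⟩ := IsFractionRing.div_surjective (PowerSeries (AlgebraicClosure κ₀)) z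
    obtain ⟨n, v, rfl⟩ := IsDiscreteValuationRing.eq_unit_mul_pow_irreducible
      (nonZeroDivisors.ne_zero hb) PowerSeries.X_irreducible
    refine ⟨n, a * (v⁻¹ : _ˣ), ?_⟩
    rw [div_mul_eq_mul_div, div_eq_iff ((map_ne_zero_iff _ hinj).2 (nonZeroDivisors.ne_zero hb)),
      ← map_mul, ← map_mul, mul_assoc, Units.inv_mul_cancel_left]
  have h1 : ∀ m, PowerSeries.coeff m a ∈ Set.range (algebraMap κ₀ (AlgebraicClosure κ₀)) := fun m =>
    (InfiniteGalois.mem_range_algebraMap_iff_fixed _).2 fun s => by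
      obtain ⟨T, hT⟩ := g5_lift (s : AlgebraicClosure κ₀ →+* AlgebraicClosure κ₀)
      have h2 := congrArg T ha
      rw [map_mul, h s T hT, hT, hT, map_pow, PowerSeries.map_X, ha] at h2
      exact (PowerSeries.coeff_map _ m a).symm.trans (congrArg (PowerSeries.coeff m) (hinj h2)).symm
  choose c hc using h1
  have h2 : PowerSeries.map (algebraMap κ₀ (AlgebraicClosure κ₀)) (PowerSeries.mk c) = a :=
    PowerSeries.ext fun m => by rw [PowerSeries.coeff_map, PowerSeries.coeff_mk, hc]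
  refine ⟨algebraMap _ _ (PowerSeries.mk c) / algebraMap (PowerSeries κ₀) _ (PowerSeries.X ^ n), ?_⟩
  rw [map_div₀, hi, hi, h2, map_pow, PowerSeries.map_X, ← ha,
    mul_div_cancel_right₀ _ ((map_ne_zero_iff _ hinj).2 (pow_ne_zero n PowerSeries.X_ne_zero))]

/-- the `ν` induced by some `s` form a subgroup `H` (`exists_gal_of_fix`); its fixed field embeds
into `Fr κ₀⟦y⟧` (`cfw_fixed`), so is trivial (`lv_scp`) -/
theorem Dsc.onto (h1 : Z1H) (hΔ : Dsc Th Δ) {N : Type} [Field N] [Algebra (RF (Option σ) k) N]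
    [FiniteDimensional (RF (Option σ) k) N] [IsGalois (RF (Option σ) k) N]
    (hU : UnrOff (RF (Option σ) k) (toE (MP (Option σ) k) N) Δ)
    {u : N →+* Fr (PowerSeries (KB k σ))}
    (hu : ∀ p, u (toE (MP (Option σ) k) N p) = algebraMap _ _ (yb k σ p))
    (ν : N ≃ₐ[RF (Option σ) k] N) : ∃ s : KB k σ ≃ₐ[RF σ k] KB k σ,
      ∀ T, Cfw (s : KB k σ →+* KB k σ) T → ∀ z, u (ν z) = T (u z) := by
  let H : Subgroup (N ≃ₐ[RF (Option σ) k] N) :=
    { carrier := {ν | ∃ s : KB k σ ≃ₐ[RF σ k] KB k σ,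
        ∀ T, Cfw (s : KB k σ →+* KB k σ) T → ∀ z, u (ν z) = T (u z)}
      one_mem' := ⟨1, fun T hT z => by rw [Cfw.ext hT (g5_id _)]; rfl⟩
      mul_mem' := by
        rintro a b ⟨s, hs⟩ ⟨s', hs'⟩
        obtain ⟨S, hS⟩ := g5_lift (s : KB k σ →+* KB k σ)
        obtain ⟨S', hS'⟩ := g5_lift (s' : KB k σ →+* KB k σ)
        refine ⟨s * s', fun T hT z => ?_⟩
        rw [Cfw.ext hT (Cfw.comp hS hS'), AlgEquiv.mul_apply, hs S hS, hs' S' hS']
        rfl
      inv_mem' := by
        rintro a ⟨s, hs⟩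
        obtain ⟨S, hS⟩ := g5_lift (s : KB k σ →+* KB k σ)
        refine ⟨s⁻¹, fun T hT z => ?_⟩
        have e1 : ((s⁻¹ : KB k σ ≃ₐ[RF σ k] KB k σ) : KB k σ →+* KB k σ).comp
            (s : KB k σ →+* KB k σ) = RingHom.id _ := RingHom.ext fun x => s.symm_apply_apply x
        have e2 := Cfw.comp hT hS
        rw [e1] at e2
        have e3 := hs S hS (a⁻¹ z)
        rw [← AlgEquiv.mul_apply, mul_inv_cancel, AlgEquiv.one_apply] at e3
        rw [e3]
        exact (RingHom.congr_fun (e2.ext (g5_id _)) _).symm }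
  have : CharZero (RF σ k) := charZero_of_injective_algebraMap (algebraMap k (RF σ k)).injective
  obtain ⟨i, hi⟩ := g5_lift (algebraMap (RF σ k) (KB k σ))
  obtain ⟨j, hj⟩ := g5_fac (u.comp (algebraMap (IntermediateField.fixedField H) N)) i fun z => by
    refine cfw_fixed (fun s T hT => ?_) i hi
    have e : (T.comp u).comp (algebraMap (RF (Option σ) k) N) =
        u.comp (algebraMap (RF (Option σ) k) N) :=
      IsFractionRing.ringHom_ext (A := MP (Option σ) k) fun p => by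
        change T (u (toE _ N p)) = u (toE _ N p)
        rw [hu, hT, yb, RingHom.comp_apply, ← RingHom.comp_apply (PowerSeries.map _),
          ← PowerSeries.map_comp, show (s : KB k σ →+* KB k σ).comp (algebraMap (RF σ k) (KB k σ)) =
            algebraMap _ _ from RingHom.ext s.commutes]
    obtain ⟨g, hg⟩ := exists_gal_of_fix u T (RingHom.congr_fun e)
    have h2 : g ∈ H := ⟨s, fun T' hT' z => by rw [hg, hT.ext hT']⟩
    exact (hg z).symm.trans (congrArg u (z.2 ⟨g, h2⟩))
  obtain ⟨a, b, ha, hb, hb0, hg⟩ := hΔ.line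
  have h3 := lv_scp h1 ha hb hb0 hg hU _ j fun p => i.injective ((hj _).trans
    ((hu p).trans (hi _).symm))
  have h4 := IntermediateField.fixingSubgroup_fixedField H
  rw [h3, IntermediateField.fixingSubgroup_bot] at h4
  exact h4.le (Subgroup.mem_top ν)

/-- `g` induces an endomorphism `ḡ` of the range of `ρ` (`IsRed.transfer`). On the field `N₁` of all
`z ∈ N` with `u z` in the range of `ρ`, `ḡ (u z)` is a root of the minimal polynomial of `z`, so lies
in `u N`; extend `N₁ → N` to `ν` (`AlgHom.liftNormal`) and use `onto`. -/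
theorem Sett.claimZ (hL : LE2) (h1 : Z1H) (h : Sett L φ Th P W) (hΔ : Dsc Th Δ)
    {ρ : W.integer →+* Fr (PowerSeries (KB k σ))} (hr : IsRed W ρ)
    (hb : ∀ (p : MP (Option σ) k) (y : W.integer), (y : E) = algebraMap L E (φ (up p)) →
      ρ y = algebraMap _ _ (yb k σ p)) (Z : Finset W.integer) {g : E ≃ₐ[L] E} (hg : g ∈ Dec L W) :
    ∃ s : KB k σ ≃ₐ[RF σ k] KB k σ, ∀ T, Cfw (s : KB k σ →+* KB k σ) T →
      ∀ y ∈ Z, ∀ y' : W.integer, (y' : E) = g y → ρ y' = T (ρ y) := by
  obtain ⟨N, _, _, _, _, u, hU, hu, hZ⟩ := h.exists_N hL hΔ hr hb Z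
  obtain ⟨ρ', hr', e⟩ := hr.comap (g : E →+* E) (w := W) fun z => by
    rw [← hg z]
    rfl
  have e1 : ∀ p, ρ ⟨algebraMap L E (φ (up p)), h.cen.1 _⟩ = u (toE (MP (Option σ) k) N p) :=
    fun p => (hb p _ rfl).trans (hu p).symm
  let S : Subfield N :=
    { ρ.range.comap u with
      inv_mem' := fun x hx => show u x⁻¹ ∈ ρ.range by
        rw [map_inv₀]
        exact g5_inv hr hx }
  let M : IntermediateField (RF (Option σ) k) N := S.toIntermediateField fun a => by
    obtain ⟨p, q, -, rfl⟩ := IsFractionRing.div_surjective (MP (Option σ) k) a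
    rw [map_div₀]
    exact S.div_mem ⟨_, e1 p⟩ ⟨_, e1 q⟩
  obtain ⟨j, hj⟩ := hr.transfer hr' (j := u.comp (algebraMap M N)) (by
    rintro _ ⟨z, rfl⟩
    exact z.2)
  have e2 : j.comp (algebraMap (RF (Option σ) k) M) = u.comp (algebraMap (RF (Option σ) k) N) :=
    IsFractionRing.ringHom_ext (A := MP (Option σ) k) fun p =>
      (hj _ _ (e1 p)).symm.trans ((e _ _ (g.commutes _).symm).trans (e1 p))
  obtain ⟨ν, hν⟩ := g5_nu u M j (RingHom.congr_fun e2)
  obtain ⟨s, hs⟩ := hΔ.onto h1 hU hu ν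
  refine ⟨s, fun T hT y hy y' hy' => ?_⟩
  obtain ⟨z, hz⟩ := hZ y hy
  rw [← e y y' hy', hj y ⟨z, y, hz.symm⟩ hz.symm, ← hν, hs T hT, hz]

end Pool.Agent.ZCy
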