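import Pool.Agent.Lib.MP_751085_ag.ZC.L.G5

/-! Decomposition groups act by coefficient maps and rotations. -/

namespace Pool.Agent.ZCy

open scoped Classical WithZero Polynomial
open groupCohomology

set_option linter.unusedSectionVars false

variable {k σ L E : Type} [Field k] [CharZero k] [Fintype σ] [Field L] [Field E] [Algebra L E]
  [FiniteDimensional L E] [IsGalois L E] {φ : MP (Option (Option σ)) k →+* L}
  {Th P : MP (Option (Option σ)) k} {W : Vl E}

variable {Δ : MP (Option σ) k}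

/-- `S` acts on coefficients through `s` and rotates the outer variable by `ζ` -/
def Rot {κ : Type} [Field κ] (s : κ →+* κ) (ζ : κ)
    (S : Fr (PowerSeries (PowerSeries κ)) →+* Fr (PowerSeries (PowerSeries κ))) : Prop :=
  ∀ a : PowerSeries (PowerSeries κ), S (algebraMap _ _ a) = algebraMap _ _
    (PowerSeries.rescale (PowerSeries.C ζ) (PowerSeries.map (PowerSeries.map s) a))

theorem exists_rot {κ : Type} [Field κ] (s : κ →+* κ) {ζ : κ} (h : ζ ≠ 0) : ∃ S, Rot s ζ S :=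
  have hi := (IsFractionRing.injective (PowerSeries (PowerSeries κ))
    (Fr (PowerSeries (PowerSeries κ)))).comp ((PowerSeries.rescale_injective
      ((map_ne_zero_iff _ PowerSeries.C_injective).2 h)).comp
        (PowerSeries.map_injective _ (PowerSeries.map_injective s s.injective)))
  ⟨IsFractionRing.lift (g := (algebraMap _ _).comp ((PowerSeries.rescale (PowerSeries.C ζ)).comp
    (PowerSeries.map (PowerSeries.map s)))) hi, fun a => IsFractionRing.lift_algebraMap _ a⟩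

theorem g6_cfw {κ : Type} [Field κ] (s : κ →+* κ) : ∃ T, Cfw s T :=
  have hi := (IsFractionRing.injective (PowerSeries κ) (Fr (PowerSeries κ))).comp
    (PowerSeries.map_injective s s.injective)
  ⟨IsFractionRing.lift (g := (algebraMap _ _).comp (PowerSeries.map s)) hi,
    fun a => IsFractionRing.lift_algebraMap _ a⟩

theorem g6_id {κ : Type} [Field κ] {ζ : κ} {S} (h : Rot (RingHom.id κ) ζ S)
    (a : PowerSeries (PowerSeries κ)) :
    S (algebraMap _ _ a) = algebraMap _ _ (PowerSeries.rescale (PowerSeries.C ζ) a) := by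
  have e : PowerSeries.map (RingHom.id κ) = RingHom.id _ := RingHom.ext fun _ => rfl
  rw [h, e]
  rfl

theorem g6_one {κ : Type} [Field κ] {s : κ →+* κ} {S} (h : Rot s 1 S)
    (a : PowerSeries (PowerSeries κ)) :
    S (algebraMap _ _ a) = algebraMap _ _ (PowerSeries.map (PowerSeries.map s) a) := by
  rw [h, map_one, PowerSeries.rescale_one, RingHom.id_apply]

theorem g6_comp {κ : Type} [Field κ] {s : κ →+* κ} {ζ : κ} {S S₁ S₂} (h : Rot s (s ζ) S)
    (h1 : Rot s 1 S₁) (h2 : Rot (RingHom.id κ) ζ S₂) (z) : S z = S₁ (S₂ z) := by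
  have e : S = S₁.comp S₂ := IsFractionRing.ringHom_ext (A := PowerSeries (PowerSeries κ)) fun a => by
    rw [RingHom.comp_apply, g6_id h2, g6_one h1, h, ← PowerSeries.rescale_map, PowerSeries.map_C]
  rw [e, RingHom.comp_apply]

theorem g6_rS {κ : Type} [Field κ] (a : PowerSeries (PowerSeries κ)) :
    rS κ a = 0 ↔ PowerSeries.X ∣ a := by
  rw [PowerSeries.X_dvd_iff, RingHom.comp_apply, map_eq_zero_iff _ (IsFractionRing.injective _ _)]

theorem g6_wit (L : Type) {E : Type} [Field L] [Field E] [Algebra L E] (W : Vl E) (d : E ≃ₐ[L] E) :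
    ∃ z : W.integer, d ∈ Dec L W → W (d z - z) < 1 → d ∈ Ine L W := by
  by_cases h : ∀ x, W x ≤ 1 → W (d x - x) < 1
  · exact ⟨0, fun h1 _ => ⟨h1, h⟩⟩
  · obtain ⟨x, hx⟩ := not_forall.1 h
    obtain ⟨h1, h2⟩ := Classical.not_imp.1 hx
    exact ⟨⟨x, h1⟩, fun _ h3 => absurd h3 h2⟩

/-- `prime_root`, `adapted` with `ψ = yb`. Take for `Z` the element `t` and for each `d ∈ D \ I` some
`z` with `W (d z - z) = 1`. `claimZ` gives `s`; it fixes the root `t̃`, so the coefficient map fixes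
`J L` and comes from `g₀` (`exists_gal_of_fix`); `g₀ ∈ D` and `g₀⁻¹ g ∈ I` (`ValRed.aut`); `inertia`. -/
theorem Sett.rot (hL : LE2) (h1 : Z1H) (h : Sett L φ Th P W) (hΔ : Dsc Th Δ) :
    ∃ (t : PowerSeries (KB k σ)) (e : ℕ) (J : E →+* Fr (PowerSeries (PowerSeries (KB k σ)))),
      0 < e ∧ (∀ p, J (algebraMap L E (φ p)) = algebraMap (PowerSeries (PowerSeries (KB k σ))) _
        ((tp p).eval₂ (PowerSeries.C.comp (yb k σ)) (PowerSeries.C t + PowerSeries.X ^ e))) ∧
      (∀ g ∈ Dec L W, ∃ (s : KB k σ →+* KB k σ) (ζ : KB k σ), ζ ≠ 0 ∧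
        ∀ S, Rot s ζ S → ∀ z, J (g z) = S (J z)) ∧
      ∀ n ∈ Ine L W, ∃ ζ : KB k σ, ζ ≠ 0 ∧
        ∀ S, Rot (RingHom.id _) ζ S → ∀ z, J (n z) = S (J z) := by
  have hψ := hΔ.expn.1
  obtain ⟨t, ht⟩ := prime_root h.monic h.prime h.dvd hψ.inj (ps_splits (h.monic.map _) hψ.sep)
  obtain ⟨V, ρ, hV⟩ := exists_valRed PowerSeries.X_prime (rS (KB k σ)) g6_rS
  obtain ⟨e, J, he, hJ, hW⟩ := h.adapted hL hψ ht hV
  have hI : ∀ n ∈ Ine L W, ∃ ζ : KB k σ, ζ ≠ 0 ∧
      ∀ S, Rot (RingHom.id _) ζ S → ∀ z, J (n z) = S (J z) := fun n hn => by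
    obtain ⟨ζ, h2, h3⟩ := h.inertia hψ ht hV he hJ hW hn
    exact ⟨ζ, fun h0 => zero_ne_one ((zero_pow he.ne').symm.trans (h0 ▸ h2)),
      fun S hS => h3 S (g6_id hS)⟩
  refine ⟨t, e, J, he, hJ, fun g hg => ?_, hI⟩
  obtain ⟨ρ', hr, hρ⟩ := hV.red.comap J hW
  have hρ' : ∀ y : W.integer, ρ' y = ρ ⟨J y, (hW _).1 y.2⟩ := fun y => hρ y _ rfl
  have hb : ∀ (p : MP (Option (Option σ)) k) (y : W.integer), (y : E) = algebraMap L E (φ p) →
      ρ' y = rS _ ((tp p).eval₂ (PowerSeries.C.comp (yb k σ))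
        (PowerSeries.C t + PowerSeries.X ^ e)) := fun p y hy =>
    (hρ' y).trans (hV.ext _ _ ((congrArg J hy).trans (hJ p)))
  choose zz hz using g6_wit L W
  let τ : W.integer := ⟨algebraMap L E (φ (MvPolynomial.X none)), h.cen.1 _⟩
  obtain ⟨s, hs⟩ := h.claimZ hL h1 hΔ hr (fun p y hy => by
    rw [hb _ y hy, tp_up, Polynomial.eval₂_C]
    simp) (insert τ (Finset.univ.image zz)) hg
  obtain ⟨T, hT⟩ := g6_cfw (s : KB k σ →+* KB k σ)
  obtain ⟨S₁, hS⟩ := exists_rot (s : KB k σ →+* KB k σ) one_ne_zero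
  have hτ : ρ' τ = algebraMap _ _ t := by
    rw [hb _ τ rfl]
    simp [he.ne']
  have hst : PowerSeries.map (s : KB k σ →+* KB k σ) t = t := by
    have h2 := hs T hT τ (Finset.mem_insert_self _ _) τ (g.commutes _).symm
    rw [hτ, hT] at h2
    exact (IsFractionRing.injective _ _ h2).symm
  have hsy : (PowerSeries.map (s : KB k σ →+* KB k σ)).comp (yb k σ) = yb k σ := by
    rw [yb, ← RingHom.comp_assoc, ← PowerSeries.map_comp,
      show (s : KB k σ →+* KB k σ).comp (algebraMap _ _) = _ from RingHom.ext s.commutes]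
  have hfix : ∀ p, S₁ (J (algebraMap L E (φ p))) = J (algebraMap L E (φ p)) := fun p => by
    have e1 : (PowerSeries.map (PowerSeries.map (s : KB k σ →+* KB k σ))).comp
        (PowerSeries.C.comp (yb k σ)) = PowerSeries.C.comp (yb k σ) := RingHom.ext fun q => by
      rw [RingHom.comp_apply, RingHom.comp_apply, PowerSeries.map_C]
      exact congrArg _ (RingHom.congr_fun hsy q)
    rw [hJ, g6_one hS, Polynomial.hom_eval₂, e1, map_add, map_pow, PowerSeries.map_C,
      PowerSeries.map_X, hst]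
  obtain ⟨g₀, h0⟩ := exists_gal_of_fix (L := L) J S₁ fun a => by
    obtain ⟨p, q, rfl⟩ := h.surj a
    simp only [map_div₀, hfix]
  obtain ⟨h2, h3⟩ := hV.aut S₁ _ T (g6_one hS) (by rw [PowerSeries.map_X]) fun a => by
    rw [RingHom.comp_apply, RingHom.comp_apply, hT, ← PowerSeries.coeff_zero_eq_constantCoeff_apply,
      PowerSeries.coeff_map, PowerSeries.coeff_zero_eq_constantCoeff_apply]
  have h4 : g₀ ∈ Dec L W := lv_dec fun x => by rw [hW, hW, h0, h2]
  have h5 : g₀⁻¹ * g ∈ Ine L W := by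
    refine hz _ (mul_mem (inv_mem h4) hg) ?_
    let z := zz (g₀⁻¹ * g)
    let y₁ : W.integer := ⟨g z, (hg _).trans_le z.2⟩
    let y₀ : W.integer := ⟨g₀ z, (h4 _).trans_le z.2⟩
    have h6 : ρ' (y₁ - y₀) = 0 := by
      rw [map_sub, hs T hT z (Finset.mem_insert_of_mem (Finset.mem_image_of_mem _
        (Finset.mem_univ _))) y₁ rfl, hρ' y₀, h3 ⟨J z, (hW _).1 z.2⟩ _ (h0 _), hρ', sub_self]
    rw [← h4, map_sub, ← AlgEquiv.mul_apply, mul_inv_cancel_left]
    exact (hr _).1 h6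
  obtain ⟨ζ, h6, h7⟩ := hI _ h5
  obtain ⟨S₂, h8⟩ := exists_rot (RingHom.id _) h6
  refine ⟨s, s ζ, (map_ne_zero s).2 h6, fun S hS' z => ?_⟩
  rw [g6_comp hS' hS h8, ← h7 S₂ h8, ← h0, ← AlgEquiv.mul_apply, mul_inv_cancel_left]

end Pool.Agent.ZCy
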