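import Pool.Agent.Lib.MP_751085_ag.ZC.L.G6

/-! A valuation on the residue field of the hyperplane. -/

namespace Pool.Agent.ZCy

open scoped Classical WithZero Polynomial
open groupCohomology

set_option linter.unusedSectionVars false

variable {k σ E : Type} [Field k] [CharZero k] [Fintype σ] [Field E]
  [Algebra (RF (Option (Option σ)) k) E]

/-- the residue map of the prime `y` of `κ⟦y⟧⟦s⟧` -/
noncomputable abbrev rY (κ : Type) [Field κ] : PowerSeries (PowerSeries κ) →+* Fr (PowerSeries κ) :=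
  (algebraMap (PowerSeries κ) _).comp (PowerSeries.map PowerSeries.constantCoeff)

theorem rY_eq_zero {κ : Type} [Field κ] (a : PowerSeries (PowerSeries κ)) :
    rY κ a = 0 ↔ PowerSeries.C PowerSeries.X ∣ a := by
  rw [RingHom.comp_apply, map_eq_zero_iff _ (IsFractionRing.injective _ _)]
  constructor
  · intro h
    have h1 : ∀ n, PowerSeries.X ∣ PowerSeries.coeff n a := fun n => by
      have := congrArg (PowerSeries.coeff n) h
      rw [PowerSeries.coeff_map, map_zero] at this
      exact PowerSeries.X_dvd_iff.2 this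
    choose b hb using h1
    refine ⟨PowerSeries.mk b, PowerSeries.ext fun n => ?_⟩
    rw [PowerSeries.coeff_C_mul, PowerSeries.coeff_mk, hb]
  · rintro ⟨b, rfl⟩
    rw [map_mul, PowerSeries.map_C, PowerSeries.constantCoeff_X, map_zero, zero_mul]

theorem prime_CX (κ : Type) [Field κ] :
    Prime (PowerSeries.C PowerSeries.X : PowerSeries (PowerSeries κ)) := by
  refine ⟨fun h => PowerSeries.X_ne_zero (R := κ) (PowerSeries.C_injective (h.trans (map_zero _).symm)),
    fun h => ?_, fun a b h => ?_⟩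
  · exact (h.map (rY κ)).ne_zero ((rY_eq_zero _).2 dvd_rfl)
  · rw [← rY_eq_zero, map_mul, mul_eq_zero, rY_eq_zero, rY_eq_zero] at h
    exact h

/-- evaluation of a polynomial in `τ` -/
noncomputable def g7ev {R T ι : Type} [CommRing R] [CommRing T] (ψ : MP ι R →+* T) (t : T) :
    MP (Option ι) R →+* T :=
  (Polynomial.eval₂RingHom ψ t).comp (MvPolynomial.optionEquivLeft R ι : _ →+* (MP ι R)[X])

theorem g7ev_apply {R T ι : Type} [CommRing R] [CommRing T] (ψ : MP ι R →+* T) (t : T)
    (p : MP (Option ι) R) : g7ev ψ t p = (tp p).eval₂ ψ t := rfl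

theorem g7ev_C {R T ι : Type} [CommRing R] [CommRing T] (ψ : MP ι R →+* T) (t : T) (a : R) :
    g7ev ψ t (MvPolynomial.C a) = ψ (MvPolynomial.C a) := by simp [g7ev]

theorem g7ev_none {R T ι : Type} [CommRing R] [CommRing T] (ψ : MP ι R →+* T) (t : T) :
    g7ev ψ t (MvPolynomial.X none) = t := by simp [g7ev]

theorem g7ev_some {R T ι : Type} [CommRing R] [CommRing T] (ψ : MP ι R →+* T) (t : T) (i : ι) :
    g7ev ψ t (MvPolynomial.X (some i)) = ψ (MvPolynomial.X i) := by simp [g7ev]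

theorem g7flp_C {R F ι : Type} [CommRing R] [Field F] (φ : MP (Option ι) R →+* F) (a : R) :
    flpHom φ (MvPolynomial.C a) = φ (MvPolynomial.C a) := by simp [flpHom]

theorem g7flp_none {R F ι : Type} [CommRing R] [Field F] (φ : MP (Option ι) R →+* F) :
    flpHom φ (MvPolynomial.X none) = (φ (MvPolynomial.X none))⁻¹ := by simp [flpHom]

theorem g7flp_some {R F ι : Type} [CommRing R] [Field F] (φ : MP (Option ι) R →+* F) (i : ι) :
    flpHom φ (MvPolynomial.X (some i)) =
      φ (MvPolynomial.X (some i)) / φ (MvPolynomial.X none) := by simp [flpHom]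

theorem g7_inj {R κ ι : Type} [CommRing R] [Field κ] {j : MP ι R →+* κ} (hj : Function.Injective j)
    (a : κ) {e : ℕ} (he : 0 < e) :
    Function.Injective (g7ev (PowerSeries.C.comp j) (PowerSeries.C a + PowerSeries.X ^ e)) := by
  refine (injective_iff_map_eq_zero _).2 fun p hp => ?_
  have h1 := Polynomial.hom_eval₂ (tp p) (Polynomial.C.comp j) Polynomial.coeToPowerSeries.ringHom
    (Polynomial.C a + Polynomial.X ^ e)
  have h2 : (Polynomial.coeToPowerSeries.ringHom : κ[X] →+* _).comp (Polynomial.C.comp j) =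
      PowerSeries.C.comp j := RingHom.ext fun b => by simp
  have h3 : (Polynomial.coeToPowerSeries.ringHom : κ[X] →+* _) (Polynomial.C a + Polynomial.X ^ e) =
      PowerSeries.C a + PowerSeries.X ^ e := by simp
  rw [h2, h3, ← g7ev_apply (PowerSeries.C.comp j), hp, ← Polynomial.eval₂_map, ← Polynomial.comp,
    Polynomial.coeToPowerSeries.ringHom_apply, Polynomial.coe_eq_zero_iff,
    Polynomial.comp_eq_zero_iff] at h1
  rcases h1 with h1 | ⟨-, h1⟩
  · exact (map_eq_zero_iff _ (MvPolynomial.optionEquivLeft R ι).injective).1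
      ((Polynomial.map_eq_zero_iff hj).1 h1)
  · have := congrArg (fun q => Polynomial.coeff q e) h1
    simp [Polynomial.coeff_C, he.ne', he.ne] at this

theorem g7_lift {κ : Type} [Field κ] (s : κ →+* κ) {ζ : κ} (h : ζ ≠ 0) :
    ∃ S : Fr (PowerSeries κ) →+* Fr (PowerSeries κ), ∀ a : PowerSeries κ,
      S (algebraMap _ _ a) = algebraMap _ _ (PowerSeries.rescale ζ (PowerSeries.map s a)) := by
  have hi : Function.Injective ((algebraMap (PowerSeries κ) (Fr (PowerSeries κ))).comp
      ((PowerSeries.rescale ζ).comp (PowerSeries.map s))) :=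
    (IsFractionRing.injective _ _).comp
      ((PowerSeries.rescale_injective h).comp (PowerSeries.map_injective s s.injective))
  exact ⟨IsFractionRing.lift hi, fun a => IsFractionRing.lift_algebraMap hi a⟩

/-- a rotation acts on both residue fields -/
theorem g7_rot {κ : Type} [Field κ] {V : Vl (Fr (PowerSeries (PowerSeries κ)))}
    {ρ : V.integer →+* Fr (PowerSeries κ)} (hV : ValRed (PowerSeries.C PowerSeries.X) (rY κ) V ρ)
    {U : Vl (Fr (PowerSeries κ))} {r : U.integer →+* κ}
    (hU : ValRed PowerSeries.X PowerSeries.constantCoeff U r) {s : κ →+* κ} {ζ : κ} (h : ζ ≠ 0)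
    {S : Fr (PowerSeries (PowerSeries κ)) →+* Fr (PowerSeries (PowerSeries κ))} (hS : Rot s ζ S) :
    ∃ S' : Fr (PowerSeries κ) →+* Fr (PowerSeries κ),
      (∀ y y' : V.integer, (y' : Fr (PowerSeries (PowerSeries κ))) = S y → ρ y' = S' (ρ y)) ∧
      (∀ z, U (S' z) = U z) ∧
      ∀ y y' : U.integer, (y' : Fr (PowerSeries κ)) = S' y → r y' = s (r y) := by
  obtain ⟨S', hS'⟩ := g7_lift s h
  refine ⟨S', (hV.aut S ((PowerSeries.rescale (PowerSeries.C ζ)).comp
    (PowerSeries.map (PowerSeries.map s))) S' hS ?_ fun a => ?_).2,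
    hU.aut S' ((PowerSeries.rescale ζ).comp (PowerSeries.map s)) s hS' ?_ fun a => ?_⟩
  · refine Associated.of_eq (PowerSeries.ext fun n => ?_)
    rw [RingHom.comp_apply, PowerSeries.map_C, PowerSeries.map_X, PowerSeries.coeff_rescale,
      PowerSeries.coeff_C]
    split_ifs with hn
    · rw [hn, pow_zero, one_mul]
    · rw [mul_zero]
  · rw [RingHom.comp_apply, RingHom.comp_apply (algebraMap _ _), hS']
    refine congrArg _ (PowerSeries.ext fun n => ?_)
    rw [RingHom.comp_apply, PowerSeries.coeff_map, PowerSeries.coeff_rescale,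
      PowerSeries.coeff_rescale, PowerSeries.coeff_map, PowerSeries.coeff_map, PowerSeries.coeff_map,
      map_mul, map_pow, PowerSeries.constantCoeff_C,
      ← PowerSeries.coeff_zero_eq_constantCoeff_apply, PowerSeries.coeff_map,
      PowerSeries.coeff_zero_eq_constantCoeff_apply]
  · rw [RingHom.comp_apply, PowerSeries.map_X, PowerSeries.rescale_X]
    exact associated_unit_mul_left _ _ ((IsUnit.mk0 ζ h).map _)
  · rw [RingHom.comp_apply, ← PowerSeries.coeff_zero_eq_constantCoeff_apply,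
      PowerSeries.coeff_rescale, pow_zero, one_mul, PowerSeries.coeff_map,
      PowerSeries.coeff_zero_eq_constantCoeff_apply]

/-- `τ = 1 / t`, `ξ_i = x_i / t`; the residues are `1 / t̄`, `0`, `x_j / t̄` with `t̄ = t(0) + s ^ e`; the map
`t ↦ t̄`, `x_j ↦ x_j` is injective on polynomials, so is its `flpHom` (`lz_inj`); `eval₂_hyp`,
`lz_hyp_zero` -/
theorem cen_hyp {t : PowerSeries (KB k σ)} {e : ℕ} (he : 0 < e)
    {J : E →+* Fr (PowerSeries (PowerSeries (KB k σ)))}
    (hJ : ∀ p, J (flpHom (toE (MP (Option (Option σ)) k) E) p) =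
      algebraMap (PowerSeries (PowerSeries (KB k σ))) _
        ((tp p).eval₂ (PowerSeries.C.comp (yb k σ)) (PowerSeries.C t + PowerSeries.X ^ e)))
    {V : Vl (Fr (PowerSeries (PowerSeries (KB k σ))))} {ρ : V.integer →+* Fr (PowerSeries (KB k σ))}
    (hV : ValRed (PowerSeries.C PowerSeries.X) (rY (KB k σ)) V ρ) :
    Cen (toE (MP (Option (Option σ)) k) E) (V.comap J) (MvPolynomial.X (some none)) := by
  set φ := toE (MP (Option (Option σ)) k) E with hφ
  set tt : PowerSeries (PowerSeries (KB k σ)) := PowerSeries.C t + PowerSeries.X ^ e with htt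
  set am := algebraMap (PowerSeries (PowerSeries (KB k σ)))
    (Fr (PowerSeries (PowerSeries (KB k σ)))) with ham
  set ev := g7ev (PowerSeries.C.comp (yb k σ)) tt with hev
  have hJ' : ∀ p, J (flpHom φ p) = am (ev p) := hJ
  let j : MP σ k →+* KB k σ := (algebraMap (RF σ k) (KB k σ)).comp (algebraMap (MP σ k) _)
  have hj : Function.Injective j := (algebraMap (RF σ k) (KB k σ)).injective.comp
    (IsFractionRing.injective _ _)
  let ψ : MP (Option σ) k →+* Fr (PowerSeries (KB k σ)) := (algebraMap (PowerSeries (KB k σ)) _).comp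
    (g7ev (PowerSeries.C.comp j) (PowerSeries.C (PowerSeries.constantCoeff t) + PowerSeries.X ^ e))
  have hψ : Function.Injective ψ := (IsFractionRing.injective _ _).comp (g7_inj hj _ he)
  have hrt : rY _ tt = ψ (MvPolynomial.X none) := by
    simp only [ψ, RingHom.comp_apply, g7ev_none, htt, map_add, map_pow, PowerSeries.map_C,
      PowerSeries.map_X]
  have hr0 : rY _ tt ≠ 0 := by
    rw [hrt]
    exact (map_ne_zero_iff _ hψ).2 (MvPolynomial.X_ne_zero _)
  have hV1 : V (am tt) = 1 := le_antisymm (hV.cen.1 _)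
    (not_lt.1 fun h => hr0 ((rY_eq_zero _).2 ((hV.cen.2 _).1 h)))
  have ht0 : am tt ≠ 0 := fun h => by rw [h, map_zero] at hV1; exact zero_ne_one hV1
  have hC : ∀ a, J (φ (MvPolynomial.C a)) = am (ev (MvPolynomial.C a)) := fun a => by
    rw [← hJ', g7flp_C]
  have hN : J (φ (MvPolynomial.X none)) = (am tt)⁻¹ := by
    have := hJ' (MvPolynomial.X none)
    rw [g7flp_none, map_inv₀, hev, g7ev_none] at this
    rw [← this, inv_inv]
  have hS : ∀ i, J (φ (MvPolynomial.X (some i))) = am (ev (MvPolynomial.X (some i))) * (am tt)⁻¹ :=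
    fun i => by
      rw [← hJ', g7flp_some, map_div₀, hN, div_mul_cancel₀ _ (inv_ne_zero ht0)]
  have hle : ∀ p, (J.comp φ) p ∈ V.integer := fun p => by
    induction p using MvPolynomial.induction_on with
    | C a => exact (congrArg V (hC a)).trans_le (hV.cen.1 _)
    | add p q hp hq => rw [map_add]; exact add_mem hp hq
    | mul_X p i hp =>
      rw [map_mul]
      refine mul_mem hp ?_
      change V (J (φ _)) ≤ 1
      cases i with
      | none => rw [hN, map_inv₀, hV1, inv_one]
      | some i => rw [hS, map_mul, map_inv₀, hV1, inv_one, mul_one]; exact hV.cen.1 _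
  let Φ := (J.comp φ).codRestrict V.integer hle
  have hΦN : ρ (Φ (MvPolynomial.X none)) = (ψ (MvPolynomial.X none))⁻¹ := by
    refine eq_inv_of_mul_eq_one_left ?_
    rw [← hrt, ← hV.ext tt ⟨am tt, hV1.le⟩ rfl, ← map_mul, ← map_one ρ]
    exact congrArg ρ (Subtype.ext ((congrArg (· * am tt) hN).trans (inv_mul_cancel₀ ht0)))
  have hcomp : ρ.comp Φ = (flpHom ψ).comp hyp := by
    refine MvPolynomial.ringHom_ext (fun a => ?_) fun i => ?_
    · rw [RingHom.comp_apply, hV.ext _ (Φ (MvPolynomial.C a)) (hC a), hev, g7ev_C]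
      simp [hyp, g7flp_C, ψ, g7ev_C, j, yb, yx]
    · rw [RingHom.comp_apply]
      cases i with
      | none =>
        rw [hΦN]
        simp [hyp, g7flp_none]
      | some i =>
        have : Φ (MvPolynomial.X (some i)) =
            ⟨am (ev (MvPolynomial.X (some i))), hV.cen.1 _⟩ * Φ (MvPolynomial.X none) :=
          Subtype.ext ((hS i).trans (congrArg (_ * ·) hN.symm))
        rw [this, map_mul, hΦN, hV.ext _ _ rfl, hev, g7ev_some]
        cases i with
        | none => simp [hyp, yb, yx]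
        | some l => simp [hyp, g7flp_some, ψ, g7ev_some, j, yb, yx, div_eq_mul_inv]
  refine ⟨hle, fun p => ?_⟩
  refine (hV.red (Φ p)).symm.trans ?_
  rw [← RingHom.comp_apply, hcomp, RingHom.comp_apply, map_eq_zero_iff _ (lz_inj hψ), lz_hyp_zero]

variable [FiniteDimensional (RF (Option (Option σ)) k) E] [IsGalois (RF (Option (Option σ)) k) E]

/-- `Sett.rot` for `φ = flpHom (algebraMap _ _)` (`lz_inj`, `lz_surj`, `lz_monic`, `lz_unr`, `lz_comp`);
`V.comap J` is equivalent to `w` (`cen_hyp`, `lv_cen`, `lv_conj`, `Inert`); `ρ'` from `IsRed.comap`;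
`V` is the order on `Fr κ⟦s⟧` (`exists_valRed` for `X` and `constantCoeff`); `ValRed.aut` twice. -/
theorem geo (hL : LE2) (h1 : Z1H) (Λ : LefData k σ)
    (hU : UnrOff (RF (Option (Option σ)) k) (toE (MP (Option (Option σ)) k) E) Λ.Θ)
    {P : MP (Option (Option σ)) k} (hP : Prime P) (hd : P ∣ flp Λ.Θ) {W : Vl E}
    (hW : Cen (flpHom (toE (MP (Option (Option σ)) k) E)) W P) {w : Vl E}
    (hw : Cen (toE (MP (Option (Option σ)) k) E) w (MvPolynomial.X (some none)))
    (hI : Inert (RF (Option (Option σ)) k) (toE (MP (Option (Option σ)) k) E)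
      (MvPolynomial.X (some none))) :
    ∃ (Ω : Type) (_ : Field Ω) (ρ : w.integer →+* Ω) (V : Vl Ω), IsRed w ρ ∧
      (∀ (a : k) (y : w.integer), a ≠ 0 →
        (y : E) = toE (MP (Option (Option σ)) k) E (MvPolynomial.C a) → V (ρ y) = 1) ∧
      (∀ g ∈ Dec (RF (Option (Option σ)) k) W, ∀ y y' : w.integer, (y' : E) = g y →
        V (ρ y') = V (ρ y)) ∧
      ∀ n ∈ Ine (RF (Option (Option σ)) k) W, ∀ y y' : w.integer, (y' : E) = n y → V (ρ y) ≤ 1 →
        V (ρ y' - ρ y) < 1 := by
  have hi := IsFractionRing.injective (MP (Option (Option σ)) k) (RF (Option (Option σ)) k)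
  have hs : ∀ z : RF (Option (Option σ)) k, ∃ a b, z = algebraMap (MP (Option (Option σ)) k) _ a /
      algebraMap (MP (Option (Option σ)) k) _ b := fun z => by
    obtain ⟨a, b, -, h⟩ := IsFractionRing.div_surjective (A := MP (Option (Option σ)) k) z
    exact ⟨a, b, h.symm⟩
  have hc := lz_comp (algebraMap (MP (Option (Option σ)) k) (RF (Option (Option σ)) k))
    (algebraMap (RF (Option (Option σ)) k) E)
  have hS : Sett (RF (Option (Option σ)) k) (flpHom (algebraMap (MP (Option (Option σ)) k) _))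
      (flp Λ.Θ) P W :=
    ⟨lz_inj hi, lz_surj hi hs, lz_monic Λ.one, lz_unr hi hs Λ.one hU, hP, hd, hc ▸ hW⟩
  obtain ⟨t, e, J, he, hJ, hD, hN⟩ :=
    hS.rot hL h1 (Δ := Λ.Δ) ⟨Λ.bez, Λ.a', Λ.b', Λ.ha', Λ.hb', Λ.nb', Λ.c3⟩
  have hJ' : ∀ p, J (flpHom (toE (MP (Option (Option σ)) k) E) p) =
      algebraMap (PowerSeries (PowerSeries (KB k σ))) _
        ((tp p).eval₂ (PowerSeries.C.comp (yb k σ)) (PowerSeries.C t + PowerSeries.X ^ e)) :=
    fun p => by rw [← hJ p, hc]; rfl
  obtain ⟨V, ρ, hV⟩ := exists_valRed (prime_CX (KB k σ)) (rY _) rY_eq_zero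
  obtain ⟨U, r, hUr⟩ := exists_valRed (PowerSeries.X_prime (R := KB k σ)) PowerSeries.constantCoeff
    fun a => PowerSeries.X_dvd_iff.symm
  have hcen := cen_hyp he hJ' hV
  have heq : ∀ z, w z ≤ 1 ↔ V (J z) ≤ 1 := by
    obtain ⟨g, hg⟩ := lv_conj (K := RF (Option (Option σ)) k) (w := w) (w' := V.comap J)
      (lv_cen hi hs (MvPolynomial.X_prime) (v := w.comap (algebraMap _ E))
        (v' := (V.comap J).comap (algebraMap _ E)) hw hcen)
    have hg' : g ∈ Dec (RF (Option (Option σ)) k) w := hI w hw ▸ Subgroup.mem_top g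
    intro z
    rw [← hg' z]
    exact (hg z).symm
  obtain ⟨ρ', hρ', hρ⟩ := hV.red.comap J heq
  have key : ∀ (s : KB k σ →+* KB k σ) (ζ : KB k σ) (g : E ≃ₐ[RF (Option (Option σ)) k] E), ζ ≠ 0 →
      (∀ S, Rot s ζ S → ∀ z, J (g z) = S (J z)) →
      ∃ S' : Fr (PowerSeries (KB k σ)) →+* Fr (PowerSeries (KB k σ)),
        (∀ y y' : w.integer, (y' : E) = g y → ρ' y' = S' (ρ' y)) ∧ (∀ z, U (S' z) = U z) ∧
        ∀ y y' : U.integer, (y' : Fr (PowerSeries (KB k σ))) = S' y → r y' = s (r y) := by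
    intro s ζ g hζ hg
    obtain ⟨S, hS⟩ := exists_rot s hζ
    obtain ⟨S', h1, h2⟩ := g7_rot hV hUr hζ hS
    refine ⟨S', fun y y' hy => ?_, h2⟩
    rw [hρ y ⟨J y, (heq _).1 y.2⟩ rfl, hρ y' ⟨J y', (heq _).1 y'.2⟩ rfl]
    exact h1 _ _ ((congrArg J hy).trans (hg S hS y))
  refine ⟨_, inferInstance, ρ', U, hρ', fun a y ha hy => ?_, fun g hg y y' hy => ?_,
    fun n hn y y' hy hle => ?_⟩
  · have h2 : J y = algebraMap (PowerSeries (PowerSeries (KB k σ))) _
        (PowerSeries.C (yb k σ (MvPolynomial.C a))) := by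
      rw [hy, ← g7flp_C, hJ', ← g7ev_apply, g7ev_C, RingHom.comp_apply]
    rw [hρ y ⟨J y, (heq _).1 y.2⟩ rfl, hV.ext _ _ h2, RingHom.comp_apply, PowerSeries.map_C]
    refine le_antisymm (hUr.cen.1 _) (not_lt.1 fun h => ?_)
    have h3 := PowerSeries.X_dvd_iff.1 ((hUr.cen.2 _).1 h)
    rw [PowerSeries.constantCoeff_C] at h3
    exact ha ((PowerSeries.constantCoeff.comp ((yb k σ).comp MvPolynomial.C)).injective
      (h3.trans (map_zero _).symm))
  · obtain ⟨s, ζ, hζ, h⟩ := hD g hg
    obtain ⟨S', h2, h3, -⟩ := key s ζ g hζ h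
    rw [h2 y y' hy, h3]
  · obtain ⟨ζ, hζ, h⟩ := hN n hn
    obtain ⟨S', h2, h3, h4⟩ := key _ ζ n hζ h
    have h5 : U (ρ' y') ≤ 1 := by rw [h2 y y' hy, h3]; exact hle
    have h6 := h4 ⟨ρ' y, hle⟩ ⟨ρ' y', h5⟩ (h2 y y' hy)
    exact (hUr.red (⟨ρ' y', h5⟩ - ⟨ρ' y, hle⟩)).1 (by rw [map_sub, h6, RingHom.id_apply, sub_self])

end Pool.Agent.ZCy
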