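import Pool.Agent.Lib.MP_751085_ag.ZC.L.Lift1

/-! The lifted cocycle. -/

namespace Pool.Agent.ZCy

open scoped Classical WithZero Polynomial
open groupCohomology

set_option linter.unusedSectionVars false

variable {k σ : Type} [Field k] {Θ : MP (Option (Option σ)) k} {F' : Type} [Field F']
  [Algebra (RF (Option (Option σ)) k) F'] {FY : Type} [Field FY] [Algebra (RF (Option σ) k) FY]
  {aY : BR FY} {aX : BR F'}

/-- the cocycle of `R` reduces along the hyperplane to the cocycle of `R'` -/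
structure Lift (θ : F') (θY : FY) (R' : MuRep (hyp Θ) FY aY) (R : MuRep Θ F' aX) : Type 1 where
  w : Vl R.E
  Ω : Type
  [fld : Field Ω]
  ρ : w.integer →+* Ω
  j : R'.E →+* Ω
  π : (R.E ≃ₐ[F'] R.E) →* R'.E ≃ₐ[FY] R'.E
  cen : Cen (toE (MP (Option (Option σ)) k) R.E) w (MvPolynomial.X (some none))
  inert : Inert (RF (Option (Option σ)) k) (toE (MP (Option (Option σ)) k) R.E)
    (MvPolynomial.X (some none))
  red : IsRed w ρ
  rng : j.range ≤ ρ.range
  base : ∀ (p : MP (Option (Option σ)) k) (y : w.integer), (y : R.E) = toE _ R.E p →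
    ρ y = j (toE (MP (Option σ) k) R'.E (hyp p))
  th : ∃ y : w.integer, (y : R.E) = algebraMap F' R.E θ ∧ ρ y = j (algebraMap FY R'.E θY)
  eqv : ∀ (g : R.E ≃ₐ[F'] R.E) (y : w.integer) (z : R'.E), ρ y = j z →
    ∃ y' : w.integer, (y' : R.E) = g y ∧ ρ y' = j (π g z)
  m_eq : R.m = R'.m
  coc : ∀ p, ∃ y : w.integer, (y : R.E) = R.c p ∧ ρ y = j (R'.c (π p.1, π p.2))
  root : ∀ z : R'.E, z ^ R'.m = 1 → ∃ y : w.integer, (y : R.E) ^ R'.m = 1 ∧ ρ y = j z

attribute [instance] Lift.fld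

/-- the action of an isometry on the integers -/
def lift_act {F E : Type} [Field F] [Field E] [Algebra F E] {w : Vl E} (g : E ≃ₐ[F] E)
    (h : ∀ x, w (g x) = w x) : w.integer →+* w.integer :=
  ((g : E →+* E).comp w.integer.subtype).codRestrict w.integer fun y => (h y).trans_le y.2

theorem lift_norm {F E Ω : Type} [Field F] [Field E] [Field Ω] [Algebra F E] [Normal F E]
    (j j' : E →+* Ω) (h : j'.comp (algebraMap F E) = j.comp (algebraMap F E)) :
    ∃ g : E ≃ₐ[F] E, ∀ z, j (g z) = j' z := by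
  let := (j.comp (algebraMap F E)).toAlgebra
  let := j.toAlgebra
  have : IsScalarTower F E Ω := .of_algebraMap_eq fun _ => rfl
  let φ : E →ₐ[F] Ω := { j' with commutes' := fun a => DFunLike.congr_fun h a }
  exact ⟨φ.restrictNormal' E, fun z => φ.restrictNormal_commutes E z⟩

/-- `lift1` for `R'.E`. Every `g` preserves `w`, so `y ↦ ρ (g y)` is a second residue map and
`IsRed.transfer` gives `j_g`, equal to `j` on `FY` (`FF.ext`, `hyp` is onto); normality gives
`j_g = j ∘ π g`. The cocycle is the lift of roots of unity (`IsRed.root_inj`). -/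
theorem exists_lift (hZ : ThmZ) (h1 : Z1H) [CharZero k] [Fintype σ] (Λ : LefData k σ)
    {c : PChart k (Option σ)} {c' : PChart k σ} (hh : c.IsHyp c') (hG : c.GI) {r : ℕ}
    (hD : c.D ∣ Λ.Θ ^ r) {θ : F'} (hF : c.FF F' θ) {θY : FY} (hF' : c'.FF FY θY)
    (R' : MuRep (hyp Λ.Θ) FY aY) :
    ∃ (aX : BR F') (R : MuRep Λ.Θ F' aX), Nonempty (Lift θ θY R' R) := by
  have hto : ∀ p, toE (MP (Option σ) k) R'.E p = algebraMap FY R'.E (toE _ FY p) := fun p =>
    IsScalarTower.algebraMap_apply _ FY _ _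
  have hθ : c'.χ.eval₂ (toE (MP (Option σ) k) R'.E) (algebraMap FY R'.E θY) = 0 := by
    rw [show toE (MP (Option σ) k) R'.E = (algebraMap FY R'.E).comp (toE _ FY) from
      RingHom.ext hto, ← Polynomial.hom_eval₂, hF'.1, map_zero]
  obtain ⟨E, _, _, _, _, _, _, w, Ω, _, ρ, j, hU, hc, hin, hr, hj, hb, hth, hro⟩ :=
    lift1 hZ h1 Λ hh hG hD hF R'.unr hθ R'.pos.ne'
  have hg : ∀ (g : E ≃ₐ[F'] E) x, w (g x) = w x := fun g =>
    (hin w hc).ge (Subgroup.mem_top (g.restrictScalars _))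
  have := IsGalois.tower_top_of_isGalois (RF (Option σ) k) FY R'.E
  have key : ∀ g : E ≃ₐ[F'] E, ∃ π : R'.E ≃ₐ[FY] R'.E, ∀ (y : w.integer) z, ρ y = j z →
      ρ (lift_act g (hg g) y) = j (π z) := fun g => by
    obtain ⟨j', hj'⟩ := hr.transfer (ρ' := ρ.comp (lift_act g (hg g)))
      (fun y => (hr _).trans (by rw [← hg g y]; rfl)) hj
    have fx : ∀ (y : w.integer) (a : F') z, (y : E) = algebraMap F' E a → ρ y = j z →
        j' z = j z := fun y a z e e' => by
      rw [← hj' y z e', ← e']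
      refine congrArg ρ (Subtype.ext ?_)
      change g y = y
      rw [e, g.commutes]
    obtain ⟨π, hπ⟩ := lift_norm (F := FY) j j' (hF'.ext (fun p => by
      obtain ⟨q, rfl⟩ := lz_hyp_surj p
      exact fx ⟨_, hc.1 q⟩ (toE _ F' q) _ (IsScalarTower.algebraMap_apply _ F' _ _)
        ((hb q _ rfl).trans (congrArg j (hto _))))
      (by
        obtain ⟨y, e, e'⟩ := hth
        exact fx y θ _ e e'))
    exact ⟨π, fun y z e => (hj' y z e).trans (hπ z).symm⟩
  choose π hπ using key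
  have hmul : ∀ g g', π (g * g') = π g * π g' := fun g g' => AlgEquiv.ext fun z => by
    obtain ⟨y, e⟩ := hj ⟨z, rfl⟩
    exact j.injective ((hπ _ y z e).symm.trans (hπ g _ _ (hπ g' y z e)))
  choose y hy hy' using fun p : (E ≃ₐ[F'] E) × (E ≃ₐ[F'] E) => hro (R'.c (π p.1, π p.2))
    (by rw [← Units.val_pow_eq_pow_val, R'.pow, Units.val_one])
  have h0 : ∀ p, (y p : E) ≠ 0 := fun p e => by
    have := hy p
    rw [e, zero_pow R'.pos.ne'] at this
    exact zero_ne_one this
  have hm : w (R'.m : E) = 1 := by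
    rw [← map_natCast (toE (MP (Option (Option σ)) k) E)]
    refine le_antisymm (hc.1 _) (not_lt.1 fun h => ?_)
    have := (lz_hyp_zero _).2 ((hc.2 _).1 h)
    rw [map_natCast] at this
    exact R'.pos.ne' (Nat.cast_eq_zero.1 this)
  have hco : IsMulCocycle₂ fun p => Units.mk0 (y p : E) (h0 p) := fun a b d => by
    have := hr.root_inj hm (y := y (a * b, d) * y (a, b))
      (y' := lift_act a (hg a) (y (b, d)) * y (a, b * d))
      (by rw [Subring.coe_mul, mul_pow, hy, hy, mul_one])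
      (by
        change (a (y (b, d)) * _) ^ _ = _
        rw [mul_pow, ← map_pow, hy, hy, map_one, mul_one])
      (by
        rw [map_mul, map_mul, hπ a _ _ (hy' _), hy', hy', hy', ← map_mul, ← map_mul, hmul, hmul]
        exact congrArg (fun u : R'.Eˣ => j u) (R'.coc (π a) (π b) (π d)))
    exact Units.ext (congrArg Subtype.val this)
  exact ⟨_, ⟨E, R'.m, _, R'.pos, hU, hco, fun p => Units.ext (hy p), rfl⟩,
    ⟨⟨w, Ω, ρ, j, MonoidHom.mk' π hmul, hc, hin, hr, hj, hb, hth,
      fun g y z e => ⟨_, rfl, hπ g y z e⟩, rfl, fun p => ⟨y p, rfl, hy' p⟩, hro⟩⟩⟩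

end Pool.Agent.ZCy
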