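import Pool.Agent.Lib.MP_751085_ag.ZC.L.Rep
import Pool.Agent.Lib.MP_751085_ag.ZC.L.Lift
import Pool.Agent.Lib.MP_751085_ag.ZC.L.G1

/-! The lifted class at the generic point of the section. -/

namespace Pool.Agent.ZCy

open scoped Classical WithZero Polynomial
open groupCohomology

set_option linter.unusedSectionVars false

/-- the substitution `ξ_1 ↦ t`, `ξ_i ↦ C ξ_i` -/
theorem gp_psi {k σ FY : Type} [Field k] [Fintype σ] [Field FY] [Algebra (RF (Option σ) k) FY] [Algebra k FY]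
    (ha : ∀ a : k, algebraMap k FY a = toE (MP (Option σ) k) FY (MvPolynomial.C a)) :
    ∃ ψ : MP (Option (Option σ)) k →+* MvPowerSeries Unit FY,
      (∀ a, ψ (MvPolynomial.C a) = MvPowerSeries.C (algebraMap k FY a)) ∧ Function.Injective ψ ∧
      ∀ p, MvPowerSeries.constantCoeff (ψ p) = toE (MP (Option σ) k) FY (hyp p) := by
  let ψ : MP (Option (Option σ)) k →+* MvPowerSeries Unit FY :=
    MvPolynomial.eval₂Hom (MvPowerSeries.C.comp (algebraMap k FY)) fun i =>
      i.elim (MvPowerSeries.C (toE (MP (Option σ) k) FY (MvPolynomial.X none))) fun j =>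
        j.elim (MvPowerSeries.X ()) fun l =>
          MvPowerSeries.C (toE (MP (Option σ) k) FY (MvPolynomial.X (some l)))
  have e : MvPowerSeries.constantCoeff.comp ψ = (toE (MP (Option σ) k) FY).comp hyp := by
    refine MvPolynomial.ringHom_ext (fun a => ?_) fun i => ?_
    · simp [ψ, hyp, ha]
    · rcases i with _ | _ | i <;> simp [ψ, hyp]
  have hc : ∀ p, MvPowerSeries.constantCoeff (ψ p) = toE (MP (Option σ) k) FY (hyp p) :=
    fun p => DFunLike.congr_fun e p
  refine ⟨ψ, fun a => by simp [ψ], (injective_iff_map_eq_zero ψ).2 fun p hp => ?_, hc⟩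
  by_contra h0
  obtain ⟨n, q, hq, rfl⟩ := WfDvdMonoid.max_power_factor h0
    (MvPolynomial.X_prime (i := (some none : Option (Option σ))) (R := k)).irreducible
  have hX : ψ (MvPolynomial.X (some none)) = MvPowerSeries.X () := by simp [ψ]
  rw [map_mul, map_pow, hX, mul_eq_zero] at hp
  rcases hp with hp | hp
  · exact PowerSeries.X_ne_zero (pow_eq_zero_iff'.1 hp).1
  · refine hq ((lz_hyp_zero q).1 (toE_inj FY ?_))
    rw [← hc, hp, map_zero, map_zero]

/-- the point with chart coordinates `(ξ, θ)` has the coordinates `ξ` -/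
theorem gp_off {R σ Ω : Type} [CommRing R] [Field Ω] {N : ℕ} {GG : Set (Fm N R)}
    (c : Chart R σ N GG) (φ : R →+* Ω) {ξ : Option σ → Ω} {θ : Ω} (h0 : ev φ ξ θ c.χ = 0)
    (hD : MvPolynomial.eval₂ φ ξ c.D ≠ 0) {Θ : MP (Option σ) R}
    (hΘ : MvPolynomial.eval₂ φ ξ Θ ≠ 0) : c.Off Θ φ (c.pv φ ξ θ) := by
  have e : ∀ G, MvPolynomial.eval₂ φ (c.pv φ ξ θ) G = ev φ ξ θ (sb c.pp G) := fun G =>
    (ev_sb φ ξ θ c.pp G).symm
  have h1 := (c.ne Ω φ ξ θ h0 hD).1
  have h2 : c.xi φ (c.pv φ ξ θ) = ξ := funext fun i => by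
    have h := map_dvd (ev φ ξ θ) (c.dv_f i)
    rw [h0, zero_dvd_iff, map_sub, map_mul, ev_C, MvPolynomial.eval₂_X, sub_eq_zero] at h
    rw [Chart.xi, e, e, h, mul_div_cancel_right₀ _ h1]
  exact ⟨by rwa [e], by rwa [h2]⟩

/-- an inert prime has one valuation above it -/
theorem gp_equiv {k ι E : Type} [Field k] [Field E] [Algebra (RF ι k) E]
    [FiniteDimensional (RF ι k) E] [IsGalois (RF ι k) E] {P : MP ι k} (hP : Prime P)
    (hI : Inert (RF ι k) (toE (MP ι k) E) P) {w w' : Vl E} (h : Cen (toE (MP ι k) E) w P)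
    (h' : Cen (toE (MP ι k) E) w' P) (z : E) : w z ≤ 1 ↔ w' z ≤ 1 := by
  have e := lv_cen (φ := algebraMap (MP ι k) (RF ι k)) (IsFractionRing.injective _ _)
    (fun z => by
      obtain ⟨a, b, -, hab⟩ := IsFractionRing.div_surjective (A := MP ι k) z
      exact ⟨a, b, hab.symm⟩) hP
    (v := w.comap (algebraMap (RF ι k) E)) (v' := w'.comap (algebraMap (RF ι k) E)) h h'
  obtain ⟨g, hg⟩ := lv_conj (K := RF ι k) (w := w) (w' := w') e
  have hd : g ∈ Dec (RF ι k) w := by
    rw [hI w h]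
    exact Subgroup.mem_top g
  rw [hg z, hd z]

/-- `chart_germ` for `ψ : ξ_1 ↦ t`, `ξ_i ↦ C ξ_i` over `M = FY` (`eval₂_hyp`, `ev_hyp`); the point is
`Off Θ` (`Chart.ne`, `dv_f`, `hyp Θ ≠ 0`); `rep0`, `rep_cls`. The order on `Fr M'⟦t⟧` (`exists_valRed`)
induces a valuation centred at `ξ_1`, equivalent to `T.w`; `IsRed.comap`, `IsRed.transfer` give
`j' : R'.E → M'` over `FY` (`FF.ext`) with `j' (π (r s) z) = s (j' z)`; `la_pull` with the identity. -/
theorem gen_val (hZ : ZNP) {k : Type} [Field k] [CharZero k] {X : Var k} {σ : Type} [Fintype σ]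
    {c : Chart k (Option σ) X.N (X.IK k)} {F' : Type} [Field F']
    [Algebra (RF (Option (Option σ)) k) F'] [Algebra k F'] {θ : F'} {γ : X.F →+* F'}
    (h : X.Fld c F' θ γ) (hG : c.GI) {c' : PChart k σ} (hh : c.toPChart.IsHyp c') {FY : Type}
    [Field FY] [Algebra (RF (Option σ) k) FY] [Algebra k FY] {θY : FY} (hF : c'.FF FY θY)
    (ha : ∀ a : k, algebraMap k FY a = toE (MP (Option σ) k) FY (MvPolynomial.C a))
    {Θ : MP (Option (Option σ)) k} (h0 : MvPolynomial.constantCoeff Θ = 1) {r : ℕ}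
    (hD : c.D ∣ Θ ^ r) {aY : BR FY} {aX : BR F'} {R' : MuRep (hyp Θ) FY aY} {R : MuRep Θ F' aX}
    (T : Lift θ θY R' R) : ∃ γ₁ : F' →+* Fr (MvPowerSeries Unit FY),
      X.GermT (γ₁.comp γ) (c.pv (algebraMap k FY)
        (ext0 fun i => toE (MP (Option σ) k) FY (MvPolynomial.X i)) θY) ∧
      rs γ₁ aX = rs (cC Unit FY) aY := by
  obtain ⟨ψ, hC, hi, hc⟩ := gp_psi (σ := σ) ha
  have hcc : MvPowerSeries.constantCoeff.comp ψ = (toE (MP (Option σ) k) FY).comp hyp :=
    RingHom.ext hc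
  have hev : ∀ p, MvPolynomial.eval₂ (algebraMap k FY)
      (ext0 fun i => toE (MP (Option σ) k) FY (MvPolynomial.X i)) p =
        toE (MP (Option σ) k) FY (hyp p) := fun p => by
    rw [← eval₂_hyp]
    have : MvPolynomial.eval₂Hom (algebraMap k FY)
        (fun i => toE (MP (Option σ) k) FY (MvPolynomial.X i)) = toE (MP (Option σ) k) FY :=
      MvPolynomial.ringHom_ext (fun a => by rw [MvPolynomial.eval₂Hom_C, ha])
        fun i => MvPolynomial.eval₂Hom_X' _ _ i
    exact DFunLike.congr_fun this _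
  have hD0 : toE (MP (Option σ) k) FY (hyp c.D) ≠ 0 := by
    rw [← hh.D]
    exact (map_ne_zero_iff _ (toE_inj FY)).2 c'.D_ne
  have hχ : c.χ.eval₂ ((toE (MP (Option σ) k) FY).comp hyp) θY = 0 := by
    rw [← Polynomial.eval₂_map, ← hh.χ]
    exact hF.1
  obtain ⟨γ', η, g1, g2, g3, hg⟩ := h.chart_germ hG ψ hC hi (by rwa [hc]) (θ₀ := θY) (by rwa [hcc])
  have hx : (fun i => MvPowerSeries.constantCoeff (ψ (MvPolynomial.X i))) =
      ext0 fun i => toE (MP (Option σ) k) FY (MvPolynomial.X i) := funext fun i => by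
    rw [hc, ← hev, MvPolynomial.eval₂_X]
  rw [hx] at hg
  refine ⟨γ', hg, ?_⟩
  have hΘ : toE (MP (Option σ) k) FY (hyp Θ) ≠ 0 := by
    refine (map_ne_zero_iff _ (toE_inj FY)).2 fun e => ?_
    have := map_dvd MvPolynomial.constantCoeff ((lz_hyp_zero Θ).1 e)
    rw [h0, MvPolynomial.constantCoeff_X, zero_dvd_iff] at this
    exact one_ne_zero this
  have ho : c.Off Θ (algebraMap k FY) (c.pv (algebraMap k FY)
      (ext0 fun i => toE (MP (Option σ) k) FY (MvPolynomial.X i)) θY) := by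
    refine gp_off c _ ?_ (by rwa [hev]) (by rwa [hev])
    rw [ev_def, ← hχ]
    congr 1
    exact RingHom.ext hev
  obtain ⟨M', _, _, _, _, s, cb, hcb, hJ⟩ := rep0 hZ h hG hD R hg.on ho
  obtain ⟨J, h1, h2, h3⟩ := hJ Unit γ' hg
  have : CharZero F' := charZero_of_injective_algebraMap (algebraMap k F').injective
  have : CharZero FY := charZero_of_injective_algebraMap (algebraMap k FY).injective
  have : FiniteDimensional F' R.E := FiniteDimensional.right (RF (Option (Option σ)) k) F' R.E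
  have : IsGalois F' R.E := IsGalois.tower_top_of_isGalois (RF (Option (Option σ)) k) F' R.E
  have : FiniteDimensional FY R'.E := FiniteDimensional.right (RF (Option σ) k) FY R'.E
  have : IsGalois FY R'.E := IsGalois.tower_top_of_isGalois (RF (Option σ) k) FY R'.E
  rw [← R.cls_eq, rep_cls R.coc hcb h1 h2 h3, ← R'.cls_eq]
  congr 1
  obtain ⟨V, ρ, hV⟩ := exists_valRed (T := PowerSeries M') PowerSeries.X_prime
    (PowerSeries.constantCoeff : PowerSeries M' →+* M') fun a => PowerSeries.X_dvd_iff.symm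
  obtain ⟨Tl, hTl⟩ := ps_lift (τ := Unit) (algebraMap FY M')
  have hJp : ∀ p, J (toE (MP (Option (Option σ)) k) R.E p) = algebraMap (MvPowerSeries Unit M') _
      (MvPowerSeries.map (algebraMap FY M') (ψ p)) := fun p => by
    rw [← hTl, ← g1, ← h1 Tl hTl]
    exact congrArg J (IsScalarTower.algebraMap_apply _ F' _ _)
  have hw : Cen (toE (MP (Option (Option σ)) k) R.E) (V.comap J) (MvPolynomial.X (some none)) := by
    refine ⟨fun p => ?_, fun p => ?_⟩ <;> rw [Valuation.comap_apply, hJp]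
    · exact hV.cen.1 _
    · refine (hV.cen.2 _).trans (PowerSeries.X_dvd_iff.trans ?_)
      change MvPowerSeries.constantCoeff _ = 0 ↔ _
      rw [MvPowerSeries.constantCoeff_map, hc, map_eq_zero_iff _ (algebraMap FY M').injective,
        map_eq_zero_iff _ (toE_inj FY), lz_hyp_zero]
  have he := gp_equiv MvPolynomial.X_prime T.inert T.cen hw
  obtain ⟨ρ', r1, r2⟩ := hV.red.comap J he
  obtain ⟨j', hj'⟩ := T.red.transfer r1 T.rng
  have key : ∀ (y : T.w.integer) (a : MvPowerSeries Unit M'), J y = algebraMap _ _ a →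
      ρ' y = MvPowerSeries.constantCoeff a := fun y a e =>
    (r2 y ⟨_, hV.cen.1 a⟩ e.symm).trans (hV.ext a _ rfl)
  have hb : j'.comp (algebraMap FY R'.E) = algebraMap FY M' := by
    refine hF.ext (fun p => ?_) ?_
    · obtain ⟨q, rfl⟩ := lz_hyp_surj p
      have e1 := hj' _ _ (T.base q ⟨_, T.cen.1 q⟩ rfl)
      rw [key _ _ (hJp q), MvPowerSeries.constantCoeff_map, hc] at e1
      rw [e1]
      exact congrArg j' (IsScalarTower.algebraMap_apply _ FY _ _).symm
    · obtain ⟨y, e1, e2⟩ := T.th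
      have e3 := hj' _ _ e2
      rw [key y (MvPowerSeries.map (algebraMap FY M') η) (by rw [e1, h1 Tl hTl, g2, hTl]),
        MvPowerSeries.constantCoeff_map, g3] at e3
      exact e3.symm
  have hr : ∀ (g : M' ≃ₐ[FY] M') (z : R'.E), j' (T.π (s g) • z) = g • j' z := fun g z => by
    obtain ⟨y, hy⟩ := T.rng ⟨z, rfl⟩
    obtain ⟨y', e1, e2⟩ := T.eqv (s g) y z hy
    obtain ⟨S, hS⟩ := ps_lift (τ := Unit) (g : M' →+* M')
    have e3 := (hV.aut S (MvPowerSeries.map (g : M' →+* M')) (g : M' →+* M') hS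
      (Associated.of_eq (MvPowerSeries.map_X _ _))
      fun a => MvPowerSeries.constantCoeff_map _ a).2 ⟨J y, (he y).1 y.2⟩ ⟨J y', (he y').1 y'.2⟩
      ((congrArg J e1).trans (h2 g S hS y))
    rw [← r2 y' _ rfl, ← r2 y _ rfl, hj' _ _ hy, hj' _ _ e2] at e3
    exact e3
  have hp : pull j' (fun g => T.π (s g)) R'.c = cb := funext fun p => Units.ext (by
    obtain ⟨y, e1, e2⟩ := T.coc (s p.1, s p.2)
    have e3 := hj' _ _ e2
    rw [key y (MvPowerSeries.C (cb p : M')) (by rw [e1]; exact h3 p),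
      MvPowerSeries.constantCoeff_C] at e3
    exact e3.symm)
  rw [← hp, ← la_pull (RingHom.id FY) (j := j') (fun a => DFunLike.congr_fun hb a) hr R'.coc]
  exact la_id _

end Pool.Agent.ZCy
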