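import Pool.Agent.Lib.MP_751085_ag.ZC.L.Need

/-! The induction step and the induction. -/

namespace Pool.Agent.ZCy

open scoped Classical WithZero Polynomial
open groupCohomology

set_option linter.unusedSectionVars false

open NumberField IsDedekindDomain
open scoped Topology

theorem hm_split {N Λ : ℕ} (hN : 0 < N) : ∃ N₁ N₂ r : ℕ, N = N₁ * N₂ ∧ N₁ ∣ Λ ^ r ∧ N₂.Coprime Λ := by
  induction N using Nat.strong_induction_on with
  | _ N ih =>
    by_cases h : N.Coprime Λ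
    · exact ⟨1, N, 0, by simp, by simp, h⟩
    · obtain ⟨m, hm⟩ := Nat.gcd_dvd_left N Λ
      have h1 : 1 < N.gcd Λ := lt_of_le_of_ne (Nat.gcd_pos_of_pos_left _ hN) fun e => h e.symm
      have hm0 : 0 < m := Nat.pos_of_ne_zero fun e => by rw [e, mul_zero] at hm; omega
      obtain ⟨a, b, r, e, h2, h3⟩ := ih m (by nlinarith) hm0
      refine ⟨N.gcd Λ * a, b, r + 1, by rw [mul_assoc, ← e, ← hm], ?_, h3⟩
      rw [pow_succ']
      exact mul_dvd_mul (Nat.gcd_dvd_right _ _) h2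

/-- a multiplier that projects to the `Λ`-primary parts of two torsion elements -/
theorem hm_mult {A B : Type} [AddCommGroup A] [AddCommGroup B] (Λ : ℕ) {a : A} {b : B} {N N' : ℕ}
    (hN : 0 < N) (hN' : 0 < N') (ha : N • a = 0) (hb : N' • b = 0) :
    ∃ m m' : ℕ, a = m • a + m' • a ∧ Prim Λ (m • a) ∧ Prim Λ (m • b) ∧ Cop Λ (m' • a) ∧
      (Prim Λ a → m • a = a) := by
  obtain ⟨N₁, N₂, r, e, h1, h2⟩ := hm_split (Λ := Λ) (Nat.mul_pos hN hN')
  have hc : ∀ s : ℕ, (Λ ^ s).Coprime N₂ := fun s => (Nat.Coprime.pow_right s h2).symm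
  have ha' : (N₁ * N₂) • a = 0 := by rw [← e, mul_comm, mul_smul, ha, smul_zero]
  have hb' : (N₁ * N₂) • b = 0 := by rw [← e, mul_smul, hb, smul_zero]
  have h12 : N₁.Coprime N₂ := (hc r).coprime_dvd_left h1
  obtain ⟨m, hm1, hm2⟩ := Nat.chineseRemainder h12 1 0
  obtain ⟨m', hm1', hm2'⟩ := Nat.chineseRemainder h12 0 1
  obtain ⟨u, rfl⟩ := Nat.modEq_zero_iff_dvd.1 hm2
  obtain ⟨u', rfl⟩ := Nat.modEq_zero_iff_dvd.1 hm1'
  obtain ⟨t, ht⟩ := h1
  have key : ∀ {C : Type} [AddCommGroup C] {x : C} {n p q : ℕ}, n • x = 0 → p ≡ q [MOD n] →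
      p • x = q • x := fun {C} _ {x n p q} h0 h => by
    rw [← Nat.mod_add_div p n, ← Nat.mod_add_div q n, add_smul, add_smul, h, mul_comm n, mul_comm n,
      mul_smul, mul_smul, h0, smul_zero, smul_zero]
  have hp : ∀ {C : Type} [AddCommGroup C] {x : C}, (N₁ * N₂) • x = 0 → Prim Λ ((N₂ * u) • x) :=
    fun {C} _ {x} h0 => ⟨r, by
      rw [ht, smul_smul, show N₁ * t * (N₂ * u) = t * u * (N₁ * N₂) by ring, mul_smul, h0,
        smul_zero]⟩
  have hs : a = (N₂ * u) • a + (N₁ * u') • a := by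
    rw [← add_smul, key ha' ((Nat.modEq_and_modEq_iff_modEq_mul h12).1
      ⟨(hm1.add hm1').trans (by rfl), (hm2.add hm2').trans (by rfl)⟩ : _ ≡ 1 [MOD _]), one_smul]
  have hcop : N₂ • (N₁ * u') • a = 0 := by
    rw [smul_smul, show N₂ * (N₁ * u') = u' * (N₁ * N₂) by ring, mul_smul, ha', smul_zero]
  refine ⟨_, _, hs, hp ha', hp hb', ⟨N₂, h2, hcop⟩, fun ⟨s, h⟩ => ?_⟩
  have h3 : Λ ^ s • (N₁ * u') • a = 0 := by rw [smul_comm, h, smul_zero]
  have h4 : (N₁ * u') • a = 0 := by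
    have := addOrderOf_dvd_of_nsmul_eq_zero h3
    have h5 := addOrderOf_dvd_of_nsmul_eq_zero hcop
    exact AddMonoid.addOrderOf_eq_one_iff.1 (Nat.eq_one_of_dvd_coprimes (hc s) this h5)
  rw [h4, add_zero] at hs
  exact hs.symm

theorem hm_zero {A : Type} [AddCommGroup A] {x : A} (h : x = x + x) : x = 0 := left_eq_add.1 h

theorem hm_alg {A B : Type} [AddCommGroup A] [AddCommGroup B] (ρ : A →+ B) {x : A} {P : B}
    {u w δ : ℤ} {q : ℕ} (huw : u * δ + w * q = 1) (h3 : q • P = 0) (h : δ • P = ρ x) :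
    P = (1 : ℤ) • ρ (u • x) := by
  rw [one_smul, map_zsmul, ← h, smul_smul, eq_sub_of_add_eq huw, sub_smul, one_smul, mul_smul,
    natCast_zsmul, h3, smul_zero, sub_zero]

variable {k : Type} [Field k] {X : Var k} {Y : Gen k X.N} {f : Fm X.N k}

theorem hm_pt_ne {Ω : Type} [Field Ω] {N : ℕ} {x : Fin (N + 1) → Ω} (h : ∃ i, x i = 1) : x ≠ 0 := by
  obtain ⟨i, hi⟩ := h
  exact fun e => one_ne_zero (hi.symm.trans (congrFun e i))

theorem hm_push (hS : X.Sec Y f) (z : Y.var.Cyc k) : ∃ z' : X.Cyc k, Var.deg z' = Var.deg z := by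
  let ι : Y.var.Pt (AlgebraicClosure k) → X.Pt (AlgebraicClosure k) := fun x =>
    ⟨x.1, x.2.1, ((hS _ x.1).1 ⟨hm_pt_ne x.2.1, x.2.2⟩).1.2⟩
  refine ⟨z.mapDomain ι, ?_⟩
  unfold Var.deg
  rw [Finsupp.sum_mapDomain_index (fun _ => zero_mul _) fun _ _ _ => add_mul _ _ _]
  rfl

theorem hm_pull (hS : X.Sec Y f) (p : X.Cyc k)
    (hp : ∀ x ∈ p.support, MvPolynomial.aeval x.1 f = 0) :
    ∃ p' : Y.var.Cyc k, Var.deg p' = Var.deg p := by
  let ι : p.support → Y.var.Pt (AlgebraicClosure k) := fun x =>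
    ⟨x.1.1, x.1.2.1, ((hS _ x.1.1).2 ⟨⟨hm_pt_ne x.1.2.1, x.1.2.2⟩, hp x.1 x.2⟩).2⟩
  refine ⟨∑ x : p.support, Finsupp.single (ι x) (p x.1), ?_⟩
  unfold Var.deg
  rw [← Finsupp.sum_finsetSum_index (fun _ => zero_mul _) fun _ _ _ => add_mul _ _ _, Finsupp.sum,
    ← Finset.sum_coe_sort p.support]
  exact Finset.sum_congr rfl fun x _ => Finsupp.sum_single_index (zero_mul _)

theorem hm_nsmul {K : Type} [Field K] [Algebra k K] (hE : EvApi X) {z : X.Cyc K}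
    (h : ∀ a ∈ X.Brauer, ∀ b ∈ X.Brauer, Var.pair z (a + b) = Var.pair z a + Var.pair z b)
    {a : BR X.F} (ha : a ∈ X.Brauer) (m : ℕ) : Var.pair z (m • a) = m • Var.pair z a := by
  induction m with
  | zero =>
    have h1 := h _ hE.zero _ hE.zero
    rw [show (0 : BR X.F) + 0 = 0 from add_zero (0 : BR X.F)] at h1
    rw [show (0 : ℕ) • a = 0 from zero_nsmul _]
    exact (hm_zero (A := BR K) h1).trans (zero_nsmul (Var.pair z a)).symm
  | succ m ih =>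
    rw [show (m + 1) • a = m • a + a from succ_nsmul _ _, h _ (hE.nsmul a ha m) a ha, ih]
    exact (succ_nsmul _ _).symm

theorem hm_match (hX : EvApi X) (hY : EvApi Y.var) (hS : X.Sec Y f) {a : BR Y.F} {b : BR X.F}
    (h : X.Match Y a b) (m : ℕ) : X.Match Y (m • a) (m • b) :=
  ⟨hY.nsmul a h.1 m, hX.nsmul b h.2.1 m, fun M _ _ x hx => by
    rw [hY.val_nsmul a h.1 m M x hx, hX.val_nsmul b h.2.1 m M x ((hS M x).1 hx).1, h.2.2 M x hx]⟩

/-- the class on `X` that pairs with `z` as `a` pairs with the cycles given by `Loc` -/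
theorem hm_class [CharZero k] {n : ℕ} (hn : 4 ≤ n) (hX : X.Nice n) (hY : Y.var.Nice (n - 1))
    (hE : EV) (hW : WBC) (hS : X.Sec Y f) (hL : ∀ a ∈ Y.var.Brauer, ∃ b, X.Match Y a b) {Λ : ℕ}
    (p : Y.var.Cyc k) {r : ℕ} (hp : Var.deg p ∣ (Λ : ℤ) ^ r) {a : BR Y.F} (ha : a ∈ Y.var.Brauer) :
    ∃ b ∈ X.Brauer, ∀ (K : Type) [Field K] [Algebra k K] (z : X.Cyc K) (p' z' : Y.var.Cyc K),
      Var.deg z = 1 → Var.deg p' = Var.deg p →
      (∀ a ∈ Y.var.Brauer, Var.pair p' a = rs (algebraMap k K) (Var.pair p a)) →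
      (∀ a b, X.Match Y a b → Prim Λ a → Prim Λ b → Var.pair z' a = Var.pair z b) →
      (∀ a ∈ Y.var.Brauer, Cop Λ a → Var.deg p' • Var.pair z' a = Var.pair p' a) →
        Var.pair z' a = Var.pair z b := by
  have eX := hE k X n hX (by omega)
  have eY := hE k Y.var (n - 1) hY (by omega)
  have : CharZero Y.F := charZero_of_injective_algebraMap (algebraMap k Y.F).injective
  have : CharZero X.F := charZero_of_injective_algebraMap (algebraMap k X.F).injective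
  obtain ⟨b, hb⟩ := hL a ha
  obtain ⟨N, hN, hNa⟩ := la_tors a
  obtain ⟨N', hN', hNb⟩ := la_tors b
  obtain ⟨m, m', hs, h1, h2, ⟨q, hq, hq0⟩, -⟩ := hm_mult (A := BR Y.F) (B := BR X.F) Λ hN hN' hNa hNb
  have hc : IsCoprime (Var.deg p) (q : ℤ) :=
    ((Nat.isCoprime_iff_coprime.2 hq).symm.pow_left (m := r)).of_isCoprime_of_dvd_left hp
  obtain ⟨u, w, huw⟩ := hc
  have ha2 := eY.nsmul a ha m'
  refine ⟨m • b + rs (algebraMap k X.F) (u • Var.pair p (m' • a)),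
    eX.add _ (eX.nsmul b hb.2.1 m) _ (eX.const _), fun K _ _ z p' z' hz hd hp' l1 l2 => ?_⟩
  obtain ⟨-, w2, w3⟩ := hW k X n hX (by omega) K
  obtain ⟨-, -, w4⟩ := hW k Y.var (n - 1) hY (by omega) K
  have h3 : q • Var.pair z' (m' • a) = 0 := by
    rw [← hm_nsmul eY (w4 z') ha2, show q • m' • a = 0 • a from hq0.trans (zero_nsmul a).symm,
      hm_nsmul eY (w4 z') ha]
    exact zero_nsmul _
  have h4 := (l2 _ ha2 ⟨q, hq, hq0⟩).trans (hp' _ ha2)
  rw [hd] at h4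
  rw [w3 z _ (eX.nsmul b hb.2.1 m) _ (eX.const _), w2, hz,
    ← l1 _ _ (hm_match eX eY hS hb m) h1 h2]
  exact ((congrArg (Var.pair z') hs).trans (w4 z' _ (eY.nsmul a ha m) _ ha2)).trans
    (congrArg _ (hm_alg (A := BR k) (B := BR K) _ huw h3 h4))

theorem hm_step [NumberField k] (hCy : CYC) (hC : CMain) (hU : UMain) (hT : TMain) (hL : LEF)
    (hE : EV) (hW : WBC) (j : Inv k) {n : ℕ} (hn : 4 ≤ n) (hX : X.Nice n)
    (h : ∀ Y : Var k, Y.Nice (n - 1) → Y.ZC j) : X.ZC j := by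
  rintro ⟨z, z', hz, hz', h0⟩
  obtain ⟨δ, hδ, hcy⟩ := hCy k X n hX (by omega)
  have hΛ : 2 * δ ≠ 0 := by omega
  obtain ⟨S, d₀, hS⟩ := hC k X n hX hn _ hΛ
  choose dv hdv using fun v => (hU k).1 v X n hX hn _ hΛ (j.fin v) (j.fin_inj v) (z v) (hz v)
  choose dw hdw using fun w => (hU k).2 w X n hX hn _ hΛ (j.inf w) (j.inf_inj w) (z' w) (hz' w)
  obtain ⟨s, hs⟩ : ∃ s, s = d₀ + S.sup dv + Finset.univ.sup dw := ⟨_, rfl⟩
  have hlt : s < 2 ^ s := Nat.lt_two_pow_self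
  have e1 : ∀ v : HeightOneSpectrum (𝓞 k), ∃ (fv : Fm X.N (v.adicCompletion k))
      (W : Set ((Fin (X.N + 1) →₀ ℕ) → v.adicCompletion k)), v ∈ S → fv.IsHomogeneous (2 ^ s) ∧
      W ∈ 𝓝 (cf fv) ∧ ∀ (f : Fm X.N k) (Y : Gen k X.N), f.IsHomogeneous (2 ^ s) →
      cf (MvPolynomial.map (algebraMap k _) f) ∈ W → Y.var.Nice (n - 1) → X.Sec Y f →
      ∀ p : Y.var.Cyc (v.adicCompletion k), (∃ r : ℕ, Var.deg p ∣ ((2 * δ : ℕ) : ℤ) ^ r) →
        X.Loc Y (2 * δ) _ (z v) p := fun v => by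
    by_cases hv : v ∈ S
    · obtain ⟨fv, W, h1⟩ := hdv v (2 ^ s) (by have := Finset.le_sup (f := dv) hv; omega)
      exact ⟨fv, W, fun _ => h1⟩
    · exact ⟨0, ∅, fun h1 => absurd h1 hv⟩
  choose fv Wv hfv using e1
  choose fw Ww hfw using fun w => hdw w (2 ^ s)
    (by have := Finset.le_sup (f := dw) (Finset.mem_univ w); omega)
  obtain ⟨f, Y, hf, m1, m2, hY, hSec, hLef, hG⟩ := hS (2 ^ s) (by omega) fv Wv fw Ww
    (fun v hv => ⟨(hfv v hv).1, (hfv v hv).2.1⟩) fun w => ⟨(hfw w).1, (hfw w).2.1⟩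
  obtain ⟨p₀, hp₀, hd₀⟩ := hcy _ f hf (by positivity)
  obtain ⟨p, hp⟩ := hm_pull hSec p₀ hp₀
  have hdeg : Var.deg p ∣ ((2 * δ : ℕ) : ℤ) ^ (s + 1) := by
    rw [hp]
    have e : ((2 * δ : ℕ) : ℤ) ^ (s + 1) = ((2 ^ s : ℕ) : ℤ) * δ * (2 * δ ^ s) := by
      push_cast; ring
    rw [e]
    rcases hd₀ with h1 | h1 <;> rw [h1]
    · exact dvd_mul_right _ _
    · exact (dvd_mul_left _ _).mul_right _
  choose pv hpv using fun v : HeightOneSpectrum (𝓞 k) =>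
    (hW k Y.var (n - 1) hY (by omega) (v.adicCompletion k)).1 p
  choose pw hpw using fun w : InfinitePlace k => (hW k Y.var (n - 1) hY (by omega) w.Completion).1 p
  have l1 : ∀ v, X.Loc Y (2 * δ) _ (z v) (pv v) := fun v => by
    by_cases hv : v ∈ S
    · exact (hfv v hv).2.2 f Y hf (m1 v hv) hY hSec _ ⟨_, (hpv v).1 ▸ hdeg⟩
    · exact hT k v X n hX hn _ hΛ (j.fin v) (j.fin_inj v) f Y ⟨_, hf⟩ hY hSec (hG v hv) _ (hz v) _
        ⟨_, (hpv v).1 ▸ hdeg⟩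
  have l2 : ∀ w, X.Loc Y (2 * δ) _ (z' w) (pw w) := fun w =>
    (hfw w).2.2 f Y hf (m2 w) hY hSec _ ⟨_, (hpw w).1 ▸ hdeg⟩
  choose y hy using l1
  choose y' hy' using l2
  obtain ⟨c, hc⟩ := h Y.var hY ⟨y, y', fun v => (hy v).1, fun w => (hy' w).1, fun a ha => by
    obtain ⟨b, hb, e⟩ := hm_class hn hX hY hE hW hSec (hL k X n hX hn Y f hY hSec hLef) p hdeg ha
    rw [← h0 b hb]
    congr 1
    · exact finsum_congr fun v => by
        rw [e _ (z v) (pv v) (y v) (hz v) (hpv v).1 (hpv v).2 (hy v).2.1 (hy v).2.2]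
    · exact Finset.sum_congr rfl fun w _ => by
        rw [e _ (z' w) (pw w) (y' w) (hz' w) (hpw w).1 (hpw w).2 (hy' w).2.1 (hy' w).2.2]⟩
  obtain ⟨c', hc'⟩ := hm_push hSec c
  exact ⟨c', hc'.trans hc⟩

theorem main_of (hCy : CYC) (hC : CMain) (hU : UMain) (hT : TMain) (hL : LEF) (hE : EV) (hW : WBC)
    (k : Type) [Field k] [NumberField k] (j : Inv k) (h : ∀ X : Var k, X.Nice 3 → X.ZC j) (n : ℕ)
    (hn : 4 ≤ n) (X : Var k) (hX : X.Nice n) : X.ZC j := by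
  induction n, hn using Nat.le_induction generalizing X with
  | base => exact hm_step hCy hC hU hT hL hE hW j le_rfl hX h
  | succ n hn ih => exact hm_step hCy hC hU hT hL hE hW j (by omega) hX fun Y hY => ih Y hY

end Pool.Agent.ZCy
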