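import Pool.Agent.Lib.MP_751085_ag.ZC.L.Cen
import Pool.Agent.Lib.MP_751085_ag.ZC.L.Inf
import Pool.Agent.Lib.MP_751085_ag.ZC.L.Ev1

/-! The lifted class lies in the Brauer group. -/

namespace Pool.Agent.ZCy

open scoped Classical WithZero Polynomial
open groupCohomology

set_option linter.unusedSectionVars false

theorem mem_over {A F E : Type} [CommRing A] [Field F] [Field E] {φ : A →+* F} {j : F →+* E}
    {v : Vl F} {W : Vl E} {P : A} (h : Over j v W) (hc : Cen φ v P) : Cen (j.comp φ) W P :=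
  have e : (W.comap j).IsEquiv v := Valuation.isEquiv_iff_val_le_one.2 fun {x} => h x
  ⟨fun a => (h _).2 (hc.1 a), fun a => (e.lt_one_iff_lt_one (x := φ a)).trans (hc.2 a)⟩

theorem mem_nat {K ι E : Type} [Field K] [CharZero K] [Field E] {φ : MP ι K →+* E} {W : Vl E}
    {P : MP ι K} (hP : Prime P) (hc : Cen φ W P) {m : ℕ} (hm : 0 < m) : W (m : E) = 1 := by
  rw [← map_natCast φ]
  refine le_antisymm (hc.1 _) (not_lt.1 fun h => hP.not_isUnit (isUnit_of_dvd_unit ((hc.2 _).1 h) ?_))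
  rw [← map_natCast (MvPolynomial.C : K →+* MP ι K)]
  exact (IsUnit.mk0 _ (Nat.cast_ne_zero.2 hm.ne')).map _

theorem MuRep.unram {K ι : Type} [Field K] [CharZero K] {Θ : MP ι K} {F : Type} [Field F]
    [Algebra (RF ι K) F] {a : BR F} (R : MuRep Θ F a) {W : Vl R.E} (hm : W (R.m : R.E) = 1)
    (hI : Ine (RF ι K) W = ⊥) {v : Vl F} (hv : Over (algebraMap F R.E) v W) : Unram v a := by
  have : CharZero F := charZero_of_injective_ringHom ((toE (MP ι K) F).comp MvPolynomial.C).injective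
  have := Module.Finite.of_restrictScalars_finite (RF ι K) F R.E
  have := IsGalois.tower_top_of_isGalois (RF ι K) F R.E
  have h1 : ∀ g ∈ Ine F W, g = 1 := fun g hg => AlgEquiv.ext fun x => DFunLike.congr_fun
    ((Subgroup.eq_bot_iff_forall _).1 hI (g.restrictScalars (RF ι K)) ⟨hg.1, hg.2⟩) x
  rw [← R.cls_eq]
  refine lr_infl hv R.coc hm R.pow (e := fun _ => R.c (1, 1)) (fun _ => R.pow _)
    (fun g hg h hh => ?_) fun g _ n hn n' hn' _ => ?_
  · simp [h1 g hg, h1 h hh, dd]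
  · rw [h1 n hn, h1 n' hn', map_one_fst_of_isMulCocycle₂ R.coc g,
      map_one_snd_of_isMulCocycle₂ R.coc g, div_self', div_self']

variable {k : Type} [Field k] [CharZero k] {X : Var k} {n : ℕ} {σ : Type} [Fintype σ]
  {c : Chart k σ X.N (X.IK k)} {F' : Type} [Field F'] [Algebra (RF (Option σ) k) F'] [Algebra k F']
  {θ : F'} {γ : X.F →+* F'} {Θ : MP (Option σ) k} {b : BR X.F}

theorem Var.Fld.mem_fac (h : X.Fld c F' θ γ) {L : Type} [Field L] (γ₀ : X.F →+* L) :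
    ∃ ι : F' →+* L, ι.comp γ = γ₀ :=
  ⟨γ₀.comp (RingEquiv.ofBijective γ h.bij).symm.toRingHom, RingHom.ext fun x =>
    congrArg γ₀ ((RingEquiv.ofBijective γ h.bij).symm_apply_apply x)⟩

theorem Var.Fld.h1_of (h : X.Fld c F' θ γ) (h0 : MvPolynomial.constantCoeff Θ = 1)
    (R : MuRep Θ F' (rs γ b))
    (hV : ∀ (P : MP (Option σ) k) (W : Vl R.E) (v : Vl F'), Prime P → P ∣ flp Θ →
      Cen (flpHom (toE (MP (Option σ) k) R.E)) W P → Over (algebraMap F' R.E) v W →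
        Unram v (rs γ b))
    {σ₂ : Type} [Fintype σ₂] {c₂ : Chart k σ₂ X.N (X.IK k)} {F₂ : Type} [Field F₂]
    [Algebra (RF (Option σ₂) k) F₂] [Algebra k F₂] {θ₂ : F₂} {γ₂ : X.F →+* F₂}
    (h₂ : X.Fld c₂ F₂ θ₂ γ₂) (hc : Fintype.card σ = Fintype.card σ₂) : c₂.H1 F₂ (rs γ₂ b) := by
  intro P₂ v hP₂ _ hv
  have : CharZero X.F := charZero_of_injective_ringHom (algebraMap k X.F).injective
  have : CharZero F' := charZero_of_injective_ringHom γ.injective
  have := Module.Finite.of_restrictScalars_finite (RF (Option σ) k) F' R.E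
  obtain ⟨ι, hι⟩ := h.mem_fac γ₂
  rw [← hι, ← la_comp (Ω' := AlgebraicClosure F')]
  refine lr_map ι ?_
  obtain ⟨W, hW⟩ := lv_exists (E := R.E) (v.comap ι)
  have e : (algebraMap F' R.E).comp (toE (MP (Option σ) k) F') = toE (MP (Option σ) k) R.E :=
    RingHom.ext fun p => (IsScalarTower.algebraMap_apply _ _ _ _).symm
  rcases h.centre h₂ hc hι hP₂ hv with h1 | ⟨P, hP, h1⟩
  · have h2 := e ▸ mem_over (φ := toE (MP (Option σ) k) F') hW h1
    refine R.unram (mem_nat MvPolynomial.X_prime h2 R.pos)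
      (R.unr _ W MvPolynomial.X_prime (fun hd => ?_) h2) hW
    simpa [h0] using map_dvd MvPolynomial.constantCoeff hd
  · rw [lz_comp] at h1
    have h2 := mem_over (φ := flpHom (toE (MP (Option σ) k) F')) hW h1
    rw [← lz_comp, e] at h2
    by_cases hd : P ∣ flp Θ
    · exact hV P W _ hP hd h2 hW
    refine R.unram (mem_nat hP h2 R.pos) (lz_unr (IsFractionRing.injective _ _) (fun z => ?_) h0
      R.unr P W hP hd (by rwa [← lz_comp])) hW
    obtain ⟨a, b, -, e⟩ := IsFractionRing.div_surjective (A := MP (Option σ) k) z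
    exact ⟨a, b, e.symm⟩

theorem Var.Fld.mem_brauer (hZ : ZNP) (hK : ThmK) (hC : CHF) (hN : N1) (hX : X.Nice n) (hn : 3 ≤ n)
    (hσ : Fintype.card σ + 1 = n) (h : X.Fld c F' θ γ) (hG : c.GI)
    (h0 : MvPolynomial.constantCoeff Θ = 1) {r : ℕ} (hD : c.D ∣ Θ ^ r) (R : MuRep Θ F' (rs γ b))
    (hV : ∀ (P : MP (Option σ) k) (W : Vl R.E) (v : Vl F'), Prime P → P ∣ flp Θ →
      Cen (flpHom (toE (MP (Option σ) k) R.E)) W P → Over (algebraMap F' R.E) v W →
        Unram v (rs γ b)) : b ∈ X.Brauer := by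
  refine Var.mem_brauer fun M _ _ r γ₀ x hg => ?_
  have : CharZero X.F := charZero_of_injective_ringHom (algebraMap k X.F).injective
  obtain ⟨H, hH, hH', hO⟩ := h.exists_form (Θ := Θ) (by rintro rfl; simp at h0)
  obtain ⟨σ₂, _, c₂, hσ₂, hU, hi⟩ := hN k X n hX hn M {x} (by simpa using hg.on) H hH hH'
  obtain ⟨hG₂, F₂, _, _, _, θ₂, γ₂, h₂⟩ := Var.exists_fld hC hX c₂ hσ₂
  obtain ⟨β, hβ⟩ := Var.const_of hZ hK hG₂ h₂ (h.h1_of h0 R hV h₂ (by omega))
    (h₂.h2_of hG₂ fun M' _ i1 i2 i3 γ' x' hg' h' => by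
      obtain rfl : i2 = i1 := Algebra.algebra_ext _ _ fun a =>
        @IsScalarTower.algebraMap_apply k k M' _ _ _ _ i1 i2 i3 a
      obtain ⟨β, hβ⟩ := rep hZ h hG hD R hg'.on (hO M' x' (hi M' x' hg'.on h'))
      obtain ⟨ι, hι⟩ := h.mem_fac (γ'.comp γ₂)
      exact ⟨β, by rw [la_comp, ← hι, ← hβ _ ι (hι ▸ hg'), la_comp]⟩)
    hg.on (hU x (Finset.mem_singleton_self x))
  exact ⟨β, hβ _ γ₀ hg⟩

end Pool.Agent.ZCy
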