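import Pool.Agent.Lib.MP_751085_ag.ZC.L.Vert
import Pool.Agent.Lib.MP_751085_ag.ZC.L.Mem
import Pool.Agent.Lib.MP_751085_ag.ZC.L.GenPt

/-! The Lefschetz property. -/

namespace Pool.Agent.ZCy

open scoped Classical WithZero Polynomial
open groupCohomology

set_option linter.unusedSectionVars false

variable {k : Type} [Field k] [CharZero k] {X : Var k} {Y : Gen k X.N}

/-- take a germ of `Y` at the point (`EvApi.germ`, `GermT.dom`), `spec` for `Y`, `val_map`, `val_smul`,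
`arcT` for `X`, `la_inj` -/
theorem Var.match_of (hX : EvApi X) (hY : EvApi Y.var) {f : Fm X.N k} (hS : X.Sec Y f)
    {a : BR Y.F} (ha : a ∈ Y.var.Brauer) {b : BR X.F} (hb : b ∈ X.Brauer)
    (h : X.val b Y.F Y.g = a) : X.Match Y a b := by
  refine ⟨ha, hb, fun M _ _ x hx => ?_⟩
  have : CharZero M := charZero_of_injective_algebraMap (algebraMap k M).injective
  obtain ⟨r, γ, hγ⟩ := hY.germ M x hx
  have hg : Y.var.GermT γ x := hγ
  obtain ⟨y, h1, h2, h3, u, hu, h4⟩ := hg.dom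
  have e1 := hY.spec a ha M (Fin r) γ x hg
  have hx1 : (fun i => MvPowerSeries.constantCoeff (y i)) = x := funext h1
  have hon : Y.var.On fun i => algebraMap (MvPowerSeries (Fin r) M)
    (Fr (MvPowerSeries (Fin r) M)) (y i) := Var.Dom.on ⟨h3, u, hu, h4⟩
  have e2 := hX.arcT b hb M (Fin r) y (hx1 ▸ hx.1) fun G hG => by
    apply IsFractionRing.injective (MvPowerSeries (Fin r) M) (Fr (MvPowerSeries (Fin r) M))
    rw [map_zero, ← ((hS _ _).1 hon).1.2 G hG]
    exact (MvPolynomial.aeval_algebraMap_apply _ y G).symm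
  let φ : Y.F →ₐ[k] Fr (MvPowerSeries (Fin r) M) := { γ with commutes' := h3 }
  have hgX : X.On Y.g := ((hS _ _).1 (Var.on_gL (X := Y.var))).1
  have e3 := hX.val_map b hb _ _ φ Y.g hgX
  have e4 := hX.val_smul b hb _ (φ ∘ Y.g) u (hgX.mapL φ) hu
  have e5 : u • (φ ∘ Y.g) = fun i => algebraMap (MvPowerSeries (Fin r) M) _ (y i) :=
    funext fun i => (h4 i).symm
  rw [e5, e3, h, e2, hx1] at e4
  exact la_inj (Fin r) (e1.symm.trans e4.symm)

theorem lef_of (hZ : ZNP) (hL : LE2) (h1 : Z1H) (hT : ThmZ) (hK : ThmK) (hH : HK) (hC : CHF)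
    (hN : N1) (hE : EV) : LEF := by
  rintro k _ _ X n hX hn Y f hY hS ⟨σ, _, c, Λ, c', hσ, -, ⟨r, hr⟩, hh⟩ a ha
  obtain ⟨hG, F', _, _, _, θ, γ, hF⟩ := Var.exists_fld hC hX c
    (by rw [Fintype.card_option]; omega)
  obtain ⟨hG', FY, _, _, _, θY, γY, hFY⟩ := Var.exists_fld (X := Y.var) hC hY c' (by omega)
  have : CharZero F' := charZero_of_injective_algebraMap (algebraMap k F').injective
  have : CharZero FY := charZero_of_injective_algebraMap (algebraMap k FY).injective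
  have : CharZero Y.F := charZero_of_injective_algebraMap (algebraMap k Y.F).injective
  have : CharZero X.F := charZero_of_injective_algebraMap (algebraMap k X.F).injective
  have hr' : c'.br ∣ hyp Λ.Θ ^ r := by
    rw [hh.p.br, ← map_pow]
    exact map_dvd _ hr
  have hΘ : hyp Λ.Θ ≠ 0 := fun e => by
    obtain ⟨q, hq⟩ := (lz_hyp_zero _).1 e
    have := Λ.one
    rw [hq, map_mul, MvPolynomial.constantCoeff_X, zero_mul] at this
    exact zero_ne_one this
  have hΦ : c'.Φ ≠ 0 := fun e => by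
    rw [PChart.br, e, up, map_zero, mul_zero, zero_dvd_iff] at hr'
    exact pow_ne_zero _ hΘ hr'
  obtain ⟨H1, H2⟩ := hH k Y.var k σ c' FY θY γY hG' hFY a ha
  obtain ⟨R₀⟩ := hK k σ c'.toPChart FY θY hG' hFY.ff hΦ _ H1 H2
  obtain ⟨R₁⟩ := R₀.mono hr'
  obtain ⟨R', hR'⟩ := R₁.exists_rich
  obtain ⟨s, hs⟩ := c.toPChart.D_dvd_br
  have hD : c.D ∣ Λ.Θ ^ (r * s) := by
    rw [pow_mul]
    exact hs.trans (pow_dvd_pow_of_dvd hr s)
  obtain ⟨aX, R, ⟨T⟩⟩ := exists_lift hT h1 Λ hh.p hG hD hF.ff hFY.ff R'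
  let e := RingEquiv.ofBijective γ hF.bij
  obtain ⟨b, rfl⟩ : ∃ b, rs γ b = aX := ⟨rs (e.symm : F' →+* X.F) aX, by
    rw [la_comp, show γ.comp (e.symm : F' →+* X.F) = RingHom.id _ from
      RingHom.ext e.apply_symm_apply, la_id]⟩
  have hb : b ∈ X.Brauer := hF.mem_brauer hZ hK hC hN hX (by omega)
    (by rw [Fintype.card_option]; omega) hG Λ.one hD R fun P W v hP hd hW hv =>
      vert hL h1 Λ T hR' (fun v hv => lr_brauer (X := Y.var) ha γY fun x hx => by
        rw [RingHom.comp_apply, hFY.dom.1, hFY.alg]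
        exact hv x hx) hP hd hW hv
  have eX := hE k X n hX (by omega)
  have eY := hE k Y.var (n - 1) hY (by omega)
  refine ⟨b, Var.match_of eX eY hS ha hb ?_⟩
  obtain ⟨γ₁, hg, e1⟩ := gen_val hZ hF hG hh.p hFY.ff hFY.alg Λ.one hD T
  have e2 := eX.spec b hb FY Unit _ _ hg
  rw [← la_comp (Ω' := AlgebraicClosure F'), e1] at e2
  have e3 := la_inj Unit e2
  obtain ⟨d1, u, hu, d2⟩ := hFY.dom
  let φ : Y.F →ₐ[k] FY := { γY with commutes' := d1 }
  have hgX : X.On Y.g := ((hS _ _).1 (Var.on_gL (X := Y.var))).1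
  have e4 := eX.val_smul b hb _ (φ ∘ Y.g) u (hgX.mapL φ) hu
  have e5 : u • (φ ∘ Y.g) = c.pv (algebraMap k FY)
      (ext0 fun i => toE (MP (Option σ) k) FY (MvPolynomial.X i)) θY := funext fun i => by
    have h2 : algebraMap k FY = (toE (MP (Option σ) k) FY).comp MvPolynomial.C :=
      RingHom.ext hFY.alg
    rw [Chart.pv, ← ev_hyp, ← hh.pp, h2]
    exact (d2 i).symm
  rw [e5, ← e3, eX.val_map b hb _ _ φ Y.g hgX] at e4
  let e' := RingEquiv.ofBijective γY hFY.bij
  have e6 : ∀ x : BR Y.F, rs (e'.symm : FY →+* Y.F) (rs γY x) = x := fun x => by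
    rw [la_comp, show (e'.symm : FY →+* Y.F).comp γY = RingHom.id _ from
      RingHom.ext e'.symm_apply_apply, la_id]
  exact (e6 _).symm.trans ((congrArg _ e4.symm).trans (e6 a))

end Pool.Agent.ZCy
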