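import Pool.Agent.Lib.MP_751085_ag.ZC.L.Fld
import Pool.Agent.Lib.MP_751085_ag.ZC.L.Red

/-! The extension given by the Lefschetz theorem, enlarged. -/

namespace Pool.Agent.ZCy

open scoped Classical WithZero Polynomial
open groupCohomology

set_option linter.unusedSectionVars false

theorem lift1 (hZ : ThmZ) (h1 : Z1H) {k σ : Type} [Field k] [CharZero k] [Fintype σ]
    (Λ : LefData k σ) {c : PChart k (Option σ)} {c' : PChart k σ} (hh : c.IsHyp c') (hG : c.GI)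
    {r : ℕ} (hD : c.D ∣ Λ.Θ ^ r) {F' : Type} [Field F'] [Algebra (RF (Option (Option σ)) k) F']
    {θ : F'} (hF : c.FF F' θ) {EH : Type} [Field EH] [Algebra (RF (Option σ) k) EH]
    [FiniteDimensional (RF (Option σ) k) EH] [IsGalois (RF (Option σ) k) EH]
    (hU : UnrOff (RF (Option σ) k) (toE (MP (Option σ) k) EH) (hyp Λ.Θ)) {θH : EH}
    (hθ : c'.χ.eval₂ (toE (MP (Option σ) k) EH) θH = 0) {m : ℕ} (hm : m ≠ 0) :
    ∃ (E : Type) (_ : Field E) (_ : Algebra (RF (Option (Option σ)) k) E) (_ : Algebra F' E)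
      (_ : IsScalarTower (RF (Option (Option σ)) k) F' E)
      (_ : FiniteDimensional (RF (Option (Option σ)) k) E)
      (_ : IsGalois (RF (Option (Option σ)) k) E) (w : Vl E) (Ω : Type) (_ : Field Ω)
      (ρ : w.integer →+* Ω) (j : EH →+* Ω),
      UnrOff (RF (Option (Option σ)) k) (toE (MP (Option (Option σ)) k) E) Λ.Θ ∧
      Cen (toE (MP (Option (Option σ)) k) E) w (MvPolynomial.X (some none)) ∧
      Inert (RF (Option (Option σ)) k) (toE (MP (Option (Option σ)) k) E)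
        (MvPolynomial.X (some none)) ∧ IsRed w ρ ∧ j.range ≤ ρ.range ∧
      (∀ (p : MP (Option (Option σ)) k) (y : w.integer), (y : E) = toE _ E p →
        ρ y = j (toE (MP (Option σ) k) EH (hyp p))) ∧
      (∃ y : w.integer, (y : E) = algebraMap F' E θ ∧ ρ y = j θH) ∧
      ∀ z : EH, z ^ m = 1 → ∃ y : w.integer, (y : E) ^ m = 1 ∧ ρ y = j z := by
  obtain ⟨E₀, _, _, _, _, w₀, Ω₀, _, ρ₀, j₀, hU₀, hC₀, hR₀, hj₀, hρ₀⟩ := hZ k σ Λ EH hU
  have hi := IsFractionRing.injective (MP (Option (Option σ)) k) (RF (Option (Option σ)) k)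
  obtain ⟨α, β, hb⟩ := c.bez
  obtain ⟨E₁, _, _, _, _, i₁, hU₁, hS₁⟩ := lv_enl _ hU₀ c.monic
    ((map_ne_zero_iff _ hi).2 c.D_ne) hb hD
  have hu : IsUnit (m : MP (Option (Option σ)) k) := by
    simpa using (IsUnit.mk0 (m : k) (Nat.cast_ne_zero.2 hm)).map
      (algebraMap k (MP (Option (Option σ)) k))
  have hmon := Polynomial.monic_X_pow_sub_C (1 : MP (Option (Option σ)) k) hm
  obtain ⟨E, _, _, _, _, i₂, hU₂, hS₂⟩ := lv_enl _ hU₁ hmon (α := -(m : _)) (β := Polynomial.X)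
    (D := m) ((map_ne_zero_iff _ hi).2 hu.ne_zero) (by
      obtain ⟨n, rfl⟩ := Nat.exists_eq_succ_of_ne_zero hm
      rw [Polynomial.derivative_sub, Polynomial.derivative_X_pow, Polynomial.derivative_C,
        map_natCast, map_one, Nat.succ_sub_one, pow_succ']
      ring) (r := 0) hu.dvd
  let i := i₂.comp i₁
  have hiE : ∀ p, toE (MP (Option (Option σ)) k) E p = i (toE _ E₀ p) := fun p =>
    (i.commutes _).symm
  obtain ⟨w, hw⟩ : ∃ w : Vl E, Over (i : E₀ →+* E) w₀ w := by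
    let : Algebra E₀ E := (i : E₀ →+* E).toAlgebra
    have : IsScalarTower (RF (Option (Option σ)) k) E₀ E :=
      IsScalarTower.of_algebraMap_eq fun a => (i.commutes a).symm
    have : FiniteDimensional E₀ E := Module.Finite.of_restrictScalars_finite
      (RF (Option (Option σ)) k) E₀ E
    exact lv_exists w₀
  obtain ⟨Ω, _, ρ, hR⟩ := exists_redL w
  obtain ⟨ρ', hR', hρ'⟩ := hR.comap (i : E₀ →+* E) fun z => (hw z).symm
  obtain ⟨j, hj⟩ := hR₀.transfer hR' hj₀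
  have h1' : ∀ p, w (toE (MP (Option (Option σ)) k) E p) ≤ 1 := fun p => by
    rw [hiE]
    exact (hw _).2 (hC₀.1 p)
  have hC : Cen (toE (MP (Option (Option σ)) k) E) w (MvPolynomial.X (some none)) :=
    ⟨h1', fun p => by
      rw [← hC₀.2, ← hR ⟨_, h1' p⟩, ← hR' ⟨_, hC₀.1 p⟩, hρ' ⟨_, hC₀.1 p⟩ ⟨_, h1' p⟩ (hiE p)]⟩
  have hρ : ∀ (p : MP (Option (Option σ)) k) (y : w.integer), (y : E) = toE _ E p →
      ρ y = j (toE (MP (Option σ) k) EH (hyp p)) := fun p y hy =>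
    (hρ' ⟨_, hC₀.1 p⟩ y (hy.trans (hiE p))).symm.trans (hj _ _ (hρ₀ p _ rfl))
  let φ : MP (Option (Option σ)) k →+* w.integer := (toE _ E).codRestrict w.integer h1'
  have hφ : ρ.comp φ = j.comp ((toE (MP (Option σ) k) EH).comp hyp) :=
    RingHom.ext fun p => hρ p _ rfl
  have hS : (c.χ.map (w.integer.subtype.comp φ)).Splits := by
    have := hS₁.map (i₂ : E₁ →+* E)
    rwa [Polynomial.map_map, ← RingHom.comp_assoc, i₂.comp_algebraMap] at this
  obtain ⟨y, hy, hyθ⟩ := IsRed.root_lift (ρ := ρ) φ c.monic hS (z := j θH) (by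
    rw [hφ, ← Polynomial.hom_eval₂, ← Polynomial.eval₂_map, ← hh.χ, hθ, map_zero])
  obtain ⟨γ, hγ, hγθ⟩ := hF.lift hG (toE_inj E) (η := (y : E)) (by
    have := congrArg w.integer.subtype hy
    rwa [Polynomial.hom_eval₂, map_zero] at this)
  let : Algebra F' E := γ.toAlgebra
  refine ⟨E, inferInstance, inferInstance, this, IsScalarTower.of_algebraMap_eq' ?_,
    inferInstance, inferInstance, w, Ω, inferInstance, ρ, j, hU₂, hC,
    h1 k _ _ Λ.Θ 0 Λ.b rfl Λ.hb (fun h => ?_) Λ.c2 E hU₂, hR, ?_, hρ, ⟨y, hγθ.symm, hyθ⟩,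
    fun z hz => ?_⟩
  · exact IsLocalization.ringHom_ext (nonZeroDivisors (MP (Option (Option σ)) k))
      (RingHom.ext fun p => (hγ p).symm)
  · exact one_ne_zero (Λ.hbn.symm.trans (congrFun h none))
  · rintro _ ⟨z, rfl⟩
    obtain ⟨x, hx⟩ := hj₀ ⟨z, rfl⟩
    exact ⟨⟨i x, (hw _).2 x.2⟩, (hρ' x _ rfl).symm.trans (hj x z hx)⟩
  · obtain ⟨x, hx, hxz⟩ := IsRed.root_lift (ρ := ρ) φ hmon hS₂ (z := j z) (by
      simp [← map_pow, hz])
    refine ⟨x, ?_, hxz⟩
    simp only [map_one, Polynomial.eval₂_sub, Polynomial.eval₂_X_pow, Polynomial.eval₂_one,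
      sub_eq_zero] at hx
    exact congrArg Subtype.val hx

end Pool.Agent.ZCy
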