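import Pool.Agent.Lib.MP_751085_ag.ZC.V.AdL
import Pool.Agent.Lib.MP_751085_ag.ZC.Z.Flp
import Pool.Agent.Lib.MP_751085_ag.ZC.A6
import Pool.Agent.Lib.MP_751085_ag.ZC.R7
import Pool.Agent.Lib.MP_751085_ag.ZC.R8

/-! What block L uses of the blocks V, A, R, Z, K. -/

namespace Pool.Agent.ZCy

open scoped Classical WithZero Polynomial
open groupCohomology

set_option linter.unusedVariables false
set_option linter.unusedSectionVars false

section Z

variable {k ι L : Type} [Field k] [Fintype ι] [Field L]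

theorem lz_inj {φ : MP (Option ι) k →+* L} (hi : Function.Injective φ) :
    Function.Injective (flpHom φ) :=
  flpHom_injective hi

theorem lz_surj {φ : MP (Option ι) k →+* L} (hi : Function.Injective φ)
    (hs : ∀ z, ∃ a b, z = φ a / φ b) (z : L) : ∃ a b, z = flpHom φ a / flpHom φ b :=
  flpHom_frac hi hs z

theorem lz_monic {Θ : MP (Option ι) k} (h : MvPolynomial.constantCoeff Θ = 1) :
    (tp (flp Θ)).Monic :=
  flp_monic h

theorem lz_unr {E : Type} [Field E] [Algebra L E] {φ : MP (Option ι) k →+* L}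
    (hi : Function.Injective φ) (hs : ∀ z, ∃ a b, z = φ a / φ b) {Θ : MP (Option ι) k}
    (h : MvPolynomial.constantCoeff Θ = 1) (hU : UnrOff L ((algebraMap L E).comp φ) Θ) :
    UnrOff L ((algebraMap L E).comp (flpHom φ)) (flp Θ) := by
  rw [← flpHom_comp]
  exact unrOff_flp ((algebraMap L E).injective.comp hi) hU

theorem lz_comp {R E E' : Type} [CommRing R] [Field E] [Field E'] (φ : MP (Option ι) R →+* E)
    (j : E →+* E') : flpHom (j.comp φ) = j.comp (flpHom φ) :=
  flpHom_comp j φ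

theorem lz_hyp_zero {R σ : Type} [CommRing R] [Fintype σ] (p : MP (Option (Option σ)) R) :
    hyp p = 0 ↔ MvPolynomial.X (some none) ∣ p :=
  hyp_eq_zero

theorem lz_hyp_surj {R σ : Type} [CommRing R] [Fintype σ] :
    Function.Surjective (hyp : MP (Option (Option σ)) R →+* MP (Option σ) R) :=
  hyp_surjective

end Z

section A

variable {K K' K'' Ω Ω' Ω'' : Type} [Field K] [Field K'] [Field K''] [Field Ω] [Field Ω'] [Field Ω'']
  [Algebra K Ω] [Algebra K' Ω'] [Algebra K'' Ω''] [IsAlgClosure K Ω] [IsAlgClosure K' Ω']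
  [IsAlgClosure K'' Ω''] [CharZero K]

theorem la_isRes (γ : K →+* K') (a : Br K Ω) (b : Br K' Ω') : IsRes γ a b ↔ b = res γ a :=
  isRes_iff

theorem la_comp (γ : K →+* K') (γ' : K' →+* K'') (a : Br K Ω) :
    (res γ' (res γ a : Br K' Ω') : Br K'' Ω'') = res (γ'.comp γ) a :=
  res_res γ γ' a

theorem la_id (a : Br K Ω) : res (RingHom.id K) a = a :=
  res_id a

theorem la_tors (a : BR K) : ∃ N : ℕ, 0 < N ∧ N • a = 0 :=
  exists_torsion a

theorem la_inj (τ : Type) [Finite τ] : Function.Injective (rs (cC τ K)) :=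
  rs_mvf_injective τ

theorem la_pull {E E' G G' : Type} [Field E] [Field E'] [Algebra K E] [Algebra K' E'] [Group G]
    [Group G'] [Finite G] [Finite G'] [MulSemiringAction G E] [MulSemiringAction G' E']
    [IsGaloisGroup G K E] [IsGaloisGroup G' K' E'] (γ : K →+* K') {j : E →+* E'}
    (hj : ∀ a, j (algebraMap K E a) = algebraMap K' E' (γ a)) {r : G' → G}
    (hr : ∀ g x, j (r g • x) = g • j x) {c : G × G → Eˣ} (hc : IsMulCocycle₂ c) :
    rs γ (cls K c) = cls K' (pull j r c) :=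
  rs_cls γ hj hr hc

end A

section R

variable {K K' E : Type} [Field K] [Field K'] [Field E] [Algebra K E] [CharZero K]

theorem lr_brauer {k : Type} [Field k] [CharZero k] {X : Var k} {a : BR X.F} (ha : a ∈ X.Brauer)
    (γ : X.F →+* K') {v : Vl K'} (hv : Triv (γ.comp (algebraMap k X.F)) v) : Unram v (rs γ a) :=
  unram_of_brauer ha γ hv

theorem lr_map (γ : K →+* K') {v : Vl K'} {a : BR K} (h : Unram (v.comap γ) a) :
    Unram v (rs γ a) :=
  Unram.comap γ h

variable [FiniteDimensional K E] [IsGalois K E] {v : Vl K} {w : Vl E}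
  {c : (E ≃ₐ[K] E) × (E ≃ₐ[K] E) → Eˣ}

/-- a splitting over the inertia group that is normalised by the decomposition group -/
theorem lr_infl (hw : Over (algebraMap K E) v w) (hc : IsMulCocycle₂ c) {m : ℕ}
    (hm : w (m : E) = 1) (hp : ∀ p, c p ^ m = 1) {e : (E ≃ₐ[K] E) → Eˣ} (he : ∀ g, e g ^ m = 1)
    (hs : ∀ g ∈ Ine K w, ∀ h ∈ Ine K w, c (g, h) = dd e (g, h))
    (hn : ∀ g ∈ Dec K w, ∀ n ∈ Ine K w, ∀ n' ∈ Ine K w, g * n' = n * g →
      c (g, n') / g • e n' = c (n, g) / e n) : Unram v (cls K c) :=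
  unram_of_norm hw hc hm hp he hs hn

/-- conversely, for an unramified class every splitting over a subgroup of the inertia group is
normalised -/
theorem lr_res (hw : Over (algebraMap K E) v w) (h0 : ∀ n : ℕ, n ≠ 0 → w (n : E) = 1)
    (hc : IsMulCocycle₂ c) {m : ℕ} (hm : m ≠ 0) (hp : ∀ p, c p ^ m = 1)
    (hu : Unram v (cls K c)) {I : Subgroup (E ≃ₐ[K] E)} (hI : I ≤ Ine K w)
    {e : (E ≃ₐ[K] E) → Eˣ} (he : ∀ g, e g ^ m = 1)
    (hs : ∀ g ∈ I, ∀ h ∈ I, c (g, h) = dd e (g, h)) {g n n' : E ≃ₐ[K] E} (hg : g ∈ Dec K w)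
    (hn : n ∈ I) (hn' : n' ∈ I) (hgn : g * n' = n * g) (hN : ∀ i ∈ I, g⁻¹ * i * g ∈ I) :
    c (g, n') / g • e n' = c (n, g) / e n :=
  Unram.norm hw hc (h0 m hm) hp hu hI he hs hg hn hn' hgn

end R

end Pool.Agent.ZCy
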