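import Pool.Agent.Lib.MP_751085_ag.ZC.L.Zne
import Pool.Agent.Lib.MP_751085_ag.ZC.L.Cg

/-! A cocycle in roots of unity is constant along all germs at a good point. -/

namespace Pool.Agent.ZCy

open scoped Classical WithZero Polynomial
open groupCohomology

set_option linter.unusedSectionVars false

variable {k : Type} [Field k] [CharZero k] {X : Var k} {σ : Type} [Fintype σ]
  {c : Chart k σ X.N (X.IK k)} {F' : Type} [Field F'] [Algebra (RF (Option σ) k) F'] [Algebra k F']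
  {θ : F'} {γ : X.F →+* F'} {Θ : MP (Option σ) k} {a : BR F'} {M : Type} [Field M] [Algebra k M]
  {x : Fin (X.N + 1) → M}

theorem rep_uniq (c : PChart k σ) {ξ : Option σ → M} {θ₀ : M}
    (h0 : ev (algebraMap k M) ξ θ₀ c.χ = 0) (hD : MvPolynomial.eval₂ (algebraMap k M) ξ c.D ≠ 0)
    {M' τ : Type} [Field M'] [Finite τ] (φ : M →+* M') {ψ : MP (Option σ) k →+* MvPowerSeries τ M}
    (hC : ∀ u, ψ (MvPolynomial.C u) = MvPowerSeries.C (algebraMap k M u))
    (hX : ∀ i, MvPowerSeries.constantCoeff (ψ (MvPolynomial.X i)) = ξ i)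
    {y y' : MvPowerSeries τ M'} (h1 : c.χ.eval₂ ((MvPowerSeries.map φ).comp ψ) y = 0)
    (h2 : MvPowerSeries.constantCoeff y = φ θ₀)
    (h1' : c.χ.eval₂ ((MvPowerSeries.map φ).comp ψ) y' = 0)
    (h2' : MvPowerSeries.constantCoeff y' = φ θ₀) : y = y' := by
  have e : MvPowerSeries.constantCoeff.comp ((MvPowerSeries.map φ).comp ψ) =
      φ.comp (MvPolynomial.eval₂Hom (algebraMap k M) ξ) :=
    MvPolynomial.ringHom_ext (fun a => by simp [hC]) fun i => by simp [hX]
  refine (c.root_unique ((MvPowerSeries.map φ).comp ψ) (θ₀ := φ θ₀) ?_ ?_).unique ⟨h1, h2⟩ ⟨h1', h2'⟩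
  · exact fun u => hD (φ.injective ((RingHom.congr_fun e c.D).symm.trans (u.trans φ.map_zero.symm)))
  · rw [e, ← Polynomial.hom_eval₂, ← ev_def, h0, map_zero]

theorem rep_const {A E τ : Type} [CommRing A] [Field E] [Finite τ] [CharZero M] {φ : A →+* E}
    {J : E →+* Fr (MvPowerSeries τ M)} {J₀ : E → M}
    (h : ∀ b, φ.IsIntegralElem b → ∃ y : MvPowerSeries τ M,
      J b = algebraMap _ _ y ∧ MvPowerSeries.constantCoeff y = J₀ b)
    {m : ℕ} (hm : 0 < m) {b : E} (hb : b ^ m = 1) : J b = cC τ M (J₀ b) := by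
  have : Nontrivial A := φ.domain_nontrivial
  obtain ⟨y, h1, h2⟩ := h b ⟨Polynomial.X ^ m - Polynomial.C 1,
    Polynomial.monic_X_pow_sub_C 1 hm.ne', by simp [hb]⟩
  have h3 : y ^ m = 1 := IsFractionRing.injective _ (Fr (MvPowerSeries τ M)) (by
    rw [map_pow, ← h1, ← map_pow, hb, map_one, map_one])
  rw [h1, ps_root hm.ne' h3, h2]
  rfl

theorem rep_root {A E τ : Type} [CommRing A] [Field E] {φ : A →+* E} {χ : A[X]} (hm : χ.Monic)
    {ψ : A →+* MvPowerSeries τ M} {J : E →+* Fr (MvPowerSeries τ M)} {J₀ : E → M}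
    (h1 : ∀ p, J (φ p) = algebraMap _ _ (ψ p))
    (h : ∀ b, φ.IsIntegralElem b → ∃ y : MvPowerSeries τ M,
      J b = algebraMap _ _ y ∧ MvPowerSeries.constantCoeff y = J₀ b)
    {b : E} (hb : χ.eval₂ φ b = 0) : ∃ y : MvPowerSeries τ M,
      J b = algebraMap _ _ y ∧ MvPowerSeries.constantCoeff y = J₀ b ∧ χ.eval₂ ψ y = 0 := by
  obtain ⟨y, h2, h3⟩ := h b ⟨χ, hm, hb⟩
  refine ⟨y, h2, h3, IsFractionRing.injective _ (Fr (MvPowerSeries τ M)) ?_⟩
  have e : (algebraMap _ (Fr (MvPowerSeries τ M))).comp ψ = J.comp φ :=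
    RingHom.ext fun p => (h1 p).symm
  rw [Polynomial.hom_eval₂, e, ← h2, ← Polynomial.hom_eval₂, hb, map_zero, map_zero]

/-- `zne` at `ξ(x)`, `θ(x)`. With `ψ = tay` and `root_unique`, `r s` fixes `θ` (`FF.over`), and
`J (R.c p)` is a constant (`ps_root`). For a germ use `germ_chart`, `root_unique`, `FF.ext`. -/
theorem rep0 (hZ : ZNP) (h : X.Fld c F' θ γ) (hG : c.GI) {n : ℕ} (hD : c.D ∣ Θ ^ n)
    (R : MuRep Θ F' a) (hx : X.On x) (ho : c.Off Θ (algebraMap k M) x) :
    ∃ (M' : Type) (_ : Field M') (_ : Algebra M M') (_ : FiniteDimensional M M') (_ : IsGalois M M')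
      (r : (M' ≃ₐ[M] M') → R.E ≃ₐ[F'] R.E) (cb : (M' ≃ₐ[M] M') × (M' ≃ₐ[M] M') → M'ˣ),
      IsMulCocycle₂ cb ∧ ∀ (τ : Type) [Finite τ] (γ' : F' →+* Fr (MvPowerSeries τ M)),
        X.GermT (γ'.comp γ) x → ∃ J : R.E →+* Fr (MvPowerSeries τ M'),
          (∀ T : Fr (MvPowerSeries τ M) →+* Fr (MvPowerSeries τ M'),
            (∀ y : MvPowerSeries τ M, T (algebraMap _ _ y) = algebraMap (MvPowerSeries τ M') _
              (MvPowerSeries.map (algebraMap M M') y)) → ∀ z, J (algebraMap F' R.E z) = T (γ' z)) ∧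
          (∀ (s : M' ≃ₐ[M] M') (T : Fr (MvPowerSeries τ M') →+* Fr (MvPowerSeries τ M')),
            (∀ y : MvPowerSeries τ M', T (algebraMap _ _ y) =
              algebraMap _ _ (MvPowerSeries.map (s : M' →+* M') y)) → ∀ z, J (r s z) = T (J z)) ∧
          ∀ p, J (R.c (r p.1, r p.2) : R.E) = cC τ M' (cb p : M') := by
  have : CharZero M := charZero_of_injective_algebraMap (algebraMap k M).injective
  obtain ⟨h0, hD0, -⟩ := ho.coord ((Var.zer_IKL (algebraMap k M) (fun _ => rfl) x).2 hx.2) hD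
  have eF : ∀ p, algebraMap F' R.E (toE (MP (Option σ) k) F' p) = toE (MP (Option σ) k) R.E p :=
    fun p => (IsScalarTower.algebraMap_apply (RF (Option σ) k) F' R.E _).symm
  have hθ : c.χ.eval₂ (toE (MP (Option σ) k) R.E) (algebraMap F' R.E θ) = 0 := by
    rw [← show (algebraMap F' R.E).comp _ = _ from RingHom.ext eF, ← Polynomial.hom_eval₂, h.ff.1,
      map_zero]
  obtain ⟨M', _, _, _, _, J₀, r, hJ0, H⟩ := zne hZ R.unr (a := c.xi (algebraMap k M) x) ho.2
    c.monic (PChart.GI.irr hG) hθ h0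
  have : CharZero M' := charZero_of_injective_algebraMap (algebraMap M M').injective
  have hC : ∀ u, tay (algebraMap k M) (c.xi (algebraMap k M) x) (MvPolynomial.C u) =
      MvPowerSeries.C (algebraMap k M u) := fun u => MvPolynomial.eval₂Hom_C _ _ u
  have hX : ∀ i, MvPowerSeries.constantCoeff (tay (algebraMap k M) (c.xi (algebraMap k M) x)
      (MvPolynomial.X i)) = c.xi (algebraMap k M) x i := fun i => by
    rw [tay_cc, MvPolynomial.eval₂_X]
  obtain ⟨J, h1, h2, h3⟩ := H _ _ hC (tay_inj _ _) hX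
  choose T hT using fun s : M' ≃ₐ[M] M' => ps_lift (τ := Option σ) (s : M' →+* M')
  obtain ⟨y, hy1, hy2, hy3⟩ := rep_root c.monic
    (ψ := (MvPowerSeries.map (algebraMap M M')).comp _) h1 h2 hθ
  have hfix : ∀ s, r s (algebraMap F' R.E θ) = algebraMap F' R.E θ := fun s => by
    apply J.injective
    rw [h3 s _ (hT s), hy1, hT]
    have e : (s : M' →+* M').comp (algebraMap M M') = algebraMap M M' := RingHom.ext s.commutes
    refine congrArg _ (rep_uniq c.toPChart h0 hD0 (algebraMap M M') hC hX ?_ ?_ hy3 (hy2.trans hJ0))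
    · have := congrArg (MvPowerSeries.map (s : M' →+* M')) hy3
      rwa [Polynomial.hom_eval₂, map_zero, ← RingHom.comp_assoc, ← MvPowerSeries.map_comp, e] at this
    · rw [MvPowerSeries.constantCoeff_map, hy2, hJ0]
      exact s.commutes _
  choose r' hr' using fun s => PChart.FF.over h.ff (r s) (hfix s)
  have hp : ∀ p, (R.c p : R.E) ^ R.m = 1 := fun p => by
    rw [← Units.val_pow_eq_pow_val, R.pow, Units.val_one]
  have hne : ∀ p, J₀ (R.c p) ≠ 0 := fun p u => (R.c p).ne_zero (J.injective (by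
    rw [rep_const h2 R.pos (hp p), u, map_zero, map_zero]))
  have hmul : ∀ s t, r' (s * t) = r' s * r' t := fun s t => AlgEquiv.ext fun z => J.injective (by
    rw [AlgEquiv.mul_apply, hr', hr', hr', h3 s _ (hT s), h3 t _ (hT t)]
    refine h3 (s * t) ((T s).comp (T t)) (fun y => ?_) z
    rw [RingHom.comp_apply, hT, hT]
    rfl)
  refine ⟨M', _, _, ‹_›, ‹_›, r', fun p => Units.mk0 _ (hne (r' p.1, r' p.2)), fun s t u => ?_,
    fun τ _ γ' hg => ?_⟩
  · refine Units.ext ((cC (Option σ) M').injective ?_)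
    have e : ∀ z, cC (Option σ) M' (s z) = T s (cC (Option σ) M' z) := fun z => by
      rw [RingHom.comp_apply, RingHom.comp_apply, hT, MvPowerSeries.map_C]
      rfl
    change cC _ _ (J₀ _ * J₀ _) = cC _ _ (s (J₀ _) * J₀ _)
    simp only [map_mul, e, ← rep_const h2 R.pos (hp _), ← h3 s _ (hT s), ← hr', hmul]
    rw [← map_mul, ← map_mul]
    exact congrArg (fun z : R.Eˣ => J z) (R.coc (r' s) (r' t) (r' u))
  · obtain ⟨ψ, η, g1, g2, g3, g4, g5, g6, g7⟩ := h.germ_chart hg ho.1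
    obtain ⟨J', k1, k2, k3⟩ := H τ ψ g1 g2 g3
    refine ⟨J', fun T hT => ?_, fun s T hT z => by rw [hr', k3 s T hT], fun p => ?_⟩
    · refine RingHom.congr_fun (PChart.FF.ext h.ff (γ := J'.comp (algebraMap F' R.E))
        (γ' := T.comp γ') (fun p => ?_) ?_)
      · rw [RingHom.comp_apply, RingHom.comp_apply T, eF, k1, g4, hT]
      · obtain ⟨y', hy1', hy2', hy3'⟩ := rep_root c.monic
          (ψ := (MvPowerSeries.map (algebraMap M M')).comp ψ) k1 k2 hθ
        rw [RingHom.comp_apply, RingHom.comp_apply T, hy1', g5, hT]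
        refine congrArg _ (rep_uniq c.toPChart h0 hD0 (algebraMap M M') g1 g3 hy3' (hy2'.trans hJ0)
          ?_ ?_)
        · rw [← Polynomial.hom_eval₂, g7, map_zero]
        · rw [MvPowerSeries.constantCoeff_map, g6]
    · exact rep_const k2 R.pos (hp _)

/-- `ps_gal` and `la_pull` twice -/
theorem rep_cls [CharZero F'] {M' τ E : Type} [Field M'] [Algebra M M'] [FiniteDimensional M M']
    [IsGalois M M'] [Field E] [Algebra F' E] [FiniteDimensional F' E] [IsGalois F' E]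
    {cc : (E ≃ₐ[F'] E) × (E ≃ₐ[F'] E) → Eˣ} (hc : IsMulCocycle₂ cc)
    {r : (M' ≃ₐ[M] M') → E ≃ₐ[F'] E} {cb : (M' ≃ₐ[M] M') × (M' ≃ₐ[M] M') → M'ˣ}
    (hb : IsMulCocycle₂ cb) {γ' : F' →+* Fr (MvPowerSeries τ M)} {J : E →+* Fr (MvPowerSeries τ M')}
    (h1 : ∀ T : Fr (MvPowerSeries τ M) →+* Fr (MvPowerSeries τ M'),
      (∀ y : MvPowerSeries τ M, T (algebraMap _ _ y) = algebraMap (MvPowerSeries τ M') _
        (MvPowerSeries.map (algebraMap M M') y)) → ∀ z, J (algebraMap F' E z) = T (γ' z))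
    (h2 : ∀ (s : M' ≃ₐ[M] M') (T : Fr (MvPowerSeries τ M') →+* Fr (MvPowerSeries τ M')),
      (∀ y : MvPowerSeries τ M', T (algebraMap _ _ y) =
        algebraMap _ _ (MvPowerSeries.map (s : M' →+* M') y)) → ∀ z, J (r s z) = T (J z))
    (h3 : ∀ p, J (cc (r p.1, r p.2) : E) = cC τ M' (cb p : M')) :
    rs γ' (cls F' cc) = rs (cC τ M) (cls M cb) := by
  have : CharZero (Fr (MvPowerSeries τ M)) := (RingHom.charZero_iff γ'.injective).1 ‹_›
  have : CharZero M := (cC τ M).charZero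
  obtain ⟨_, _, _, e1, e2⟩ := ps_gal M M' τ
  have a1 := la_pull γ' (j := J) (h1 _ e1) (r := r) (fun s z =>
    h2 s (MulSemiringAction.toRingHom _ _ s) (e2 s) z) hc
  have a2 := la_pull (cC τ M) (j := cC τ M') (r := id) (G := M' ≃ₐ[M] M') (fun u => by
    rw [RingHom.comp_apply, RingHom.comp_apply, e1, MvPowerSeries.map_C]) (fun s z => by
    rw [RingHom.comp_apply, RingHom.comp_apply, e2, MvPowerSeries.map_C]
    rfl) hb
  rw [a1, a2]
  exact congrArg _ (funext fun p => Units.ext (h3 p))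

theorem rep (hZ : ZNP) (h : X.Fld c F' θ γ) (hG : c.GI) {n : ℕ} (hD : c.D ∣ Θ ^ n)
    (R : MuRep Θ F' a) (hx : X.On x) (ho : c.Off Θ (algebraMap k M) x) :
    ∃ β : BR M, ∀ (τ : Type) [Finite τ] (γ' : F' →+* Fr (MvPowerSeries τ M)),
      X.GermT (γ'.comp γ) x → rs γ' a = rs (cC τ M) β := by
  obtain ⟨M', _, _, _, _, r, cb, hb, H⟩ := rep0 hZ h hG hD R hx ho
  have : FiniteDimensional F' R.E := Module.Finite.of_restrictScalars_finite (RF (Option σ) k) _ _
  have : IsGalois F' R.E := IsGalois.tower_top_of_isGalois (RF (Option σ) k) _ _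
  have : CharZero F' := charZero_of_injective_algebraMap (algebraMap k F').injective
  refine ⟨cls M cb, fun τ _ γ' hg => ?_⟩
  obtain ⟨J, h1, h2, h3⟩ := H τ γ' hg
  rw [← R.cls_eq]
  exact rep_cls R.coc hb h1 h2 h3

end Pool.Agent.ZCy
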