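import Pool.Agent.Lib.MP_751085_ag.ZC.L.Need

/-! Adjoining enough roots of unity to split the cocycle on cyclic groups. -/

namespace Pool.Agent.ZCy

open scoped Classical WithZero Polynomial
open groupCohomology

set_option linter.unusedSectionVars false

variable {K ι : Type} [Field K] {Θ : MP ι K} {F : Type} [Field F] [Algebra (RF ι K) F] {a : BR F}

/-- the cocycle splits in roots of unity on every cyclic group that fixes the roots of unity -/
def MuRep.Rich (R : MuRep Θ F a) : Prop :=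
  ∀ n : R.E ≃ₐ[F] R.E, (∀ z : R.E, z ^ R.m = 1 → n z = z) → ∃ e : (R.E ≃ₐ[F] R.E) → R.Eˣ,
    (∀ g, e g ^ R.m = 1) ∧
      ∀ g ∈ Subgroup.zpowers n, ∀ h ∈ Subgroup.zpowers n, R.c (g, h) = dd e (g, h)

/-- trivial action: with `ζ ^ e = ∏ i < e, c (n ^ i, n)` put
`u (n ^ i) = c (1, 1) ζ ^ i / ∏ j < i, c (n ^ j, n)` -/
theorem cyc_split {G B : Type} [Group G] [Finite G] [CommGroup B] (n : G) {c : G × G → B}
    (hc : ∀ g ∈ Subgroup.zpowers n, ∀ h ∈ Subgroup.zpowers n, ∀ j ∈ Subgroup.zpowers n,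
      c (g * h, j) * c (g, h) = c (h, j) * c (g, h * j))
    (hr : ∀ g : ℕ → G × G, ∃ ζ : B, ζ ^ orderOf n = ∏ i ∈ Finset.range (orderOf n), c (g i)) :
    ∃ u : G → B, ∀ g ∈ Subgroup.zpowers n, ∀ h ∈ Subgroup.zpowers n,
      c (g, h) = u h / u (g * h) * u g := by
  obtain ⟨ζ, hζ⟩ := hr fun i => (n ^ i, n)
  have hm : ∀ i : ℕ, n ^ i ∈ Subgroup.zpowers n := fun i =>
    pow_mem (Subgroup.mem_zpowers n) i
  set w : ℕ → B := fun i => ∏ j ∈ Finset.range i, c (n ^ j, n) with hw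
  have hs : ∀ i, w (i + 1) = w i * c (n ^ i, n) := fun i => Finset.prod_range_succ _ _
  have h1 : ∀ i k : ℕ, c (n ^ i, n ^ k) * (w i * w k) = c (1, 1) * w (i + k) := by
    intro i k
    induction k with
    | zero =>
      have h0 := hc _ (hm i) 1 (one_mem _) 1 (one_mem _)
      rw [mul_one, mul_one] at h0
      have h2 : w 0 = 1 := Finset.prod_range_zero _
      rw [pow_zero, mul_right_cancel h0, h2, mul_one, add_zero]
    | succ k ih =>
      have h0 := hc _ (hm i) _ (hm k) _ (Subgroup.mem_zpowers n)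
      rw [← pow_add, ← pow_succ] at h0
      rw [← add_assoc, hs, hs, ← mul_assoc (c (1, 1)), ← ih]
      calc c (n ^ i, n ^ (k + 1)) * (w i * (w k * c (n ^ k, n)))
          = c (n ^ k, n) * c (n ^ i, n ^ (k + 1)) * (w i * w k) := by ac_rfl
        _ = c (n ^ i, n ^ k) * (w i * w k) * c (n ^ (i + k), n) := by rw [← h0]; ac_rfl
  set U : ℕ → B := fun i => c (1, 1) * ζ ^ i / w i with hU
  have hper : Function.Periodic U (orderOf n) := fun i => by
    have h2 : w (i + orderOf n) = ζ ^ orderOf n * w i := by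
      rw [hζ, add_comm]
      simp only [hw, Finset.prod_range_add, pow_add, pow_orderOf_eq_one, one_mul]
    simp only [hU, h2, pow_add]
    rw [div_eq_div_iff_mul_eq_mul]
    ac_rfl
  let u : G → B := fun g => if h : ∃ i : ℕ, n ^ i = g then U h.choose else 1
  have hu : ∀ i : ℕ, u (n ^ i) = U i := fun i => by
    have h : ∃ k : ℕ, n ^ k = n ^ i := ⟨i, rfl⟩
    have h2 : h.choose % orderOf n = i % orderOf n := pow_eq_pow_iff_modEq.1 h.choose_spec
    simp only [u, dif_pos h]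
    rw [← hper.map_mod_nat, h2, hper.map_mod_nat]
  refine ⟨u, fun g hg h hh => ?_⟩
  obtain ⟨i, rfl⟩ := mem_powers_iff_mem_zpowers.2 hg
  obtain ⟨k, rfl⟩ := mem_powers_iff_mem_zpowers.2 hh
  simp only
  rw [← pow_add, hu, hu, hu, eq_div_of_mul_eq' (h1 i k)]
  simp only [hU, pow_add, div_eq_mul_inv, mul_inv_rev, inv_inv]
  apply Additive.ofMul.injective
  simp only [ofMul_mul, ofMul_inv]
  abel

theorem rich_root {E : Type} [Field E] {M e k : ℕ} (hM : M = e * k) (h0 : 0 < M)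
    (hs : (Polynomial.X ^ M - 1 : E[X]).Splits) (x : rootsOfUnity M E) (hx : x ^ k = 1) :
    ∃ ζ : rootsOfUnity M E, ζ ^ e = x := by
  have he : e ≠ 0 := fun h => by rw [h, zero_mul] at hM; omega
  have hx' : ((x : Eˣ) : E) ^ k = 1 := by
    have := congrArg (fun y : rootsOfUnity M E => ((y : Eˣ) : E)) hx
    simpa using this
  have hd : (Polynomial.X ^ e - Polynomial.C ((x : Eˣ) : E) : E[X]) ∣ Polynomial.X ^ M - 1 := by
    have := sub_dvd_pow_sub_pow (Polynomial.X ^ e : E[X]) (Polynomial.C ((x : Eˣ) : E)) k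
    rwa [← pow_mul, ← hM, ← map_pow, hx', map_one] at this
  have hne : (Polynomial.X ^ M - 1 : E[X]) ≠ 0 := by
    simpa using Polynomial.X_pow_sub_C_ne_zero h0 (1 : E)
  obtain ⟨z, hz⟩ := (hs.of_dvd hne hd).exists_eval_eq_zero (by
    rw [Polynomial.degree_X_pow_sub_C (Nat.pos_of_ne_zero he)]
    exact_mod_cast he)
  have hz' : z ^ e = ((x : Eˣ) : E) := by simpa [sub_eq_zero] using hz
  have hz0 : z ≠ 0 := fun h => (x : Eˣ).ne_zero (by rw [← hz', h, zero_pow he])
  refine ⟨⟨Units.mk0 z hz0, ?_⟩, Subtype.ext (Units.ext (by simpa using hz'))⟩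
  rw [mem_rootsOfUnity']
  simp only [Units.val_mk0]
  rw [hM, pow_mul, hz', hx']

theorem rich_core {G G' E E' : Type} [Group G] [Finite G] [Group G'] [Field E] [Field E']
    [MulSemiringAction G E] [MulSemiringAction G' E'] [FaithfulSMul G E] {j : E →+* E'}
    {r : G' → G} (hcm : ∀ g x, j (r g • x) = g • j x) {c : G × G → Eˣ} (hc : IsMulCocycle₂ c)
    {m M : ℕ} (hM : M = m * Nat.card G) (hM0 : 0 < M) (hpm : ∀ p, c p ^ m = 1)
    (hs : (Polynomial.X ^ M - 1 : E'[X]).Splits) (n : G') (hn : ∀ z : E', z ^ M = 1 → n • z = z) :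
    ∃ e : G' → E'ˣ, (∀ g, e g ^ M = 1) ∧
      ∀ g ∈ Subgroup.zpowers n, ∀ h ∈ Subgroup.zpowers n, pull j r c (g, h) = dd e (g, h) := by
  have hp : ∀ p, Units.map (j : E →* E') (c p) ^ m = 1 := fun p => by
    rw [← map_pow, hpm, map_one]
  have hp' : ∀ p, Units.map (j : E →* E') (c p) ^ M = 1 := fun p => by
    rw [hM, pow_mul, hp, one_pow]
  let ρ : G' →* G := ⟨⟨r, lk_one hcm⟩, lk_mul hcm⟩
  have hfix : ∀ g ∈ Subgroup.zpowers n, ∀ y : E'ˣ, y ^ M = 1 → g • y = y := fun g hg y hy => by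
    have h1 : n • y = y := Units.ext (hn _ (by rw [← Units.val_pow_eq_pow_val, hy, Units.val_one]))
    exact (Subgroup.zpowers_le.2 (MulAction.mem_stabilizer_iff.2 h1) hg :
      g ∈ MulAction.stabilizer _ y)
  let c₀ : G × G → rootsOfUnity M E' := fun p => ⟨Units.map (j : E →* E') (c p), hp' p⟩
  have h2 : ∀ g ∈ Subgroup.zpowers (ρ n), ∀ h ∈ Subgroup.zpowers (ρ n),
      ∀ k ∈ Subgroup.zpowers (ρ n), c₀ (g * h, k) * c₀ (g, h) = c₀ (h, k) * c₀ (g, h * k) := by
    intro g hg h _ k _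
    rw [← MonoidHom.map_zpowers] at hg
    obtain ⟨g', hg', rfl⟩ := hg
    refine Subtype.ext ?_
    have h1 := congrArg (Units.map (j : E →* E')) (hc (r g') h k)
    rw [map_mul, map_mul, lk_units hcm, hfix g' hg' _ (hp' _)] at h1
    exact h1
  have h3 : ∀ g : ℕ → G × G, ∃ ζ : rootsOfUnity M E', ζ ^ orderOf (ρ n) =
      ∏ i ∈ Finset.range (orderOf (ρ n)), c₀ (g i) := fun g => by
    obtain ⟨k, hk⟩ := orderOf_dvd_natCard (ρ n)
    refine rich_root (k := m * k) (by rw [hM, hk]; ring) hM0 hs _ ?_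
    rw [pow_mul, ← Finset.prod_pow, Finset.prod_eq_one, one_pow]
    exact fun i _ => Subtype.ext (hp _)
  obtain ⟨u, hu⟩ := cyc_split (ρ n) h2 h3
  refine ⟨fun g => (u (ρ g) : E'ˣ), fun g => (u (ρ g)).2, fun g hg h hh => ?_⟩
  have hz : ∀ x ∈ Subgroup.zpowers n, ρ x ∈ Subgroup.zpowers (ρ n) := fun x hx => by
    rw [← MonoidHom.map_zpowers]
    exact ⟨x, hx, rfl⟩
  have h1 := congrArg Subtype.val (hu _ (hz g hg) _ (hz h hh))
  rw [← map_mul] at h1
  change _ = g • (u (ρ h) : E'ˣ) / (u (ρ (g * h)) : E'ˣ) * (u (ρ g) : E'ˣ)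
  rw [hfix g hg _ (u (ρ h)).2]
  exact h1

/-- enlarge the field by the roots of unity of order `m * |Gal(E/F)|` -/
theorem MuRep.exists_rich [CharZero K] (R : MuRep Θ F a) : ∃ R' : MuRep Θ F a, R'.Rich := by
  have hfin : FiniteDimensional F R.E := Module.Finite.right (RF ι K) F R.E
  have hgal : IsGalois F R.E := IsGalois.tower_top_of_isGalois (RF ι K) F R.E
  have hF : CharZero F := (RingHom.charZero_iff (((algebraMap (RF ι K) F).comp
    (algebraMap (MP ι K) (RF ι K))).comp MvPolynomial.C).injective).1 inferInstance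
  set M := R.m * Nat.card (R.E ≃ₐ[F] R.E) with hM
  have hM0 : 0 < M := Nat.mul_pos R.pos Nat.card_pos
  have hu : IsUnit (M : MP ι K) := by
    rw [← map_natCast (MvPolynomial.C : K →+* MP ι K)]
    exact (Ne.isUnit (Nat.cast_ne_zero.2 hM0.ne')).map _
  obtain ⟨E', i1, i2, i3, i4, j, hU, hs⟩ := lv_enl (K := RF ι K) (E := R.E)
    (algebraMap (MP ι K) (RF ι K)) (Θ := Θ) R.unr (h := Polynomial.X ^ M - 1)
    (α := -Polynomial.C (M : MP ι K)) (β := Polynomial.X) (D := (M : MP ι K)) (r := 0)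
    (by simpa using Polynomial.monic_X_pow_sub_C (1 : MP ι K) hM0.ne') (hu.map _).ne_zero
    (by
      obtain ⟨l, hl⟩ : ∃ l, M = l + 1 := ⟨M - 1, by omega⟩
      rw [hl]
      simp only [Polynomial.derivative_sub, Polynomial.derivative_X_pow, Polynomial.derivative_one,
        Nat.add_sub_cancel]
      ring)
    (by rw [pow_zero]; exact hu.dvd)
  let i5 : Algebra F E' := ((j : R.E →+* E').comp (algebraMap F R.E)).toAlgebra
  have i6 : IsScalarTower (RF ι K) F E' := .of_algebraMap_eq fun x => by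
    change _ = j (algebraMap F R.E (algebraMap (RF ι K) F x))
    rw [← IsScalarTower.algebraMap_apply, j.commutes]
  have hfin' : FiniteDimensional F E' := Module.Finite.right (RF ι K) F E'
  have hgal' : IsGalois F E' := IsGalois.tower_top_of_isGalois (RF ι K) F E'
  obtain ⟨r, hr⟩ := exists_lk_of (K := F) (Ω := R.E) (K' := F) (Ω' := E') (γ := RingHom.id F)
    (j := (j : R.E →+* E')) fun _ => rfl
  have hcm : ∀ (g : E' ≃ₐ[F] E') (x : R.E), (j : R.E →+* E') (r g • x) = g • (j : R.E →+* E') x :=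
    hr.comm
  have hp' : ∀ p, pull (j : R.E →+* E') r R.c p ^ M = 1 := fun p => by
    rw [pull, ← map_pow, hM, pow_mul, R.pow, one_pow, map_one]
  have hcl : cls F (pull (j : R.E →+* E') r R.c) = a := by
    rw [← la_pull (RingHom.id F) hr.base hcm R.coc, R.cls_eq]
    exact la_id a
  have hs' : (Polynomial.X ^ M - 1 : E'[X]).Splits := by simpa using hs
  exact ⟨@MuRep.mk K ι _ Θ F _ _ a E' i1 i2 i5 i6 i3 i4 M (pull (j : R.E →+* E') r R.c) hM0 hU
    (pull_coc hcm R.coc) hp' hcl, fun n hn => rich_core hcm R.coc hM hM0 R.pow hs' n hn⟩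

end Pool.Agent.ZCy
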