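import Pool.Agent.Lib.MP_751085_ag.ZC.L.G7
import Pool.Agent.Lib.MP_751085_ag.ZC.L.Lift
import Pool.Agent.Lib.MP_751085_ag.ZC.L.Rich

/-! The lifted class is unramified along the branch locus. -/

namespace Pool.Agent.ZCy

open scoped Classical WithZero Polynomial
open groupCohomology

set_option linter.unusedSectionVars false

section aux

variable {K E E' Ω A : Type} [Field K] [Field E] [Field E'] [Field Ω] [CommRing A]

theorem vert_unit {φ : A →+* E} {w : Vl E} (h : ∀ a, w (φ a) ≤ 1) {u : A} (hu : IsUnit u) :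
    w (φ u) = 1 := by
  obtain ⟨u', hu'⟩ := hu.exists_right_inv
  have e : w (φ u) * w (φ u') = 1 := by rw [← map_mul, ← map_mul, hu', map_one, map_one]
  refine le_antisymm (h u) ?_
  calc (1 : ℤᵐ⁰) = w (φ u) * w (φ u') := e.symm
    _ ≤ w (φ u) * 1 := mul_le_mul_right (h u') _
    _ = w (φ u) := mul_one _

theorem vert_nat {k ι : Type} [Field k] [CharZero k] {φ : MP ι k →+* E} {w : Vl E}
    (h : ∀ a, w (φ a) ≤ 1) {n : ℕ} (hn : n ≠ 0) : w (n : E) = 1 := by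
  have hu : IsUnit ((MvPolynomial.C (n : k) : MP ι k)) :=
    (IsUnit.mk0 (n : k) (Nat.cast_ne_zero.mpr hn)).map MvPolynomial.C
  have := vert_unit h hu
  rwa [map_natCast, map_natCast] at this

theorem vert_fix [Algebra K E] {w : Vl E} {n : E ≃ₐ[K] E} (hn : n ∈ Ine K w) {m : ℕ} (hm0 : m ≠ 0)
    (hm : w (m : E) = 1) {z : E} (hz : z ^ m = 1) : n z = z := by
  obtain ⟨Ω, _, ρ, hρ⟩ := exists_redL w
  have hz' : n z ^ m = 1 := by rw [← map_pow, hz, map_one]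
  have h1 : w z ≤ 1 := (root_val hm0 hz).le
  have h2 : w (n z) ≤ 1 := (root_val hm0 hz').le
  have e : ρ ⟨n z, h2⟩ = ρ ⟨z, h1⟩ := by
    rw [← sub_eq_zero, ← map_sub]
    exact (hρ _).mpr (hn.2 z h1)
  exact congrArg Subtype.val (hρ.root_inj hm (y := ⟨n z, h2⟩) (y' := ⟨z, h1⟩) hz' hz e)

theorem vert_conj [Algebra K E] {w : Vl E} {g n : E ≃ₐ[K] E} (hg : g ∈ Dec K w)
    (hn : n ∈ Ine K w) : g⁻¹ * n * g ∈ Ine K w := by
  refine ⟨mul_mem (mul_mem (inv_mem hg) hn.1) hg, fun x hx => ?_⟩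
  have e : (g⁻¹ * n * g) x - x = g⁻¹ (n (g x) - g x) := by
    rw [map_sub, AlgEquiv.mul_apply, AlgEquiv.mul_apply, ← AlgEquiv.mul_apply g⁻¹ g x,
      inv_mul_cancel, AlgEquiv.one_apply]
  rw [e, inv_mem hg]
  exact hn.2 _ ((hg x).trans_le hx)

/-- the root of unity `u` reduces to `z` -/
def VRel (w : Vl E) (ρ : w.integer →+* Ω) (j : E' →+* Ω) (m : ℕ) (u : Eˣ) (z : E'ˣ) : Prop :=
  u ^ m = 1 ∧ ∃ y : w.integer, (y : E) = u ∧ ρ y = j z

variable {w : Vl E} {ρ : w.integer →+* Ω} {j : E' →+* Ω} {m : ℕ}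

theorem VRel.mul {u u' : Eˣ} {z z' : E'ˣ} (h : VRel w ρ j m u z) (h' : VRel w ρ j m u' z') :
    VRel w ρ j m (u * u') (z * z') := by
  obtain ⟨h1, y, hy, e⟩ := h
  obtain ⟨h1', y', hy', e'⟩ := h'
  refine ⟨by rw [mul_pow, h1, h1', mul_one], y * y', ?_, ?_⟩
  · rw [Units.val_mul, ← hy, ← hy']
    rfl
  · rw [map_mul, e, e', Units.val_mul, map_mul]

theorem VRel.inv (hm : m ≠ 0) {u : Eˣ} {z : E'ˣ} (h : VRel w ρ j m u z) :
    VRel w ρ j m u⁻¹ z⁻¹ := by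
  obtain ⟨h1, y, hy, e⟩ := h
  have h2 : u⁻¹ ^ m = 1 := by rw [inv_pow, h1, inv_one]
  have h3 : ((u⁻¹ : Eˣ) : E) ^ m = 1 := by rw [← Units.val_pow_eq_pow_val, h2, Units.val_one]
  refine ⟨h2, ⟨(u⁻¹ : Eˣ), (root_val hm h3).le⟩, rfl, ?_⟩
  have h4 : (⟨(u⁻¹ : Eˣ), (root_val hm h3).le⟩ : w.integer) * y = 1 := Subtype.ext (by
    change ((u⁻¹ : Eˣ) : E) * (y : E) = 1
    rw [hy, Units.inv_mul])
  have h5 := congrArg ρ h4
  rw [map_mul, map_one, e] at h5
  rw [Units.val_inv_eq_inv_val z, map_inv₀]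
  exact eq_inv_of_mul_eq_one_left h5

theorem VRel.div (hm : m ≠ 0) {u u' : Eˣ} {z z' : E'ˣ} (h : VRel w ρ j m u z)
    (h' : VRel w ρ j m u' z') : VRel w ρ j m (u / u') (z / z') := by
  rw [div_eq_mul_inv, div_eq_mul_inv]
  exact h.mul (h'.inv hm)

theorem VRel.uniq (hρ : IsRed w ρ) (hm : w (m : E) = 1) {u u' : Eˣ} {z : E'ˣ}
    (h : VRel w ρ j m u z) (h' : VRel w ρ j m u' z) : u = u' := by
  obtain ⟨h1, y, hy, e⟩ := h
  obtain ⟨h1', y', hy', e'⟩ := h'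
  have := hρ.root_inj hm (y := y) (y' := y')
    (by rw [hy, ← Units.val_pow_eq_pow_val, h1, Units.val_one])
    (by rw [hy', ← Units.val_pow_eq_pow_val, h1', Units.val_one]) (e.trans e'.symm)
  exact Units.ext (by rw [← hy, ← hy', this])

end aux

variable {k σ : Type} [Field k] [CharZero k] [Fintype σ] {F' : Type} [Field F']
  [Algebra (RF (Option (Option σ)) k) F'] {FY : Type} [Field FY] [Algebra (RF (Option σ) k) FY]
  {aY : BR FY} {aX : BR F'} {θ : F'} {θY : FY}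

/-- `geo`, `IsRed.transfer`: `W̄ = V ∘ j'` on `R'.E` is trivial on `k`, `π` maps `Dec F' W` to `Dec FY W̄`
and `Ine F' W = ⟨n₀⟩` (`lv_cyclic`) into `Ine FY W̄`. `π n₀` fixes the roots of unity (`root`; inertia
fixes roots of unity). `Rich` splits `R'.c` on `⟨π n₀⟩`, `lr_res` for `W̄`; lift the splitting by
`root`, compare by `IsRed.root_inj` for `w`; `lr_infl`. -/
theorem vert (hL : LE2) (h1 : Z1H) (Λ : LefData k σ) {R' : MuRep (hyp Λ.Θ) FY aY}
    {R : MuRep Λ.Θ F' aX} (T : Lift θ θY R' R) (hR : R'.Rich)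
    (hY : ∀ v : Vl FY, Triv ((toE (MP (Option σ) k) FY).comp MvPolynomial.C) v → Unram v aY)
    {P : MP (Option (Option σ)) k} (hP : Prime P) (hd : P ∣ flp Λ.Θ) {W : Vl R.E}
    (hW : Cen (flpHom (toE (MP (Option (Option σ)) k) R.E)) W P) {v : Vl F'}
    (hv : Over (algebraMap F' R.E) v W) : Unram v aX := by
  have : FiniteDimensional F' R.E := FiniteDimensional.right (RF (Option (Option σ)) k) F' R.E
  have : IsGalois F' R.E := IsGalois.tower_top_of_isGalois (RF (Option (Option σ)) k) F' R.E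
  have : FiniteDimensional FY R'.E := FiniteDimensional.right (RF (Option σ) k) FY R'.E
  have : IsGalois FY R'.E := IsGalois.tower_top_of_isGalois (RF (Option σ) k) FY R'.E
  have : CharZero F' :=
    ((toE (MP (Option (Option σ)) k) F').comp MvPolynomial.C).charZero_iff (RingHom.injective _)
      |>.mp inferInstance
  have : CharZero FY :=
    ((toE (MP (Option σ) k) FY).comp MvPolynomial.C).charZero_iff (RingHom.injective _)
      |>.mp inferInstance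
  have hm0 : R'.m ≠ 0 := R'.pos.ne'
  obtain ⟨Ω₂, _, ρ₂, V, hρ₂, hC, hD, hI⟩ := geo hL h1 Λ R.unr hP hd hW T.cen T.inert
  obtain ⟨j', hj'⟩ := T.red.transfer hρ₂ T.rng
  have hlift : ∀ z : R'.E, ∃ y : T.w.integer, T.ρ y = T.j z := fun z => T.rng ⟨z, rfl⟩
  have hA : ∀ g ∈ Dec F' W, T.π g ∈ Dec FY (V.comap j') := fun g hg z => by
    obtain ⟨y, hy⟩ := hlift z
    obtain ⟨y', e1, e2⟩ := T.eqv g y z hy
    change V (j' (T.π g z)) = V (j' z)
    rw [← hj' y z hy, ← hj' y' _ e2]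
    exact hD (g.restrictScalars _) hg y y' e1
  have hB : ∀ n ∈ Ine F' W, T.π n ∈ Ine FY (V.comap j') := fun n hn => ⟨hA n hn.1, fun z hz => by
    obtain ⟨y, hy⟩ := hlift z
    obtain ⟨y', e1, e2⟩ := T.eqv n y z hy
    change V (j' (T.π n z - z)) < 1
    change V (j' z) ≤ 1 at hz
    rw [← hj' y z hy] at hz
    rw [map_sub, ← hj' y z hy, ← hj' y' _ e2]
    exact hI (n.restrictScalars _) hn y y' e1 hz⟩
  have hk : ∀ a : k, a ≠ 0 →
      V (j' (toE (MP (Option σ) k) R'.E (MvPolynomial.C a))) = 1 := fun a ha => by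
    have e := T.base (MvPolynomial.C a) ⟨_, T.cen.1 (MvPolynomial.C a)⟩ rfl
    have e2 : hyp (MvPolynomial.C a : MP (Option (Option σ)) k) = MvPolynomial.C a :=
      MvPolynomial.eval₂Hom_C _ _ _
    rw [e2] at e
    rw [← hj' _ _ e]
    exact hC a _ ha rfl
  have h0 : ∀ n : ℕ, n ≠ 0 → V.comap j' (n : R'.E) = 1 := fun n hn => by
    have := hk n (Nat.cast_ne_zero.mpr hn)
    rwa [map_natCast, map_natCast] at this
  have hu : Unram ((V.comap j').comap (algebraMap FY R'.E)) (cls FY R'.c) := by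
    rw [R'.cls_eq]
    refine hY _ fun a ha => ?_
    change V (j' (algebraMap FY R'.E (algebraMap (RF (Option σ) k) FY _))) = 1
    rw [← IsScalarTower.algebraMap_apply]
    exact hk a ha
  have hWn : ∀ n : ℕ, n ≠ 0 → W (n : R.E) = 1 := fun n hn => vert_nat hW.1 hn
  have hwm : T.w (R'.m : R.E) = 1 := vert_nat T.cen.1 hm0
  have : IsCyclic (Ine F' W) := lv_cyclic (hWn _ Nat.card_pos.ne')
  obtain ⟨n₀, hn₀⟩ := IsCyclic.exists_generator (α := Ine F' W)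
  have hI1 : ∀ n ∈ Ine F' W, T.π n ∈ Subgroup.zpowers (T.π n₀) := fun n hn => by
    obtain ⟨i, hi⟩ := hn₀ ⟨n, hn⟩
    refine ⟨i, ?_⟩
    have : (n₀ : R.E ≃ₐ[F'] R.E) ^ i = n := congrArg Subtype.val hi
    change T.π n₀ ^ i = _
    rw [← map_zpow, this]
  have hI2 : ∀ i ∈ Subgroup.zpowers (T.π n₀), ∃ n ∈ Ine F' W, T.π n = i := by
    rintro _ ⟨i, rfl⟩
    exact ⟨(n₀ : R.E ≃ₐ[F'] R.E) ^ i, zpow_mem n₀.2 i, map_zpow _ _ _⟩
  have hle : Subgroup.zpowers (T.π n₀) ≤ Ine FY (V.comap j') := fun i hi => by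
    obtain ⟨n, hn, rfl⟩ := hI2 i hi
    exact hB n hn
  obtain ⟨e', he1, he2⟩ := hR (T.π n₀) fun z hz => vert_fix (hB _ n₀.2) hm0 (h0 _ hm0) hz
  have hex : ∀ g : R.E ≃ₐ[F'] R.E, ∃ u : R.Eˣ, VRel T.w T.ρ T.j R'.m u (e' (T.π g)) := fun g => by
    obtain ⟨y, hy, e⟩ := T.root (e' (T.π g))
      (by rw [← Units.val_pow_eq_pow_val, he1, Units.val_one])
    have hy0 : (y : R.E) ≠ 0 := fun h => by
      rw [h, zero_pow hm0] at hy
      exact zero_ne_one hy
    exact ⟨Units.mk0 y hy0, Units.ext (by rw [Units.val_pow_eq_pow_val]; exact hy), y, rfl, e⟩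
  choose e he using hex
  have hpow : ∀ p, R.c p ^ R'.m = 1 := fun p => T.m_eq ▸ R.pow p
  have hc : ∀ g h, VRel T.w T.ρ T.j R'.m (R.c (g, h)) (R'.c (T.π g, T.π h)) := fun g h =>
    ⟨hpow _, T.coc (g, h)⟩
  have hs : ∀ (g : R.E ≃ₐ[F'] R.E) {u z}, VRel T.w T.ρ T.j R'.m u z →
      VRel T.w T.ρ T.j R'.m (g • u) (T.π g • z) := by
    rintro g u z ⟨h1, y, hy, e⟩
    obtain ⟨y', e1, e2⟩ := T.eqv g y z e
    exact ⟨by rw [← smul_pow', h1, smul_one], y', by rw [e1, hy]; rfl, e2⟩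
  rw [← R.cls_eq]
  refine lr_infl hv R.coc (hWn _ hm0) hpow (e := e) (fun g => (he g).1) (fun g hg h hh => ?_)
    fun g hg n hn n' hn' hgn => ?_
  · refine (hc g h).uniq T.red hwm ?_
    rw [he2 _ (hI1 g hg) _ (hI1 h hh)]
    have := ((hs g (he h)).div hm0 (he (g * h))).mul (he g)
    rw [map_mul] at this
    exact this
  · refine ((hc g n').div hm0 (hs g (he n'))).uniq T.red hwm ?_
    rw [lr_res (v := (V.comap j').comap (algebraMap FY R'.E)) (w := V.comap j')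
      (fun _ => Iff.rfl) h0 R'.coc hm0
      R'.pow hu hle he1 he2 (hA g hg) (hI1 n hn) (hI1 n' hn') (by rw [← map_mul, hgn, map_mul])
      fun i hi => by
        obtain ⟨n₁, h₁, rfl⟩ := hI2 i hi
        rw [← map_inv, ← map_mul, ← map_mul]
        exact hI1 _ (vert_conj hg h₁)]
    exact (hc n g).div hm0 (he n)

end Pool.Agent.ZCy
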