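import Pool.Agent.Lib.MP_751085_ag.ZC.L.Ps

/-! Purity at a point, uniformly for all substitutions centred at the point. -/

namespace Pool.Agent.ZCy

open scoped Classical WithZero Polynomial
open groupCohomology

set_option linter.unusedSectionVars false

/-- two embeddings of a normal extension that agree on the base differ by an automorphism -/
theorem zne_norm {K E Ω : Type} [Field K] [Field E] [Field Ω] [Algebra K E] [Normal K E]
    (J J' : E →+* Ω) (h : J'.comp (algebraMap K E) = J.comp (algebraMap K E)) :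
    ∃ g : E ≃ₐ[K] E, ∀ z, J (g z) = J' z := by
  let _ : Algebra E Ω := J.toAlgebra
  let _ : Algebra K Ω := (J.comp (algebraMap K E)).toAlgebra
  have : IsScalarTower K E Ω := IsScalarTower.of_algebraMap_eq fun _ => rfl
  let j : E →ₐ[K] Ω := { J' with commutes' := fun a => DFunLike.congr_fun h a }
  exact ⟨j.restrictNormal' E, fun z => j.restrictNormal_commutes E z⟩

section

variable {A E P : Type} [CommRing A] [Field E] [Algebra A E] [CommRing P] [IsDomain P]

/-- integral elements go to the integrally closed ring `P` -/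
theorem zne_int [IsIntegrallyClosed P] {t : A →+* P} {J : E →+* Fr P}
    (h : ∀ p, J (algebraMap A E p) = algebraMap P _ (t p)) :
    ∃ j : integralClosure A E →+* P, (∀ b, algebraMap P (Fr P) (j b) = J b) ∧
      ∀ p, j (algebraMap A _ p) = t p := by
  have hi := IsFractionRing.injective P (Fr P)
  have h1 : ∀ b : integralClosure A E, ∃ y, algebraMap P (Fr P) y = J b := fun b => by
    obtain ⟨p, hp, h0⟩ := b.2
    refine IsIntegrallyClosed.algebraMap_eq_of_integral ⟨p.map t, hp.map t, ?_⟩
    have e : (algebraMap P (Fr P)).comp t = J.comp (algebraMap A E) :=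
      RingHom.ext fun p => (h p).symm
    rw [Polynomial.eval₂_map, e, ← Polynomial.hom_eval₂, h0, map_zero]
  choose f hf using h1
  refine ⟨⟨⟨⟨f, hi ?_⟩, fun a b => hi ?_⟩, hi ?_, fun a b => hi ?_⟩, hf, fun p => hi ?_⟩
  · rw [hf, map_one, OneMemClass.coe_one, map_one]
  · rw [map_mul, hf, hf, hf, MulMemClass.coe_mul, map_mul]
  · exact (hf 0).trans (by rw [map_zero, ZeroMemClass.coe_zero, map_zero])
  · exact (hf (a + b)).trans (by
      rw [AddMemClass.coe_add, map_add, map_add]; exact (congrArg₂ _ (hf a) (hf b)).symm)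
  · exact (hf _).trans (h p)

/-- a root of the image of a split monic polynomial is the image of a root -/
theorem zne_root {M : Type} [Field M] (c : integralClosure A E →+* M) {χ : A[X]} (hm : χ.Monic)
    (hs : (χ.map (algebraMap A E)).Splits) {z : M}
    (h0 : χ.eval₂ (c.comp (algebraMap A _)) z = 0) :
    ∃ b : integralClosure A E, χ.eval₂ (algebraMap A E) b = 0 ∧ c b = z := by
  have hr : ∀ x ∈ (χ.map (algebraMap A E)).roots, χ.eval₂ (algebraMap A E) x = 0 := fun x hx => by
    rw [Polynomial.eval₂_eq_eval_map]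
    exact Polynomial.isRoot_of_mem_roots hx
  have e := hs.eq_prod_roots_of_monic (hm.map _)
  generalize (χ.map (algebraMap A E)).roots = s at hr e
  lift s to Multiset (integralClosure A E) using fun x hx => ⟨χ, hm, hr x hx⟩
  have e' : χ.map (algebraMap A (integralClosure A E)) =
      (s.map fun b => Polynomial.X - Polynomial.C b).prod := by
    refine Polynomial.map_injective (algebraMap (integralClosure A E) E) Subtype.val_injective ?_
    rw [Polynomial.map_map, ← IsScalarTower.algebraMap_eq, e, Polynomial.map_multiset_prod,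
      Multiset.map_map, Multiset.map_map]
    refine congrArg _ (Multiset.map_congr rfl fun b _ => ?_)
    simp
  rw [← Polynomial.eval₂_map, e', Polynomial.eval₂_multiset_prod, Multiset.map_map,
    Multiset.prod_eq_zero_iff, Multiset.mem_map] at h0
  obtain ⟨b, hb, h1⟩ := h0
  refine ⟨b, hr _ (Multiset.mem_map_of_mem _ hb), ?_⟩
  simp only [Function.comp, Polynomial.eval₂_sub, Polynomial.eval₂_X, Polynomial.eval₂_C] at h1
  exact (sub_eq_zero.1 h1).symm

/-- a map on the integral closure that is injective on the base extends to the field -/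
theorem zne_ext [IsDomain A] [IsFractionRing (integralClosure A E) E]
    (f : integralClosure A E →+* P) (h : Function.Injective (f.comp (algebraMap A _))) :
    ∃ J : E →+* Fr P, ∀ b : integralClosure A E, J b = algebraMap P _ (f b) := by
  have h1 : Function.Injective f := by
    rw [RingHom.injective_iff_ker_eq_bot] at h ⊢
    exact Ideal.eq_bot_of_comap_eq_bot (R := A) (by rw [RingHom.comap_ker]; exact h)
  have h2 : Function.Injective ((algebraMap P (Fr P)).comp f) :=
    (IsFractionRing.injective P (Fr P)).comp h1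
  exact ⟨IsFractionRing.lift h2, fun b => IsFractionRing.lift_algebraMap h2 b⟩

end

/-- `J₀ b` is the constant term of `J b` for the embedding `J` of `ZNP` (integral elements go to
power series, `lv_normal`), composed with an automorphism so that `J₀ θ = θ₀` (the roots of `χ(a, Z)`
are the `J₀` of the conjugates of `θ`). `r s` is defined by `s ∘ J = J ∘ r s`. For `ψ` compose `J` on
integral elements with the substitution `ξ_i - a_i ↦ ψ ξ_i - a_i` (`ps_subst`); this is injective
because a nonzero integral element divides a nonzero polynomial. -/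
theorem zne (hZ : ZNP) {k ι E : Type} [Field k] [CharZero k] [Fintype ι] [Field E]
    [Algebra (RF ι k) E] [FiniteDimensional (RF ι k) E] [IsGalois (RF ι k) E] {Θ : MP ι k}
    (hU : UnrOff (RF ι k) (toE (MP ι k) E) Θ) {M : Type} [Field M] [Algebra k M] {a : ι → M}
    (ha : MvPolynomial.aeval a Θ ≠ 0) {χ : (MP ι k)[X]} (hm : χ.Monic)
    (hi : Irreducible (χ.map (algebraMap (MP ι k) (RF ι k)))) {θ : E}
    (hθ : χ.eval₂ (toE (MP ι k) E) θ = 0) {θ₀ : M} (h0 : ev (algebraMap k M) a θ₀ χ = 0) :
    ∃ (M' : Type) (_ : Field M') (_ : Algebra M M') (_ : FiniteDimensional M M') (_ : IsGalois M M')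
      (J₀ : E → M') (r : (M' ≃ₐ[M] M') → E ≃ₐ[RF ι k] E), J₀ θ = algebraMap M M' θ₀ ∧
      ∀ (τ : Type) [Finite τ] (ψ : MP ι k →+* MvPowerSeries τ M),
        (∀ u, ψ (MvPolynomial.C u) = MvPowerSeries.C (algebraMap k M u)) → Function.Injective ψ →
        (∀ i, MvPowerSeries.constantCoeff (ψ (MvPolynomial.X i)) = a i) →
        ∃ J : E →+* Fr (MvPowerSeries τ M'),
          (∀ p, J (toE _ E p) = algebraMap (MvPowerSeries τ M') _
            (MvPowerSeries.map (algebraMap M M') (ψ p))) ∧
          (∀ b, (toE (MP ι k) E).IsIntegralElem b → ∃ y : MvPowerSeries τ M',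
            J b = algebraMap _ _ y ∧ MvPowerSeries.constantCoeff y = J₀ b) ∧
          ∀ (s : M' ≃ₐ[M] M') (T : Fr (MvPowerSeries τ M') →+* Fr (MvPowerSeries τ M')),
            (∀ y : MvPowerSeries τ M', T (algebraMap _ _ y) =
              algebraMap _ _ (MvPowerSeries.map (s : M' →+* M') y)) → ∀ z, J (r s z) = T (J z) := by
  obtain ⟨M', _, _, _, _, J₁, hJ₁⟩ := hZ k ι E Θ hU M a ha
  let _ : Algebra (MP ι k) E := (toE (MP ι k) E).toAlgebra
  have : IsScalarTower (MP ι k) (RF ι k) E := IsScalarTower.of_algebraMap_eq fun _ => rfl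
  have := integralClosure.isFractionRing_of_finite_extension (A := MP ι k) (RF ι k) E
  have hd : ∀ τ : Type, IsDomain (MvPowerSeries τ M') := fun _ => NoZeroDivisors.to_isDomain _
  have := hd ι
  have := lv_normal M' ι
  let t : MP ι k →+* MvPowerSeries ι M' :=
    (MvPowerSeries.map (algebraMap M M')).comp (tay (algebraMap k M) a)
  have hmin : χ.map (algebraMap (MP ι k) (RF ι k)) = minpoly (RF ι k) θ :=
    minpoly.eq_of_irreducible_of_monic hi (by
      rw [Polynomial.aeval_def, Polynomial.eval₂_map]; exact hθ) (hm.map _)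
  obtain ⟨j₁, hj₁, hj₁'⟩ := zne_int (t := t) (J := J₁) hJ₁
  obtain ⟨b₁, hb₁, hc₁⟩ := zne_root (MvPowerSeries.constantCoeff.comp j₁) hm
    (z := algebraMap M M' θ₀) (by
      have h1 := Normal.splits (inferInstance : Normal (RF ι k) E) θ
      rwa [← hmin, Polynomial.map_map] at h1) (by
      have e : (MvPowerSeries.constantCoeff.comp j₁).comp (algebraMap (MP ι k) _) =
          (algebraMap M M').comp (MvPolynomial.eval₂Hom (algebraMap k M) a) :=
        RingHom.ext fun p => by
          show MvPowerSeries.constantCoeff (j₁ (algebraMap (MP ι k) _ p)) = _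
          rw [hj₁']
          exact (MvPowerSeries.constantCoeff_map _ _).trans (congrArg _ (tay_cc _ _ _))
      rw [e, ← Polynomial.hom_eval₂]
      exact (congrArg _ h0).trans (map_zero _))
  obtain ⟨g, hg⟩ := minpoly.exists_algEquiv_of_root' (K := RF ι k) (x := (b₁ : E)) (y := θ)
    (Algebra.IsAlgebraic.isAlgebraic θ) (by
      rw [← hmin, Polynomial.aeval_def, Polynomial.eval₂_map]; exact hb₁)
  let J : E →+* Fr (MvPowerSeries ι M') := J₁.comp (g : E →+* E)
  have hJ : ∀ p, J (algebraMap (MP ι k) E p) = algebraMap _ _ (t p) := fun p =>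
    (congrArg J₁ (g.commutes _)).trans (hJ₁ p)
  obtain ⟨j, hj, hj'⟩ := zne_int hJ
  have hi' := IsFractionRing.injective (MvPowerSeries ι M') (Fr (MvPowerSeries ι M'))
  have hfix : ∀ (τ : Type) (s : M' ≃ₐ[M] M') (y : MvPowerSeries τ M),
      MvPowerSeries.map (s : M' →+* M') (MvPowerSeries.map (algebraMap M M') y) =
        MvPowerSeries.map (algebraMap M M') y := fun τ s y => by
    rw [← RingHom.comp_apply, ← MvPowerSeries.map_comp]
    exact congrArg (fun φ => MvPowerSeries.map φ y) (RingHom.ext s.commutes)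
  have hint : ∀ (r : E ≃ₐ[RF ι k] E) (b : integralClosure (MP ι k) E),
      r b ∈ integralClosure (MP ι k) E := fun r b => b.2.map (r.restrictScalars (MP ι k))
  have hr : ∀ s : M' ≃ₐ[M] M', ∃ r : E ≃ₐ[RF ι k] E, ∀ b : integralClosure (MP ι k) E,
      j ⟨r b, hint r b⟩ = MvPowerSeries.map (s : M' →+* M') (j b) := fun s => by
    obtain ⟨T, hT⟩ := ps_lift (τ := ι) (s : M' →+* M')
    obtain ⟨r, hr⟩ := zne_norm (K := RF ι k) J (T.comp J)
      (IsLocalization.ringHom_ext (nonZeroDivisors (MP ι k)) (RingHom.ext fun p => by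
        show T (J (algebraMap (MP ι k) E p)) = J (algebraMap (MP ι k) E p)
        rw [hJ, hT]
        exact congrArg _ (hfix ι s _)))
    refine ⟨r, fun b => hi' ?_⟩
    rw [hj, ← hT, hj]
    exact hr b
  choose r hr using hr
  have hθi : θ ∈ integralClosure (MP ι k) E := ⟨χ, hm, hθ⟩
  refine ⟨M', inferInstance, inferInstance, inferInstance, inferInstance,
    fun b => if h : b ∈ integralClosure (MP ι k) E then MvPowerSeries.constantCoeff (j ⟨b, h⟩)
      else 0, r, ?_, fun τ _ ψ hC hψ hX => ?_⟩
  · have e : j ⟨θ, hθi⟩ = j₁ b₁ := hi' (by rw [hj, hj₁, ← hg]; rfl)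
    simp only [dif_pos hθi]
    rw [e]
    exact hc₁
  have := hd τ
  obtain ⟨S, hS1, hS2, hS3, hS4⟩ := ps_subst (M := M') (fun i => MvPowerSeries.map
    (algebraMap M M') (ψ (MvPolynomial.X i) - MvPowerSeries.C (a i))) fun i => by
      rw [MvPowerSeries.constantCoeff_map, map_sub, hX, MvPowerSeries.constantCoeff_C, sub_self,
        map_zero]
  have e : (S.comp j).comp (algebraMap (MP ι k) _) =
      (MvPowerSeries.map (algebraMap M M')).comp ψ := by
    have e1 : (S.comp j).comp (algebraMap (MP ι k) _) = S.comp t :=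
      RingHom.ext fun p => congrArg S (hj' p)
    rw [e1]
    refine MvPolynomial.ringHom_ext (fun u => ?_) fun i => ?_
    · simp [t, tay, hS1, hC]
    · simp [t, tay, hS1, hS2]
  obtain ⟨J', hJ'⟩ := zne_ext (S.comp j) (by
    rw [e]; exact (ps_map_inj (algebraMap M M')).comp hψ)
  refine ⟨J', fun p => ?_, fun b hb => ⟨S (j ⟨b, hb⟩), hJ' ⟨b, hb⟩, ?_⟩, fun s T hT z => ?_⟩
  · exact (hJ' (algebraMap (MP ι k) _ p)).trans (congrArg _ (DFunLike.congr_fun e p))
  · have hb' : b ∈ integralClosure (MP ι k) E := hb
    simp only [dif_pos hb']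
    exact hS3 _
  · have h1 : J'.comp (r s : E →+* E) = T.comp J' :=
      IsLocalization.ringHom_ext (nonZeroDivisors (integralClosure (MP ι k) E))
        (RingHom.ext fun b => by
          show J' (⟨r s b, hint _ b⟩ : integralClosure (MP ι k) E) = T (J' b)
          rw [hJ', hJ', hT, RingHom.comp_apply, RingHom.comp_apply, hr,
            hS4 _ fun i => hfix τ s _])
    exact DFunLike.congr_fun h1 z

end Pool.Agent.ZCy
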